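import Mathlib

set_option autoImplicit false

/-! # A homomorphism to the integers which separates finitely many elements -/

namespace Pool.Agent.TH717.GO

theorem exists_functional {ι : Type} [Fintype ι] (T : Finset (ι → ℤ)) (hT : ∀ t ∈ T, t ≠ 0) :
    ∃ c : ι → ℤ, ∀ t ∈ T, ∑ i, c i * t i ≠ 0 := by
  classical
  let P : (ι → ℤ) → MvPolynomial ι ℤ := fun t => ∑ i, MvPolynomial.C (t i) * MvPolynomial.X i
  have hP : ∀ t ∈ T, P t ≠ 0 := by
    intro t ht h0
    apply hT t ht
    funext j
    have h1 := congrArg (MvPolynomial.eval (fun i => if i = j then (1 : ℤ) else 0)) h0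
    simpa [P] using h1
  have hprod : ∏ t ∈ T, P t ≠ 0 := Finset.prod_ne_zero_iff.2 hP
  have hex : ∃ c : ι → ℤ, MvPolynomial.eval c (∏ t ∈ T, P t) ≠ 0 := by
    by_contra hcon
    push Not at hcon
    apply hprod
    apply MvPolynomial.funext
    intro c
    rw [hcon c, map_zero]
  obtain ⟨c, hc⟩ := hex
  refine ⟨c, fun t ht h0 => hc ?_⟩
  rw [map_prod]
  refine Finset.prod_eq_zero ht ?_
  simp only [P, map_sum, map_mul, MvPolynomial.eval_C, MvPolynomial.eval_X]
  rw [← h0]
  exact Finset.sum_congr rfl fun i _ => mul_comm _ _

theorem exists_beta {G : Type} [CommGroup G] (hfg : Group.FG G)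
    (htf : ∀ (g : G) (n : ℕ), 0 < n → g ^ n = 1 → g = 1) (S : Finset G) :
    ∃ β : G →* Multiplicative ℤ, Set.InjOn β (S : Set G) := by
  classical
  have h1 : IsAddTorsionFree (Additive G) := by
    constructor
    intro n hn a b hab
    have h2 : (Additive.toMul a / Additive.toMul b) ^ n = 1 := by
      rw [div_pow, div_eq_one]
      exact hab
    have h3 := htf _ n (Nat.pos_of_ne_zero hn) h2
    exact Additive.toMul.injective (div_eq_one.1 h3)
  have h4 : Module.Finite ℤ (Additive G) := by
    rw [Module.Finite.iff_addGroup_fg]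
    exact GroupFG.iff_add_fg.1 hfg
  have h5 : Module.Free ℤ (Additive G) := Module.free_of_finite_type_torsion_free'
  let b := Module.Free.chooseBasis ℤ (Additive G)
  let coord : G → (Module.Free.ChooseBasisIndex ℤ (Additive G) → ℤ) := fun g i =>
    b.repr (Additive.ofMul g) i
  have hcoord : ∀ g g' : G, coord g = coord g' → g = g' := by
    intro g g' h
    have h6 : b.repr (Additive.ofMul g) = b.repr (Additive.ofMul g') :=
      Finsupp.ext fun i => congrFun h i
    exact Additive.ofMul.injective (b.repr.injective h6)
  let T : Finset (Module.Free.ChooseBasisIndex ℤ (Additive G) → ℤ) :=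
    ((S ×ˢ S).filter fun q => q.1 ≠ q.2).image fun q => coord q.1 - coord q.2
  obtain ⟨c, hc⟩ := exists_functional T (by
    intro t ht h0
    obtain ⟨q, hq, rfl⟩ := Finset.mem_image.1 ht
    exact (Finset.mem_filter.1 hq).2 (hcoord _ _ (sub_eq_zero.1 h0)))
  refine ⟨{ toFun := fun g => Multiplicative.ofAdd (∑ i, c i * coord g i)
            map_one' := by
              have : coord 1 = 0 := by
                funext i
                simp [coord]
              rw [this]
              simp
            map_mul' := fun g g' => by
              have : coord (g * g') = coord g + coord g' := by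
                funext i
                simp [coord]
              rw [this, ← ofAdd_add, ← Finset.sum_add_distrib]
              congr 1
              exact Finset.sum_congr rfl fun i _ => by rw [Pi.add_apply, mul_add] }, ?_⟩
  intro g hg g' hg' heq
  by_contra hne
  apply hc (coord g - coord g')
    (Finset.mem_image.2 ⟨(g, g'), Finset.mem_filter.2 ⟨Finset.mem_product.2 ⟨hg, hg'⟩, hne⟩, rfl⟩)
  have h7 : ∑ i, c i * coord g i = ∑ i, c i * coord g' i := Multiplicative.ofAdd.injective heq
  simp only [Pi.sub_apply, mul_sub]
  rw [Finset.sum_sub_distrib, h7, sub_self]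

end Pool.Agent.TH717.GO
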