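import Mathlib
import Pool.Agent.H533R3.SL.Asm

set_option autoImplicit false

/-! # Polynomial curves with few exponents on a variety that is not uniruled -/

namespace Pool.Agent.TH717.GO

open Polynomial Pool.Agent.H533R3.SL

variable {n : ℕ}

theorem exists_degree {k : Type} [Field k] (FF : Finset (MvPolynomial (Fin (n + 1)) k))
    (hhom : ∀ F ∈ FF, ∃ e, F.IsHomogeneous e) :
    ∃ d, 1 ≤ d ∧ ∀ F ∈ FF, ∃ e, e ≤ d ∧ F.IsHomogeneous e := by
  classical
  choose! e he using hhom
  refine ⟨FF.sup e + 1, by omega, fun F hF => ⟨e F, ?_, he F hF⟩⟩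
  exact (Finset.le_sup hF).trans (Nat.le_succ _)

/-- a vector of polynomials with few exponents is a sparse curve -/
theorem exists_cur {L : Type} [Field L] (p : Fin (n + 1) → Polynomial L) (S : Finset ℕ)
    (hS : ∀ i, (p i).support ⊆ S) (R : ℕ) (hR : S.card ≤ R) :
    ∃ (c : Fin R → Fin (n + 1) → L) (l : Fin R → ℕ), ∀ i, cur c l i = p i := by
  classical
  obtain ⟨e⟩ : Nonempty (S ↪ Fin R) := Function.Embedding.nonempty_of_card_le (by simpa using hR)
  let l : Fin R → ℕ := fun j => if h : ∃ s : S, e s = j then (h.choose : ℕ) else 0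
  let c : Fin R → Fin (n + 1) → L := fun j i =>
    if ∃ s : S, e s = j then (p i).coeff (l j) else 0
  refine ⟨c, l, fun i => ?_⟩
  have hl : ∀ s : S, l (e s) = s := by
    intro s
    have hex : ∃ s' : S, e s' = e s := ⟨s, rfl⟩
    simp only [l, dif_pos hex]
    rw [e.injective hex.choose_spec]
  have hc : ∀ s : S, c (e s) i = (p i).coeff s := by
    intro s
    have hex : ∃ s' : S, e s' = e s := ⟨s, rfl⟩
    simp only [c, if_pos hex]
    rw [hl s]
  unfold cur
  have h1 : ∑ s : S, Polynomial.C ((p i).coeff s) * Polynomial.X ^ (s : ℕ) =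
      ∑ j : Fin R, Polynomial.C (c j i) * Polynomial.X ^ (l j) := by
    refine Fintype.sum_of_injective e e.injective _ _ (fun j hj => ?_) (fun s => ?_)
    · have : ¬ ∃ s : S, e s = j := fun ⟨s, hs⟩ => hj ⟨s, hs⟩
      simp only [c, if_neg this]
      simp
    · rw [hc, hl]
  rw [← h1]
  have h2 : ∑ s : S, Polynomial.C ((p i).coeff s) * Polynomial.X ^ (s : ℕ) =
      ∑ s ∈ S, Polynomial.C ((p i).coeff s) * Polynomial.X ^ s :=
    Finset.sum_coe_sort S (fun s => Polynomial.C ((p i).coeff s) * Polynomial.X ^ s)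
  rw [h2]
  conv_rhs => rw [(p i).as_sum_support_C_mul_X_pow]
  exact (Finset.sum_subset (hS i) fun s _ hs => by
    rw [Polynomial.notMem_support_iff.1 hs]; simp).symm

/-- all the nonconstant curves with at most `R` exponents lie in one hypersurface -/
theorem hyper_poly {k : Type} [Field k] (FF : Finset (MvPolynomial (Fin (n + 1)) k))
    (hprime : (Ideal.span (FF : Set (MvPolynomial (Fin (n + 1)) k))).IsPrime)
    (hnu : ¬ Uniruled (Ideal.span (FF : Set (MvPolynomial (Fin (n + 1)) k))))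
    (hhom : ∀ F ∈ FF, ∃ e, F.IsHomogeneous e) (R : ℕ) :
    ∃ G : MvPolynomial (Fin (n + 1)) k, (∃ e, G.IsHomogeneous e) ∧
      G ∉ Ideal.span (FF : Set (MvPolynomial (Fin (n + 1)) k)) ∧
      ∀ (L : Type) [Field L] [Algebra k L] (p : Fin (n + 1) → Polynomial L) (S : Finset ℕ),
        S.card ≤ R → (∀ i, (p i).support ⊆ S) → (∀ F ∈ FF, MvPolynomial.aeval p F = 0) →
        MvPolynomial.aeval (fun i => (p i).eval 1) G ≠ 0 →
        ∀ i i', p i * Polynomial.C ((p i').eval 1) = p i' * Polynomial.C ((p i).eval 1) := by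
  obtain ⟨d, hd, hFF⟩ := exists_degree FF hhom
  obtain ⟨G, hG1, hG2, hG3⟩ := exists_hyper (FF : Set (MvPolynomial (Fin (n + 1)) k)) hprime hnu
    d hd hFF R
  refine ⟨G, hG1, hG2, ?_⟩
  intro L _ _ p S hSR hS hF hG i i'
  by_contra hne
  obtain ⟨c, l, hc⟩ := exists_cur p S hS R hSR
  have hp : cur c l = p := funext hc
  have he : ∀ i, ∑ j, c j i = (p i).eval 1 := fun i => by rw [← hc i, cur_eval_one]
  apply hG
  have h1 := hG3 L c l (by rw [hp]; exact hF) ⟨i, i', by rw [he, he, hp]; exact hne⟩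
  simp only [he] at h1
  exact h1

end Pool.Agent.TH717.GO
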