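import Mathlib

set_option autoImplicit false

/-! # Exponential polynomials: the group ring of the roots over the polynomials -/

namespace Pool.Agent.TH717.GO

open Polynomial

variable {L : Type} [Field L]

/-- the shift on sequences -/
def sh (L : Type) [Field L] : Module.End L (ℕ → L) where
  toFun f m := f (m + 1)
  map_add' _ _ := rfl
  map_smul' _ _ := rfl

theorem degree_taylor_sub_lt (P : Polynomial L) (hP : P ≠ 0) :
    (taylor 1 P - P).degree < P.degree := by
  have h := Polynomial.degree_sub_lt_left (p := taylor 1 P) (q := P) (degree_taylor P 1)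
    (by rwa [Ne, taylor_eq_zero]) (leadingCoeff_taylor (1 : L) P)
  rwa [degree_taylor] at h

theorem sh_pow_zero (μ : L) : ∀ (d : ℕ) (P : Polynomial L), P.degree < d →
    ((sh L - μ • (1 : Module.End L (ℕ → L))) ^ d) (fun m : ℕ => P.eval (m : L) * μ ^ m) = 0 := by
  intro d
  induction d with
  | zero =>
    intro P hP
    have h0 : P = 0 := by
      by_contra h
      have := Polynomial.zero_le_degree_iff.2 h
      exact absurd (lt_of_le_of_lt this hP) (by simp)
    subst h0
    funext m
    simp
  | succ d ih =>
    intro P hP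
    rw [pow_succ, Module.End.mul_apply]
    have h1 : (sh L - μ • (1 : Module.End L (ℕ → L))) (fun m : ℕ => P.eval (m : L) * μ ^ m) =
        fun m : ℕ => (Polynomial.C μ * (taylor 1 P - P)).eval (m : L) * μ ^ m := by
      funext m
      show P.eval ((m + 1 : ℕ) : L) * μ ^ (m + 1) - μ * (P.eval (m : L) * μ ^ m) = _
      rw [eval_mul, eval_C, eval_sub, taylor_eval]
      push_cast
      ring
    rw [h1]
    apply ih
    by_cases hP0 : P = 0
    · subst hP0
      simp
    · have h2 := degree_taylor_sub_lt P hP0
      calc (Polynomial.C μ * (taylor 1 P - P)).degree ≤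
          (Polynomial.C μ).degree + (taylor 1 P - P).degree := degree_mul_le _ _
        _ ≤ 0 + (taylor 1 P - P).degree := by gcongr; exact degree_C_le
        _ = (taylor 1 P - P).degree := zero_add _
        _ < d := by
          have h3 : P.degree ≤ d := by
            have := hP
            rw [Polynomial.degree_eq_natDegree hP0] at this ⊢
            have h4 : P.natDegree < d + 1 := by exact_mod_cast this
            exact_mod_cast Nat.lt_succ_iff.1 h4
          exact lt_of_lt_of_le h2 h3

theorem mem_gen (μ : L) (P : Polynomial L) :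
    (fun m : ℕ => P.eval (m : L) * μ ^ m) ∈ (sh L).maxGenEigenspace μ := by
  rw [Module.End.mem_maxGenEigenspace]
  refine ⟨P.natDegree + 1, sh_pow_zero μ _ P ?_⟩
  calc P.degree ≤ P.natDegree := degree_le_natDegree
    _ < ((P.natDegree + 1 : ℕ) : WithBot ℕ) := by exact_mod_cast Nat.lt_succ_self _

variable (Λ : Subgroup Lˣ)

/-- exponential polynomials with roots in `Λ` -/
abbrev EP : Type := MonoidAlgebra (Polynomial L) Λ

/-- the sequence given by an exponential polynomial -/
noncomputable def ev : EP Λ →+* (ℕ → L) :=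
  MonoidAlgebra.liftNCRingHom
    (RingHom.pi fun m : ℕ => (evalRingHom (m : L) : Polynomial L →+* L))
    { toFun := fun μ m => ((μ : Lˣ) : L) ^ m
      map_one' := by funext m; simp
      map_mul' := fun a b => by funext m; simp [mul_pow] }
    (fun x y => Commute.all _ _)

theorem ev_single (μ : Λ) (P : Polynomial L) (m : ℕ) :
    ev Λ (MonoidAlgebra.single μ P) m = P.eval (m : L) * ((μ : Lˣ) : L) ^ m := by
  unfold ev
  rw [MonoidAlgebra.liftNCRingHom_single]
  rfl

theorem ev_eq_sum (z : EP Λ) :
    ev Λ z = ∑ μ ∈ z.coeff.support,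
      fun m : ℕ => (z.coeff μ).eval (m : L) * ((μ : Lˣ) : L) ^ m := by
  conv_lhs => rw [← MonoidAlgebra.sum_coeff_single z]
  rw [Finsupp.sum, map_sum]
  refine Finset.sum_congr rfl fun μ _ => ?_
  funext m
  exact ev_single Λ μ _ m

/-- **Exponential polynomials are determined by their values.** -/
theorem ev_injective [CharZero L] : Function.Injective (ev Λ) := by
  rw [injective_iff_map_eq_zero]
  intro z hz
  rw [ev_eq_sum] at hz
  have hind := (iSupIndep_iff_finsetSum_eq_zero_imp_eq_zero _).1
    ((sh L).independent_maxGenEigenspace)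
  have hinj : Function.Injective (fun μ : Λ => ((μ : Lˣ) : L)) := fun a b h =>
    Subtype.ext (Units.ext h)
  have h1 : ∀ μ ∈ z.coeff.support,
      (fun m : ℕ => (z.coeff μ).eval (m : L) * ((μ : Lˣ) : L) ^ m) = 0 := by
    classical
    intro μ hμ
    let v : L → (ℕ → L) := fun a => if h : ∃ ν ∈ z.coeff.support, ((ν : Lˣ) : L) = a then
      (fun m : ℕ => (z.coeff h.choose).eval (m : L) * a ^ m) else 0
    have hv : ∀ ν ∈ z.coeff.support, v ((ν : Lˣ) : L) =
        fun m : ℕ => (z.coeff ν).eval (m : L) * ((ν : Lˣ) : L) ^ m := by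
      intro ν hν
      have hex : ∃ ν' ∈ z.coeff.support, ((ν' : Lˣ) : L) = ((ν : Lˣ) : L) := ⟨ν, hν, rfl⟩
      have h2 : hex.choose = ν := hinj hex.choose_spec.2
      simp only [v, dif_pos hex]
      rw [h2]
    have h3 := hind (z.coeff.support.image fun ν : Λ => ((ν : Lˣ) : L)) v (by
      intro a ha
      obtain ⟨ν, hν, rfl⟩ := Finset.mem_image.1 ha
      rw [hv ν hν]
      exact mem_gen _ _) (by
      rw [Finset.sum_image (fun a _ b _ h => hinj h), Finset.sum_congr rfl hv]
      exact hz) _ (Finset.mem_image_of_mem _ hμ)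
    rwa [hv μ hμ] at h3
  rw [← MonoidAlgebra.coeff_eq_zero]
  ext1 μ
  by_contra hne
  have hμ : μ ∈ z.coeff.support := Finsupp.mem_support_iff.2 hne
  have h2 := h1 μ hμ
  apply hne
  refine Polynomial.funext fun x => ?_
  have h3 : z.coeff μ = 0 := by
    refine Polynomial.eq_zero_of_infinite_isRoot _ ?_
    refine Set.Infinite.mono ?_ (Set.infinite_range_of_injective (Nat.cast_injective (R := L)))
    rintro _ ⟨m, rfl⟩
    have h4 := congrFun h2 m
    have h5 : (z.coeff μ).eval (m : L) * ((μ : Lˣ) : L) ^ m = 0 := h4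
    rcases mul_eq_zero.1 h5 with h | h
    · exact h
    · exact absurd h (pow_ne_zero _ (Units.ne_zero _))
  rw [h3]
  rfl

end Pool.Agent.TH717.GO
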