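import Mathlib
import Pool.Agent.TH717.GO.Ind
import Pool.Agent.TH717.GO.Hyp

set_option autoImplicit false

/-! # Exponential polynomials on a variety that is not uniruled -/

namespace Pool.Agent.TH717.GO

open Polynomial Pool.Agent.H533R3.SL

variable {L : Type} [Field L]

/-- `T ↦ T - 1` on polynomials -/
noncomputable def dn (L : Type) [Field L] : Polynomial L →+* Polynomial L :=
  Polynomial.compRingHom (X + C (-1))

theorem dn_eq (P : Polynomial L) : dn L P = taylor (-1) P := by
  rw [taylor_apply]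
  rfl

theorem dn_eval_one (P : Polynomial L) : (dn L P).eval 1 = P.eval 0 := by
  rw [dn_eq, taylor_eval]
  simp

theorem dn_eq_zero {P : Polynomial L} (h : dn L P = 0) : P = 0 := by
  rw [dn_eq, taylor_eq_zero] at h
  exact h

theorem dn_degree (P : Polynomial L) : (dn L P).degree = P.degree := by
  rw [dn_eq, degree_taylor]

/-- the polynomial curve attached to coefficients `a` and exponents `b` -/
noncomputable def crv {ι : Type} (S : Finset ι) (b : ι → ℕ) (a : ι → Polynomial L) :
    Polynomial L :=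
  ∑ μ ∈ S, dn L (a μ) * X ^ (b μ)

theorem crv_eval_one {ι : Type} (S : Finset ι) (b : ι → ℕ) (a : ι → Polynomial L) :
    (crv S b a).eval 1 = ∑ μ ∈ S, (a μ).eval 0 := by
  unfold crv
  rw [eval_finsetSum]
  refine Finset.sum_congr rfl fun μ _ => ?_
  rw [eval_mul, dn_eval_one, eval_pow, eval_X, one_pow, mul_one]

theorem crv_support {ι : Type} [DecidableEq ι] (S : Finset ι) (b : ι → ℕ) (r : ℕ) :
    ∃ T : Finset ℕ, T.card ≤ S.card * r ∧ ∀ a : ι → Polynomial L, (∀ μ ∈ S, (a μ).degree < r) →
      (crv S b a).support ⊆ T := by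
  classical
  refine ⟨S.biUnion fun μ => (Finset.range r).image fun j => j + b μ, ?_, ?_⟩
  · refine Finset.card_biUnion_le.trans ?_
    calc ∑ μ ∈ S, ((Finset.range r).image fun j => j + b μ).card ≤ ∑ _μ ∈ S, r :=
          Finset.sum_le_sum fun μ _ => Finset.card_image_le.trans (by simp)
      _ = S.card * r := by simp
  · intro a ha t ht
    rw [Polynomial.mem_support_iff] at ht
    unfold crv at ht
    rw [Polynomial.finsetSum_coeff] at ht
    obtain ⟨μ, hμ, hne⟩ := Finset.exists_ne_zero_of_sum_ne_zero ht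
    rw [Polynomial.coeff_mul_X_pow'] at hne
    split_ifs at hne with hb
    · refine Finset.mem_biUnion.2 ⟨μ, hμ, Finset.mem_image.2 ⟨t - b μ, ?_, by omega⟩⟩
      rw [Finset.mem_range]
      by_contra hlt
      push Not at hlt
      apply hne
      apply Polynomial.coeff_eq_zero_of_degree_lt
      rw [dn_degree]
      exact lt_of_lt_of_le (ha μ hμ) (by exact_mod_cast hlt)
    · exact absurd rfl hne

theorem crv_sep {ι : Type} (S : Finset ι) (b : ι → ℕ) (r : ℕ)
    (hb : ∀ μ ∈ S, ∀ ν ∈ S, μ ≠ ν → b μ + r ≤ b ν ∨ b ν + r ≤ b μ)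
    (a : ι → Polynomial L) (ha : ∀ μ ∈ S, (a μ).degree < r) (h : crv S b a = 0) :
    ∀ μ ∈ S, a μ = 0 := by
  intro μ hμ
  apply dn_eq_zero
  ext j
  rw [coeff_zero]
  by_cases hj : j < r
  · have h1 : (crv S b a).coeff (j + b μ) = 0 := by rw [h, coeff_zero]
    unfold crv at h1
    rw [Polynomial.finsetSum_coeff, Finset.sum_eq_single μ] at h1
    · rwa [Polynomial.coeff_mul_X_pow] at h1
    · intro ν hν hne
      rw [Polynomial.coeff_mul_X_pow']
      split_ifs with hle
      · apply Polynomial.coeff_eq_zero_of_degree_lt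
        rw [dn_degree]
        refine lt_of_lt_of_le (ha ν hν) ?_
        have : r ≤ j + b μ - b ν := by
          rcases hb μ hμ ν hν hne.symm with h2 | h2 <;> omega
        exact_mod_cast this
      · rfl
    · intro h2
      exact absurd hμ h2
  · apply Polynomial.coeff_eq_zero_of_degree_lt
    rw [dn_degree]
    exact lt_of_lt_of_le (ha μ hμ) (by exact_mod_cast not_lt.1 hj)

theorem eval₂_scale {k A : Type} [Field k] [CommRing A] {n : ℕ} (f : k →+* A) (c : A)
    (w : Fin (n + 1) → A) (F : MvPolynomial (Fin (n + 1)) k) (e : ℕ) (hF : F.IsHomogeneous e) :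
    MvPolynomial.eval₂ f (fun i => c * w i) F = c ^ e * MvPolynomial.eval₂ f w F := by
  rw [MvPolynomial.eval₂_eq', MvPolynomial.eval₂_eq', Finset.mul_sum]
  refine Finset.sum_congr rfl fun α hα => ?_
  have h1 : ∑ i, α i = e := by
    have h2 := hF (MvPolynomial.mem_support_iff.1 hα)
    rw [Finsupp.weight_apply, Finsupp.sum_fintype _ _ (by simp)] at h2
    simpa using h2
  have h3 : ∏ i, (c * w i) ^ α i = c ^ e * ∏ i, w i ^ α i := by
    rw [← h1, ← Finset.prod_pow_eq_pow_sum, ← Finset.prod_mul_distrib]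
    exact Finset.prod_congr rfl fun i _ => mul_pow _ _ _
  rw [h3]
  ring

variable (Λ : Subgroup Lˣ)

/-- an exponential polynomial with roots in the finite set `S` -/
noncomputable def mk (S : Finset Λ) (a : Λ → Polynomial L) : EP Λ :=
  ∑ μ ∈ S, MonoidAlgebra.single μ (a μ)

theorem ev_mk (S : Finset Λ) (a : Λ → Polynomial L) (m : ℕ) :
    ev Λ (mk Λ S a) m = ∑ μ ∈ S, (a μ).eval (m : L) * ((μ : Lˣ) : L) ^ m := by
  unfold mk
  rw [map_sum, Finset.sum_apply]
  exact Finset.sum_congr rfl fun μ _ => ev_single Λ μ _ m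

/-- substitution of a power of `T` for each root and of `T - 1` for the variable -/
noncomputable def phi (β : Λ →* Multiplicative ℤ) : EP Λ →+* RatFunc L :=
  MonoidAlgebra.liftNCRingHom ((algebraMap (Polynomial L) (RatFunc L)).comp (dn L))
    { toFun := fun μ => (RatFunc.X : RatFunc L) ^ (Multiplicative.toAdd (β μ))
      map_one' := by simp
      map_mul' := fun a b => by
        rw [map_mul, toAdd_mul, zpow_add₀ RatFunc.X_ne_zero] }
    (fun x y => Commute.all _ _)

theorem phi_single (β : Λ →* Multiplicative ℤ) (μ : Λ) (P : Polynomial L) :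
    phi Λ β (MonoidAlgebra.single μ P) = algebraMap (Polynomial L) (RatFunc L) (dn L P) *
      RatFunc.X ^ (Multiplicative.toAdd (β μ)) := by
  unfold phi
  rw [MonoidAlgebra.liftNCRingHom_single]
  rfl

theorem phi_mk (β : Λ →* Multiplicative ℤ) (B : ℕ) (S : Finset Λ)
    (hB : ∀ μ ∈ S, 0 ≤ Multiplicative.toAdd (β μ) + (B : ℤ)) (a : Λ → Polynomial L) :
    algebraMap (Polynomial L) (RatFunc L)
      (crv S (fun μ => (Multiplicative.toAdd (β μ) + (B : ℤ)).toNat) a) =
      RatFunc.X ^ B * phi Λ β (mk Λ S a) := by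
  unfold crv mk
  rw [map_sum, map_sum, Finset.mul_sum]
  refine Finset.sum_congr rfl fun μ hμ => ?_
  rw [phi_single, map_mul, map_pow, RatFunc.algebraMap_X]
  have h1 : (RatFunc.X : RatFunc L) ^ (Multiplicative.toAdd (β μ) + (B : ℤ)).toNat =
      RatFunc.X ^ (Multiplicative.toAdd (β μ)) * RatFunc.X ^ B := by
    rw [← zpow_natCast, Int.toNat_of_nonneg (hB μ hμ), zpow_add₀ RatFunc.X_ne_zero, zpow_natCast]
  rw [h1]
  ring

/-- vanishing along the sequence implies vanishing along the curve -/
theorem aeval_crv {k : Type} [Field k] [CharZero L] [Algebra k L] {n : ℕ}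
    (β : Λ →* Multiplicative ℤ) (B : ℕ) (S : Finset Λ)
    (hB : ∀ μ ∈ S, 0 ≤ Multiplicative.toAdd (β μ) + (B : ℤ)) (a : Fin (n + 1) → Λ → Polynomial L)
    (F : MvPolynomial (Fin (n + 1)) k) (hF : ∃ e, F.IsHomogeneous e)
    (h : ∀ m, MvPolynomial.aeval (fun i => ev Λ (mk Λ S (a i)) m) F = 0) :
    MvPolynomial.aeval (fun i =>
      crv S (fun μ => (Multiplicative.toAdd (β μ) + (B : ℤ)).toNat) (a i)) F = 0 := by
  obtain ⟨e, he⟩ := hF
  let f : k →+* EP Λ := (MonoidAlgebra.singleOneRingHom (R := Polynomial L) (M := Λ)).comp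
    (algebraMap k (Polynomial L))
  have h0 : MvPolynomial.eval₂ f (fun i => mk Λ S (a i)) F = 0 := by
    apply ev_injective Λ
    rw [map_zero]
    funext m
    have h1 := h m
    rw [MvPolynomial.aeval_def] at h1
    let evm : EP Λ →+* L := (Pi.evalRingHom (fun _ : ℕ => L) m).comp (ev Λ)
    have h2 : evm (MvPolynomial.eval₂ f (fun i => mk Λ S (a i)) F) = 0 := by
      rw [MvPolynomial.hom_eval₂]
      have h3 : evm.comp f = algebraMap k L := by
        refine RingHom.ext fun x => ?_
        show ev Λ (MonoidAlgebra.single 1 (algebraMap k (Polynomial L) x)) m = _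
        rw [ev_single, Polynomial.algebraMap_apply, eval_C]
        simp
      rw [h3]
      exact h1
    exact h2
  have h4 : Function.Injective (algebraMap (Polynomial L) (RatFunc L)) :=
    RatFunc.algebraMap_injective L
  apply h4
  rw [map_zero, MvPolynomial.aeval_def, MvPolynomial.hom_eval₂]
  have h5 : (algebraMap (Polynomial L) (RatFunc L)).comp (algebraMap k (Polynomial L)) =
      (phi Λ β).comp f := by
    refine RingHom.ext fun x => ?_
    show algebraMap (Polynomial L) (RatFunc L) (algebraMap k (Polynomial L) x) =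
      phi Λ β (MonoidAlgebra.single 1 (algebraMap k (Polynomial L) x))
    rw [phi_single, map_one, toAdd_one, zpow_zero, mul_one, Polynomial.algebraMap_apply]
    congr 1
    show C _ = (C _ : Polynomial L).comp _
    rw [C_comp]
  have h6 : (fun i => algebraMap (Polynomial L) (RatFunc L)
      (crv S (fun μ => (Multiplicative.toAdd (β μ) + (B : ℤ)).toNat) (a i))) =
      fun i => RatFunc.X ^ B * phi Λ β (mk Λ S (a i)) := by
    funext i
    exact phi_mk Λ β B S hB (a i)
  rw [h5, h6, eval₂_scale _ _ _ F e he]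
  have h7 := congrArg (phi Λ β) h0
  rw [MvPolynomial.hom_eval₂, map_zero] at h7
  rw [h7, mul_zero]

/-- **Exponential polynomials on a variety that is not uniruled**: one hypersurface `G = 0`, not
containing the variety, such that a vector of exponential polynomials with at most `s` roots and
degrees less than `r` on the variety is projectively constant if its value at `0` is off `G = 0`. -/
theorem exp_poly_main {k : Type} [Field k] [CharZero k] {n : ℕ}
    (FF : Finset (MvPolynomial (Fin (n + 1)) k))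
    (hprime : (Ideal.span (FF : Set (MvPolynomial (Fin (n + 1)) k))).IsPrime)
    (hnu : ¬ Uniruled (Ideal.span (FF : Set (MvPolynomial (Fin (n + 1)) k))))
    (hhom : ∀ F ∈ FF, ∃ e, F.IsHomogeneous e) (s r : ℕ) :
    ∃ G : MvPolynomial (Fin (n + 1)) k, (∃ e, G.IsHomogeneous e) ∧
      G ∉ Ideal.span (FF : Set (MvPolynomial (Fin (n + 1)) k)) ∧
      ∀ (L : Type) [Field L] [Algebra k L] (Λ : Subgroup Lˣ) (S : Finset Λ), S.card ≤ s →
        ∀ (β : Λ →* Multiplicative ℤ), Set.InjOn β (S : Set Λ) →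
        ∀ (a : Fin (n + 1) → Λ → Polynomial L), (∀ i, ∀ μ ∈ S, (a i μ).degree < r) →
        (∀ F ∈ FF, ∀ m : ℕ, MvPolynomial.aeval
          (fun i => ∑ μ ∈ S, (a i μ).eval (m : L) * ((μ : Lˣ) : L) ^ m) F = 0) →
        MvPolynomial.aeval (fun i => ∑ μ ∈ S, (a i μ).eval 0) G ≠ 0 →
        ∀ (i i' : Fin (n + 1)) (m : ℕ),
          (∑ μ ∈ S, (a i μ).eval (m : L) * ((μ : Lˣ) : L) ^ m) * ∑ μ ∈ S, (a i' μ).eval 0 =
          (∑ μ ∈ S, (a i' μ).eval (m : L) * ((μ : Lˣ) : L) ^ m) * ∑ μ ∈ S, (a i μ).eval 0 := by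
  classical
  obtain ⟨G, hG1, hG2, hG3⟩ := hyper_poly FF hprime hnu hhom (s * r)
  refine ⟨G, hG1, hG2, ?_⟩
  intro L _ _ Λ S hSs β hβ a ha hF hG i i' m
  have : CharZero L := charZero_of_injective_algebraMap (FaithfulSMul.algebraMap_injective k L)
  -- exponents, separated by `r`
  let β' : Λ →* Multiplicative ℤ := (powMonoidHom r).comp β
  have hβ' : ∀ μ, Multiplicative.toAdd (β' μ) = r * Multiplicative.toAdd (β μ) := by
    intro μ
    show Multiplicative.toAdd (β μ ^ r) = _
    rw [toAdd_pow]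
    simp
  let B : ℕ := ∑ μ ∈ S, (Multiplicative.toAdd (β' μ)).natAbs
  have hB : ∀ μ ∈ S, 0 ≤ Multiplicative.toAdd (β' μ) + (B : ℤ) := by
    intro μ hμ
    have h1 : (Multiplicative.toAdd (β' μ)).natAbs ≤ B :=
      Finset.single_le_sum (f := fun μ => (Multiplicative.toAdd (β' μ)).natAbs)
        (fun _ _ => Nat.zero_le _) hμ
    omega
  let b : Λ → ℕ := fun μ => (Multiplicative.toAdd (β' μ) + (B : ℤ)).toNat
  have hb : ∀ μ ∈ S, ∀ ν ∈ S, μ ≠ ν → b μ + r ≤ b ν ∨ b ν + r ≤ b μ := by
    intro μ hμ ν hν hne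
    have h1 : Multiplicative.toAdd (β μ) ≠ Multiplicative.toAdd (β ν) := fun h =>
      hne (hβ hμ hν (Multiplicative.toAdd.injective h))
    have h2 := Int.toNat_of_nonneg (hB μ hμ)
    have h3 := Int.toNat_of_nonneg (hB ν hν)
    have h4 : ((b μ : ℕ) : ℤ) = r * Multiplicative.toAdd (β μ) + B := by
      rw [← hβ']; exact h2
    have h5 : ((b ν : ℕ) : ℤ) = r * Multiplicative.toAdd (β ν) + B := by
      rw [← hβ']; exact h3
    rcases lt_or_gt_of_ne h1 with h | h
    · left
      have h6 : (r : ℤ) * (Multiplicative.toAdd (β μ) + 1) ≤ r * Multiplicative.toAdd (β ν) :=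
        mul_le_mul_of_nonneg_left (by omega) (by positivity)
      zify
      rw [h4, h5]
      linarith
    · right
      have h6 : (r : ℤ) * (Multiplicative.toAdd (β ν) + 1) ≤ r * Multiplicative.toAdd (β μ) :=
        mul_le_mul_of_nonneg_left (by omega) (by positivity)
      zify
      rw [h4, h5]
      linarith
  obtain ⟨T, hT1, hT2⟩ := crv_support (L := L) S b r
  have hev : ∀ i, (crv S b (a i)).eval 1 = ∑ μ ∈ S, (a i μ).eval 0 := fun i =>
    crv_eval_one S b (a i)
  have hconst := hG3 L (fun i => crv S b (a i)) T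
    (hT1.trans (Nat.mul_le_mul_right r hSs)) (fun i => hT2 (a i) (ha i)) (by
      intro F hFF
      refine aeval_crv Λ β' B S hB a F (hhom F hFF) fun m => ?_
      simp only [ev_mk]
      exact hF F hFF m) (by
      simp only [hev]
      exact hG) i i'
  simp only [hev] at hconst
  -- the difference
  set u : L := ∑ μ ∈ S, (a i μ).eval 0 with hu
  set u' : L := ∑ μ ∈ S, (a i' μ).eval 0 with hu'
  let c : Λ → Polynomial L := fun μ => a i μ * C u' - a i' μ * C u
  have hc0 : crv S b c = 0 := by
    have h1 : crv S b c = crv S b (a i) * C u' - crv S b (a i') * C u := by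
      unfold crv
      rw [Finset.sum_mul, Finset.sum_mul, ← Finset.sum_sub_distrib]
      refine Finset.sum_congr rfl fun μ _ => ?_
      have h2 : dn L (c μ) = dn L (a i μ) * C u' - dn L (a i' μ) * C u := by
        have h3 : ∀ v : L, dn L (C v) = C v := fun v => by
          show (C v).comp _ = _
          rw [C_comp]
        show dn L (a i μ * C u' - a i' μ * C u) = _
        rw [map_sub, map_mul, map_mul, h3, h3]
      rw [h2]
      ring
    rw [h1, hconst, sub_self]
  have hcdeg : ∀ μ ∈ S, (c μ).degree < r := by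
    intro μ hμ
    have h1 : ∀ (P : Polynomial L) (v : L), P.degree < r → (P * C v).degree < r := by
      intro P v hP
      refine lt_of_le_of_lt ?_ hP
      calc (P * C v).degree ≤ P.degree + (C v).degree := degree_mul_le _ _
        _ ≤ P.degree + 0 := by gcongr; exact degree_C_le
        _ = P.degree := add_zero _
    exact lt_of_le_of_lt (degree_sub_le _ _) (max_lt (h1 _ _ (ha i μ hμ)) (h1 _ _ (ha i' μ hμ)))
  have hc := crv_sep S b r hb c hcdeg hc0
  rw [Finset.sum_mul, Finset.sum_mul, ← sub_eq_zero, ← Finset.sum_sub_distrib]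
  refine Finset.sum_eq_zero fun μ hμ => ?_
  have h1 := congrArg (fun P => Polynomial.eval (m : L) P) (hc μ hμ)
  simp only [c, eval_sub, eval_mul, eval_C, eval_zero] at h1
  have h2 : (a i μ).eval (m : L) * ((μ : Lˣ) : L) ^ m * u' -
      (a i' μ).eval (m : L) * ((μ : Lˣ) : L) ^ m * u =
      ((a i μ).eval (m : L) * u' - (a i' μ).eval (m : L) * u) * ((μ : Lˣ) : L) ^ m := by ring
  rw [h2, h1, zero_mul]

end Pool.Agent.TH717.GO
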