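import Mathlib

set_option autoImplicit false

/-! # Orbits of one linear map as exponential polynomials -/

namespace Pool.Agent.TH717.GO

open Polynomial

variable {L : Type} [Field L]

theorem eig_of_ne {r : ℕ} (f : Module.End L (Fin r → L)) {μ : L} {x : Fin r → L}
    (hx : x ∈ f.maxGenEigenspace μ) (h0 : x ≠ 0) : f.HasEigenvalue μ := by
  rw [Module.End.maxGenEigenspace_eq_genEigenspace_finrank] at hx
  refine Module.End.hasEigenvalue_of_hasGenEigenvalue (k := Module.finrank L (Fin r → L)) ?_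
  intro hbot
  rw [hbot] at hx
  exact h0 ((Submodule.mem_bot L).1 hx)

theorem pow_zero_of_mem {r : ℕ} (f : Module.End L (Fin r → L)) {μ : L} {x : Fin r → L}
    (hx : x ∈ f.maxGenEigenspace μ) :
    ((f - μ • (1 : Module.End L (Fin r → L))) ^ r) x = 0 := by
  rw [Module.End.maxGenEigenspace_eq_genEigenspace_finrank] at hx
  have h1 := (Module.End.mem_genEigenspace_nat).1 hx
  rw [Module.finrank_fin_fun] at h1
  exact h1

theorem card_le_of_eig {r : ℕ} (f : Module.End L (Fin r → L)) (S : Finset L)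
    (hS : ∀ μ ∈ S, f.HasEigenvalue μ) : S.card ≤ r := by
  have h1 : ∀ μ : S, ∃ v : Fin r → L, f.HasEigenvector (μ : L) v := fun μ =>
    (hS μ μ.2).exists_hasEigenvector
  choose v hv using h1
  have h2 := Module.End.eigenvectors_linearIndependent' f (fun μ : S => (μ : L))
    Subtype.val_injective v hv
  have h3 := h2.fintype_card_le_finrank
  rw [Module.finrank_fin_fun, Fintype.card_coe] at h3
  exact h3

/-- the polynomial `binom(X, j)` -/
noncomputable def bin (L : Type) [Field L] (j : ℕ) : Polynomial L :=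
  C ((j.factorial : L)⁻¹) * descPochhammer L j

theorem bin_eval [CharZero L] (j m : ℕ) : (bin L j).eval (m : L) = (m.choose j : L) := by
  unfold bin
  rw [eval_mul, eval_C, descPochhammer_eval_eq_descFactorial,
    Nat.descFactorial_eq_factorial_mul_choose]
  push_cast
  rw [← mul_assoc, inv_mul_cancel₀ (Nat.cast_ne_zero.2 (Nat.factorial_ne_zero j)), one_mul]

theorem bin_degree (j : ℕ) : (bin L j).degree ≤ j := by
  unfold bin
  calc (C ((j.factorial : L)⁻¹) * descPochhammer L j).degree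
      ≤ (C ((j.factorial : L)⁻¹)).degree + (descPochhammer L j).degree := degree_mul_le _ _
    _ ≤ 0 + (descPochhammer L j).degree := by gcongr; exact degree_C_le
    _ = (descPochhammer L j).degree := zero_add _
    _ ≤ (descPochhammer L j).natDegree := degree_le_natDegree
    _ = j := by rw [descPochhammer_natDegree]

theorem end_pow {r : ℕ} (f : Module.End L (Fin r → L)) (μ : L) (m : ℕ) :
    f ^ m = ∑ j ∈ Finset.range (m + 1),
      ((m.choose j : L) * μ ^ (m - j)) • (f - μ • (1 : Module.End L (Fin r → L))) ^ j := by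
  have hcomm : Commute (f - μ • (1 : Module.End L (Fin r → L)))
      (μ • (1 : Module.End L (Fin r → L))) :=
    (Commute.one_right _).smul_right μ
  have h1 : f = (f - μ • (1 : Module.End L (Fin r → L))) +
      (μ • (1 : Module.End L (Fin r → L))) := by abel
  conv_lhs => rw [h1]
  rw [hcomm.add_pow]
  refine Finset.sum_congr rfl fun j _ => ?_
  rw [_root_.smul_pow, one_pow, mul_smul_comm, mul_one, ← Nat.cast_comm, ← nsmul_eq_mul,
    mul_smul, Nat.cast_smul_eq_nsmul]

theorem comp_rep [CharZero L] {r : ℕ} (f : Module.End L (Fin r → L)) {μ : L} (hμ : μ ≠ 0)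
    {x : Fin r → L} (hx : x ∈ f.maxGenEigenspace μ) (w : (Fin r → L) →ₗ[L] L) :
    ∃ P : Polynomial L, P.degree < r ∧ ∀ m : ℕ, w ((f ^ m) x) = P.eval (m : L) * μ ^ m := by
  have hr := pow_zero_of_mem f hx
  set N : Module.End L (Fin r → L) := f - μ • (1 : Module.End L (Fin r → L)) with hN
  refine ⟨∑ j ∈ Finset.range r, C (μ⁻¹ ^ j * w ((N ^ j) x)) * bin L j, ?_, ?_⟩
  · refine (Polynomial.degree_sum_le _ _).trans_lt ?_
    rw [Finset.sup_lt_iff (by exact_mod_cast WithBot.bot_lt_coe r)]
    intro j hj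
    calc (C (μ⁻¹ ^ j * w ((N ^ j) x)) * bin L j).degree
        ≤ (C (μ⁻¹ ^ j * w ((N ^ j) x))).degree + (bin L j).degree := degree_mul_le _ _
      _ ≤ 0 + (j : WithBot ℕ) := add_le_add degree_C_le (bin_degree j)
      _ = j := zero_add _
      _ < r := by exact_mod_cast Finset.mem_range.1 hj
  · intro m
    rw [eval_finsetSum, Finset.sum_mul]
    have hterm : ∀ j, (C (μ⁻¹ ^ j * w ((N ^ j) x)) * bin L j).eval (m : L) * μ ^ m =
        ((m.choose j : L) * μ ^ (m - j)) * w ((N ^ j) x) := by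
      intro j
      rw [eval_mul, eval_C, bin_eval]
      by_cases hjm : j ≤ m
      · have h2 : μ ^ m = μ ^ (m - j) * μ ^ j := by rw [← pow_add, Nat.sub_add_cancel hjm]
        rw [h2, inv_pow]
        field_simp
      · rw [Nat.choose_eq_zero_of_lt (not_le.1 hjm)]
        simp
    have h3 : w ((f ^ m) x) = ∑ j ∈ Finset.range (m + 1),
        ((m.choose j : L) * μ ^ (m - j)) * w ((N ^ j) x) := by
      rw [end_pow f μ m, LinearMap.sum_apply, map_sum]
      refine Finset.sum_congr rfl fun j _ => ?_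
      rw [LinearMap.smul_apply, map_smul, smul_eq_mul]
    rw [h3, Finset.sum_congr rfl fun j _ => hterm j]
    -- both sums agree on the range of the maximum
    have h4 : ∀ A : ℕ, r ≤ A → ∑ j ∈ Finset.range r,
        ((m.choose j : L) * μ ^ (m - j)) * w ((N ^ j) x) = ∑ j ∈ Finset.range A,
        ((m.choose j : L) * μ ^ (m - j)) * w ((N ^ j) x) := by
      intro A hA
      refine Finset.sum_subset (Finset.range_mono hA) fun j _ hj => ?_
      have h5 : r ≤ j := by simpa using hj
      have h6 : (N ^ j) x = 0 := by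
        rw [← Nat.sub_add_cancel h5, pow_add, Module.End.mul_apply, hr, map_zero]
      rw [h6, map_zero, mul_zero]
    have h7 : ∀ A : ℕ, m + 1 ≤ A → ∑ j ∈ Finset.range (m + 1),
        ((m.choose j : L) * μ ^ (m - j)) * w ((N ^ j) x) = ∑ j ∈ Finset.range A,
        ((m.choose j : L) * μ ^ (m - j)) * w ((N ^ j) x) := by
      intro A hA
      refine Finset.sum_subset (Finset.range_mono hA) fun j _ hj => ?_
      have h5 : m + 1 ≤ j := by simpa using hj
      rw [Nat.choose_eq_zero_of_lt (by omega)]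
      simp
    rw [h4 (max r (m + 1)) (le_max_left _ _), h7 (max r (m + 1)) (le_max_right _ _)]

/-- **Orbits of a linear map are exponential polynomials.** -/
theorem seq_rep [IsAlgClosed L] [CharZero L] {r : ℕ} (f : Module.End L (Fin r → L))
    (Λ : Subgroup Lˣ) (hΛ : ∀ μ : L, f.HasEigenvalue μ → ∃ ν : Λ, ((ν : Lˣ) : L) = μ) :
    ∃ S : Finset Λ, S.card ≤ r ∧ ∀ (w : (Fin r → L) →ₗ[L] L) (v : Fin r → L),
      ∃ a : Λ → Polynomial L, (∀ μ ∈ S, (a μ).degree < r) ∧
        ∀ m : ℕ, w ((f ^ m) v) = ∑ μ ∈ S, (a μ).eval (m : L) * ((μ : Lˣ) : L) ^ m := by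
  classical
  have hinj : Function.Injective (fun μ : Λ => ((μ : Lˣ) : L)) := fun a b h =>
    Subtype.ext (Units.ext h)
  have hfin : {ν : Λ | f.HasEigenvalue ((ν : Lˣ) : L)}.Finite := by
    by_contra hinf
    obtain ⟨T, hT, hTc⟩ := Set.Infinite.exists_subset_card_eq hinf (r + 1)
    have h1 := card_le_of_eig f (T.image fun ν : Λ => ((ν : Lˣ) : L)) (by
      intro μ hμ
      obtain ⟨ν, hν, rfl⟩ := Finset.mem_image.1 hμ
      exact hT hν)
    rw [Finset.card_image_of_injective _ hinj] at h1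
    omega
  refine ⟨hfin.toFinset, ?_, ?_⟩
  · have h1 := card_le_of_eig f (hfin.toFinset.image fun ν : Λ => ((ν : Lˣ) : L)) (by
      intro μ hμ
      obtain ⟨ν, hν, rfl⟩ := Finset.mem_image.1 hμ
      exact hfin.mem_toFinset.1 hν)
    rwa [Finset.card_image_of_injective _ hinj] at h1
  · intro w v
    have hv : v ∈ ⨆ μ : L, f.maxGenEigenspace μ := by
      rw [Module.End.iSup_maxGenEigenspace_eq_top]
      trivial
    obtain ⟨g, hg, hsum⟩ := (Submodule.mem_iSup_iff_exists_finsupp _ _).1 hv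
    have hP : ∀ ν : Λ, ∃ P : Polynomial L, P.degree < r ∧
        ∀ m : ℕ, w ((f ^ m) (g ((ν : Lˣ) : L))) = P.eval (m : L) * ((ν : Lˣ) : L) ^ m := fun ν =>
      comp_rep f (Units.ne_zero _) (hg _) w
    choose a ha hae using hP
    refine ⟨a, fun μ _ => ha μ, fun m => ?_⟩
    rw [← hsum, Finsupp.sum, map_sum, map_sum]
    rw [Finset.sum_congr rfl (fun μ _ => (hae μ m).symm)]
    have h1 : ∑ ν ∈ hfin.toFinset, w ((f ^ m) (g ((ν : Lˣ) : L))) =
        ∑ μ ∈ hfin.toFinset.image (fun ν : Λ => ((ν : Lˣ) : L)), w ((f ^ m) (g μ)) := by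
      rw [Finset.sum_image (fun a _ b _ h => hinj h)]
    rw [h1]
    refine Finset.sum_subset ?_ ?_
    · intro μ hμ
      have hne : g μ ≠ 0 := Finsupp.mem_support_iff.1 hμ
      obtain ⟨ν, hν⟩ := hΛ μ (eig_of_ne f (hg μ) hne)
      refine Finset.mem_image.2 ⟨ν, ?_, hν⟩
      rw [Set.Finite.mem_toFinset]
      show f.HasEigenvalue ((ν : Lˣ) : L)
      rw [hν]
      exact eig_of_ne f (hg μ) hne
    · intro μ _ hμ
      rw [Finsupp.notMem_support_iff.1 hμ, map_zero, map_zero]

end Pool.Agent.TH717.GO
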