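import Mathlib
import Pool.Agent.TH717.GO.Cut
import Pool.Agent.TH717.GO.Lin
import Pool.Agent.TH717.GO.Beta

set_option autoImplicit false

/-! # Orbits of one linear map on a variety that is not uniruled -/

namespace Pool.Agent.TH717.GO

open Polynomial Pool.Agent.H533R3.SL

/-- One hypersurface `G = 0` for all orbits of linear maps `f` whose eigenvalues lie in a
torsion-free group: a point of the orbit off `G = 0` is fixed by `f`. -/
theorem orb_main {k : Type} [Field k] [CharZero k] {n : ℕ}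
    (FF : Finset (MvPolynomial (Fin (n + 1)) k))
    (hprime : (Ideal.span (FF : Set (MvPolynomial (Fin (n + 1)) k))).IsPrime)
    (hnu : ¬ Uniruled (Ideal.span (FF : Set (MvPolynomial (Fin (n + 1)) k))))
    (hhom : ∀ F ∈ FF, ∃ e, F.IsHomogeneous e) (r : ℕ) :
    ∃ G : MvPolynomial (Fin (n + 1)) k, (∃ e, G.IsHomogeneous e) ∧
      G ∉ Ideal.span (FF : Set (MvPolynomial (Fin (n + 1)) k)) ∧
      ∀ (L : Type) [Field L] [Algebra k L] [IsAlgClosed L] (f : Module.End L (Fin r → L))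
        (U : Subgroup Lˣ), (∀ u ∈ U, ∀ m : ℕ, 0 < m → u ^ m = 1 → u = 1) →
        (∀ μ : L, f.HasEigenvalue μ → ∃ u ∈ U, (u : L) = μ) →
        ∀ (ℓ : (Fin r → L) →ₗ[L] (Fin (n + 1) → L)) (v : Fin r → L),
        (∀ F ∈ FF, ∀ m : ℕ, MvPolynomial.aeval (ℓ ((f ^ m) v)) F = 0) →
        MvPolynomial.aeval (ℓ v) G ≠ 0 →
        ∀ (i i' : Fin (n + 1)) (m : ℕ), ℓ ((f ^ m) v) i * ℓ v i' = ℓ ((f ^ m) v) i' * ℓ v i := by
  classical
  obtain ⟨G, hG1, hG2, hG3⟩ := exp_poly_main FF hprime hnu hhom r r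
  refine ⟨G, hG1, hG2, ?_⟩
  intro L _ _ _ f U hU hfU ℓ v hF hG i i' m
  have : CharZero L := charZero_of_injective_algebraMap (FaithfulSMul.algebraMap_injective k L)
  let E : Set Lˣ := {u | f.HasEigenvalue (u : L)}
  have hEfin : E.Finite := by
    have h1 : (Units.val '' E : Set L).Finite := by
      by_contra hinf
      obtain ⟨T, hT, hTc⟩ := Set.Infinite.exists_subset_card_eq hinf (r + 1)
      have h1 := card_le_of_eig f T (by
        intro μ hμ
        obtain ⟨u, hu, rfl⟩ := hT hμ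
        exact hu)
      omega
    exact Set.Finite.of_finite_image h1 (fun a _ b _ h => Units.ext h)
  let Λ : Subgroup Lˣ := Subgroup.closure E
  have hΛU : Λ ≤ U := by
    rw [Subgroup.closure_le]
    intro u hu
    obtain ⟨u', hu', h⟩ := hfU (u : L) hu
    rwa [← Units.ext h]
  have hΛ : ∀ μ : L, f.HasEigenvalue μ → ∃ ν : Λ, ((ν : Lˣ) : L) = μ := by
    intro μ hμ
    obtain ⟨u, hu, rfl⟩ := hfU μ hμ
    exact ⟨⟨u, Subgroup.subset_closure hμ⟩, rfl⟩
  have hfg : Group.FG Λ := by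
    rw [Group.fg_iff_subgroup_fg]
    exact ⟨hEfin.toFinset, by rw [Set.Finite.coe_toFinset]⟩
  obtain ⟨S, hS1, hS2⟩ := seq_rep f Λ hΛ
  obtain ⟨β, hβ⟩ := exists_beta hfg (fun g m hm h => by
    have h1 := hU g (hΛU g.2) m hm (by
      have := congrArg (Subtype.val : Λ → Lˣ) h
      simpa using this)
    exact Subtype.ext h1) S
  have hrep : ∀ i : Fin (n + 1), ∃ a : Λ → Polynomial L, (∀ μ ∈ S, (a μ).degree < r) ∧
      ∀ m : ℕ, ℓ ((f ^ m) v) i = ∑ μ ∈ S, (a μ).eval (m : L) * ((μ : Lˣ) : L) ^ m := fun i =>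
    hS2 ((LinearMap.proj i).comp ℓ) v
  choose a ha hae using hrep
  have h0 : ∀ i, ℓ v i = ∑ μ ∈ S, (a i μ).eval 0 := by
    intro i
    have h1 := hae i 0
    rw [pow_zero, Module.End.one_apply] at h1
    rw [h1]
    refine Finset.sum_congr rfl fun μ _ => ?_
    rw [pow_zero, mul_one, Nat.cast_zero]
  have hxm : ∀ m : ℕ, ℓ ((f ^ m) v) = fun i => ∑ μ ∈ S, (a i μ).eval (m : L) *
      ((μ : Lˣ) : L) ^ m := fun m => funext fun i => hae i m
  have hfin := hG3 L Λ S hS1 β hβ a ha (fun F hFF m => by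
    rw [← hxm m]
    exact hF F hFF m) (by
      have h1 : (fun i => ∑ μ ∈ S, (a i μ).eval 0) = ℓ v := funext fun i => (h0 i).symm
      rw [h1]
      exact hG) i i' m
  rw [hae i m, hae i' m, h0 i, h0 i']
  exact hfin

end Pool.Agent.TH717.GO
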