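import Mathlib

set_option autoImplicit false

/-! # `p`-integral numbers and the principal congruence subgroup -/

namespace Pool.Agent.TH717.GO

/-- `a` is integral at the primes above `p`: for some natural number `m` prime to `p` the number
`m a` is an algebraic integer. -/
def PInt (p : ℕ) {L : Type} [Field L] (a : L) : Prop :=
  ∃ m : ℕ, ¬ p ∣ m ∧ IsIntegral ℤ ((m : L) * a)

variable {p : ℕ} {L : Type} [Field L]

theorem PInt.of_int (hp : p.Prime) {a : L} (h : IsIntegral ℤ a) : PInt p a :=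
  ⟨1, fun h1 => hp.one_lt.ne' (Nat.dvd_one.1 h1), by simpa using h⟩

theorem PInt.add (hp : p.Prime) {a b : L} (ha : PInt p a) (hb : PInt p b) : PInt p (a + b) := by
  obtain ⟨m, hm, h⟩ := ha
  obtain ⟨m', hm', h'⟩ := hb
  refine ⟨m * m', fun hd => ?_, ?_⟩
  · rcases hp.dvd_mul.1 hd with h1 | h1
    · exact hm h1
    · exact hm' h1
  · have h1 : (((m * m' : ℕ) : L)) * (a + b) = (m' : L) * ((m : L) * a) + (m : L) * ((m' : L) * b) := by
      push_cast
      ring
    rw [h1]
    exact (((isIntegral_natCast m').mul h)).add ((isIntegral_natCast m).mul h')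

theorem PInt.mul (hp : p.Prime) {a b : L} (ha : PInt p a) (hb : PInt p b) : PInt p (a * b) := by
  obtain ⟨m, hm, h⟩ := ha
  obtain ⟨m', hm', h'⟩ := hb
  refine ⟨m * m', fun hd => ?_, ?_⟩
  · rcases hp.dvd_mul.1 hd with h1 | h1
    · exact hm h1
    · exact hm' h1
  · have h1 : (((m * m' : ℕ) : L)) * (a * b) = ((m : L) * a) * ((m' : L) * b) := by
      push_cast
      ring
    rw [h1]
    exact h.mul h'

theorem PInt.natCast (hp : p.Prime) (m : ℕ) : PInt p (m : L) := PInt.of_int hp (isIntegral_natCast m)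

theorem PInt.intCast (hp : p.Prime) (m : ℤ) : PInt p (m : L) := PInt.of_int hp (isIntegral_intCast m)

theorem PInt.neg (hp : p.Prime) {a : L} (ha : PInt p a) : PInt p (-a) := by
  have h := (PInt.intCast (L := L) hp (-1)).mul hp ha
  simpa using h

theorem PInt.sum (hp : p.Prime) {ι : Type} (s : Finset ι) (f : ι → L) (h : ∀ i ∈ s, PInt p (f i)) :
    PInt p (∑ i ∈ s, f i) := by
  classical
  induction s using Finset.induction_on with
  | empty => simpa using PInt.natCast (L := L) hp 0
  | insert a s ha ih =>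
    rw [Finset.sum_insert ha]
    exact (h a (Finset.mem_insert_self _ _)).add hp (ih fun i hi => h i (Finset.mem_insert_of_mem hi))

theorem PInt.map {L' : Type} [Field L'] (g : L →+* L') {a : L} (h : PInt p a) : PInt p (g a) := by
  obtain ⟨m, hm, h⟩ := h
  refine ⟨m, hm, ?_⟩
  have h1 := h.map (g.toIntAlgHom)
  simpa using h1

/-- a natural number divided by `p` is `p`-integral only if `p` divides it -/
theorem dvd_of_pint [CharZero L] (hp : p.Prime) (c : ℕ) (h : PInt p ((c : L) / p)) : p ∣ c := by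
  obtain ⟨m, hm, h⟩ := h
  have hp0 : (p : ℚ) ≠ 0 := Nat.cast_ne_zero.2 hp.ne_zero
  have h1 : (m : L) * ((c : L) / p) = algebraMap ℚ L ((m : ℚ) * ((c : ℚ) / p)) := by
    simp
  rw [h1] at h
  have h2 : IsIntegral ℤ ((m : ℚ) * ((c : ℚ) / p)) :=
    (isIntegral_algebraMap_iff (FaithfulSMul.algebraMap_injective ℚ L)).1 h
  obtain ⟨y, hy⟩ := IsIntegrallyClosed.isIntegral_iff.1 h2
  have h3 : (y : ℚ) * p = (m * c : ℕ) := by
    have h4 : (y : ℚ) = (m : ℚ) * ((c : ℚ) / p) := by
      rw [← hy]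
      rfl
    rw [h4]
    push_cast
    field_simp
  have h5 : y * p = ((m * c : ℕ) : ℤ) := by exact_mod_cast h3
  have h6 : (p : ℤ) ∣ ((m * c : ℕ) : ℤ) := ⟨y, by rw [← h5]; ring⟩
  rcases hp.dvd_mul.1 (Int.natCast_dvd_natCast.1 h6) with h7 | h7
  · exact absurd h7 hm
  · exact h7

/-- congruent to one modulo `p` -/
def One1 (p : ℕ) {L : Type} [Field L] (a : L) : Prop := ∃ b : L, PInt p b ∧ a = 1 + p * b

theorem One1.mul (hp : p.Prime) {a b : L} (ha : One1 p a) (hb : One1 p b) : One1 p (a * b) := by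
  obtain ⟨a', ha', rfl⟩ := ha
  obtain ⟨b', hb', rfl⟩ := hb
  refine ⟨a' + b' + p * (a' * b'), ?_, by ring⟩
  exact (ha'.add hp hb').add hp ((PInt.natCast hp p).mul hp (ha'.mul hp hb'))

theorem one1_one (hp : p.Prime) : One1 p (1 : L) := ⟨0, by simpa using PInt.natCast (L := L) hp 0,
  by simp⟩

/-- the group of numbers congruent to one modulo `p` together with their inverses -/
def UU (hp : p.Prime) (L : Type) [Field L] : Subgroup Lˣ where
  carrier := {u | One1 p (u : L) ∧ One1 p ((u⁻¹ : Lˣ) : L)}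
  one_mem' := by
    refine ⟨?_, ?_⟩
    · simpa using one1_one (L := L) hp
    · simpa using one1_one (L := L) hp
  mul_mem' := by
    rintro a b ⟨ha, ha'⟩ ⟨hb, hb'⟩
    refine ⟨?_, ?_⟩
    · rw [Units.val_mul]
      exact ha.mul hp hb
    · rw [mul_inv, Units.val_mul]
      exact ha'.mul hp hb'
  inv_mem' := by
    rintro a ⟨ha, ha'⟩
    exact ⟨ha', by rwa [inv_inv]⟩

theorem pow_cong (hp : p.Prime) {a : L} (ha : PInt p a) (j : ℕ) :
    ∃ b : L, PInt p b ∧ (1 + p * a) ^ j = 1 + j * (p * a) + p ^ 2 * b := by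
  induction j with
  | zero => exact ⟨0, by simpa using PInt.natCast (L := L) hp 0, by simp⟩
  | succ j ih =>
    obtain ⟨b, hb, h⟩ := ih
    refine ⟨b + j * (a * a) + p * (a * b), ?_, ?_⟩
    · exact (hb.add hp ((PInt.natCast hp j).mul hp (ha.mul hp ha))).add hp
        ((PInt.natCast hp p).mul hp (ha.mul hp hb))
    · rw [pow_succ, h]
      push_cast
      ring

/-- no root of unity of prime order is congruent to one modulo an odd prime -/
theorem root_eq_one [CharZero L] (hp : p.Prime) (hp3 : 3 ≤ p) {z : L} (hz : One1 p z) {q : ℕ}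
    (hq : q.Prime) (h : z ^ q = 1) : z = 1 := by
  obtain ⟨a, ha, rfl⟩ := hz
  by_contra hne
  have hp0 : (p : L) ≠ 0 := Nat.cast_ne_zero.2 hp.ne_zero
  have hgeom : ∑ j ∈ Finset.range q, (1 + p * a) ^ j = 0 := by
    have h1 := geom_sum_mul (1 + (p : L) * a) q
    rw [h, sub_self] at h1
    rcases mul_eq_zero.1 h1 with h2 | h2
    · exact h2
    · exact absurd (sub_eq_zero.1 h2) hne
  choose b hb hbe using fun j => pow_cong hp ha j
  have hsum : (q : L) + (p : L) * a * (∑ j ∈ Finset.range q, (j : L)) +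
      (p : L) ^ 2 * (∑ j ∈ Finset.range q, b j) = 0 := by
    rw [← hgeom, Finset.sum_congr rfl fun j _ => hbe j, Finset.sum_add_distrib,
      Finset.sum_add_distrib, Finset.mul_sum, Finset.mul_sum]
    simp only [Finset.sum_const, Finset.card_range, nsmul_eq_mul, mul_one]
    congr 2
    exact Finset.sum_congr rfl fun j _ => by ring
  have hB : PInt p (∑ j ∈ Finset.range q, b j) := PInt.sum hp _ _ fun j _ => hb j
  have hpq : p ∣ q := by
    apply dvd_of_pint (L := L) hp q
    have h1 : (q : L) / p = -(a * (∑ j ∈ Finset.range q, (j : L)) +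
        (p : L) * (∑ j ∈ Finset.range q, b j)) := by
      rw [div_eq_iff hp0]
      linear_combination hsum
    rw [h1]
    exact ((ha.mul hp (PInt.sum hp _ _ fun j _ => PInt.natCast hp j)).add hp
      ((PInt.natCast hp p).mul hp hB)).neg hp
  have hqp : q = p := ((Nat.prime_dvd_prime_iff_eq hp hq).1 hpq).symm
  subst hqp
  have hodd : ∃ t : ℕ, q = 2 * t + 1 := by
    rcases hq.eq_two_or_odd' with h2 | h2
    · omega
    · exact h2
  obtain ⟨t, ht⟩ := hodd
  have hS : (∑ j ∈ Finset.range q, (j : L)) = (q : L) * t := by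
    have h1 := Finset.sum_range_id_mul_two q
    have h2 : (∑ j ∈ Finset.range q, j) * 2 = (q * t) * 2 := by
      rw [h1]
      have : q - 1 = 2 * t := by omega
      rw [this]
      ring
    have h3 : ∑ j ∈ Finset.range q, j = q * t := Nat.eq_of_mul_eq_mul_right (by norm_num) h2
    have h4 := congrArg (Nat.cast : ℕ → L) h3
    push_cast at h4
    exact h4
  have hcontra : q ∣ 1 := by
    apply dvd_of_pint (L := L) hq 1
    have h1 : ((1 : ℕ) : L) / q = -(a * t + ∑ j ∈ Finset.range q, b j) := by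
      rw [hS] at hsum
      rw [div_eq_iff hp0]
      have h2 : (q : L) * (1 + (q : L) * (a * t + ∑ j ∈ Finset.range q, b j)) = 0 := by
        linear_combination hsum
      rcases mul_eq_zero.1 h2 with h3 | h3
      · exact absurd h3 hp0
      · push_cast
        linear_combination h3
    rw [h1]
    exact ((ha.mul hp (PInt.natCast hp t)).add hp hB).neg hp
  exact hq.one_lt.ne' (Nat.dvd_one.1 hcontra)

theorem UU_torsionFree [CharZero L] (hp : p.Prime) (hp3 : 3 ≤ p) :
    ∀ u ∈ UU hp L, ∀ m : ℕ, 0 < m → u ^ m = 1 → u = 1 := by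
  intro u hu m hm h
  by_contra hne
  have hfin : IsOfFinOrder u := isOfFinOrder_iff_pow_eq_one.2 ⟨m, hm, h⟩
  have hd : orderOf u ≠ 1 := fun h1 => hne (orderOf_eq_one_iff.1 h1)
  obtain ⟨q, hq, hqd⟩ := Nat.exists_prime_and_dvd hd
  have hz : u ^ (orderOf u / q) ∈ UU hp L := Subgroup.pow_mem _ hu _
  have h1 : (u ^ (orderOf u / q)) ^ q = 1 := by
    rw [← pow_mul, Nat.div_mul_cancel hqd, pow_orderOf_eq_one]
  have h2 : ((u ^ (orderOf u / q) : Lˣ) : L) = 1 := by
    refine root_eq_one hp hp3 hz.1 hq ?_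
    have := congrArg (Units.val : Lˣ → L) h1
    simpa using this
  have h3 : u ^ (orderOf u / q) = 1 := Units.ext h2
  have hpos : 0 < orderOf u := hfin.orderOf_pos
  have h4 := orderOf_dvd_of_pow_eq_one h3
  have h5 : orderOf u / q < orderOf u := Nat.div_lt_self hpos hq.one_lt
  have h6 : 0 < orderOf u / q := Nat.div_pos (Nat.le_of_dvd hpos hqd) hq.pos
  exact absurd (Nat.le_of_dvd h6 h4) (not_le.2 h5)

/-- an eigenvalue of a matrix with `p`-integral entries is `p`-integral -/
theorem pint_eig (hp : p.Prime) {r : ℕ} (B : Matrix (Fin r) (Fin r) L)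
    (hB : ∀ i j, PInt p (B i j)) (μ : L) (w : Fin r → L) (hw : w ≠ 0)
    (h : B.mulVec w = μ • w) : PInt p μ := by
  classical
  choose m hm hint using hB
  let M : ℕ := ∏ i, ∏ j, m i j
  have hM : ¬ p ∣ M := by
    intro hd
    obtain ⟨i, _, hi⟩ := (hp.prime.dvd_finsetProd_iff _).1 hd
    obtain ⟨j, _, hj⟩ := (hp.prime.dvd_finsetProd_iff _).1 hi
    exact hm i j hj
  refine ⟨M, hM, ?_⟩
  have hMB : ∀ i j, IsIntegral ℤ ((M : L) * B i j) := by
    intro i j
    have h1 : m i j ∣ M := (Finset.dvd_prod_of_mem (fun j => m i j) (Finset.mem_univ j)).trans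
      (Finset.dvd_prod_of_mem (fun i => ∏ j, m i j) (Finset.mem_univ i))
    obtain ⟨c, hc⟩ := h1
    have h2 : (M : L) * B i j = (c : L) * ((m i j : L) * B i j) := by
      rw [hc]
      push_cast
      ring
    rw [h2]
    exact (isIntegral_natCast c).mul (hint i j)
  let O := integralClosure ℤ L
  let A : Matrix (Fin r) (Fin r) O := fun i j => ⟨(M : L) * B i j, hMB i j⟩
  have hA : A.map (algebraMap O L) = (M : L) • B := by
    ext i j
    rfl
  have h1 : ((M : L) • B).mulVec w = ((M : L) * μ) • w := by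
    rw [Matrix.smul_mulVec, h, smul_smul]
  have h2 : (Matrix.scalar (Fin r) ((M : L) * μ) - (M : L) • B).det = 0 := by
    rw [← Matrix.exists_mulVec_eq_zero_iff]
    refine ⟨w, hw, ?_⟩
    rw [Matrix.sub_mulVec, h1]
    have h3 : (Matrix.scalar (Fin r) ((M : L) * μ)).mulVec w = ((M : L) * μ) • w := by
      ext i
      simp [Matrix.scalar_apply, Matrix.mulVec_diagonal]
    rw [h3, sub_self]
  have h4 : IsIntegral O ((M : L) * μ) := by
    refine ⟨A.charpoly, A.charpoly_monic, ?_⟩
    have h5 : Polynomial.eval ((M : L) * μ) (A.map (algebraMap O L)).charpoly = 0 := by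
      rw [hA, Matrix.eval_charpoly, h2]
    rw [Matrix.charpoly_map, Polynomial.eval_map] at h5
    exact h5
  exact isIntegral_trans _ h4

end Pool.Agent.TH717.GO
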