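import Mathlib
import Pool.Agent.TH717.GO.Orb
import Pool.Agent.TH717.GO.PI

set_option autoImplicit false

/-! # Orbits of groups of matrices on a variety that is not uniruled -/

namespace Pool.Agent.TH717.GO

open NumberField Pool.Agent.H533R3.SL

variable {K : Type} [Field K] {n r : ℕ} {H : Type} [Group H]

/-- the vector `M ρ(h) v` -/
def orb (M : Matrix (Fin (n + 1)) (Fin r) K) (ρ : H →* Matrix.GeneralLinearGroup (Fin r) K)
    (v : Fin r → K) (h : H) : Fin (n + 1) → K :=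
  M.mulVec ((ρ h : Matrix (Fin r) (Fin r) K).mulVec v)

/-- the points `(M ρ(h) v)`, `h` in the group, outside the hypersurface `G = 0` -/
def orbitOff {k : Type} [Field k] [Algebra k K] (G : MvPolynomial (Fin (n + 1)) k)
    (M : Matrix (Fin (n + 1)) (Fin r) K) (ρ : H →* Matrix.GeneralLinearGroup (Fin r) K)
    (v : Fin r → K) : Set (Projectivization K (Fin (n + 1) → K)) :=
  {P | ∃ (h : H) (h0 : orb M ρ v h ≠ 0), MvPolynomial.aeval (orb M ρ v h) G ≠ 0 ∧
    P = Projectivization.mk K (orb M ρ v h) h0}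

/-- reduction modulo `p` of a `p`-integral number -/
theorem exists_red [NumberField K] {p : ℕ} (hp : p.Prime) (a : K) (ha : PInt p a) :
    ∃ (y : 𝓞 K) (c : K), PInt p c ∧ a = y + p * c := by
  obtain ⟨m, hm, hint⟩ := ha
  have hcop : Nat.Coprime m p := ((Nat.Prime.coprime_iff_not_dvd hp).2 hm).symm
  obtain ⟨m', -, hm'⟩ := Nat.exists_mul_mod_eq_one_of_coprime hcop hp.one_lt
  have h1 : m * m' = 1 + p * (m * m' / p) := by
    conv_lhs => rw [← Nat.mod_add_div (m * m') p]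
    rw [hm']
  set t := m * m' / p with ht
  have h2 : (m : K) * m' = 1 + p * t := by exact_mod_cast congrArg (Nat.cast : ℕ → K) h1
  refine ⟨(m' : 𝓞 K) * ⟨(m : K) * a, hint⟩, -(t * a), ?_, ?_⟩
  · exact ((PInt.natCast hp t).mul hp ⟨m, hm, hint⟩).neg hp
  · have h3 : (((m' : 𝓞 K) * ⟨(m : K) * a, hint⟩ : 𝓞 K) : K) = m' * (m * a) := rfl
    rw [h3]
    linear_combination (-a) * h2

theorem card_quot [NumberField K] (p : ℕ) :
    Nat.card (𝓞 K ⧸ Ideal.span {(p : 𝓞 K)}) = p ^ Module.finrank ℚ K := by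
  rw [← Submodule.cardQuot_apply, ← Ideal.absNorm_apply, Ideal.absNorm_span_natCast,
    RingOfIntegers.rank]

theorem eig_mem_UU {L : Type} [Field L] [CharZero L] {p : ℕ} (hp : p.Prime)
    (A A' B B' : Matrix (Fin r) (Fin r) L) (hAA : A' * A = 1)
    (hA : A = 1 + (p : L) • B) (hA' : A' = 1 + (p : L) • B') (hB : ∀ i j, PInt p (B i j))
    (hB' : ∀ i j, PInt p (B' i j)) (μ : L)
    (hμ : Module.End.HasEigenvalue (Matrix.toLinAlgEquiv' A) μ) :
    ∃ u ∈ UU hp L, (u : L) = μ := by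
  obtain ⟨w, hw⟩ := hμ.exists_hasEigenvector
  have hw0 : w ≠ 0 := hw.2
  have h1 : A.mulVec w = μ • w := by
    have := hw.apply_eq_smul
    rwa [Matrix.toLinAlgEquiv'_apply] at this
  have hp0 : (p : L) ≠ 0 := Nat.cast_ne_zero.2 hp.ne_zero
  have h2 : A'.mulVec (μ • w) = w := by
    rw [← h1, Matrix.mulVec_mulVec, hAA, Matrix.one_mulVec]
  have hμ0 : μ ≠ 0 := by
    rintro rfl
    rw [zero_smul, Matrix.mulVec_zero] at h2
    exact hw0 h2.symm
  have h3 : A'.mulVec w = μ⁻¹ • w := by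
    rw [Matrix.mulVec_smul] at h2
    rw [← h2, smul_smul, inv_mul_cancel₀ hμ0, one_smul, h2]
  have key : ∀ (C D : Matrix (Fin r) (Fin r) L) (ν : L), C = 1 + (p : L) • D →
      (∀ i j, PInt p (D i j)) → C.mulVec w = ν • w → One1 p ν := by
    intro C D ν hC hD hν
    have h4 : D.mulVec w = ((ν - 1) / p) • w := by
      rw [hC, Matrix.add_mulVec, Matrix.one_mulVec, Matrix.smul_mulVec] at hν
      have h5 : (p : L) • D.mulVec w = (ν - 1) • w := by
        rw [sub_smul, one_smul, ← hν]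
        abel
      rw [div_eq_inv_mul, ← smul_smul, ← h5, smul_smul, inv_mul_cancel₀ hp0, one_smul]
    refine ⟨(ν - 1) / p, pint_eig hp D hD _ w hw0 h4, ?_⟩
    field_simp
    ring
  refine ⟨Units.mk0 μ hμ0, ⟨?_, ?_⟩, rfl⟩
  · exact key A B μ hA hB h1
  · rw [Units.val_inv_eq_inv_val, Units.val_mk0]
    exact key A' B' μ⁻¹ hA' hB' h3

/-- two group elements with the same reduction modulo `p` give the same point off `G = 0` -/
theorem same_point {k : Type} [Field k] [CharZero k] {p : ℕ} (hp : p.Prime) (hp3 : 3 ≤ p)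
    (FF : Finset (MvPolynomial (Fin (n + 1)) k)) (G : MvPolynomial (Fin (n + 1)) k)
    (hG : ∀ (L : Type) [Field L] [Algebra k L] [IsAlgClosed L] (f : Module.End L (Fin r → L))
        (U : Subgroup Lˣ), (∀ u ∈ U, ∀ m : ℕ, 0 < m → u ^ m = 1 → u = 1) →
        (∀ μ : L, f.HasEigenvalue μ → ∃ u ∈ U, (u : L) = μ) →
        ∀ (ℓ : (Fin r → L) →ₗ[L] (Fin (n + 1) → L)) (v : Fin r → L),
        (∀ F ∈ FF, ∀ m : ℕ, MvPolynomial.aeval (ℓ ((f ^ m) v)) F = 0) →
        MvPolynomial.aeval (ℓ v) G ≠ 0 →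
        ∀ (i i' : Fin (n + 1)) (m : ℕ), ℓ ((f ^ m) v) i * ℓ v i' = ℓ ((f ^ m) v) i' * ℓ v i)
    [Algebra k K] (M : Matrix (Fin (n + 1)) (Fin r) K)
    (ρ : H →* Matrix.GeneralLinearGroup (Fin r) K)
    (hρ : ∀ h i j, PInt p ((ρ h : Matrix (Fin r) (Fin r) K) i j)) (v : Fin r → K)
    (hX : ∀ h, ∀ F ∈ FF, MvPolynomial.aeval (orb M ρ v h) F = 0) (g g' : H)
    (hGg : MvPolynomial.aeval (orb M ρ v g) G ≠ 0) (D : Matrix (Fin r) (Fin r) K)
    (hD : ∀ i j, PInt p (D i j))
    (hgg : (ρ g' : Matrix (Fin r) (Fin r) K) = (ρ g : Matrix (Fin r) (Fin r) K) + (p : K) • D)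
    (i i' : Fin (n + 1)) :
    orb M ρ v g' i * orb M ρ v g i' = orb M ρ v g' i' * orb M ρ v g i := by
  classical
  have hK0 : CharZero K := charZero_of_injective_algebraMap (FaithfulSMul.algebraMap_injective k K)
  let L := AlgebraicClosure K
  let φ : K →+* L := algebraMap K L
  have hφ : Function.Injective φ := (algebraMap K L).injective
  -- the quotient of the two group elements
  let h : H := g⁻¹ * g'
  have hmul : ∀ a b : H, (ρ (a * b) : Matrix (Fin r) (Fin r) K) =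
      (ρ a : Matrix (Fin r) (Fin r) K) * (ρ b : Matrix (Fin r) (Fin r) K) := fun a b => by
    rw [map_mul, Units.val_mul]
  have hone : (ρ 1 : Matrix (Fin r) (Fin r) K) = 1 := by rw [map_one, Units.val_one]
  let Bh : Matrix (Fin r) (Fin r) K := (ρ g⁻¹ : Matrix (Fin r) (Fin r) K) * D
  let Bh' : Matrix (Fin r) (Fin r) K := -((ρ g'⁻¹ : Matrix (Fin r) (Fin r) K) * D)
  have hh : (ρ h : Matrix (Fin r) (Fin r) K) = 1 + (p : K) • Bh := by
    show (ρ (g⁻¹ * g') : Matrix (Fin r) (Fin r) K) = _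
    rw [hmul, hgg, mul_add, ← hmul, inv_mul_cancel, hone, Matrix.mul_smul]
  have hh' : (ρ h⁻¹ : Matrix (Fin r) (Fin r) K) = 1 + (p : K) • Bh' := by
    have h1 : h⁻¹ = g'⁻¹ * g := by simp [h]
    have h2 : (ρ g : Matrix (Fin r) (Fin r) K) =
        (ρ g' : Matrix (Fin r) (Fin r) K) - (p : K) • D := by rw [hgg]; abel
    rw [h1, hmul, h2, mul_sub, ← hmul, inv_mul_cancel, hone, Matrix.mul_smul]
    show _ = 1 + (p : K) • (-((ρ g'⁻¹ : Matrix (Fin r) (Fin r) K) * D))
    rw [smul_neg]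
    abel
  have hBh : ∀ i j, PInt p (Bh i j) := fun i j => by
    show PInt p (((ρ g⁻¹ : Matrix (Fin r) (Fin r) K) * D) i j)
    rw [Matrix.mul_apply]
    exact PInt.sum hp _ _ fun a _ => (hρ _ _ _).mul hp (hD _ _)
  have hBh' : ∀ i j, PInt p (Bh' i j) := fun i j => by
    show PInt p (-(((ρ g'⁻¹ : Matrix (Fin r) (Fin r) K) * D) i j))
    refine PInt.neg hp ?_
    rw [Matrix.mul_apply]
    exact PInt.sum hp _ _ fun a _ => (hρ _ _ _).mul hp (hD _ _)
  -- over the algebraic closure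
  have hmap : ∀ C : Matrix (Fin r) (Fin r) K, ((1 : Matrix (Fin r) (Fin r) K) + (p : K) • C).map φ =
      1 + (p : L) • C.map φ := by
    intro C
    have h1 : ((1 : Matrix (Fin r) (Fin r) K) + (p : K) • C).map φ =
        φ.mapMatrix (1 + (p : K) • C) := rfl
    rw [h1, map_add, map_one]
    congr 1
    ext a b
    simp
  have heig := fun μ hμ => eig_mem_UU (L := L) hp ((ρ h : Matrix (Fin r) (Fin r) K).map φ)
    ((ρ h⁻¹ : Matrix (Fin r) (Fin r) K).map φ) (Bh.map φ) (Bh'.map φ) (by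
      rw [← Matrix.map_mul, ← hmul, inv_mul_cancel, hone]
      exact Matrix.map_one φ (map_zero φ) (map_one φ)) (by rw [hh, hmap]) (by rw [hh', hmap])
      (fun i j => (hBh i j).map φ) (fun i j => (hBh' i j).map φ) μ hμ
  let ℓ : (Fin r → L) →ₗ[L] (Fin (n + 1) → L) :=
    Matrix.mulVecLin ((M * (ρ g : Matrix (Fin r) (Fin r) K)).map φ)
  let v' : Fin r → L := φ ∘ v
  have hρpow : ∀ m : ℕ, (ρ (h ^ m) : Matrix (Fin r) (Fin r) K) =
      (ρ h : Matrix (Fin r) (Fin r) K) ^ m := fun m => by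
    rw [map_pow, Units.val_pow_eq_pow_val]
  have hseq : ∀ m : ℕ, ℓ (((Matrix.toLinAlgEquiv' ((ρ h : Matrix (Fin r) (Fin r) K).map φ)) ^ m) v') =
      fun i => φ (orb M ρ v (g * h ^ m) i) := by
    intro m
    rw [← map_pow, Matrix.toLinAlgEquiv'_apply]
    have h1 : ((ρ h : Matrix (Fin r) (Fin r) K).map φ) ^ m =
        ((ρ (h ^ m) : Matrix (Fin r) (Fin r) K)).map φ := by
      have h2 : ((ρ h : Matrix (Fin r) (Fin r) K).map φ) =
          φ.mapMatrix (ρ h : Matrix (Fin r) (Fin r) K) := rfl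
      rw [h2, ← map_pow, ← hρpow]
      rfl
    rw [h1]
    show ((M * (ρ g : Matrix (Fin r) (Fin r) K)).map φ).mulVec
      (((ρ (h ^ m) : Matrix (Fin r) (Fin r) K)).map φ |>.mulVec v') = _
    rw [Matrix.mulVec_mulVec, ← Matrix.map_mul]
    funext i
    unfold orb
    rw [hmul, Matrix.mulVec_mulVec, ← Matrix.mul_assoc]
    exact (RingHom.map_mulVec φ _ v i).symm
  have hseq0 : ℓ v' = fun i => φ (orb M ρ v g i) := by
    have h1 := hseq 0
    rw [pow_zero, pow_zero, mul_one, Module.End.one_apply] at h1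
    exact h1
  have hfin := hG L (Matrix.toLinAlgEquiv' ((ρ h : Matrix (Fin r) (Fin r) K).map φ)) (UU hp L)
    (UU_torsionFree hp hp3) heig ℓ v' (by
      intro F hF m
      rw [hseq m]
      have h1 := MvPolynomial.aeval_algebraMap_apply (A := K) L (orb M ρ v (g * h ^ m)) F
      have h2 : (MvPolynomial.aeval fun i => φ (orb M ρ v (g * h ^ m) i)) F =
          φ (MvPolynomial.aeval (orb M ρ v (g * h ^ m)) F) := h1
      rw [h2, hX _ F hF, map_zero]) (by
      rw [hseq0]
      have h1 := MvPolynomial.aeval_algebraMap_apply (A := K) L (orb M ρ v g) G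
      have h2 : (MvPolynomial.aeval fun i => φ (orb M ρ v g i)) G =
          φ (MvPolynomial.aeval (orb M ρ v g) G) := h1
      rw [h2]
      intro h3
      exact hGg (hφ (by rw [h3, map_zero]))) i i' 1
  rw [hseq 1, hseq0, pow_one] at hfin
  have hg' : g * h = g' := by simp [h]
  rw [hg'] at hfin
  apply hφ
  rw [map_mul, map_mul]
  exact hfin

/-- **Strong Lang conjecture for orbits of groups of matrices.** -/
theorem main {k : Type} [Field k] [CharZero k] (FF : Finset (MvPolynomial (Fin (n + 1)) k))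
    (hprime : (Ideal.span (FF : Set (MvPolynomial (Fin (n + 1)) k))).IsPrime)
    (hnu : ¬ Uniruled (Ideal.span (FF : Set (MvPolynomial (Fin (n + 1)) k))))
    (hhom : ∀ F ∈ FF, ∃ e, F.IsHomogeneous e) (r : ℕ) :
    ∃ G : MvPolynomial (Fin (n + 1)) k, (∃ e, G.IsHomogeneous e) ∧
      G ∉ Ideal.span (FF : Set (MvPolynomial (Fin (n + 1)) k)) ∧
      ∀ (K : Type) [Field K] [NumberField K] [Algebra k K] (p : ℕ), p.Prime → 3 ≤ p →
        ∀ (H : Type) [Group H] (ρ : H →* Matrix.GeneralLinearGroup (Fin r) K),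
        (∀ h i j, PInt p ((ρ h : Matrix (Fin r) (Fin r) K) i j)) →
        ∀ (M : Matrix (Fin (n + 1)) (Fin r) K) (v : Fin r → K),
        (∀ h, ∀ F ∈ FF, MvPolynomial.aeval (orb M ρ v h) F = 0) →
        (orbitOff G M ρ v).encard ≤ (p ^ (Module.finrank ℚ K * r ^ 2) : ℕ) := by
  classical
  obtain ⟨G, hG1, hG2, hG3⟩ := orb_main FF hprime hnu hhom r
  refine ⟨G, hG1, hG2, ?_⟩
  intro K _ _ _ p hp hp3 H _ ρ hρ M v hX
  let I : Ideal (𝓞 K) := Ideal.span {(p : 𝓞 K)}
  have hcard : Nat.card (𝓞 K ⧸ I) = p ^ Module.finrank ℚ K := card_quot p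
  have hfin : Finite (𝓞 K ⧸ I) := Nat.finite_of_card_ne_zero (by
    rw [hcard]
    exact pow_ne_zero _ hp.ne_zero)
  choose y c hc hyc using fun (h : H) (i j : Fin r) =>
    exists_red hp ((ρ h : Matrix (Fin r) (Fin r) K) i j) (hρ h i j)
  let red : H → (Fin r → Fin r → 𝓞 K ⧸ I) := fun h i j => Ideal.Quotient.mk I (y h i j)
  have hred : ∀ g g' : H, red g = red g' → ∃ D : Matrix (Fin r) (Fin r) K,
      (∀ i j, PInt p (D i j)) ∧
      (ρ g' : Matrix (Fin r) (Fin r) K) = (ρ g : Matrix (Fin r) (Fin r) K) + (p : K) • D := by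
    intro g g' h
    have h1 : ∀ i j, ∃ z : 𝓞 K, y g' i j - y g i j = p * z := by
      intro i j
      have h2 : Ideal.Quotient.mk I (y g' i j) = Ideal.Quotient.mk I (y g i j) :=
        (congrFun (congrFun h i) j).symm
      rw [Ideal.Quotient.eq, Ideal.mem_span_singleton] at h2
      exact h2
    choose z hz using h1
    refine ⟨Matrix.of fun i j => (z i j : K) + (c g' i j + -c g i j), fun i j => ?_, ?_⟩
    · rw [Matrix.of_apply]
      exact (PInt.of_int hp (z i j).2).add hp ((hc g' i j).add hp ((hc g i j).neg hp))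
    · ext i j
      rw [Matrix.add_apply, Matrix.smul_apply, smul_eq_mul, Matrix.of_apply, hyc g' i j,
        hyc g i j]
      have h3 : (y g' i j : K) - y g i j = p * z i j := by
        have := congrArg (fun a : 𝓞 K => (a : K)) (hz i j)
        simpa using this
      linear_combination h3
  -- choose a group element for each point
  have hsel : ∀ P : Projectivization K (Fin (n + 1) → K), ∃ h : H, P ∈ orbitOff G M ρ v →
      ∃ h0 : orb M ρ v h ≠ 0, MvPolynomial.aeval (orb M ρ v h) G ≠ 0 ∧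
        P = Projectivization.mk K (orb M ρ v h) h0 := by
    intro P
    by_cases hP : P ∈ orbitOff G M ρ v
    · obtain ⟨h, h0, h1⟩ := hP
      exact ⟨h, fun _ => ⟨h0, h1⟩⟩
    · exact ⟨1, fun h => absurd h hP⟩
  choose sel hsel using hsel
  have hinj : Set.InjOn (fun P => red (sel P)) (orbitOff G M ρ v) := by
    intro P hP P' hP' heq
    obtain ⟨h0, hG, hPe⟩ := hsel P hP
    obtain ⟨h0', hG', hPe'⟩ := hsel P' hP'
    obtain ⟨D, hD, hDe⟩ := hred (sel P) (sel P') heq
    have hkey := same_point (n := n) (r := r) hp hp3 FF G hG3 M ρ hρ v hX (sel P) (sel P') hG D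
      hD hDe
    rw [hPe, hPe', Projectivization.mk_eq_mk_iff']
    obtain ⟨i0, hi0⟩ : ∃ i, orb M ρ v (sel P') i ≠ 0 := by
      by_contra hcon
      push Not at hcon
      exact h0' (funext hcon)
    refine ⟨orb M ρ v (sel P) i0 / orb M ρ v (sel P') i0, funext fun i => ?_⟩
    rw [Pi.smul_apply, smul_eq_mul, div_mul_eq_mul_div, div_eq_iff hi0]
    have := hkey i i0
    linear_combination this
  calc (orbitOff G M ρ v).encard ≤ (Set.univ : Set (Fin r → Fin r → 𝓞 K ⧸ I)).encard :=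
        Set.encard_le_encard_of_injOn (fun _ _ => Set.mem_univ _) hinj
    _ = (p ^ (Module.finrank ℚ K * r ^ 2) : ℕ) := by
        have h1 : Fintype (𝓞 K ⧸ I) := Fintype.ofFinite _
        rw [Set.encard_univ, ENat.card_eq_coe_fintype_card]
        congr 1
        rw [Fintype.card_fun, Fintype.card_fun, Fintype.card_fin, ← Nat.card_eq_fintype_card,
          hcard]
        rw [← pow_mul, ← pow_mul]
        congr 1
        ring

end Pool.Agent.TH717.GO
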