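import Mathlib
import Pool.Agent.TH717.GO.Fin
import Pool.Agent.TH409.SH.Conv

set_option autoImplicit false

/-! # Finitely generated groups, and the converse for uniruled varieties -/

namespace Pool.Agent.TH717.GO

open NumberField Pool.Agent.H533R3.SL

variable {n r : ℕ}

theorem exists_den {K : Type} [Field K] [NumberField K] (a : K) :
    ∃ m : ℕ, m ≠ 0 ∧ IsIntegral ℤ ((m : K) * a) := by
  have h1 : IsAlgebraic ℤ a :=
    (IsFractionRing.isAlgebraic_iff ℤ ℚ K).2 (IsAlgebraic.of_finite ℚ a)
  obtain ⟨y, hy, hint⟩ := h1.exists_integral_multiple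
  refine ⟨y.natAbs, by simpa using hy, ?_⟩
  rw [zsmul_eq_mul] at hint
  rcases Int.natAbs_eq y with h | h
  · rw [h] at hint
    simpa using hint
  · rw [h] at hint
    have := hint.neg
    simpa using this

/-- the group of matrices with `p`-integral entries whose inverse has `p`-integral entries -/
def GLp {K : Type} [Field K] {p : ℕ} (hp : p.Prime) (r : ℕ) :
    Subgroup (Matrix.GeneralLinearGroup (Fin r) K) where
  carrier := {g | (∀ i j, PInt p ((g : Matrix (Fin r) (Fin r) K) i j)) ∧
    ∀ i j, PInt p (((g⁻¹ : Matrix.GeneralLinearGroup (Fin r) K) : Matrix (Fin r) (Fin r) K) i j)}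
  one_mem' := by
    have h1 : ∀ i j, PInt p ((1 : Matrix (Fin r) (Fin r) K) i j) := by
      intro i j
      rw [Matrix.one_apply]
      split_ifs
      · simpa using PInt.natCast (L := K) hp 1
      · simpa using PInt.natCast (L := K) hp 0
    refine ⟨?_, ?_⟩
    · simpa using h1
    · simpa using h1
  mul_mem' := by
    have h1 : ∀ A B : Matrix (Fin r) (Fin r) K, (∀ i j, PInt p (A i j)) →
        (∀ i j, PInt p (B i j)) → ∀ i j, PInt p ((A * B) i j) := by
      intro A B hA hB i j
      rw [Matrix.mul_apply]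
      exact PInt.sum hp _ _ fun a _ => (hA i a).mul hp (hB a j)
    rintro a b ⟨ha, ha'⟩ ⟨hb, hb'⟩
    refine ⟨?_, ?_⟩
    · rw [Units.val_mul]
      exact h1 _ _ ha hb
    · rw [mul_inv_rev, Units.val_mul]
      exact h1 _ _ hb' ha'
  inv_mem' := by
    rintro a ⟨ha, ha'⟩
    exact ⟨ha', by rwa [inv_inv]⟩

/-- the entries of a finitely generated group of matrices are `p`-integral for some odd `p` -/
theorem exists_prime_of_fg {K : Type} [Field K] [NumberField K] {H : Type} [Group H]
    (hH : Group.FG H) (ρ : H →* Matrix.GeneralLinearGroup (Fin r) K) :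
    ∃ p : ℕ, p.Prime ∧ 3 ≤ p ∧ ∀ h i j, PInt p ((ρ h : Matrix (Fin r) (Fin r) K) i j) := by
  classical
  obtain ⟨S, hS⟩ := Group.fg_def.1 hH
  choose m hm hint using fun a : K => exists_den a
  let N : ℕ := ∏ s ∈ S, ∏ i : Fin r, ∏ j : Fin r,
    (m ((ρ s : Matrix (Fin r) (Fin r) K) i j) * m ((ρ s⁻¹ : Matrix (Fin r) (Fin r) K) i j))
  have hN : N ≠ 0 := Finset.prod_ne_zero_iff.2 fun s _ => Finset.prod_ne_zero_iff.2 fun i _ =>
    Finset.prod_ne_zero_iff.2 fun j _ => mul_ne_zero (hm _) (hm _)
  obtain ⟨p, hpN, hp⟩ := Nat.exists_infinite_primes (N + 3)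
  have hpN' : ¬ p ∣ N := fun h => by
    have := Nat.le_of_dvd (Nat.pos_of_ne_zero hN) h
    omega
  refine ⟨p, hp, by omega, ?_⟩
  have hall : (⊤ : Subgroup H) ≤ (GLp (K := K) hp r).comap ρ := by
    rw [← hS, Subgroup.closure_le]
    intro s hs
    have hd : ∀ i j, (m ((ρ s : Matrix (Fin r) (Fin r) K) i j) *
        m ((ρ s⁻¹ : Matrix (Fin r) (Fin r) K) i j)) ∣ N := by
      intro i j
      exact ((Finset.dvd_prod_of_mem (fun j => m ((ρ s : Matrix (Fin r) (Fin r) K) i j) *
          m ((ρ s⁻¹ : Matrix (Fin r) (Fin r) K) i j)) (Finset.mem_univ j)).trans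
        (Finset.dvd_prod_of_mem (fun i => ∏ j, m ((ρ s : Matrix (Fin r) (Fin r) K) i j) *
          m ((ρ s⁻¹ : Matrix (Fin r) (Fin r) K) i j)) (Finset.mem_univ i))).trans
        (Finset.dvd_prod_of_mem (fun s => ∏ i, ∏ j, m ((ρ s : Matrix (Fin r) (Fin r) K) i j) *
          m ((ρ s⁻¹ : Matrix (Fin r) (Fin r) K) i j)) hs)
    refine ⟨fun i j => ⟨_, fun h => hpN' ((h.trans (dvd_mul_right _ _)).trans (hd i j)),
      hint _⟩, ?_⟩
    have h1 : ((ρ s)⁻¹ : Matrix.GeneralLinearGroup (Fin r) K) = ρ s⁻¹ := (map_inv ρ s).symm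
    rw [h1]
    exact fun i j => ⟨_, fun h => hpN' ((h.trans (dvd_mul_left _ _)).trans (hd i j)), hint _⟩
  intro h
  exact (hall (Subgroup.mem_top h)).1

/-- powers of the diagonal matrix with entries `2 ^ j` -/
noncomputable def dia (K : Type) [Field K] [CharZero K] (N : ℕ) :
    Multiplicative ℤ →* Matrix.GeneralLinearGroup (Fin N) K where
  toFun m :=
    { val := Matrix.diagonal fun j : Fin N => ((2 : K) ^ (Multiplicative.toAdd m)) ^ (j : ℕ)
      inv := Matrix.diagonal fun j : Fin N => ((2 : K) ^ (-Multiplicative.toAdd m)) ^ (j : ℕ)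
      val_inv := by
        rw [Matrix.diagonal_mul_diagonal, ← Matrix.diagonal_one]
        congr 1
        funext j
        rw [← mul_pow, ← zpow_add₀ two_ne_zero, add_neg_cancel, zpow_zero, one_pow]
      inv_val := by
        rw [Matrix.diagonal_mul_diagonal, ← Matrix.diagonal_one]
        congr 1
        funext j
        rw [← mul_pow, ← zpow_add₀ two_ne_zero, neg_add_cancel, zpow_zero, one_pow] }
  map_one' := by
    apply Units.ext
    show Matrix.diagonal _ = (1 : Matrix (Fin N) (Fin N) K)
    rw [← Matrix.diagonal_one]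
    congr 1
    funext j
    simp
  map_mul' a b := by
    apply Units.ext
    show Matrix.diagonal _ = Matrix.diagonal _ * Matrix.diagonal _
    rw [Matrix.diagonal_mul_diagonal]
    congr 1
    funext j
    rw [← mul_pow, toAdd_mul, zpow_add₀ two_ne_zero]

theorem dia_pint {K : Type} [Field K] [CharZero K] (N : ℕ) {p : ℕ} (hp : p.Prime) (hp3 : 3 ≤ p)
    (m : Multiplicative ℤ) (i j : Fin N) :
    PInt p ((dia K N m : Matrix (Fin N) (Fin N) K) i j) := by
  show PInt p (Matrix.diagonal (fun j : Fin N => ((2 : K) ^ (Multiplicative.toAdd m)) ^ (j : ℕ)) i j)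
  rw [Matrix.diagonal_apply]
  split_ifs
  · have h2 : ¬ p ∣ 2 := fun h => by
      have := Nat.le_of_dvd (by norm_num) h
      omega
    have hpow : ∀ (a : K) (e : ℕ), PInt p a → PInt p (a ^ e) := by
      intro a e ha
      induction e with
      | zero => simpa using PInt.natCast (L := K) hp 1
      | succ e ih =>
        rw [pow_succ]
        exact ih.mul hp ha
    apply hpow
    have hhalf : PInt p ((2 : K)⁻¹) := ⟨2, h2, by
      have : ((2 : ℕ) : K) * (2 : K)⁻¹ = 1 := by norm_num
      rw [this]
      exact isIntegral_one⟩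
    have h22 : PInt p (2 : K) := by simpa using PInt.natCast (L := K) hp 2
    rcases Int.eq_nat_or_neg (Multiplicative.toAdd m) with ⟨e, he | he⟩
    · rw [he, zpow_natCast]
      exact hpow _ _ h22
    · rw [he, zpow_neg, zpow_natCast, ← inv_pow]
      exact hpow _ _ hhalf
  · simpa using PInt.natCast (L := K) hp 0

/-- on a uniruled variety some orbits of cyclic groups have infinitely many points off `G = 0` -/
theorem converse {k : Type} [Field k] [NumberField k] (FF : Finset (MvPolynomial (Fin (n + 1)) k))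
    (hu : Uniruled (Ideal.span (FF : Set (MvPolynomial (Fin (n + 1)) k)))) :
    ∃ r : ℕ, ∀ G : MvPolynomial (Fin (n + 1)) k, (∃ e, G.IsHomogeneous e) →
      G ∉ Ideal.span (FF : Set (MvPolynomial (Fin (n + 1)) k)) →
      ∃ (K : Type) (_ : Field K) (_ : NumberField K) (_ : Algebra k K)
        (ρ : Multiplicative ℤ →* Matrix.GeneralLinearGroup (Fin r) K)
        (M : Matrix (Fin (n + 1)) (Fin r) K) (v : Fin r → K),
        (∀ p : ℕ, p.Prime → 3 ≤ p → ∀ h i j, PInt p ((ρ h : Matrix (Fin r) (Fin r) K) i j)) ∧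
        (∀ h, ∀ F ∈ FF, MvPolynomial.aeval (orb M ρ v h) F = 0) ∧
        (orbitOff G M ρ v).Infinite := by
  classical
  obtain ⟨L, iL, iA, p, hp1, hp2, hp3⟩ := hu
  set N : ℕ := Finset.univ.sup (fun i => (p i).natDegree) + 1 with hN
  have hNc : ∀ i m, N ≤ m → (p i).coeff m = 0 := by
    intro i m hm
    apply Polynomial.coeff_eq_zero_of_natDegree_lt
    have := Finset.le_sup (f := fun i => (p i).natDegree) (Finset.mem_univ i)
    omega
  refine ⟨N, ?_⟩
  intro G hG1 hG2
  obtain ⟨K, iK, iN, iAK, w, h1, h2, h3⟩ := Pool.Agent.TH409.SH.specialise k L p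
    (FF : Set (MvPolynomial (Fin (n + 1)) k)) (by
      intro F hF
      exact hp1 F (Ideal.subset_span hF)) N hNc hp3 G (hp2 G hG1 hG2)
  let q : Fin (n + 1) → Polynomial K := cur w (fun j => (j : ℕ))
  have hevG : ∀ (F : MvPolynomial (Fin (n + 1)) k) (t : K), (MvPolynomial.aeval q F).eval t =
      MvPolynomial.aeval (fun i => (q i).eval t) F := by
    intro F t
    exact MvPolynomial.comp_aeval_apply (R := k) q
      ((Polynomial.aeval t : Polynomial K →ₐ[K] K).restrictScalars k) F
  let M : Matrix (Fin (n + 1)) (Fin N) K := fun i j => w j i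
  have horb : ∀ m : Multiplicative ℤ, orb M (dia K N) (fun _ => 1) m =
      fun i => (q i).eval ((2 : K) ^ (Multiplicative.toAdd m)) := by
    intro m
    funext i
    show ∑ j, M i j * ((Matrix.diagonal fun j : Fin N =>
      ((2 : K) ^ (Multiplicative.toAdd m)) ^ (j : ℕ)).mulVec fun _ => 1) j = _
    show _ = (cur w (fun j : Fin N => (j : ℕ)) i).eval _
    unfold cur
    rw [Polynomial.eval_finsetSum]
    refine Finset.sum_congr rfl fun j _ => ?_
    rw [Matrix.mulVec_diagonal, Polynomial.eval_mul, Polynomial.eval_C, Polynomial.eval_pow,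
      Polynomial.eval_X, mul_one]
  refine ⟨K, iK, iN, iAK, dia K N, M, fun _ => 1, fun p hp hp3 h i j => dia_pint N hp hp3 h i j,
    ?_, ?_⟩
  · intro h F hF
    rw [horb h, ← hevG, h1 F hF, Polynomial.eval_zero]
  · intro hfin
    -- the curve would be constant
    have hG0 : MvPolynomial.aeval q G ≠ 0 := by
      intro h
      apply h3
      have := hevG G 1
      rw [h, Polynomial.eval_zero] at this
      exact this.symm
    obtain ⟨i1, i2, a, b, hab⟩ := Pool.Agent.TH409.SH.nonconst_of q h2
    have hq0 : q i1 ≠ 0 ∨ q i2 ≠ 0 := by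
      by_contra h
      push Not at h
      apply hab
      rw [h.1, h.2]
    have h2inj : Function.Injective (fun m : ℕ => (2 : K) ^ m) := by
      intro m m' h
      have h4 : ((2 ^ m : ℕ) : K) = ((2 ^ m' : ℕ) : K) := by push_cast; exact h
      exact Nat.pow_right_injective (le_refl 2) (Nat.cast_injective h4)
    -- all but finitely many powers of two are good
    let Q : Polynomial K := MvPolynomial.aeval q G * (if q i1 = 0 then q i2 else q i1)
    have hQ : Q ≠ 0 := by
      refine mul_ne_zero hG0 ?_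
      split_ifs with h
      · rcases hq0 with h' | h'
        · exact absurd h h'
        · exact h'
      · exact h
    let good : Set ℕ := {m | Q.eval ((2 : K) ^ m) ≠ 0}
    have hgood : goodᶜ.Finite := by
      refine Set.Finite.of_finite_image (f := fun m : ℕ => (2 : K) ^ m) ?_ h2inj.injOn
      refine (Q.roots.toFinset.finite_toSet).subset ?_
      rintro _ ⟨m, hm, rfl⟩
      have : Q.eval ((2 : K) ^ m) = 0 := by
        by_contra h
        exact hm h
      simpa [hQ] using this
    have hginf : good.Infinite := by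
      intro h
      have := h.union hgood
      rw [Set.union_compl_self] at this
      exact Set.infinite_univ this
    have hgne : ∀ m ∈ good, (fun i => (q i).eval ((2 : K) ^ m)) ≠ 0 := by
      intro m hm h0
      apply hm
      show (MvPolynomial.aeval q G * (if q i1 = 0 then q i2 else q i1)).eval ((2 : K) ^ m) = 0
      rw [Polynomial.eval_mul]
      have h5 : ∀ i, (q i).eval ((2 : K) ^ m) = 0 := fun i => congrFun h0 i
      split_ifs
      · rw [h5, mul_zero]
      · rw [h5, mul_zero]
    have hgG : ∀ m ∈ good, MvPolynomial.aeval (fun i => (q i).eval ((2 : K) ^ m)) G ≠ 0 := by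
      intro m hm h0
      apply hm
      show (MvPolynomial.aeval q G * (if q i1 = 0 then q i2 else q i1)).eval ((2 : K) ^ m) = 0
      rw [Polynomial.eval_mul, hevG, h0, zero_mul]
    let pt : ℕ → Projectivization K (Fin (n + 1) → K) := fun m =>
      if h : (fun i => (q i).eval ((2 : K) ^ m)) ≠ 0 then Projectivization.mk K _ h
      else Projectivization.mk K (fun _ => 1) (fun h => one_ne_zero (congrFun h 0))
    have hpt : ∀ m ∈ good, pt m ∈ orbitOff G M (dia K N) (fun _ => 1) := by
      intro m hm
      have horbm : orb M (dia K N) (fun _ => 1) (Multiplicative.ofAdd (m : ℤ)) =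
          fun i => (q i).eval ((2 : K) ^ m) := by
        rw [horb]
        simp
      refine ⟨Multiplicative.ofAdd (m : ℤ), by rw [horbm]; exact hgne m hm, by
        rw [horbm]; exact hgG m hm, ?_⟩
      simp only [pt, dif_pos (hgne m hm)]
      rw [Projectivization.mk_eq_mk_iff']
      exact ⟨1, by rw [one_smul, horbm]⟩
    obtain ⟨P, -, hP⟩ : ∃ P ∈ orbitOff G M (dia K N) (fun _ => 1),
        (good ∩ pt ⁻¹' {P}).Infinite := by
      by_contra hcon
      push Not at hcon
      apply hginf
      have h6 : good ⊆ ⋃ P ∈ orbitOff G M (dia K N) (fun _ => 1), good ∩ pt ⁻¹' {P} := by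
        intro m hm
        exact Set.mem_biUnion (hpt m hm) ⟨hm, rfl⟩
      exact (Set.Finite.biUnion hfin fun P hP => Set.not_infinite.1 (by
        intro h7
        exact absurd h7 (by simpa using hcon P hP))).subset h6
    -- the point is constant along infinitely many parameters
    obtain ⟨m0, hm0, hm0P⟩ := hP.nonempty
    have hrel : ∀ i j, q i * Polynomial.C ((q j).eval ((2 : K) ^ m0)) =
        q j * Polynomial.C ((q i).eval ((2 : K) ^ m0)) := by
      intro i j
      rw [← sub_eq_zero]
      refine Polynomial.eq_zero_of_infinite_isRoot _ ?_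
      refine Set.Infinite.mono ?_ (hP.image h2inj.injOn)
      rintro _ ⟨m, ⟨hm, hmP⟩, rfl⟩
      have h8 : pt m = pt m0 := by
        rw [show pt m = P from hmP, show pt m0 = P from hm0P]
      simp only [pt, dif_pos (hgne m hm), dif_pos (hgne m0 hm0)] at h8
      rw [Projectivization.mk_eq_mk_iff'] at h8
      obtain ⟨c, hc⟩ := h8
      have hci : ∀ i, c * (q i).eval ((2 : K) ^ m0) = (q i).eval ((2 : K) ^ m) := fun i =>
        congrFun hc i
      show (q i * Polynomial.C ((q j).eval ((2 : K) ^ m0)) -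
        q j * Polynomial.C ((q i).eval ((2 : K) ^ m0))).eval ((2 : K) ^ m) = 0
      rw [Polynomial.eval_sub, Polynomial.eval_mul, Polynomial.eval_mul, Polynomial.eval_C,
        Polynomial.eval_C, ← hci i, ← hci j]
      ring
    obtain ⟨i0, hi0⟩ : ∃ i, (q i).eval ((2 : K) ^ m0) ≠ 0 := by
      by_contra h
      push Not at h
      exact hgne m0 hm0 (funext h)
    apply hab
    have e1 := congrArg (Polynomial.eval a) (hrel i1 i0)
    have e2 := congrArg (Polynomial.eval b) (hrel i2 i0)
    have e3 := congrArg (Polynomial.eval a) (hrel i2 i0)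
    have e4 := congrArg (Polynomial.eval b) (hrel i1 i0)
    simp only [Polynomial.eval_mul, Polynomial.eval_C] at e1 e2 e3 e4
    have hne2 : (q i0).eval ((2 : K) ^ m0) * (q i0).eval ((2 : K) ^ m0) ≠ 0 := mul_ne_zero hi0 hi0
    apply mul_right_cancel₀ hne2
    calc (q i1).eval a * (q i2).eval b * ((q i0).eval ((2 : K) ^ m0) * (q i0).eval ((2 : K) ^ m0))
        = ((q i1).eval a * (q i0).eval ((2 : K) ^ m0)) *
          ((q i2).eval b * (q i0).eval ((2 : K) ^ m0)) := by ring
      _ = ((q i0).eval a * (q i1).eval ((2 : K) ^ m0)) *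
          ((q i0).eval b * (q i2).eval ((2 : K) ^ m0)) := by rw [e1, e2]
      _ = ((q i0).eval a * (q i2).eval ((2 : K) ^ m0)) *
          ((q i0).eval b * (q i1).eval ((2 : K) ^ m0)) := by ring
      _ = ((q i2).eval a * (q i0).eval ((2 : K) ^ m0)) *
          ((q i1).eval b * (q i0).eval ((2 : K) ^ m0)) := by rw [e3, e4]
      _ = (q i2).eval a * (q i1).eval b *
          ((q i0).eval ((2 : K) ^ m0) * (q i0).eval ((2 : K) ^ m0)) := by ring

end Pool.Agent.TH717.GO
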