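import Mathlib
import Pool.Agent.TH717.GO.Cut
import Pool.Agent.TH717.GO.Lin
import Pool.Agent.TH717.GO.Beta

set_option autoImplicit false

/-! # Orbits of one linear map on a variety: general form -/

namespace Pool.Agent.TH717.GO

open Polynomial Pool.Agent.H533R3.SL

variable {L : Type} [Field L]

/-- the curves with at most `R` exponents on the zero set of `FF` which are not contained in `G = 0`
at the parameter `1` are constant -/
def CurCond {k : Type} [Field k] {n : ℕ} (FF : Set (MvPolynomial (Fin (n + 1)) k))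
    (G : MvPolynomial (Fin (n + 1)) k) (R : ℕ) : Prop :=
  ∀ (L : Type) [Field L] [Algebra k L] (p : Fin (n + 1) → Polynomial L) (S : Finset ℕ),
    S.card ≤ R → (∀ i, (p i).support ⊆ S) → (∀ F ∈ FF, MvPolynomial.aeval p F = 0) →
    MvPolynomial.aeval (fun i => (p i).eval 1) G ≠ 0 →
    ∀ i i', p i * Polynomial.C ((p i').eval 1) = p i' * Polynomial.C ((p i).eval 1)

/-- exponential polynomials on a variety whose curves off `G = 0` are constant -/
theorem exp_poly_core {k : Type} [Field k] [CharZero k] {n : ℕ}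
    (FF : Set (MvPolynomial (Fin (n + 1)) k)) (hhom : ∀ F ∈ FF, ∃ e, F.IsHomogeneous e)
    (G : MvPolynomial (Fin (n + 1)) k) (s r : ℕ) (hG3 : CurCond FF G (s * r)) :
      ∀ (L : Type) [Field L] [Algebra k L] (Λ : Subgroup Lˣ) (S : Finset Λ), S.card ≤ s →
        ∀ (β : Λ →* Multiplicative ℤ), Set.InjOn β (S : Set Λ) →
        ∀ (a : Fin (n + 1) → Λ → Polynomial L), (∀ i, ∀ μ ∈ S, (a i μ).degree < r) →
        (∀ F ∈ FF, ∀ m : ℕ, MvPolynomial.aeval
          (fun i => ∑ μ ∈ S, (a i μ).eval (m : L) * ((μ : Lˣ) : L) ^ m) F = 0) →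
        MvPolynomial.aeval (fun i => ∑ μ ∈ S, (a i μ).eval 0) G ≠ 0 →
        ∀ (i i' : Fin (n + 1)) (m : ℕ),
          (∑ μ ∈ S, (a i μ).eval (m : L) * ((μ : Lˣ) : L) ^ m) * ∑ μ ∈ S, (a i' μ).eval 0 =
          (∑ μ ∈ S, (a i' μ).eval (m : L) * ((μ : Lˣ) : L) ^ m) * ∑ μ ∈ S, (a i μ).eval 0 := by
  classical
  intro L _ _ Λ S hSs β hβ a ha hF hG i i' m
  have : CharZero L := charZero_of_injective_algebraMap (FaithfulSMul.algebraMap_injective k L)
  -- exponents, separated by `r`
  let β' : Λ →* Multiplicative ℤ := (powMonoidHom r).comp β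
  have hβ' : ∀ μ, Multiplicative.toAdd (β' μ) = r * Multiplicative.toAdd (β μ) := by
    intro μ
    show Multiplicative.toAdd (β μ ^ r) = _
    rw [toAdd_pow]
    simp
  let B : ℕ := ∑ μ ∈ S, (Multiplicative.toAdd (β' μ)).natAbs
  have hB : ∀ μ ∈ S, 0 ≤ Multiplicative.toAdd (β' μ) + (B : ℤ) := by
    intro μ hμ
    have h1 : (Multiplicative.toAdd (β' μ)).natAbs ≤ B :=
      Finset.single_le_sum (f := fun μ => (Multiplicative.toAdd (β' μ)).natAbs)
        (fun _ _ => Nat.zero_le _) hμ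
    omega
  let b : Λ → ℕ := fun μ => (Multiplicative.toAdd (β' μ) + (B : ℤ)).toNat
  have hb : ∀ μ ∈ S, ∀ ν ∈ S, μ ≠ ν → b μ + r ≤ b ν ∨ b ν + r ≤ b μ := by
    intro μ hμ ν hν hne
    have h1 : Multiplicative.toAdd (β μ) ≠ Multiplicative.toAdd (β ν) := fun h =>
      hne (hβ hμ hν (Multiplicative.toAdd.injective h))
    have h2 := Int.toNat_of_nonneg (hB μ hμ)
    have h3 := Int.toNat_of_nonneg (hB ν hν)
    have h4 : ((b μ : ℕ) : ℤ) = r * Multiplicative.toAdd (β μ) + B := by
      rw [← hβ']; exact h2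
    have h5 : ((b ν : ℕ) : ℤ) = r * Multiplicative.toAdd (β ν) + B := by
      rw [← hβ']; exact h3
    rcases lt_or_gt_of_ne h1 with h | h
    · left
      have h6 : (r : ℤ) * (Multiplicative.toAdd (β μ) + 1) ≤ r * Multiplicative.toAdd (β ν) :=
        mul_le_mul_of_nonneg_left (by omega) (by positivity)
      zify
      rw [h4, h5]
      linarith
    · right
      have h6 : (r : ℤ) * (Multiplicative.toAdd (β ν) + 1) ≤ r * Multiplicative.toAdd (β μ) :=
        mul_le_mul_of_nonneg_left (by omega) (by positivity)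
      zify
      rw [h4, h5]
      linarith
  obtain ⟨T, hT1, hT2⟩ := crv_support (L := L) S b r
  have hev : ∀ i, (crv S b (a i)).eval 1 = ∑ μ ∈ S, (a i μ).eval 0 := fun i =>
    crv_eval_one S b (a i)
  have hconst := hG3 L (fun i => crv S b (a i)) T
    (hT1.trans (Nat.mul_le_mul_right r hSs)) (fun i => hT2 (a i) (ha i)) (by
      intro F hFF
      refine aeval_crv Λ β' B S hB a F (hhom F hFF) fun m => ?_
      simp only [ev_mk]
      exact hF F hFF m) (by
      simp only [hev]
      exact hG) i i'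
  simp only [hev] at hconst
  -- the difference
  set u : L := ∑ μ ∈ S, (a i μ).eval 0 with hu
  set u' : L := ∑ μ ∈ S, (a i' μ).eval 0 with hu'
  let c : Λ → Polynomial L := fun μ => a i μ * C u' - a i' μ * C u
  have hc0 : crv S b c = 0 := by
    have h1 : crv S b c = crv S b (a i) * C u' - crv S b (a i') * C u := by
      unfold crv
      rw [Finset.sum_mul, Finset.sum_mul, ← Finset.sum_sub_distrib]
      refine Finset.sum_congr rfl fun μ _ => ?_
      have h2 : dn L (c μ) = dn L (a i μ) * C u' - dn L (a i' μ) * C u := by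
        have h3 : ∀ v : L, dn L (C v) = C v := fun v => by
          show (C v).comp _ = _
          rw [C_comp]
        show dn L (a i μ * C u' - a i' μ * C u) = _
        rw [map_sub, map_mul, map_mul, h3, h3]
      rw [h2]
      ring
    rw [h1, hconst, sub_self]
  have hcdeg : ∀ μ ∈ S, (c μ).degree < r := by
    intro μ hμ
    have h1 : ∀ (P : Polynomial L) (v : L), P.degree < r → (P * C v).degree < r := by
      intro P v hP
      refine lt_of_le_of_lt ?_ hP
      calc (P * C v).degree ≤ P.degree + (C v).degree := degree_mul_le _ _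
        _ ≤ P.degree + 0 := by gcongr; exact degree_C_le
        _ = P.degree := add_zero _
    exact lt_of_le_of_lt (degree_sub_le _ _) (max_lt (h1 _ _ (ha i μ hμ)) (h1 _ _ (ha i' μ hμ)))
  have hc := crv_sep S b r hb c hcdeg hc0
  rw [Finset.sum_mul, Finset.sum_mul, ← sub_eq_zero, ← Finset.sum_sub_distrib]
  refine Finset.sum_eq_zero fun μ hμ => ?_
  have h1 := congrArg (fun P => Polynomial.eval (m : L) P) (hc μ hμ)
  simp only [c, eval_sub, eval_mul, eval_C, eval_zero] at h1
  have h2 : (a i μ).eval (m : L) * ((μ : Lˣ) : L) ^ m * u' -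
      (a i' μ).eval (m : L) * ((μ : Lˣ) : L) ^ m * u =
      ((a i μ).eval (m : L) * u' - (a i' μ).eval (m : L) * u) * ((μ : Lˣ) : L) ^ m := by ring
  rw [h2, h1, zero_mul]

/-- orbits of linear maps `f` whose eigenvalues lie in a torsion-free group: a point of the orbit off
`G = 0` is fixed by `f` -/
theorem orb_core {k : Type} [Field k] [CharZero k] {n : ℕ}
    (FF : Set (MvPolynomial (Fin (n + 1)) k)) (hhom : ∀ F ∈ FF, ∃ e, F.IsHomogeneous e)
    (G : MvPolynomial (Fin (n + 1)) k) (r : ℕ) (hG3' : CurCond FF G (r * r)) :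
      ∀ (L : Type) [Field L] [Algebra k L] [IsAlgClosed L] (f : Module.End L (Fin r → L))
        (U : Subgroup Lˣ), (∀ u ∈ U, ∀ m : ℕ, 0 < m → u ^ m = 1 → u = 1) →
        (∀ μ : L, f.HasEigenvalue μ → ∃ u ∈ U, (u : L) = μ) →
        ∀ (ℓ : (Fin r → L) →ₗ[L] (Fin (n + 1) → L)) (v : Fin r → L),
        (∀ F ∈ FF, ∀ m : ℕ, MvPolynomial.aeval (ℓ ((f ^ m) v)) F = 0) →
        MvPolynomial.aeval (ℓ v) G ≠ 0 →
        ∀ (i i' : Fin (n + 1)) (m : ℕ), ℓ ((f ^ m) v) i * ℓ v i' = ℓ ((f ^ m) v) i' * ℓ v i := by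
  classical
  have hG3 := exp_poly_core FF hhom G r r hG3'
  intro L _ _ _ f U hU hfU ℓ v hF hG i i' m
  have : CharZero L := charZero_of_injective_algebraMap (FaithfulSMul.algebraMap_injective k L)
  let E : Set Lˣ := {u | f.HasEigenvalue (u : L)}
  have hEfin : E.Finite := by
    have h1 : (Units.val '' E : Set L).Finite := by
      by_contra hinf
      obtain ⟨T, hT, hTc⟩ := Set.Infinite.exists_subset_card_eq hinf (r + 1)
      have h1 := card_le_of_eig f T (by
        intro μ hμ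
        obtain ⟨u, hu, rfl⟩ := hT hμ
        exact hu)
      omega
    exact Set.Finite.of_finite_image h1 (fun a _ b _ h => Units.ext h)
  let Λ : Subgroup Lˣ := Subgroup.closure E
  have hΛU : Λ ≤ U := by
    rw [Subgroup.closure_le]
    intro u hu
    obtain ⟨u', hu', h⟩ := hfU (u : L) hu
    rwa [← Units.ext h]
  have hΛ : ∀ μ : L, f.HasEigenvalue μ → ∃ ν : Λ, ((ν : Lˣ) : L) = μ := by
    intro μ hμ
    obtain ⟨u, hu, rfl⟩ := hfU μ hμ
    exact ⟨⟨u, Subgroup.subset_closure hμ⟩, rfl⟩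
  have hfg : Group.FG Λ := by
    rw [Group.fg_iff_subgroup_fg]
    exact ⟨hEfin.toFinset, by rw [Set.Finite.coe_toFinset]⟩
  obtain ⟨S, hS1, hS2⟩ := seq_rep f Λ hΛ
  obtain ⟨β, hβ⟩ := exists_beta hfg (fun g m hm h => by
    have h1 := hU g (hΛU g.2) m hm (by
      have := congrArg (Subtype.val : Λ → Lˣ) h
      simpa using this)
    exact Subtype.ext h1) S
  have hrep : ∀ i : Fin (n + 1), ∃ a : Λ → Polynomial L, (∀ μ ∈ S, (a μ).degree < r) ∧
      ∀ m : ℕ, ℓ ((f ^ m) v) i = ∑ μ ∈ S, (a μ).eval (m : L) * ((μ : Lˣ) : L) ^ m := fun i =>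
    hS2 ((LinearMap.proj i).comp ℓ) v
  choose a ha hae using hrep
  have h0 : ∀ i, ℓ v i = ∑ μ ∈ S, (a i μ).eval 0 := by
    intro i
    have h1 := hae i 0
    rw [pow_zero, Module.End.one_apply] at h1
    rw [h1]
    refine Finset.sum_congr rfl fun μ _ => ?_
    rw [pow_zero, mul_one, Nat.cast_zero]
  have hxm : ∀ m : ℕ, ℓ ((f ^ m) v) = fun i => ∑ μ ∈ S, (a i μ).eval (m : L) *
      ((μ : Lˣ) : L) ^ m := fun m => funext fun i => hae i m
  have hfin := hG3 L Λ S hS1 β hβ a ha (fun F hFF m => by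
    rw [← hxm m]
    exact hF F hFF m) (by
      have h1 : (fun i => ∑ μ ∈ S, (a i μ).eval 0) = ℓ v := funext fun i => (h0 i).symm
      rw [h1]
      exact hG) i i' m
  rw [hae i m, hae i' m, h0 i, h0 i']
  exact hfin

end Pool.Agent.TH717.GO
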