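import Mathlib
import Pool.Agent.TH717.GO.Core
import Pool.Agent.TH717.GO.Conv

set_option autoImplicit false

/-! # Orbits of groups of matrices on a variety without rational curves -/

namespace Pool.Agent.TH717.GO

open NumberField Pool.Agent.H533R3.SL

variable {n r : ℕ}

/-- orbits of groups of matrices on a variety whose curves off `G = 0` are constant -/
theorem main_core {k : Type} [Field k] [CharZero k] (FF : Finset (MvPolynomial (Fin (n + 1)) k))
    (hhom : ∀ F ∈ FF, ∃ e, F.IsHomogeneous e) (G : MvPolynomial (Fin (n + 1)) k) (r : ℕ)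
    (hG : CurCond (FF : Set (MvPolynomial (Fin (n + 1)) k)) G (r * r)) :
      ∀ (K : Type) [Field K] [NumberField K] [Algebra k K] (p : ℕ), p.Prime → 3 ≤ p →
        ∀ (H : Type) [Group H] (ρ : H →* Matrix.GeneralLinearGroup (Fin r) K),
        (∀ h i j, PInt p ((ρ h : Matrix (Fin r) (Fin r) K) i j)) →
        ∀ (M : Matrix (Fin (n + 1)) (Fin r) K) (v : Fin r → K),
        (∀ h, ∀ F ∈ FF, MvPolynomial.aeval (orb M ρ v h) F = 0) →
        (orbitOff G M ρ v).encard ≤ (p ^ (Module.finrank ℚ K * r ^ 2) : ℕ) := by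
  classical
  have hG3 := orb_core (FF : Set (MvPolynomial (Fin (n + 1)) k)) (fun F hF => hhom F hF) G r hG
  intro K _ _ _ p hp hp3 H _ ρ hρ M v hX
  let I : Ideal (𝓞 K) := Ideal.span {(p : 𝓞 K)}
  have hcard : Nat.card (𝓞 K ⧸ I) = p ^ Module.finrank ℚ K := card_quot p
  have hfin : Finite (𝓞 K ⧸ I) := Nat.finite_of_card_ne_zero (by
    rw [hcard]
    exact pow_ne_zero _ hp.ne_zero)
  choose y c hc hyc using fun (h : H) (i j : Fin r) =>
    exists_red hp ((ρ h : Matrix (Fin r) (Fin r) K) i j) (hρ h i j)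
  let red : H → (Fin r → Fin r → 𝓞 K ⧸ I) := fun h i j => Ideal.Quotient.mk I (y h i j)
  have hred : ∀ g g' : H, red g = red g' → ∃ D : Matrix (Fin r) (Fin r) K,
      (∀ i j, PInt p (D i j)) ∧
      (ρ g' : Matrix (Fin r) (Fin r) K) = (ρ g : Matrix (Fin r) (Fin r) K) + (p : K) • D := by
    intro g g' h
    have h1 : ∀ i j, ∃ z : 𝓞 K, y g' i j - y g i j = p * z := by
      intro i j
      have h2 : Ideal.Quotient.mk I (y g' i j) = Ideal.Quotient.mk I (y g i j) :=
        (congrFun (congrFun h i) j).symm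
      rw [Ideal.Quotient.eq, Ideal.mem_span_singleton] at h2
      exact h2
    choose z hz using h1
    refine ⟨Matrix.of fun i j => (z i j : K) + (c g' i j + -c g i j), fun i j => ?_, ?_⟩
    · rw [Matrix.of_apply]
      exact (PInt.of_int hp (z i j).2).add hp ((hc g' i j).add hp ((hc g i j).neg hp))
    · ext i j
      rw [Matrix.add_apply, Matrix.smul_apply, smul_eq_mul, Matrix.of_apply, hyc g' i j,
        hyc g i j]
      have h3 : (y g' i j : K) - y g i j = p * z i j := by
        have := congrArg (fun a : 𝓞 K => (a : K)) (hz i j)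
        simpa using this
      linear_combination h3
  -- choose a group element for each point
  have hsel : ∀ P : Projectivization K (Fin (n + 1) → K), ∃ h : H, P ∈ orbitOff G M ρ v →
      ∃ h0 : orb M ρ v h ≠ 0, MvPolynomial.aeval (orb M ρ v h) G ≠ 0 ∧
        P = Projectivization.mk K (orb M ρ v h) h0 := by
    intro P
    by_cases hP : P ∈ orbitOff G M ρ v
    · obtain ⟨h, h0, h1⟩ := hP
      exact ⟨h, fun _ => ⟨h0, h1⟩⟩
    · exact ⟨1, fun h => absurd h hP⟩
  choose sel hsel using hsel
  have hinj : Set.InjOn (fun P => red (sel P)) (orbitOff G M ρ v) := by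
    intro P hP P' hP' heq
    obtain ⟨h0, hG, hPe⟩ := hsel P hP
    obtain ⟨h0', hG', hPe'⟩ := hsel P' hP'
    obtain ⟨D, hD, hDe⟩ := hred (sel P) (sel P') heq
    have hkey := same_point (n := n) (r := r) hp hp3 FF G hG3 M ρ hρ v hX (sel P) (sel P') hG D
      hD hDe
    rw [hPe, hPe', Projectivization.mk_eq_mk_iff']
    obtain ⟨i0, hi0⟩ : ∃ i, orb M ρ v (sel P') i ≠ 0 := by
      by_contra hcon
      push Not at hcon
      exact h0' (funext hcon)
    refine ⟨orb M ρ v (sel P) i0 / orb M ρ v (sel P') i0, funext fun i => ?_⟩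
    rw [Pi.smul_apply, smul_eq_mul, div_mul_eq_mul_div, div_eq_iff hi0]
    have := hkey i i0
    linear_combination this
  calc (orbitOff G M ρ v).encard ≤ (Set.univ : Set (Fin r → Fin r → 𝓞 K ⧸ I)).encard :=
        Set.encard_le_encard_of_injOn (fun _ _ => Set.mem_univ _) hinj
    _ = (p ^ (Module.finrank ℚ K * r ^ 2) : ℕ) := by
        have h1 : Fintype (𝓞 K ⧸ I) := Fintype.ofFinite _
        rw [Set.encard_univ, ENat.card_eq_coe_fintype_card]
        congr 1
        rw [Fintype.card_fun, Fintype.card_fun, Fintype.card_fin, ← Nat.card_eq_fintype_card,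
          hcard]
        rw [← pow_mul, ← pow_mul]
        congr 1
        ring

/-- the points `(M ρ(h) v)`, `h` in the group -/
def orbitPts {K : Type} [Field K] {H : Type} [Group H] (M : Matrix (Fin (n + 1)) (Fin r) K)
    (ρ : H →* Matrix.GeneralLinearGroup (Fin r) K) (v : Fin r → K) :
    Set (Projectivization K (Fin (n + 1) → K)) :=
  {P | ∃ (h : H) (h0 : orb M ρ v h ≠ 0), P = Projectivization.mk K (orb M ρ v h) h0}

theorem orbitPts_eq {k K : Type} [Field k] [Field K] [Algebra k K] {H : Type} [Group H]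
    (M : Matrix (Fin (n + 1)) (Fin r) K) (ρ : H →* Matrix.GeneralLinearGroup (Fin r) K)
    (v : Fin r → K) : orbitPts M ρ v = orbitOff (1 : MvPolynomial (Fin (n + 1)) k) M ρ v := by
  ext P
  constructor
  · rintro ⟨h, h0, hP⟩
    exact ⟨h, h0, by rw [map_one]; exact one_ne_zero, hP⟩
  · rintro ⟨h, h0, -, hP⟩
    exact ⟨h, h0, hP⟩

/-- the variety with the equations `FF`, embedded in `ℂ` by `σ`, contains no nonconstant rational
curve -/
def NoRatC {k : Type} [Field k] (σ : k →+* ℂ) (FF : Set (MvPolynomial (Fin (n + 1)) k)) : Prop :=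
  ∀ q : Fin (n + 1) → Polynomial ℂ,
    (∀ F ∈ FF, MvPolynomial.eval₂ (Polynomial.C.comp σ) q F = 0) →
    ∀ i j (a b : ℂ), (q i).eval a * (q j).eval b = (q j).eval a * (q i).eval b

/-- nonconstant curves over some extension give nonconstant curves over `ℂ` -/
theorem noRat_all {k : Type} [Field k] [NumberField k] (σ : k →+* ℂ)
    (FF : Set (MvPolynomial (Fin (n + 1)) k)) (h : NoRatC σ FF) (R : ℕ) :
    CurCond FF (1 : MvPolynomial (Fin (n + 1)) k) R := by
  intro L _ _ p S _ _ hF _ i i'
  by_contra hne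
  set N : ℕ := Finset.univ.sup (fun i => (p i).natDegree) + 1 with hN
  have hNc : ∀ i m, N ≤ m → (p i).coeff m = 0 := by
    intro i m hm
    apply Polynomial.coeff_eq_zero_of_natDegree_lt
    have := Finset.le_sup (f := fun i => (p i).natDegree) (Finset.mem_univ i)
    omega
  obtain ⟨K, iK, iN, iAK, w, h1, h2, -⟩ := Pool.Agent.TH409.SH.specialise k L p FF hF N hNc
    ⟨i, i', hne⟩ 1 (by rw [map_one]; exact one_ne_zero)
  have : Module.Finite k K := Module.Finite.of_restrictScalars_finite ℚ k K
  let _ : Algebra k ℂ := σ.toAlgebra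
  let τ : K →ₐ[k] ℂ := IsAlgClosed.lift
  have hτinj : Function.Injective τ.toRingHom := τ.toRingHom.injective
  obtain ⟨i1, i2, a, b, hab⟩ := Pool.Agent.TH409.SH.nonconst_of _ h2
  apply hab
  apply hτinj
  have hcomp : τ.toRingHom.comp (algebraMap k K) = σ := τ.comp_algebraMap
  let q : Fin (n + 1) → Polynomial K := cur w (fun j => (j : ℕ))
  have hev : ∀ i (a : K), ((q i).map τ.toRingHom).eval (τ.toRingHom a) =
      τ.toRingHom ((q i).eval a) := by
    intro i a
    rw [Polynomial.eval_map, Polynomial.eval₂_at_apply]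
  have h3 := h (fun i => (q i).map τ.toRingHom) (by
    intro F hFF
    have h4 := congrArg (Polynomial.mapRingHom τ.toRingHom) (h1 F hFF)
    rw [map_zero, MvPolynomial.aeval_def, MvPolynomial.hom_eval₂] at h4
    have h5 : (Polynomial.mapRingHom τ.toRingHom).comp (algebraMap k (Polynomial K)) =
        Polynomial.C.comp σ := by
      rw [← hcomp]
      refine RingHom.ext fun x => ?_
      show Polynomial.map τ.toRingHom (algebraMap k (Polynomial K) x) = _
      rw [Polynomial.algebraMap_apply, Polynomial.map_C]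
      rfl
    rw [h5] at h4
    exact h4) i1 i2 (τ.toRingHom a) (τ.toRingHom b)
  rw [hev, hev, hev, hev, ← map_mul, ← map_mul] at h3
  exact h3

end Pool.Agent.TH717.GO
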