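import Mathlib
import Pool.Agent.TH717.GO.Hyb

set_option autoImplicit false

/-! # Rational curves give infinite orbits -/

namespace Pool.Agent.TH717.GO

open NumberField Pool.Agent.H533R3.SL

variable {n r : ℕ}

/-- the matrix of coefficients of a curve -/
def M0 {K : Type} {N : ℕ} (w : Fin N → Fin (n + 1) → K) : Matrix (Fin (n + 1)) (Fin N) K :=
  fun i j => w j i

/-- on a nonconstant curve over a number field an orbit of a cyclic group is infinite -/
theorem curve_orbit {k : Type} [Field k] (FF : Set (MvPolynomial (Fin (n + 1)) k))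
    (G : MvPolynomial (Fin (n + 1)) k) {K : Type} [Field K] [NumberField K] [Algebra k K] {N : ℕ}
    (w : Fin N → Fin (n + 1) → K)
    (h1 : ∀ F ∈ FF, MvPolynomial.aeval (cur w (fun j => (j : ℕ))) F = 0)
    (h2 : ∃ i j, cur w (fun j => (j : ℕ)) i * Polynomial.C ((cur w (fun j => (j : ℕ)) j).eval 1) ≠
        cur w (fun j => (j : ℕ)) j * Polynomial.C ((cur w (fun j => (j : ℕ)) i).eval 1))
    (h3 : MvPolynomial.aeval (fun i => (cur w (fun j => (j : ℕ)) i).eval 1) G ≠ 0) :
    (∀ h, ∀ F ∈ FF, MvPolynomial.aeval (orb (M0 w) (dia K N) (fun _ => 1) h) F = 0) ∧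
        (orbitOff G (M0 w) (dia K N) (fun _ => 1)).Infinite := by
  classical
  let q : Fin (n + 1) → Polynomial K := cur w (fun j => (j : ℕ))
  have hevG : ∀ (F : MvPolynomial (Fin (n + 1)) k) (t : K), (MvPolynomial.aeval q F).eval t =
      MvPolynomial.aeval (fun i => (q i).eval t) F := by
    intro F t
    exact MvPolynomial.comp_aeval_apply (R := k) q
      ((Polynomial.aeval t : Polynomial K →ₐ[K] K).restrictScalars k) F
  have horb : ∀ m : Multiplicative ℤ, orb (M0 w) (dia K N) (fun _ => 1) m =
      fun i => (q i).eval ((2 : K) ^ (Multiplicative.toAdd m)) := by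
    intro m
    funext i
    show ∑ j, M0 w i j * ((Matrix.diagonal fun j : Fin N =>
      ((2 : K) ^ (Multiplicative.toAdd m)) ^ (j : ℕ)).mulVec fun _ => 1) j = _
    show _ = (cur w (fun j : Fin N => (j : ℕ)) i).eval _
    unfold cur
    rw [Polynomial.eval_finsetSum]
    refine Finset.sum_congr rfl fun j _ => ?_
    rw [Matrix.mulVec_diagonal, Polynomial.eval_mul, Polynomial.eval_C, Polynomial.eval_pow,
      Polynomial.eval_X, mul_one]
    rfl
  refine ⟨?_, ?_⟩
  · intro h F hF
    rw [horb h, ← hevG, h1 F hF, Polynomial.eval_zero]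
  · intro hfin
    -- the curve would be constant
    have hG0 : MvPolynomial.aeval q G ≠ 0 := by
      intro h
      apply h3
      have := hevG G 1
      rw [h, Polynomial.eval_zero] at this
      exact this.symm
    obtain ⟨i1, i2, a, b, hab⟩ := Pool.Agent.TH409.SH.nonconst_of q h2
    have hq0 : q i1 ≠ 0 ∨ q i2 ≠ 0 := by
      by_contra h
      push Not at h
      apply hab
      rw [h.1, h.2]
    have h2inj : Function.Injective (fun m : ℕ => (2 : K) ^ m) := by
      intro m m' h
      have h4 : ((2 ^ m : ℕ) : K) = ((2 ^ m' : ℕ) : K) := by push_cast; exact h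
      exact Nat.pow_right_injective (le_refl 2) (Nat.cast_injective h4)
    -- all but finitely many powers of two are good
    let Q : Polynomial K := MvPolynomial.aeval q G * (if q i1 = 0 then q i2 else q i1)
    have hQ : Q ≠ 0 := by
      refine mul_ne_zero hG0 ?_
      split_ifs with h
      · rcases hq0 with h' | h'
        · exact absurd h h'
        · exact h'
      · exact h
    let good : Set ℕ := {m | Q.eval ((2 : K) ^ m) ≠ 0}
    have hgood : goodᶜ.Finite := by
      refine Set.Finite.of_finite_image (f := fun m : ℕ => (2 : K) ^ m) ?_ h2inj.injOn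
      refine (Q.roots.toFinset.finite_toSet).subset ?_
      rintro _ ⟨m, hm, rfl⟩
      have : Q.eval ((2 : K) ^ m) = 0 := by
        by_contra h
        exact hm h
      simpa [hQ] using this
    have hginf : good.Infinite := by
      intro h
      have := h.union hgood
      rw [Set.union_compl_self] at this
      exact Set.infinite_univ this
    have hgne : ∀ m ∈ good, (fun i => (q i).eval ((2 : K) ^ m)) ≠ 0 := by
      intro m hm h0
      apply hm
      show (MvPolynomial.aeval q G * (if q i1 = 0 then q i2 else q i1)).eval ((2 : K) ^ m) = 0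
      rw [Polynomial.eval_mul]
      have h5 : ∀ i, (q i).eval ((2 : K) ^ m) = 0 := fun i => congrFun h0 i
      split_ifs
      · rw [h5, mul_zero]
      · rw [h5, mul_zero]
    have hgG : ∀ m ∈ good, MvPolynomial.aeval (fun i => (q i).eval ((2 : K) ^ m)) G ≠ 0 := by
      intro m hm h0
      apply hm
      show (MvPolynomial.aeval q G * (if q i1 = 0 then q i2 else q i1)).eval ((2 : K) ^ m) = 0
      rw [Polynomial.eval_mul, hevG, h0, zero_mul]
    let pt : ℕ → Projectivization K (Fin (n + 1) → K) := fun m =>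
      if h : (fun i => (q i).eval ((2 : K) ^ m)) ≠ 0 then Projectivization.mk K _ h
      else Projectivization.mk K (fun _ => 1) (fun h => one_ne_zero (congrFun h 0))
    have hpt : ∀ m ∈ good, pt m ∈ orbitOff G (M0 w) (dia K N) (fun _ => 1) := by
      intro m hm
      have horbm : orb (M0 w) (dia K N) (fun _ => 1) (Multiplicative.ofAdd (m : ℤ)) =
          fun i => (q i).eval ((2 : K) ^ m) := by
        rw [horb]
        simp
      refine ⟨Multiplicative.ofAdd (m : ℤ), by rw [horbm]; exact hgne m hm, by
        rw [horbm]; exact hgG m hm, ?_⟩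
      simp only [pt, dif_pos (hgne m hm)]
      rw [Projectivization.mk_eq_mk_iff']
      exact ⟨1, by rw [one_smul, horbm]⟩
    obtain ⟨P, -, hP⟩ : ∃ P ∈ orbitOff G (M0 w) (dia K N) (fun _ => 1),
        (good ∩ pt ⁻¹' {P}).Infinite := by
      by_contra hcon
      push Not at hcon
      apply hginf
      have h6 : good ⊆ ⋃ P ∈ orbitOff G (M0 w) (dia K N) (fun _ => 1), good ∩ pt ⁻¹' {P} := by
        intro m hm
        exact Set.mem_biUnion (hpt m hm) ⟨hm, rfl⟩
      exact (Set.Finite.biUnion hfin fun P hP => Set.not_infinite.1 (by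
        intro h7
        exact absurd h7 (by simpa using hcon P hP))).subset h6
    -- the point is constant along infinitely many parameters
    obtain ⟨m0, hm0, hm0P⟩ := hP.nonempty
    have hrel : ∀ i j, q i * Polynomial.C ((q j).eval ((2 : K) ^ m0)) =
        q j * Polynomial.C ((q i).eval ((2 : K) ^ m0)) := by
      intro i j
      rw [← sub_eq_zero]
      refine Polynomial.eq_zero_of_infinite_isRoot _ ?_
      refine Set.Infinite.mono ?_ (hP.image h2inj.injOn)
      rintro _ ⟨m, ⟨hm, hmP⟩, rfl⟩
      have h8 : pt m = pt m0 := by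
        rw [show pt m = P from hmP, show pt m0 = P from hm0P]
      simp only [pt, dif_pos (hgne m hm), dif_pos (hgne m0 hm0)] at h8
      rw [Projectivization.mk_eq_mk_iff'] at h8
      obtain ⟨c, hc⟩ := h8
      have hci : ∀ i, c * (q i).eval ((2 : K) ^ m0) = (q i).eval ((2 : K) ^ m) := fun i =>
        congrFun hc i
      show (q i * Polynomial.C ((q j).eval ((2 : K) ^ m0)) -
        q j * Polynomial.C ((q i).eval ((2 : K) ^ m0))).eval ((2 : K) ^ m) = 0
      rw [Polynomial.eval_sub, Polynomial.eval_mul, Polynomial.eval_mul, Polynomial.eval_C,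
        Polynomial.eval_C, ← hci i, ← hci j]
      ring
    obtain ⟨i0, hi0⟩ : ∃ i, (q i).eval ((2 : K) ^ m0) ≠ 0 := by
      by_contra h
      push Not at h
      exact hgne m0 hm0 (funext h)
    apply hab
    have e1 := congrArg (Polynomial.eval a) (hrel i1 i0)
    have e2 := congrArg (Polynomial.eval b) (hrel i2 i0)
    have e3 := congrArg (Polynomial.eval a) (hrel i2 i0)
    have e4 := congrArg (Polynomial.eval b) (hrel i1 i0)
    simp only [Polynomial.eval_mul, Polynomial.eval_C] at e1 e2 e3 e4
    have hne2 : (q i0).eval ((2 : K) ^ m0) * (q i0).eval ((2 : K) ^ m0) ≠ 0 := mul_ne_zero hi0 hi0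
    apply mul_right_cancel₀ hne2
    calc (q i1).eval a * (q i2).eval b * ((q i0).eval ((2 : K) ^ m0) * (q i0).eval ((2 : K) ^ m0))
        = ((q i1).eval a * (q i0).eval ((2 : K) ^ m0)) *
          ((q i2).eval b * (q i0).eval ((2 : K) ^ m0)) := by ring
      _ = ((q i0).eval a * (q i1).eval ((2 : K) ^ m0)) *
          ((q i0).eval b * (q i2).eval ((2 : K) ^ m0)) := by rw [e1, e2]
      _ = ((q i0).eval a * (q i2).eval ((2 : K) ^ m0)) *
          ((q i0).eval b * (q i1).eval ((2 : K) ^ m0)) := by ring
      _ = ((q i2).eval a * (q i0).eval ((2 : K) ^ m0)) *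
          ((q i1).eval b * (q i0).eval ((2 : K) ^ m0)) := by rw [e3, e4]
      _ = (q i2).eval a * (q i1).eval b *
          ((q i0).eval ((2 : K) ^ m0) * (q i0).eval ((2 : K) ^ m0)) := by ring

/-- a rational curve over `ℂ` gives an infinite orbit of a cyclic group over a number field -/
theorem converse_noRat {k : Type} [Field k] [NumberField k] (σ : k →+* ℂ)
    (FF : Set (MvPolynomial (Fin (n + 1)) k)) (h : ¬ NoRatC σ FF) :
    ∃ (r : ℕ) (K : Type) (_ : Field K) (_ : NumberField K) (_ : Algebra k K)
        (ρ : Multiplicative ℤ →* Matrix.GeneralLinearGroup (Fin r) K)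
        (M : Matrix (Fin (n + 1)) (Fin r) K) (v : Fin r → K),
        (∀ p : ℕ, p.Prime → 3 ≤ p → ∀ h i j, PInt p ((ρ h : Matrix (Fin r) (Fin r) K) i j)) ∧
        (∀ h, ∀ F ∈ FF, MvPolynomial.aeval (orb M ρ v h) F = 0) ∧
        (orbitPts M ρ v).Infinite := by
  classical
  unfold NoRatC at h
  push Not at h
  obtain ⟨q, hq, i, j, a, b, hab⟩ := h
  let _ : Algebra k ℂ := σ.toAlgebra
  let sh : Polynomial ℂ →+* Polynomial ℂ := Polynomial.compRingHom (Polynomial.X + Polynomial.C (b - 1))
  let p : Fin (n + 1) → Polynomial ℂ := fun i => sh (q i)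
  have hpe : ∀ i (t : ℂ), (p i).eval t = (q i).eval (t + (b - 1)) := by
    intro i t
    show ((q i).comp _).eval t = _
    rw [Polynomial.eval_comp, Polynomial.eval_add, Polynomial.eval_X, Polynomial.eval_C]
  have hp : ∀ F ∈ FF, MvPolynomial.aeval p F = 0 := by
    intro F hF
    have h1 := congrArg sh (hq F hF)
    rw [map_zero, MvPolynomial.hom_eval₂] at h1
    rw [MvPolynomial.aeval_def]
    have h2 : sh.comp (Polynomial.C.comp σ) = algebraMap k (Polynomial ℂ) := by
      refine RingHom.ext fun x => ?_
      show (Polynomial.C (σ x)).comp _ = _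
      rw [Polynomial.C_comp, Polynomial.algebraMap_apply]
      rfl
    rw [← h2]
    exact h1
  set N : ℕ := Finset.univ.sup (fun i => (p i).natDegree) + 1 with hN
  have hNc : ∀ i m, N ≤ m → (p i).coeff m = 0 := by
    intro i m hm
    apply Polynomial.coeff_eq_zero_of_natDegree_lt
    have := Finset.le_sup (f := fun i => (p i).natDegree) (Finset.mem_univ i)
    omega
  obtain ⟨K, iK, iN, iAK, w, h1, h2, h3⟩ := Pool.Agent.TH409.SH.specialise k ℂ p FF hp N hNc
    ⟨i, j, fun heq => hab (by
      have h4 := congrArg (Polynomial.eval (a - (b - 1))) heq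
      rw [Polynomial.eval_mul, Polynomial.eval_mul, Polynomial.eval_C, Polynomial.eval_C, hpe, hpe,
        hpe, hpe] at h4
      simpa using h4)⟩ 1 (by rw [map_one]; exact one_ne_zero)
  obtain ⟨h5, h6⟩ := curve_orbit FF 1 w h1 h2 h3
  refine ⟨N, K, iK, iN, iAK, dia K N, M0 w, fun _ => 1,
    fun p hp hp3 h i j => dia_pint N hp hp3 h i j, h5, ?_⟩
  rw [orbitPts_eq (k := k)]
  exact h6

end Pool.Agent.TH717.GO
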