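import Mathlib
import Pool.Agent.TH717.GO.Conv

set_option autoImplicit false

/-! # Finitely generated rings have finite residue fields of almost all characteristics -/

namespace Pool.Agent.TH717.GO

theorem jac_int : IsJacobsonRing ℤ := by
  rw [isJacobsonRing_iff_prime_eq]
  intro P hP
  by_cases h : P = ⊥
  · subst h
    rw [eq_bot_iff]
    intro x hx
    rw [Ideal.mem_jacobson_bot] at hx
    have h1 := hx x
    rw [Int.isUnit_iff] at h1
    rw [Ideal.mem_bot]
    rcases h1 with h1 | h1
    · have : x * x = 0 := by linarith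
      exact mul_self_eq_zero.1 this
    · exfalso
      nlinarith [mul_self_nonneg x]
  · have : P.IsMaximal := IsPrime.to_maximal_ideal h
    exact Ideal.jacobson_eq_self_of_isMaximal

theorem exists_residue_nf {E : Type} [Field E] [NumberField E] (S : Finset E) :
    ∃ N : ℕ, N ≠ 0 ∧ ∀ p : ℕ, p.Prime → ¬ p ∣ N → ∃ (F : Type) (_ : Field F) (_ : Finite F),
      ringChar F = p ∧ Nonempty (Algebra.adjoin ℤ (S : Set E) →+* F) := by
  classical
  choose m hm hint using fun a : E => exists_den a
  refine ⟨∏ s ∈ S, m s, Finset.prod_ne_zero_iff.2 fun s _ => hm s, fun p hp hpN => ?_⟩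
  let B := Algebra.adjoin ℤ (S : Set E)
  have hB : ∀ b ∈ B, PInt p b := by
    intro b hb
    induction hb using Algebra.adjoin_induction with
    | mem x hx =>
      exact ⟨m x, fun h => hpN (h.trans (Finset.dvd_prod_of_mem m hx)), hint x⟩
    | algebraMap z =>
      have := PInt.intCast (L := E) hp z
      simpa using this
    | add x y _ _ hx hy => exact hx.add hp hy
    | mul x y _ _ hx hy => exact hx.mul hp hy
  have hpu : ¬ IsUnit (p : B) := by
    intro h
    obtain ⟨c, hc⟩ := h.exists_right_inv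
    have h1 : (p : E) * (c : E) = 1 := by
      have := congrArg (Subtype.val : B → E) hc
      push_cast at this
      exact this
    have h2 := hB c c.2
    have hp0 : (p : E) ≠ 0 := Nat.cast_ne_zero.2 hp.ne_zero
    have h3 : (c : E) = ((1 : ℕ) : E) / p := by
      rw [eq_div_iff hp0, mul_comm, h1]
      simp
    rw [h3] at h2
    have h4 := dvd_of_pint hp 1 h2
    exact hp.one_lt.ne' (Nat.dvd_one.1 h4)
  obtain ⟨M, hM, hpM⟩ := Ideal.exists_le_maximal (Ideal.span {(p : B)}) (by
    intro h1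
    exact hpu (Ideal.span_singleton_eq_top.1 h1))
  have hft : Algebra.FiniteType ℤ B := by
    rw [← Subalgebra.fg_iff_finiteType]
    exact Subalgebra.fg_adjoin_finset S
  let F := B ⧸ M
  let _ : Field F := Ideal.Quotient.field M
  have hftF : Algebra.FiniteType ℤ F :=
    Algebra.FiniteType.of_surjective (Ideal.Quotient.mkₐ ℤ M) (Ideal.Quotient.mkₐ_surjective ℤ M)
  have hjac := jac_int
  have hfin : Module.Finite ℤ F := finite_of_finite_type_of_isJacobsonRing ℤ F
  have hp0 : (p : F) = 0 := by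
    have h1 : Ideal.Quotient.mk M (p : B) = 0 :=
      Ideal.Quotient.eq_zero_iff_mem.2 (hpM (Ideal.mem_span_singleton_self _))
    rwa [map_natCast] at h1
  have htor : Module.IsTorsion ℤ F := by
    intro x
    refine ⟨⟨(p : ℤ), mem_nonZeroDivisors_of_ne_zero (by exact_mod_cast hp.ne_zero)⟩, ?_⟩
    show (p : ℤ) • x = 0
    rw [zsmul_eq_mul]
    push_cast
    rw [hp0, zero_mul]
  have hF : Finite F := Module.finite_of_fg_torsion F htor
  refine ⟨F, inferInstance, hF, ?_, ⟨Ideal.Quotient.mk M⟩⟩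
  have h1 : ringChar F ∣ p := ringChar.dvd hp0
  rcases (Nat.dvd_prime hp).1 h1 with h2 | h2
  · exact absurd h2 (CharP.ringChar_ne_one)
  · exact h2

theorem exists_residue {K : Type} [Field K] [CharZero K] (S : Finset K) :
    ∃ N : ℕ, N ≠ 0 ∧ ∀ p : ℕ, p.Prime → ¬ p ∣ N → ∃ (F : Type) (_ : Field F) (_ : Finite F),
      ringChar F = p ∧ Nonempty (Algebra.adjoin ℤ (S : Set K) →+* F) := by
  classical
  let R : Subalgebra ℚ K := Algebra.adjoin ℚ (S : Set K)
  have hft : Algebra.FiniteType ℚ R := by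
    rw [← Subalgebra.fg_iff_finiteType]
    exact Subalgebra.fg_adjoin_finset S
  obtain ⟨m, hm⟩ := Ideal.exists_maximal R
  let E : Type := R ⧸ m
  let _ : Field E := Ideal.Quotient.field m
  let φ : R →ₐ[ℚ] E := Ideal.Quotient.mkₐ ℚ m
  have hφ : Function.Surjective φ := Ideal.Quotient.mkₐ_surjective ℚ m
  have : Algebra.FiniteType ℚ E := Algebra.FiniteType.of_surjective φ hφ
  have : Module.Finite ℚ E := finite_of_finite_type_of_isJacobsonRing ℚ E
  have : NumberField E := NumberField.of_module_finite ℚ E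
  have hSR : ∀ s ∈ S, s ∈ R := fun s hs => Algebra.subset_adjoin hs
  let S' : Finset E := S.attach.image (fun s : {x : K // x ∈ S} => φ ⟨s.1, hSR s.1 s.2⟩)
  obtain ⟨N, hN, hNp⟩ := exists_residue_nf S'
  refine ⟨N, hN, fun p hp hpN => ?_⟩
  obtain ⟨F, iF, hF, hch, ⟨g⟩⟩ := hNp p hp hpN
  refine ⟨F, iF, hF, hch, ⟨?_⟩⟩
  have hle : ∀ b ∈ Algebra.adjoin ℤ (S : Set K), ∃ h : b ∈ R, φ ⟨b, h⟩ ∈
      Algebra.adjoin ℤ (S' : Set E) := by
    intro b hb
    induction hb using Algebra.adjoin_induction with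
    | mem x hx =>
      refine ⟨hSR x hx, Algebra.subset_adjoin ?_⟩
      exact Finset.mem_coe.2 (Finset.mem_image.2 ⟨⟨x, hx⟩, Finset.mem_attach _ _, rfl⟩)
    | algebraMap z =>
      refine ⟨intCast_mem R z, ?_⟩
      have h1 : φ ⟨algebraMap ℤ K z, intCast_mem R z⟩ = algebraMap ℤ E z := by
        have h2 : (⟨algebraMap ℤ K z, intCast_mem R z⟩ : R) = ((z : ℤ) : R) := by
          apply Subtype.ext
          simp
        rw [h2, map_intCast]
        simp
      rw [h1]
      exact Subalgebra.algebraMap_mem _ _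
    | add x y _ _ hx hy =>
      obtain ⟨h1, h2⟩ := hx
      obtain ⟨h3, h4⟩ := hy
      refine ⟨R.add_mem h1 h3, ?_⟩
      have h5 : φ ⟨x + y, R.add_mem h1 h3⟩ = φ ⟨x, h1⟩ + φ ⟨y, h3⟩ := by
        rw [← map_add]
        rfl
      rw [h5]
      exact Subalgebra.add_mem _ h2 h4
    | mul x y _ _ hx hy =>
      obtain ⟨h1, h2⟩ := hx
      obtain ⟨h3, h4⟩ := hy
      refine ⟨R.mul_mem h1 h3, ?_⟩
      have h5 : φ ⟨x * y, R.mul_mem h1 h3⟩ = φ ⟨x, h1⟩ * φ ⟨y, h3⟩ := by
        rw [← map_mul]
        rfl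
      rw [h5]
      exact Subalgebra.mul_mem _ h2 h4
  let ι : Algebra.adjoin ℤ (S : Set K) →+* Algebra.adjoin ℤ (S' : Set E) :=
    { toFun := fun b => ⟨φ ⟨b, (hle b b.2).1⟩, (hle b b.2).2⟩
      map_one' := by
        apply Subtype.ext
        show φ (1 : R) = 1
        rw [map_one]
      map_zero' := by
        apply Subtype.ext
        show φ (0 : R) = 0
        rw [map_zero]
      map_add' := fun a b => by
        apply Subtype.ext
        show φ _ = φ _ + φ _
        rw [← map_add]
        rfl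
      map_mul' := fun a b => by
        apply Subtype.ext
        show φ _ = φ _ * φ _
        rw [← map_mul]
        rfl }
  exact g.comp ι

end Pool.Agent.TH717.GO
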