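import Mathlib

set_option autoImplicit false

/-! # Torsion-free groups of eigenvalues from residue fields -/

namespace Pool.Agent.TH717.GO

open Polynomial

variable {A L : Type} [CommRing A] [Field L] [Algebra A L]

/-- the units of `L` which are integral over `A` together with their inverses and are congruent to
one modulo the ideal `I` of the integral closure of `A` -/
def UI (I : Ideal (integralClosure A L)) : Subgroup Lˣ where
  carrier := {u | ∃ x y : integralClosure A L, (x : L) = (u : L) ∧ (y : L) = ((u⁻¹ : Lˣ) : L) ∧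
    x - 1 ∈ I ∧ y - 1 ∈ I}
  one_mem' := ⟨1, 1, by simp, by simp, by simp, by simp⟩
  mul_mem' := by
    rintro u u' ⟨x, y, hx, hy, hx1, hy1⟩ ⟨x', y', hx', hy', hx1', hy1'⟩
    refine ⟨x * x', y * y', ?_, ?_, ?_, ?_⟩
    · rw [Units.val_mul, ← hx, ← hx']
      rfl
    · rw [mul_inv, Units.val_mul, ← hy, ← hy']
      rfl
    · have h1 : x * x' - 1 = (x - 1) * x' + (x' - 1) := by ring
      rw [h1]
      exact I.add_mem (I.mul_mem_right _ hx1) hx1'
    · have h1 : y * y' - 1 = (y - 1) * y' + (y' - 1) := by ring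
      rw [h1]
      exact I.add_mem (I.mul_mem_right _ hy1) hy1'
  inv_mem' := by
    rintro u ⟨x, y, hx, hy, hx1, hy1⟩
    exact ⟨y, x, hy, by rw [inv_inv]; exact hx, hy1, hx1⟩

/-- an element of prime order -/
theorem exists_prime_order {G : Type} [CommGroup G] (U : Subgroup G) (u : G) (hu : u ∈ U) (m : ℕ)
    (hm : 0 < m) (h : u ^ m = 1) (h1 : u ≠ 1) :
    ∃ (w : G) (l : ℕ), w ∈ U ∧ l.Prime ∧ w ^ l = 1 ∧ w ≠ 1 := by
  have ho : 0 < orderOf u := orderOf_pos_iff.2 (isOfFinOrder_iff_pow_eq_one.2 ⟨m, hm, h⟩)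
  have ho1 : orderOf u ≠ 1 := fun h2 => h1 (orderOf_eq_one_iff.1 h2)
  obtain ⟨l, hl, hlo⟩ := Nat.exists_prime_and_dvd ho1
  obtain ⟨c, hc⟩ := hlo
  have hc0 : 0 < c := by
    rcases Nat.eq_zero_or_pos c with h2 | h2
    · rw [h2, mul_zero] at hc
      omega
    · exact h2
  refine ⟨u ^ c, l, U.pow_mem hu c, hl, ?_, ?_⟩
  · rw [← pow_mul, mul_comm, ← hc, pow_orderOf_eq_one]
  · intro h2
    have h3 := orderOf_dvd_of_pow_eq_one h2
    have h4 := Nat.le_of_dvd hc0 h3
    have h5 := hl.two_le
    rw [hc] at h4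
    nlinarith

/-- the geometric sum of an integral element of prime order vanishes -/
theorem geom_zero (w : Lˣ) (l : ℕ) (hw : w ^ l = 1) (hw1 : w ≠ 1) (x : integralClosure A L)
    (hx : (x : L) = (w : L)) : ∑ j ∈ Finset.range l, x ^ j = 0 := by
  have h1 : (x - 1) * ∑ j ∈ Finset.range l, x ^ j = 0 := by
    rw [mul_comm, geom_sum_mul]
    apply Subtype.val_injective
    show ((x ^ l - 1 : integralClosure A L) : L) = 0
    push_cast
    rw [hx, ← Units.val_pow_eq_pow_val, hw, Units.val_one, sub_self]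
  rcases mul_eq_zero.1 h1 with h2 | h2
  · exfalso
    apply hw1
    apply Units.ext
    rw [← hx, Units.val_one]
    have h3 := congrArg (Subtype.val : integralClosure A L → L) (sub_eq_zero.1 h2)
    exact h3
  · exact h2

theorem geom_cong {R : Type} [CommRing R] (I : Ideal R) (x : R) (hx : x - 1 ∈ I) (l : ℕ) :
    (∑ j ∈ Finset.range l, x ^ j) - (l : R) ∈ I := by
  have h1 : ∀ j, x ^ j - 1 ∈ I := by
    intro j
    induction j with
    | zero => simp
    | succ j ih =>
      have h2 : x ^ (j + 1) - 1 = (x ^ j - 1) * x + (x - 1) := by ring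
      rw [h2]
      exact I.add_mem (I.mul_mem_right _ ih) hx
  have h2 : (∑ j ∈ Finset.range l, x ^ j) - (l : R) = ∑ j ∈ Finset.range l, (x ^ j - 1) := by
    rw [Finset.sum_sub_distrib]
    simp
  rw [h2]
  exact I.sum_mem fun j _ => h1 j

/-- **two residue characteristics** -/
theorem UI_torsionFree (I P₁ P₂ : Ideal (integralClosure A L)) (h₁ : I ≤ P₁) (h₂ : I ≤ P₂)
    (hP₁ : P₁ ≠ ⊤) (hP₂ : P₂ ≠ ⊤) (p₁ p₂ : ℕ) (hp₁ : p₁.Prime) (hp₂ : p₂.Prime) (hne : p₁ ≠ p₂)
    (hm₁ : (p₁ : integralClosure A L) ∈ P₁) (hm₂ : (p₂ : integralClosure A L) ∈ P₂) :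
    ∀ u ∈ UI I, ∀ m : ℕ, 0 < m → u ^ m = 1 → u = 1 := by
  intro u hu m hm h
  by_contra hu1
  obtain ⟨w, l, hw, hl, hwl, hw1⟩ := exists_prime_order (UI I) u hu m hm h hu1
  obtain ⟨x, y, hx, -, hx1, -⟩ := hw
  have h0 := geom_zero w l hwl hw1 x hx
  have key : ∀ (P : Ideal (integralClosure A L)) (p : ℕ), I ≤ P → P ≠ ⊤ → p.Prime →
      (p : integralClosure A L) ∈ P → l = p := by
    intro P p hIP hP hp hmem
    by_contra hlp
    have h1 := geom_cong P x (hIP hx1) l
    rw [h0, zero_sub] at h1
    have h2 : (l : integralClosure A L) ∈ P := by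
      have := P.neg_mem h1
      rwa [neg_neg] at this
    have hcop : Nat.Coprime l p := (Nat.coprime_primes hl hp).2 hlp
    have h3 : (l : ℤ) * Nat.gcdA l p + p * Nat.gcdB l p = 1 := by
      have := Nat.gcd_eq_gcd_ab l p
      rw [hcop] at this
      exact_mod_cast this.symm
    apply hP
    rw [Ideal.eq_top_iff_one]
    have h4 : (1 : integralClosure A L) = (l : integralClosure A L) *
        ((Nat.gcdA l p : ℤ) : integralClosure A L) + (p : integralClosure A L) *
        ((Nat.gcdB l p : ℤ) : integralClosure A L) := by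
      have := congrArg (Int.cast : ℤ → integralClosure A L) h3
      push_cast at this
      exact this.symm
    rw [h4]
    exact P.add_mem (P.mul_mem_right _ h2) (P.mul_mem_right _ hmem)
  exact hne ((key P₁ p₁ h₁ hP₁ hp₁ hm₁).symm.trans (key P₂ p₂ h₂ hP₂ hp₂ hm₂))

/-- **one odd prime** which is not invertible -/
theorem UI_torsionFree' (p : ℕ) (hp : p.Prime) (hp3 : 3 ≤ p)
    (hP : Ideal.span {(p : integralClosure A L)} ≠ ⊤) (hp0 : (p : integralClosure A L) ≠ 0) :
    ∀ u ∈ UI (Ideal.span {(p : integralClosure A L)}), ∀ m : ℕ, 0 < m → u ^ m = 1 → u = 1 := by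
  intro u hu m hm h
  by_contra hu1
  obtain ⟨w, l, hw, hl, hwl, hw1⟩ := exists_prime_order _ u hu m hm h hu1
  obtain ⟨x, y, hx, -, hx1, -⟩ := hw
  have h0 := geom_zero w l hwl hw1 x hx
  have h1 := geom_cong _ x hx1 l
  rw [h0, zero_sub] at h1
  have h2 : (l : integralClosure A L) ∈ Ideal.span {(p : integralClosure A L)} := by
    have := neg_mem h1
    rwa [neg_neg] at this
  by_cases hlp : l = p
  · subst hlp
    obtain ⟨z, hz⟩ := Ideal.mem_span_singleton.1 hx1
    have hx' : x = 1 + (l : integralClosure A L) * z := by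
      rw [← hz]
      ring
    have hpow : ∀ j : ℕ, ∃ c : integralClosure A L,
        x ^ j = 1 + (j : integralClosure A L) * ((l : integralClosure A L) * z) +
          (l : integralClosure A L) ^ 2 * c := by
      intro j
      induction j with
      | zero => exact ⟨0, by simp⟩
      | succ j ih =>
        obtain ⟨c, hc⟩ := ih
        refine ⟨c * x + (j : integralClosure A L) * z ^ 2, ?_⟩
        rw [pow_succ, hc]
        conv_lhs => rw [hx']
        conv_rhs => rw [hx']
        push_cast
        ring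
    choose c hc using hpow
    have hodd : ∃ a : ℕ, ∑ j ∈ Finset.range l, j = l * a := by
      rw [Finset.sum_range_id]
      obtain ⟨a, ha⟩ : ∃ a, l - 1 = 2 * a := by
        obtain ⟨a, ha⟩ := hl.odd_of_ne_two (by omega)
        exact ⟨a, by omega⟩
      refine ⟨a, ?_⟩
      rw [ha, show l * (2 * a) = 2 * (l * a) by ring]
      exact Nat.mul_div_cancel_left _ (by norm_num)
    obtain ⟨a, ha⟩ := hodd
    have hsum : ∑ j ∈ Finset.range l, x ^ j = (l : integralClosure A L) *
        (1 + (l : integralClosure A L) * ((a : integralClosure A L) * z +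
          ∑ j ∈ Finset.range l, c j)) := by
      rw [Finset.sum_congr rfl fun j _ => hc j, Finset.sum_add_distrib, Finset.sum_add_distrib,
        ← Finset.sum_mul, ← Finset.mul_sum, ← Nat.cast_sum, ha]
      simp only [Finset.sum_const, Finset.card_range, nsmul_eq_mul, mul_one]
      push_cast
      ring
    rw [hsum] at h0
    rcases mul_eq_zero.1 h0 with h3 | h3
    · exact hp0 h3
    · apply hP
      rw [Ideal.eq_top_iff_one, Ideal.mem_span_singleton]
      exact ⟨-((a : integralClosure A L) * z + ∑ j ∈ Finset.range l, c j), by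
        linear_combination h3⟩
  · have hcop : Nat.Coprime l p := (Nat.coprime_primes hl hp).2 hlp
    have h3 : (l : ℤ) * Nat.gcdA l p + p * Nat.gcdB l p = 1 := by
      have := Nat.gcd_eq_gcd_ab l p
      rw [hcop] at this
      exact_mod_cast this.symm
    apply hP
    rw [Ideal.eq_top_iff_one]
    have h4 : (1 : integralClosure A L) = (l : integralClosure A L) *
        ((Nat.gcdA l p : ℤ) : integralClosure A L) + (p : integralClosure A L) *
        ((Nat.gcdB l p : ℤ) : integralClosure A L) := by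
      have := congrArg (Int.cast : ℤ → integralClosure A L) h3
      push_cast at this
      exact this.symm
    rw [h4]
    exact Ideal.add_mem _ (Ideal.mul_mem_right _ _ h2)
      (Ideal.mul_mem_right _ _ (Ideal.mem_span_singleton_self _))

variable {r : ℕ}

theorem aeval_charpoly (B : Matrix (Fin r) (Fin r) A) (μ : L) (w : Fin r → L) (hw0 : w ≠ 0)
    (hw : (B.map (algebraMap A L)).mulVec w = μ • w) : aeval μ B.charpoly = 0 := by
  rw [aeval_def, eval₂_eq_eval_map, ← Matrix.charpoly_map, Matrix.eval_charpoly]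
  apply Matrix.exists_mulVec_eq_zero_iff.1
  refine ⟨w, hw0, ?_⟩
  rw [Matrix.sub_mulVec, hw, Matrix.scalar_apply, ← Matrix.smul_one_eq_diagonal,
    Matrix.smul_mulVec, Matrix.one_mulVec, sub_self]

/-- an eigenvalue of a matrix with entries in `A` -/
theorem exists_int (B : Matrix (Fin r) (Fin r) A) (μ : L) (w : Fin r → L) (hw0 : w ≠ 0)
    (hw : (B.map (algebraMap A L)).mulVec w = μ • w) :
    ∃ x : integralClosure A L, (x : L) = μ ∧ aeval x B.charpoly = 0 := by
  have h1 := aeval_charpoly B μ w hw0 hw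
  refine ⟨⟨μ, ⟨B.charpoly, Matrix.charpoly_monic B, h1⟩⟩, rfl, ?_⟩
  apply Subtype.val_injective
  rw [← Subalgebra.coe_val, ← Polynomial.aeval_algHom_apply]
  exact h1

theorem pow_eq_zero_iff_of_pos' {R : Type} [CommRing R] [IsDomain R] {x : R} {m : ℕ}
    (h : x ^ m = 0) : x = 0 := by
  rcases Nat.eq_zero_or_pos m with h0 | h0
  · rw [h0, pow_zero] at h
    exact absurd h one_ne_zero
  · exact (pow_eq_zero_iff h0.ne').1 h

theorem eig_prime (P : Ideal (integralClosure A L)) (hP : P.IsPrime)
    (B : Matrix (Fin r) (Fin r) A)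
    (hB : ∀ i j, algebraMap A (integralClosure A L) (B i j - (1 : Matrix (Fin r) (Fin r) A) i j) ∈ P)
    (x : integralClosure A L) (hx : aeval x B.charpoly = 0) : x - 1 ∈ P := by
  let q : integralClosure A L →+* (integralClosure A L ⧸ P) := Ideal.Quotient.mk P
  let g : A →+* (integralClosure A L ⧸ P) := q.comp (algebraMap A (integralClosure A L))
  have hBg : B.map g = 1 := by
    ext i j
    have h1 : g (B i j - (1 : Matrix (Fin r) (Fin r) A) i j) = 0 :=
      Ideal.Quotient.eq_zero_iff_mem.2 (hB i j)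
    rw [map_sub, sub_eq_zero] at h1
    rw [Matrix.map_apply, h1, Matrix.one_apply, Matrix.one_apply]
    split_ifs
    · exact map_one g
    · exact map_zero g
  have h2 : (B.charpoly.map g).eval (q x) = 0 := by
    rw [eval_map, ← Polynomial.hom_eval₂, ← aeval_def, hx, map_zero]
  rw [← Matrix.charpoly_map, hBg, Matrix.charpoly_one, eval_pow, eval_sub, eval_X, eval_one] at h2
  have : IsDomain (integralClosure A L ⧸ P) := Ideal.Quotient.isDomain P
  have h3 : q x - 1 = 0 := pow_eq_zero_iff_of_pos' h2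
  rw [← map_one q, ← map_sub] at h3
  exact Ideal.Quotient.eq_zero_iff_mem.1 h3

end Pool.Agent.TH717.GO
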