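import Mathlib
import Pool.Agent.TH717.GO.Neat
import Pool.Agent.TH717.GO.Hyb

set_option autoImplicit false

/-! # Orbits of groups of matrices over a ring with two residue fields -/

namespace Pool.Agent.TH717.GO

open Pool.Agent.H533R3.SL

variable {n r : ℕ}

/-- the representation over the field of a representation over a subring -/
def ext {K : Type} [Field K] (A : Subring K) {H : Type} [Group H]
    (ρ : H →* Matrix.GeneralLinearGroup (Fin r) A) : H →* Matrix.GeneralLinearGroup (Fin r) K :=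
  (Matrix.GeneralLinearGroup.map A.subtype).comp ρ

/-- two group elements whose quotient has its eigenvalues in a torsion-free group give the same
point off `G = 0` -/
theorem same_point_gen {k : Type} [Field k] [CharZero k]
    (FF : Set (MvPolynomial (Fin (n + 1)) k)) (hhom : ∀ F ∈ FF, ∃ e, F.IsHomogeneous e)
    (G : MvPolynomial (Fin (n + 1)) k) (hG : CurCond FF G (r * r)) {K : Type} [Field K]
    [Algebra k K] {H : Type} [Group H] (M : Matrix (Fin (n + 1)) (Fin r) K)
    (ρ : H →* Matrix.GeneralLinearGroup (Fin r) K) (v : Fin r → K)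
    (hX : ∀ h, ∀ F ∈ FF, MvPolynomial.aeval (orb M ρ v h) F = 0) (g g' : H)
    (hGg : MvPolynomial.aeval (orb M ρ v g) G ≠ 0) (U : Subgroup (AlgebraicClosure K)ˣ)
    (hU : ∀ u ∈ U, ∀ m : ℕ, 0 < m → u ^ m = 1 → u = 1)
    (heig : ∀ (μ : AlgebraicClosure K) (w : Fin r → AlgebraicClosure K), w ≠ 0 →
      ((ρ (g⁻¹ * g') : Matrix (Fin r) (Fin r) K).map (algebraMap K (AlgebraicClosure K))).mulVec w =
        μ • w → ∃ u ∈ U, (u : AlgebraicClosure K) = μ)
    (i i' : Fin (n + 1)) :
    orb M ρ v g' i * orb M ρ v g i' = orb M ρ v g' i' * orb M ρ v g i := by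
  classical
  let L := AlgebraicClosure K
  let φ : K →+* L := algebraMap K L
  have hφ : Function.Injective φ := (algebraMap K L).injective
  let h : H := g⁻¹ * g'
  have hmul : ∀ a b : H, (ρ (a * b) : Matrix (Fin r) (Fin r) K) =
      (ρ a : Matrix (Fin r) (Fin r) K) * (ρ b : Matrix (Fin r) (Fin r) K) := fun a b => by
    rw [map_mul, Units.val_mul]
  let ℓ : (Fin r → L) →ₗ[L] (Fin (n + 1) → L) :=
    Matrix.mulVecLin ((M * (ρ g : Matrix (Fin r) (Fin r) K)).map φ)
  let v' : Fin r → L := φ ∘ v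
  have hρpow : ∀ m : ℕ, (ρ (h ^ m) : Matrix (Fin r) (Fin r) K) =
      (ρ h : Matrix (Fin r) (Fin r) K) ^ m := fun m => by
    rw [map_pow, Units.val_pow_eq_pow_val]
  have hseq : ∀ m : ℕ, ℓ (((Matrix.toLinAlgEquiv' ((ρ h : Matrix (Fin r) (Fin r) K).map φ)) ^ m) v') =
      fun i => φ (orb M ρ v (g * h ^ m) i) := by
    intro m
    rw [← map_pow, Matrix.toLinAlgEquiv'_apply]
    have h1 : ((ρ h : Matrix (Fin r) (Fin r) K).map φ) ^ m =
        ((ρ (h ^ m) : Matrix (Fin r) (Fin r) K)).map φ := by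
      have h2 : ((ρ h : Matrix (Fin r) (Fin r) K).map φ) =
          φ.mapMatrix (ρ h : Matrix (Fin r) (Fin r) K) := rfl
      rw [h2, ← map_pow, ← hρpow]
      rfl
    rw [h1]
    show ((M * (ρ g : Matrix (Fin r) (Fin r) K)).map φ).mulVec
      (((ρ (h ^ m) : Matrix (Fin r) (Fin r) K)).map φ |>.mulVec v') = _
    rw [Matrix.mulVec_mulVec, ← Matrix.map_mul]
    funext i
    unfold orb
    rw [hmul, Matrix.mulVec_mulVec, ← Matrix.mul_assoc]
    exact (RingHom.map_mulVec φ _ v i).symm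
  have hseq0 : ℓ v' = fun i => φ (orb M ρ v g i) := by
    have h1 := hseq 0
    rw [pow_zero, pow_zero, mul_one, Module.End.one_apply] at h1
    exact h1
  have hfin := orb_core FF hhom G r hG L
    (Matrix.toLinAlgEquiv' ((ρ h : Matrix (Fin r) (Fin r) K).map φ)) U hU (by
      intro μ hμ
      obtain ⟨w, hw⟩ := hμ.exists_hasEigenvector
      refine heig μ w hw.2 ?_
      have := hw.apply_eq_smul
      rwa [Matrix.toLinAlgEquiv'_apply] at this) ℓ v' (by
      intro F hF m
      rw [hseq m]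
      have h1 := MvPolynomial.aeval_algebraMap_apply (A := K) L (orb M ρ v (g * h ^ m)) F
      have h2 : (MvPolynomial.aeval fun i => φ (orb M ρ v (g * h ^ m) i)) F =
          φ (MvPolynomial.aeval (orb M ρ v (g * h ^ m)) F) := h1
      rw [h2, hX _ F hF, map_zero]) (by
      rw [hseq0]
      have h1 := MvPolynomial.aeval_algebraMap_apply (A := K) L (orb M ρ v g) G
      have h2 : (MvPolynomial.aeval fun i => φ (orb M ρ v g i)) G =
          φ (MvPolynomial.aeval (orb M ρ v g) G) := h1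
      rw [h2]
      intro h3
      exact hGg (hφ (by rw [h3, map_zero]))) i i' 1
  rw [hseq 1, hseq0, pow_one] at hfin
  have hg' : g * h = g' := by simp [h]
  rw [hg'] at hfin
  apply hφ
  rw [map_mul, map_mul]
  exact hfin

/-- the same after counting: a map to a finite set whose fibres give one point -/
theorem encard_orbitOff_le {k : Type} [Field k] (G : MvPolynomial (Fin (n + 1)) k) {K : Type}
    [Field K] [Algebra k K] {H : Type} [Group H] (M : Matrix (Fin (n + 1)) (Fin r) K)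
    (ρ : H →* Matrix.GeneralLinearGroup (Fin r) K) (v : Fin r → K) {T : Type} [Finite T]
    (red : H → T)
    (hkey : ∀ g g' : H, red g = red g' → MvPolynomial.aeval (orb M ρ v g) G ≠ 0 →
      ∀ i i', orb M ρ v g' i * orb M ρ v g i' = orb M ρ v g' i' * orb M ρ v g i) :
    (orbitOff G M ρ v).encard ≤ Nat.card T := by
  classical
  have hsel : ∀ P : Projectivization K (Fin (n + 1) → K), ∃ h : H, P ∈ orbitOff G M ρ v →
      ∃ h0 : orb M ρ v h ≠ 0, MvPolynomial.aeval (orb M ρ v h) G ≠ 0 ∧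
        P = Projectivization.mk K (orb M ρ v h) h0 := by
    intro P
    by_cases hP : P ∈ orbitOff G M ρ v
    · obtain ⟨h, h0, h1⟩ := hP
      exact ⟨h, fun _ => ⟨h0, h1⟩⟩
    · exact ⟨1, fun h => absurd h hP⟩
  choose sel hsel using hsel
  have hinj : Set.InjOn (fun P => red (sel P)) (orbitOff G M ρ v) := by
    intro P hP P' hP' heq
    obtain ⟨h0, hG, hPe⟩ := hsel P hP
    obtain ⟨h0', hG', hPe'⟩ := hsel P' hP'
    have hk := hkey (sel P) (sel P') heq hG
    rw [hPe, hPe', Projectivization.mk_eq_mk_iff']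
    obtain ⟨i0, hi0⟩ : ∃ i, orb M ρ v (sel P') i ≠ 0 := by
      by_contra hcon
      push Not at hcon
      exact h0' (funext hcon)
    refine ⟨orb M ρ v (sel P) i0 / orb M ρ v (sel P') i0, funext fun i => ?_⟩
    rw [Pi.smul_apply, smul_eq_mul, div_mul_eq_mul_div, div_eq_iff hi0]
    have := hk i i0
    linear_combination this
  calc (orbitOff G M ρ v).encard ≤ (Set.univ : Set T).encard :=
        Set.encard_le_encard_of_injOn (fun _ _ => Set.mem_univ _) hinj
    _ = Nat.card T := by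
        have h1 : Fintype T := Fintype.ofFinite _
        rw [Set.encard_univ, ENat.card_eq_coe_fintype_card, Nat.card_eq_fintype_card]

/-- eigenvalues of an element of the congruence subgroup -/
theorem eig_mem_UI {A L : Type} [CommRing A] [Field L] [Algebra A L]
    (I : Ideal (integralClosure A L)) (Q : Matrix (Fin r) (Fin r) A → Prop)
    (hI : ∀ (B : Matrix (Fin r) (Fin r) A), Q B → ∀ (μ : L) (w : Fin r → L), w ≠ 0 →
      (B.map (algebraMap A L)).mulVec w = μ • w →
      ∃ x : integralClosure A L, (x : L) = μ ∧ x - 1 ∈ I)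
    (B B' : Matrix (Fin r) (Fin r) A) (hBB : B' * B = 1)
    (hB : Q B) (hB' : Q B') (μ : L) (w : Fin r → L) (hw0 : w ≠ 0)
    (hw : (B.map (algebraMap A L)).mulVec w = μ • w) : ∃ u ∈ UI I, (u : L) = μ := by
  have h1 : (B'.map (algebraMap A L)).mulVec (μ • w) = w := by
    rw [← hw, Matrix.mulVec_mulVec, ← Matrix.map_mul, hBB,
      Matrix.map_one _ (map_zero _) (map_one _), Matrix.one_mulVec]
  have hμ0 : μ ≠ 0 := by
    rintro rfl
    rw [zero_smul, Matrix.mulVec_zero] at h1
    exact hw0 h1.symm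
  have h2 : (B'.map (algebraMap A L)).mulVec w = μ⁻¹ • w := by
    rw [Matrix.mulVec_smul] at h1
    calc (B'.map (algebraMap A L)).mulVec w = μ⁻¹ • (μ • (B'.map (algebraMap A L)).mulVec w) := by
          rw [smul_smul, inv_mul_cancel₀ hμ0, one_smul]
      _ = μ⁻¹ • w := by rw [h1]
  obtain ⟨x, hx, hx1⟩ := hI B hB μ w hw0 hw
  obtain ⟨y, hy, hy1⟩ := hI B' hB' μ⁻¹ w hw0 h2
  refine ⟨Units.mk0 μ hμ0, ⟨x, y, hx, ?_, hx1, hy1⟩, rfl⟩
  rw [hy, Units.val_inv_eq_inv_val, Units.val_mk0]

/-- **Orbits over a ring with two residue fields.** -/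
theorem two_core {k : Type} [Field k] [CharZero k] (FF : Set (MvPolynomial (Fin (n + 1)) k))
    (hhom : ∀ F ∈ FF, ∃ e, F.IsHomogeneous e) (G : MvPolynomial (Fin (n + 1)) k)
    (hG : CurCond FF G (r * r)) {K : Type} [Field K] [Algebra k K] (A : Subring K)
    {F₁ F₂ : Type} [Field F₁] [Field F₂] [Finite F₁] [Finite F₂] (φ₁ : A →+* F₁) (φ₂ : A →+* F₂)
    (hne : ringChar F₁ ≠ ringChar F₂) {H : Type} [Group H]
    (ρ : H →* Matrix.GeneralLinearGroup (Fin r) A) (M : Matrix (Fin (n + 1)) (Fin r) K)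
    (v : Fin r → K) (hX : ∀ h, ∀ F ∈ FF, MvPolynomial.aeval (orb M (ext A ρ) v h) F = 0) :
    (orbitOff G M (ext A ρ) v).encard ≤
      (Nat.card (Matrix.GeneralLinearGroup (Fin r) F₁) *
        Nat.card (Matrix.GeneralLinearGroup (Fin r) F₂) : ℕ) := by
  classical
  let L := AlgebraicClosure K
  let R := integralClosure A L
  have hAL : Function.Injective (algebraMap A R) := by
    intro a b hab
    have h1 : (algebraMap A R a : L) = (algebraMap A R b : L) := congrArg Subtype.val hab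
    have h2 : algebraMap K L (a : K) = algebraMap K L (b : K) := h1
    exact Subtype.ext ((algebraMap K L).injective h2)
  have hlie : ∀ (F : Type) [Field F] (φ : A →+* F), ∃ P : Ideal R, P.IsPrime ∧
      P.comap (algebraMap A R) = RingHom.ker φ := by
    intro F _ φ
    have : (RingHom.ker φ).IsPrime := RingHom.ker_isPrime φ
    obtain ⟨Q, -, hQ, hQc⟩ := Ideal.exists_ideal_over_prime_of_isIntegral (S := R)
      (RingHom.ker φ) ⊥ (by
        rw [← RingHom.ker_eq_comap_bot, (RingHom.injective_iff_ker_eq_bot _).1 hAL]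
        exact bot_le)
    exact ⟨Q, hQ, hQc⟩
  obtain ⟨P₁, hP₁, hc₁⟩ := hlie F₁ φ₁
  obtain ⟨P₂, hP₂, hc₂⟩ := hlie F₂ φ₂
  have hmem : ∀ (F : Type) [Field F] (φ : A →+* F) (P : Ideal R),
      P.comap (algebraMap A R) = RingHom.ker φ → ((ringChar F : ℕ) : R) ∈ P := by
    intro F _ φ P hc
    have h1 : ((ringChar F : ℕ) : A) ∈ P.comap (algebraMap A R) := by
      rw [hc, RingHom.mem_ker, map_natCast]
      exact ringChar.Nat.cast_ringChar
    rw [Ideal.mem_comap, map_natCast] at h1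
    exact h1
  have hprime : ∀ (F : Type) [Field F] [Finite F], (ringChar F).Prime := by
    intro F _ _
    exact CharP.char_is_prime F (ringChar F)
  have htf := UI_torsionFree (P₁ ⊓ P₂) P₁ P₂ inf_le_left inf_le_right hP₁.ne_top hP₂.ne_top
    (ringChar F₁) (ringChar F₂) (hprime F₁) (hprime F₂) hne (hmem F₁ φ₁ P₁ hc₁)
    (hmem F₂ φ₂ P₂ hc₂)
  have hII : ∀ (B : Matrix (Fin r) (Fin r) A), (∀ i j, algebraMap A R
      (B i j - (1 : Matrix (Fin r) (Fin r) A) i j) ∈ P₁ ⊓ P₂) → ∀ (μ : L) (w : Fin r → L), w ≠ 0 →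
      (B.map (algebraMap A L)).mulVec w = μ • w → ∃ x : R, (x : L) = μ ∧ x - 1 ∈ P₁ ⊓ P₂ := by
    intro B hB μ w hw0 hw
    obtain ⟨x, hx, hx0⟩ := exists_int B μ w hw0 hw
    exact ⟨x, hx, eig_prime P₁ hP₁ B (fun i j => (hB i j).1) x hx0,
      eig_prime P₂ hP₂ B (fun i j => (hB i j).2) x hx0⟩
  have hcong : ∀ (F : Type) [Field F] (φ : A →+* F) (P : Ideal R),
      P.comap (algebraMap A R) = RingHom.ker φ → ∀ h : H,
      Matrix.GeneralLinearGroup.map φ (ρ h) = 1 → ∀ i j, algebraMap A R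
        ((ρ h : Matrix (Fin r) (Fin r) A) i j - (1 : Matrix (Fin r) (Fin r) A) i j) ∈ P := by
    intro F _ φ P hc h hh i j
    have h1 : φ ((ρ h : Matrix (Fin r) (Fin r) A) i j) = (1 : Matrix (Fin r) (Fin r) F) i j := by
      have h2 := congrArg (fun g : Matrix.GeneralLinearGroup (Fin r) F =>
        (g : Matrix (Fin r) (Fin r) F) i j) hh
      exact h2
    show _ ∈ P.comap (algebraMap A R)
    rw [hc, RingHom.mem_ker, map_sub, h1, Matrix.one_apply, Matrix.one_apply]
    split_ifs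
    · rw [map_one, sub_self]
    · rw [map_zero, sub_self]
  have hbound := encard_orbitOff_le G M (ext A ρ) v
    (T := Matrix.GeneralLinearGroup (Fin r) F₁ × Matrix.GeneralLinearGroup (Fin r) F₂)
    (fun h => (Matrix.GeneralLinearGroup.map φ₁ (ρ h), Matrix.GeneralLinearGroup.map φ₂ (ρ h))) (by
      intro g g' hgg hGg
      refine same_point_gen FF hhom G hG M (ext A ρ) v hX g g' hGg (UI (P₁ ⊓ P₂)) htf ?_
      intro μ w hw0 hw
      have h1 : ∀ (F : Type) [Field F] (φ : A →+* F),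
          Matrix.GeneralLinearGroup.map φ (ρ g) = Matrix.GeneralLinearGroup.map φ (ρ g') →
          Matrix.GeneralLinearGroup.map φ (ρ (g⁻¹ * g')) = 1 ∧
          Matrix.GeneralLinearGroup.map φ (ρ (g⁻¹ * g')⁻¹) = 1 := by
        intro F _ φ h
        have h2 : Matrix.GeneralLinearGroup.map φ (ρ (g⁻¹ * g')) = 1 := by
          rw [map_mul, map_mul, map_inv, map_inv, h, inv_mul_cancel]
        exact ⟨h2, by rw [map_inv, map_inv, h2, inv_one]⟩
      obtain ⟨e1, e1'⟩ := h1 F₁ φ₁ (Prod.ext_iff.1 hgg).1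
      obtain ⟨e2, e2'⟩ := h1 F₂ φ₂ (Prod.ext_iff.1 hgg).2
      refine eig_mem_UI (P₁ ⊓ P₂) _ hII (ρ (g⁻¹ * g') : Matrix (Fin r) (Fin r) A)
        (ρ (g⁻¹ * g')⁻¹ : Matrix (Fin r) (Fin r) A) ?_
        (fun i j => ⟨hcong F₁ φ₁ P₁ hc₁ _ e1 i j, hcong F₂ φ₂ P₂ hc₂ _ e2 i j⟩)
        (fun i j => ⟨hcong F₁ φ₁ P₁ hc₁ _ e1' i j, hcong F₂ φ₂ P₂ hc₂ _ e2' i j⟩) μ w hw0 hw
      rw [← Units.val_mul, ← map_mul, inv_mul_cancel, map_one, Units.val_one])
  rw [Nat.card_prod] at hbound
  exact hbound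

/-- **Orbits over a ring in which an odd prime is not invertible.** -/
theorem one_core {k : Type} [Field k] [CharZero k] (FF : Set (MvPolynomial (Fin (n + 1)) k))
    (hhom : ∀ F ∈ FF, ∃ e, F.IsHomogeneous e) (G : MvPolynomial (Fin (n + 1)) k)
    (hG : CurCond FF G (r * r)) {K : Type} [Field K] [Algebra k K] (A : Subring K)
    {p : ℕ} (hp : p.Prime) (hp3 : 3 ≤ p) (hpA : ¬ IsUnit (p : A))
    [Finite (A ⧸ Ideal.span {(p : A)})] {H : Type} [Group H]
    (ρ : H →* Matrix.GeneralLinearGroup (Fin r) A) (M : Matrix (Fin (n + 1)) (Fin r) K)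
    (v : Fin r → K) (hX : ∀ h, ∀ F ∈ FF, MvPolynomial.aeval (orb M (ext A ρ) v h) F = 0) :
    (orbitOff G M (ext A ρ) v).encard ≤
      (Nat.card (Matrix.GeneralLinearGroup (Fin r) (A ⧸ Ideal.span {(p : A)})) : ℕ) := by
  classical
  have hK0 : CharZero K := charZero_of_injective_algebraMap (FaithfulSMul.algebraMap_injective k K)
  let L := AlgebraicClosure K
  let R := integralClosure A L
  have hAL : Function.Injective (algebraMap A R) := by
    intro a b hab
    have h1 : (algebraMap A R a : L) = (algebraMap A R b : L) := congrArg Subtype.val hab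
    have h2 : algebraMap K L (a : K) = algebraMap K L (b : K) := h1
    exact Subtype.ext ((algebraMap K L).injective h2)
  let I : Ideal R := Ideal.span {(p : R)}
  have hp0 : (p : R) ≠ 0 := by
    intro h
    have h1 : ((p : R) : L) = 0 := by rw [h]; rfl
    have h2 : ((p : R) : L) = (p : L) := by push_cast; rfl
    rw [h2] at h1
    exact hp.ne_zero (Nat.cast_eq_zero.1 h1)
  have hI : I ≠ ⊤ := by
    intro h
    apply hpA
    obtain ⟨m, hm, hmem⟩ := Ideal.exists_le_maximal (Ideal.span {(p : A)}) (by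
      intro h1
      exact hpA (Ideal.span_singleton_eq_top.1 h1))
    have hmp : m.IsPrime := hm.isPrime
    obtain ⟨Q, -, hQ, hQc⟩ := Ideal.exists_ideal_over_prime_of_isIntegral (S := R) m ⊥ (by
        rw [← RingHom.ker_eq_comap_bot, (RingHom.injective_iff_ker_eq_bot _).1 hAL]
        exact bot_le)
    exfalso
    apply hQ.ne_top
    rw [eq_top_iff, ← h, Ideal.span_singleton_le_iff_mem]
    have h1 : (p : A) ∈ Q.comap (algebraMap A R) := by
      rw [hQc]
      exact hmem (Ideal.mem_span_singleton_self _)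
    rwa [Ideal.mem_comap, map_natCast] at h1
  have htf := UI_torsionFree' p hp hp3 hI hp0
  have hII : ∀ (B : Matrix (Fin r) (Fin r) A), (∃ D : Matrix (Fin r) (Fin r) A,
      B = 1 + (p : A) • D) → ∀ (μ : L) (w : Fin r → L), w ≠ 0 →
      (B.map (algebraMap A L)).mulVec w = μ • w → ∃ x : R, (x : L) = μ ∧ x - 1 ∈ I := by
    rintro B ⟨D, hD⟩ μ w hw0 hw
    have hpL : (p : L) ≠ 0 := Nat.cast_ne_zero.2 hp.ne_zero
    have h1 : B.map (algebraMap A L) = 1 + (p : L) • D.map (algebraMap A L) := by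
      have h2 : B.map (algebraMap A L) = (algebraMap A L).mapMatrix B := rfl
      rw [h2, hD, map_add, map_one]
      congr 1
      ext i j
      simp
    have h3 : (D.map (algebraMap A L)).mulVec w = ((μ - 1) / p) • w := by
      rw [h1, Matrix.add_mulVec, Matrix.one_mulVec, Matrix.smul_mulVec] at hw
      have h5 : (p : L) • (D.map (algebraMap A L)).mulVec w = (μ - 1) • w := by
        rw [sub_smul, one_smul, ← hw]
        abel
      rw [div_eq_inv_mul, ← smul_smul, ← h5, smul_smul, inv_mul_cancel₀ hpL, one_smul]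
    obtain ⟨y, hy, -⟩ := exists_int D ((μ - 1) / p) w hw0 h3
    refine ⟨1 + (p : R) * y, ?_, ?_⟩
    · have h6 : ((1 + (p : R) * y : R) : L) = 1 + (p : L) * (y : L) := by push_cast; rfl
      rw [h6, hy, mul_div_cancel₀ _ hpL]
      ring
    · rw [add_sub_cancel_left]
      exact Ideal.mem_span_singleton.2 ⟨y, rfl⟩
  have hcong : ∀ h : H, Matrix.GeneralLinearGroup.map (Ideal.Quotient.mk (Ideal.span {(p : A)}))
      (ρ h) = 1 → ∃ D : Matrix (Fin r) (Fin r) A,
        (ρ h : Matrix (Fin r) (Fin r) A) = 1 + (p : A) • D := by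
    intro h hh
    have h1 : ∀ i j, ∃ d : A, (ρ h : Matrix (Fin r) (Fin r) A) i j -
        (1 : Matrix (Fin r) (Fin r) A) i j = p * d := by
      intro i j
      have h2 := congrArg (fun g : Matrix.GeneralLinearGroup (Fin r) (A ⧸ Ideal.span {(p : A)}) =>
        (g : Matrix (Fin r) (Fin r) (A ⧸ Ideal.span {(p : A)})) i j) hh
      have h3 : Ideal.Quotient.mk (Ideal.span {(p : A)}) ((ρ h : Matrix (Fin r) (Fin r) A) i j) =
          (1 : Matrix (Fin r) (Fin r) (A ⧸ Ideal.span {(p : A)})) i j := h2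
      apply Ideal.mem_span_singleton.1
      rw [← Ideal.Quotient.eq_zero_iff_mem, map_sub, h3, Matrix.one_apply, Matrix.one_apply]
      split_ifs
      · rw [map_one, sub_self]
      · rw [map_zero, sub_self]
    choose d hd using h1
    refine ⟨Matrix.of d, ?_⟩
    ext i j
    rw [Matrix.add_apply, Matrix.smul_apply, smul_eq_mul, Matrix.of_apply, ← hd]
    push_cast
    ring
  refine encard_orbitOff_le G M (ext A ρ) v
    (T := Matrix.GeneralLinearGroup (Fin r) (A ⧸ Ideal.span {(p : A)}))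
    (fun h => Matrix.GeneralLinearGroup.map (Ideal.Quotient.mk (Ideal.span {(p : A)})) (ρ h)) ?_
  intro g g' hgg hGg
  refine same_point_gen FF hhom G hG M (ext A ρ) v hX g g' hGg (UI I) htf ?_
  intro μ w hw0 hw
  have h2 : Matrix.GeneralLinearGroup.map (Ideal.Quotient.mk (Ideal.span {(p : A)}))
      (ρ (g⁻¹ * g')) = 1 := by
    rw [map_mul, map_mul, map_inv, map_inv]
    show (Matrix.GeneralLinearGroup.map (Ideal.Quotient.mk (Ideal.span {(p : A)})) (ρ g))⁻¹ *
      Matrix.GeneralLinearGroup.map (Ideal.Quotient.mk (Ideal.span {(p : A)})) (ρ g') = 1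
    have hgg' : Matrix.GeneralLinearGroup.map (Ideal.Quotient.mk (Ideal.span {(p : A)})) (ρ g) =
      Matrix.GeneralLinearGroup.map (Ideal.Quotient.mk (Ideal.span {(p : A)})) (ρ g') := hgg
    rw [hgg', inv_mul_cancel]
  have h2' : Matrix.GeneralLinearGroup.map (Ideal.Quotient.mk (Ideal.span {(p : A)}))
      (ρ (g⁻¹ * g')⁻¹) = 1 := by
    rw [map_inv, map_inv, h2, inv_one]
  refine eig_mem_UI I _ hII (ρ (g⁻¹ * g') : Matrix (Fin r) (Fin r) A)
    (ρ (g⁻¹ * g')⁻¹ : Matrix (Fin r) (Fin r) A) ?_ (hcong _ h2) (hcong _ h2') μ w hw0 hw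
  rw [← Units.val_mul, ← map_mul, inv_mul_cancel, map_one, Units.val_one]

end Pool.Agent.TH717.GO
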