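import Mathlib
import Pool.Agent.TH717.GO.Two
import Pool.Agent.TH717.GO.Res
import Pool.Agent.TH717.GO.Hyb2

set_option autoImplicit false

/-! # Varieties without rational curves over algebraically closed fields -/

namespace Pool.Agent.TH717.GO

open MvPolynomial Pool.Agent.H533R3.SL

variable {n : ℕ}

/-- **Specialisation** of a generic curve over any field. -/
theorem specialise_fin (k : Type) [Field k] (L : Type) [Field L] [Algebra k L]
    (p : Fin (n + 1) → Polynomial L) (FF : Set (MvPolynomial (Fin (n + 1)) k))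
    (hp : ∀ F ∈ FF, aeval p F = 0) (N : ℕ) (hN : ∀ i m, N ≤ m → (p i).coeff m = 0)
    (hc : ∃ i j, p i * Polynomial.C ((p j).eval 1) ≠ p j * Polynomial.C ((p i).eval 1))
    (G : MvPolynomial (Fin (n + 1)) k) (hG : aeval (fun i => (p i).eval 1) G ≠ 0) :
    ∃ (K : Type) (_ : Field K) (_ : Algebra k K) (_ : Module.Finite k K)
      (v : Fin N → Fin (n + 1) → K),
      (∀ F ∈ FF, aeval (cur v (fun j => (j : ℕ))) F = 0) ∧
      (∃ i j, cur v (fun j => (j : ℕ)) i * Polynomial.C ((cur v (fun j => (j : ℕ)) j).eval 1) ≠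
        cur v (fun j => (j : ℕ)) j * Polynomial.C ((cur v (fun j => (j : ℕ)) i).eval 1)) ∧
      aeval (fun i => (cur v (fun j => (j : ℕ)) i).eval 1) G ≠ 0 := by
  classical
  obtain ⟨i1, i2, hi⟩ := hc
  obtain ⟨w, hw⟩ : ∃ w, (p i1 * Polynomial.C ((p i2).eval 1) -
      p i2 * Polynomial.C ((p i1).eval 1)).coeff w ≠ 0 := by
    by_contra h
    push Not at h
    apply hi
    rw [← sub_eq_zero]
    ext m
    rw [h m, Polynomial.coeff_zero]
  set δ : L := (p i1 * Polynomial.C ((p i2).eval 1) -
      p i2 * Polynomial.C ((p i1).eval 1)).coeff w with hδ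
  set g : L := aeval (fun i => (p i).eval 1) G with hg
  let S : Finset L := (Finset.univ.image (fun q : Fin N × Fin (n + 1) => (p q.2).coeff q.1)) ∪
    {(g * δ)⁻¹}
  let R : Subalgebra k L := Algebra.adjoin k (S : Set L)
  have hft : Algebra.FiniteType k R := by
    rw [← Subalgebra.fg_iff_finiteType]
    exact Subalgebra.fg_adjoin_finset S
  have hcR : ∀ (j : Fin N) (i : Fin (n + 1)), (p i).coeff j ∈ R := by
    intro j i
    apply Algebra.subset_adjoin
    simp only [S, Finset.coe_union, Set.mem_union, Finset.mem_coe]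
    left
    exact Finset.mem_image.2 ⟨(j, i), Finset.mem_univ _, rfl⟩
  have hinvR : (g * δ)⁻¹ ∈ R := by
    apply Algebra.subset_adjoin
    simp only [S, Finset.coe_union, Set.mem_union, Finset.mem_coe]
    right
    exact Finset.mem_singleton_self _
  -- the lifted curve
  let c : Fin N → Fin (n + 1) → R := fun j i => ⟨(p i).coeff j, hcR j i⟩
  have hcp : ∀ i, Polynomial.mapAlgHom R.val (cur c (fun j => (j : ℕ)) i) = p i := by
    intro i
    unfold cur
    rw [map_sum]
    ext m
    rw [Polynomial.finsetSum_coeff]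
    have h1 : ∀ j : Fin N, (Polynomial.mapAlgHom R.val
        (Polynomial.C (c j i) * Polynomial.X ^ (j : ℕ))).coeff m =
        if m = (j : ℕ) then (p i).coeff j else 0 := by
      intro j
      rw [map_mul, map_pow, Polynomial.coe_mapAlgHom, Polynomial.map_C, Polynomial.map_X,
        Polynomial.coeff_C_mul_X_pow]
      rfl
    simp_rw [h1]
    by_cases hm : m < N
    · rw [Finset.sum_eq_single (⟨m, hm⟩ : Fin N)]
      · simp
      · intro j _ hj
        rw [if_neg]
        intro h
        apply hj
        exact Fin.ext h.symm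
      · intro h
        exact absurd (Finset.mem_univ _) h
    · rw [hN i m (by omega)]
      refine Finset.sum_eq_zero fun j _ => ?_
      rw [if_neg]
      have := j.2
      omega
  have hinj : Function.Injective (Polynomial.mapAlgHom R.val) :=
    Polynomial.map_injective _ Subtype.val_injective
  have hFc : ∀ F ∈ FF, aeval (cur c (fun j => (j : ℕ))) F = 0 := by
    intro F hF
    apply hinj
    rw [map_zero, MvPolynomial.comp_aeval_apply]
    rw [← hp F hF]
    congr 2
    funext i
    exact hcp i
  have hev : ∀ i, R.val ((cur c (fun j => (j : ℕ)) i).eval 1) = (p i).eval 1 := by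
    intro i
    rw [← hcp i]
    have h1 : (1 : L) = (R.val : R →+* L) 1 := (map_one _).symm
    rw [Polynomial.coe_mapAlgHom, h1, Polynomial.eval_map, Polynomial.eval₂_at_apply]
    rfl
  -- the maximal ideal
  obtain ⟨m, hm⟩ := Ideal.exists_maximal R
  let K : Type := R ⧸ m
  let _ : Field K := Ideal.Quotient.field m
  let φ : R →ₐ[k] K := Ideal.Quotient.mkₐ k m
  have hφ : Function.Surjective φ := Ideal.Quotient.mkₐ_surjective k m
  have : Algebra.FiniteType k K := Algebra.FiniteType.of_surjective φ hφ
  have : Module.Finite k K := finite_of_finite_type_of_isJacobsonRing k K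
  -- nonvanishing
  have hgδ : g * δ ≠ 0 := mul_ne_zero hG hw
  let gR : R := aeval (fun i => (cur c (fun j => (j : ℕ)) i).eval 1) G
  have hgR : R.val gR = g := by
    show R.val (aeval _ G) = _
    rw [MvPolynomial.comp_aeval_apply, hg]
    congr 2
    funext i
    exact hev i
  let δR : R := (cur c (fun j => (j : ℕ)) i1 *
      Polynomial.C ((cur c (fun j => (j : ℕ)) i2).eval 1) -
      cur c (fun j => (j : ℕ)) i2 * Polynomial.C ((cur c (fun j => (j : ℕ)) i1).eval 1)).coeff w
  have hδR : R.val δR = δ := by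
    have h1 : R.val δR = (Polynomial.mapAlgHom R.val (cur c (fun j => (j : ℕ)) i1 *
      Polynomial.C ((cur c (fun j => (j : ℕ)) i2).eval 1) -
      cur c (fun j => (j : ℕ)) i2 *
        Polynomial.C ((cur c (fun j => (j : ℕ)) i1).eval 1))).coeff w := by
      rw [Polynomial.coe_mapAlgHom, Polynomial.coeff_map]
      rfl
    rw [h1, map_sub, map_mul, map_mul, hcp, hcp, hδ]
    congr 3
    · rw [Polynomial.coe_mapAlgHom, Polynomial.map_C]
      congr 1
      exact hev i2
    · rw [Polynomial.coe_mapAlgHom, Polynomial.map_C]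
      congr 1
      exact hev i1
  have hunit : φ gR * φ δR * φ ⟨(g * δ)⁻¹, hinvR⟩ = 1 := by
    rw [← map_mul, ← map_mul]
    have h1 : gR * δR * ⟨(g * δ)⁻¹, hinvR⟩ = 1 := by
      apply Subtype.val_injective
      show R.val gR * R.val δR * (g * δ)⁻¹ = 1
      rw [hgR, hδR]
      exact mul_inv_cancel₀ hgδ
    rw [h1, map_one]
  have hg0 : φ gR ≠ 0 := by
    intro h
    rw [h, zero_mul, zero_mul] at hunit
    exact zero_ne_one hunit
  have hδ0 : φ δR ≠ 0 := by
    intro h
    rw [h, mul_zero, zero_mul] at hunit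
    exact zero_ne_one hunit
  -- the specialised curve
  let v : Fin N → Fin (n + 1) → K := fun j i => φ (c j i)
  have hcv : ∀ i, Polynomial.mapAlgHom φ (cur c (fun j => (j : ℕ)) i) =
      cur v (fun j => (j : ℕ)) i := by
    intro i
    unfold cur
    rw [map_sum]
    refine Finset.sum_congr rfl fun j _ => ?_
    rw [map_mul, map_pow, Polynomial.coe_mapAlgHom, Polynomial.map_C, Polynomial.map_X]
    rfl
  have hevK : ∀ i, φ ((cur c (fun j => (j : ℕ)) i).eval 1) =
      (cur v (fun j => (j : ℕ)) i).eval 1 := by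
    intro i
    rw [← hcv i]
    have h1 : (1 : K) = (φ : R →+* K) 1 := (map_one _).symm
    rw [Polynomial.coe_mapAlgHom, h1, Polynomial.eval_map, Polynomial.eval₂_at_apply]
    rfl
  refine ⟨K, inferInstance, inferInstance, inferInstance, v, ?_, ⟨i1, i2, ?_⟩, ?_⟩
  · intro F hF
    have h1 := congrArg (Polynomial.mapAlgHom φ) (hFc F hF)
    rw [map_zero, MvPolynomial.comp_aeval_apply] at h1
    rw [← h1]
    congr 2
    funext i
    exact (hcv i).symm
  · intro h
    apply hδ0
    have h1 : φ δR = (Polynomial.mapAlgHom φ (cur c (fun j => (j : ℕ)) i1 *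
      Polynomial.C ((cur c (fun j => (j : ℕ)) i2).eval 1) -
      cur c (fun j => (j : ℕ)) i2 *
        Polynomial.C ((cur c (fun j => (j : ℕ)) i1).eval 1))).coeff w := by
      rw [Polynomial.coe_mapAlgHom, Polynomial.coeff_map]
      rfl
    have h2 : Polynomial.mapAlgHom φ (cur c (fun j => (j : ℕ)) i1 *
      Polynomial.C ((cur c (fun j => (j : ℕ)) i2).eval 1) -
      cur c (fun j => (j : ℕ)) i2 *
        Polynomial.C ((cur c (fun j => (j : ℕ)) i1).eval 1)) = 0 := by
      rw [map_sub, map_mul, map_mul, hcv, hcv]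
      have h3 : ∀ i, Polynomial.mapAlgHom φ
          (Polynomial.C ((cur c (fun j => (j : ℕ)) i).eval 1)) =
          Polynomial.C ((cur v (fun j => (j : ℕ)) i).eval 1) := by
        intro i
        rw [Polynomial.coe_mapAlgHom, Polynomial.map_C]
        congr 1
        exact hevK i
      rw [h3, h3, h, sub_self]
    rw [h1, h2, Polynomial.coeff_zero]
  · intro h
    apply hg0
    show φ (aeval _ G) = 0
    rw [MvPolynomial.comp_aeval_apply, ← h]
    congr 2
    funext i
    exact hevK i

/-- the closed set `X` given by `FF` contains no rational curve: all polynomial curves on it are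
constant -/
def NoRat {k : Type} [Field k] (FF : Set (MvPolynomial (Fin (n + 1)) k)) : Prop :=
  ∀ q : Fin (n + 1) → Polynomial k, (∀ F ∈ FF, aeval q F = 0) →
    ∀ i j (a b : k), (q i).eval a * (q j).eval b = (q j).eval a * (q i).eval b

/-- over an algebraically closed field the absence of rational curves persists in extensions -/
theorem noRat_cur {k : Type} [Field k] [IsAlgClosed k]
    (FF : Set (MvPolynomial (Fin (n + 1)) k)) (h : NoRat FF) (R : ℕ) :
    CurCond FF (1 : MvPolynomial (Fin (n + 1)) k) R := by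
  intro L _ _ p S _ _ hF _ i i'
  by_contra hne
  set N : ℕ := Finset.univ.sup (fun i => (p i).natDegree) + 1 with hN
  have hNc : ∀ i m, N ≤ m → (p i).coeff m = 0 := by
    intro i m hm
    apply Polynomial.coeff_eq_zero_of_natDegree_lt
    have := Finset.le_sup (f := fun i => (p i).natDegree) (Finset.mem_univ i)
    omega
  obtain ⟨K, iK, iA, iF, w, h1, h2, -⟩ := specialise_fin k L p FF hF N hNc
    ⟨i, i', hne⟩ 1 (by rw [map_one]; exact one_ne_zero)
  have hint : Algebra.IsIntegral k K := Algebra.IsIntegral.of_finite k K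
  let e : k ≃ₐ[k] K := AlgEquiv.ofBijective (Algebra.ofId k K)
    (IsAlgClosed.algebraMap_bijective_of_isIntegral)
  have hinf : Infinite K := Infinite.of_injective e e.injective
  obtain ⟨i1, i2, a, b, hab⟩ := Pool.Agent.TH409.SH.nonconst_of _ h2
  apply hab
  let τ : K →ₐ[k] k := e.symm.toAlgHom
  have hτinj : Function.Injective τ := e.symm.injective
  apply hτinj
  let q : Fin (n + 1) → Polynomial K := cur w (fun j => (j : ℕ))
  have hev : ∀ i (a : K), ((q i).map (τ : K →+* k)).eval (τ a) = τ ((q i).eval a) := by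
    intro i a
    rw [Polynomial.eval_map]
    exact Polynomial.eval₂_at_apply (τ : K →+* k) a
  have h3 := h (fun i => (q i).map (τ : K →+* k)) (by
    intro F hFF
    have h4 := congrArg (Polynomial.mapAlgHom τ) (h1 F hFF)
    rw [map_zero, MvPolynomial.comp_aeval_apply] at h4
    exact h4) i1 i2 (τ a) (τ b)
  rw [hev, hev, hev, hev, ← map_mul, ← map_mul] at h3
  exact h3

end Pool.Agent.TH717.GO
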