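import Mathlib
import Pool.Agent.TH717.GO.Alg

set_option autoImplicit false

/-! # Finitely generated groups of matrices over a field of characteristic zero -/

namespace Pool.Agent.TH717.GO

open Pool.Agent.H533R3.SL

variable {n r : ℕ}

/-- on a nonconstant curve over a field of characteristic zero an orbit of a cyclic group is infinite -/
theorem curve_orbit' {k : Type} [Field k] (FF : Set (MvPolynomial (Fin (n + 1)) k))
    (G : MvPolynomial (Fin (n + 1)) k) {K : Type} [Field K] [CharZero K] [Algebra k K] {N : ℕ}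
    (w : Fin N → Fin (n + 1) → K)
    (h1 : ∀ F ∈ FF, MvPolynomial.aeval (cur w (fun j => (j : ℕ))) F = 0)
    (h2 : ∃ i j, cur w (fun j => (j : ℕ)) i * Polynomial.C ((cur w (fun j => (j : ℕ)) j).eval 1) ≠
        cur w (fun j => (j : ℕ)) j * Polynomial.C ((cur w (fun j => (j : ℕ)) i).eval 1))
    (h3 : MvPolynomial.aeval (fun i => (cur w (fun j => (j : ℕ)) i).eval 1) G ≠ 0) :
    (∀ h, ∀ F ∈ FF, MvPolynomial.aeval (orb (M0 w) (dia K N) (fun _ => 1) h) F = 0) ∧
        (orbitOff G (M0 w) (dia K N) (fun _ => 1)).Infinite := by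
  classical
  let q : Fin (n + 1) → Polynomial K := cur w (fun j => (j : ℕ))
  have hevG : ∀ (F : MvPolynomial (Fin (n + 1)) k) (t : K), (MvPolynomial.aeval q F).eval t =
      MvPolynomial.aeval (fun i => (q i).eval t) F := by
    intro F t
    exact MvPolynomial.comp_aeval_apply (R := k) q
      ((Polynomial.aeval t : Polynomial K →ₐ[K] K).restrictScalars k) F
  have horb : ∀ m : Multiplicative ℤ, orb (M0 w) (dia K N) (fun _ => 1) m =
      fun i => (q i).eval ((2 : K) ^ (Multiplicative.toAdd m)) := by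
    intro m
    funext i
    show ∑ j, M0 w i j * ((Matrix.diagonal fun j : Fin N =>
      ((2 : K) ^ (Multiplicative.toAdd m)) ^ (j : ℕ)).mulVec fun _ => 1) j = _
    show _ = (cur w (fun j : Fin N => (j : ℕ)) i).eval _
    unfold cur
    rw [Polynomial.eval_finsetSum]
    refine Finset.sum_congr rfl fun j _ => ?_
    rw [Matrix.mulVec_diagonal, Polynomial.eval_mul, Polynomial.eval_C, Polynomial.eval_pow,
      Polynomial.eval_X, mul_one]
    rfl
  refine ⟨?_, ?_⟩
  · intro h F hF
    rw [horb h, ← hevG, h1 F hF, Polynomial.eval_zero]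
  · intro hfin
    -- the curve would be constant
    have hG0 : MvPolynomial.aeval q G ≠ 0 := by
      intro h
      apply h3
      have := hevG G 1
      rw [h, Polynomial.eval_zero] at this
      exact this.symm
    obtain ⟨i1, i2, a, b, hab⟩ := Pool.Agent.TH409.SH.nonconst_of q h2
    have hq0 : q i1 ≠ 0 ∨ q i2 ≠ 0 := by
      by_contra h
      push Not at h
      apply hab
      rw [h.1, h.2]
    have h2inj : Function.Injective (fun m : ℕ => (2 : K) ^ m) := by
      intro m m' h
      have h4 : ((2 ^ m : ℕ) : K) = ((2 ^ m' : ℕ) : K) := by push_cast; exact h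
      exact Nat.pow_right_injective (le_refl 2) (Nat.cast_injective h4)
    -- all but finitely many powers of two are good
    let Q : Polynomial K := MvPolynomial.aeval q G * (if q i1 = 0 then q i2 else q i1)
    have hQ : Q ≠ 0 := by
      refine mul_ne_zero hG0 ?_
      split_ifs with h
      · rcases hq0 with h' | h'
        · exact absurd h h'
        · exact h'
      · exact h
    let good : Set ℕ := {m | Q.eval ((2 : K) ^ m) ≠ 0}
    have hgood : goodᶜ.Finite := by
      refine Set.Finite.of_finite_image (f := fun m : ℕ => (2 : K) ^ m) ?_ h2inj.injOn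
      refine (Q.roots.toFinset.finite_toSet).subset ?_
      rintro _ ⟨m, hm, rfl⟩
      have : Q.eval ((2 : K) ^ m) = 0 := by
        by_contra h
        exact hm h
      simpa [hQ] using this
    have hginf : good.Infinite := by
      intro h
      have := h.union hgood
      rw [Set.union_compl_self] at this
      exact Set.infinite_univ this
    have hgne : ∀ m ∈ good, (fun i => (q i).eval ((2 : K) ^ m)) ≠ 0 := by
      intro m hm h0
      apply hm
      show (MvPolynomial.aeval q G * (if q i1 = 0 then q i2 else q i1)).eval ((2 : K) ^ m) = 0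
      rw [Polynomial.eval_mul]
      have h5 : ∀ i, (q i).eval ((2 : K) ^ m) = 0 := fun i => congrFun h0 i
      split_ifs
      · rw [h5, mul_zero]
      · rw [h5, mul_zero]
    have hgG : ∀ m ∈ good, MvPolynomial.aeval (fun i => (q i).eval ((2 : K) ^ m)) G ≠ 0 := by
      intro m hm h0
      apply hm
      show (MvPolynomial.aeval q G * (if q i1 = 0 then q i2 else q i1)).eval ((2 : K) ^ m) = 0
      rw [Polynomial.eval_mul, hevG, h0, zero_mul]
    let pt : ℕ → Projectivization K (Fin (n + 1) → K) := fun m =>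
      if h : (fun i => (q i).eval ((2 : K) ^ m)) ≠ 0 then Projectivization.mk K _ h
      else Projectivization.mk K (fun _ => 1) (fun h => one_ne_zero (congrFun h 0))
    have hpt : ∀ m ∈ good, pt m ∈ orbitOff G (M0 w) (dia K N) (fun _ => 1) := by
      intro m hm
      have horbm : orb (M0 w) (dia K N) (fun _ => 1) (Multiplicative.ofAdd (m : ℤ)) =
          fun i => (q i).eval ((2 : K) ^ m) := by
        rw [horb]
        simp
      refine ⟨Multiplicative.ofAdd (m : ℤ), by rw [horbm]; exact hgne m hm, by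
        rw [horbm]; exact hgG m hm, ?_⟩
      simp only [pt, dif_pos (hgne m hm)]
      rw [Projectivization.mk_eq_mk_iff']
      exact ⟨1, by rw [one_smul, horbm]⟩
    obtain ⟨P, -, hP⟩ : ∃ P ∈ orbitOff G (M0 w) (dia K N) (fun _ => 1),
        (good ∩ pt ⁻¹' {P}).Infinite := by
      by_contra hcon
      push Not at hcon
      apply hginf
      have h6 : good ⊆ ⋃ P ∈ orbitOff G (M0 w) (dia K N) (fun _ => 1), good ∩ pt ⁻¹' {P} := by
        intro m hm
        exact Set.mem_biUnion (hpt m hm) ⟨hm, rfl⟩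
      exact (Set.Finite.biUnion hfin fun P hP => Set.not_infinite.1 (by
        intro h7
        exact absurd h7 (by simpa using hcon P hP))).subset h6
    -- the point is constant along infinitely many parameters
    obtain ⟨m0, hm0, hm0P⟩ := hP.nonempty
    have hrel : ∀ i j, q i * Polynomial.C ((q j).eval ((2 : K) ^ m0)) =
        q j * Polynomial.C ((q i).eval ((2 : K) ^ m0)) := by
      intro i j
      rw [← sub_eq_zero]
      refine Polynomial.eq_zero_of_infinite_isRoot _ ?_
      refine Set.Infinite.mono ?_ (hP.image h2inj.injOn)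
      rintro _ ⟨m, ⟨hm, hmP⟩, rfl⟩
      have h8 : pt m = pt m0 := by
        rw [show pt m = P from hmP, show pt m0 = P from hm0P]
      simp only [pt, dif_pos (hgne m hm), dif_pos (hgne m0 hm0)] at h8
      rw [Projectivization.mk_eq_mk_iff'] at h8
      obtain ⟨c, hc⟩ := h8
      have hci : ∀ i, c * (q i).eval ((2 : K) ^ m0) = (q i).eval ((2 : K) ^ m) := fun i =>
        congrFun hc i
      show (q i * Polynomial.C ((q j).eval ((2 : K) ^ m0)) -
        q j * Polynomial.C ((q i).eval ((2 : K) ^ m0))).eval ((2 : K) ^ m) = 0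
      rw [Polynomial.eval_sub, Polynomial.eval_mul, Polynomial.eval_mul, Polynomial.eval_C,
        Polynomial.eval_C, ← hci i, ← hci j]
      ring
    obtain ⟨i0, hi0⟩ : ∃ i, (q i).eval ((2 : K) ^ m0) ≠ 0 := by
      by_contra h
      push Not at h
      exact hgne m0 hm0 (funext h)
    apply hab
    have e1 := congrArg (Polynomial.eval a) (hrel i1 i0)
    have e2 := congrArg (Polynomial.eval b) (hrel i2 i0)
    have e3 := congrArg (Polynomial.eval a) (hrel i2 i0)
    have e4 := congrArg (Polynomial.eval b) (hrel i1 i0)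
    simp only [Polynomial.eval_mul, Polynomial.eval_C] at e1 e2 e3 e4
    have hne2 : (q i0).eval ((2 : K) ^ m0) * (q i0).eval ((2 : K) ^ m0) ≠ 0 := mul_ne_zero hi0 hi0
    apply mul_right_cancel₀ hne2
    calc (q i1).eval a * (q i2).eval b * ((q i0).eval ((2 : K) ^ m0) * (q i0).eval ((2 : K) ^ m0))
        = ((q i1).eval a * (q i0).eval ((2 : K) ^ m0)) *
          ((q i2).eval b * (q i0).eval ((2 : K) ^ m0)) := by ring
      _ = ((q i0).eval a * (q i1).eval ((2 : K) ^ m0)) *
          ((q i0).eval b * (q i2).eval ((2 : K) ^ m0)) := by rw [e1, e2]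
      _ = ((q i0).eval a * (q i2).eval ((2 : K) ^ m0)) *
          ((q i0).eval b * (q i1).eval ((2 : K) ^ m0)) := by ring
      _ = ((q i2).eval a * (q i0).eval ((2 : K) ^ m0)) *
          ((q i1).eval b * (q i0).eval ((2 : K) ^ m0)) := by rw [e3, e4]
      _ = (q i2).eval a * (q i1).eval b *
          ((q i0).eval ((2 : K) ^ m0) * (q i0).eval ((2 : K) ^ m0)) := by ring


theorem exists_residue_closure {K : Type} [Field K] [CharZero K] (S : Finset K) :
    ∃ N : ℕ, N ≠ 0 ∧ ∀ p : ℕ, p.Prime → ¬ p ∣ N → ∃ (F : Type) (_ : Field F) (_ : Finite F),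
      ringChar F = p ∧ Nonempty (Subring.closure (S : Set K) →+* F) := by
  obtain ⟨N, hN, h⟩ := exists_residue S
  refine ⟨N, hN, fun p hp hpN => ?_⟩
  obtain ⟨F, iF, hF, hch, ⟨g⟩⟩ := h p hp hpN
  have hle : Subring.closure (S : Set K) ≤ (Algebra.adjoin ℤ (S : Set K)).toSubring := by
    rw [Subring.closure_le]
    exact Algebra.subset_adjoin
  let g' : (Algebra.adjoin ℤ (S : Set K)).toSubring →+* F := g
  exact ⟨F, iF, hF, hch, ⟨g'.comp (Subring.inclusion hle)⟩⟩

/-- matrices with entries in a subring whose inverses have entries in the subring -/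
def GLs {K : Type} [Field K] (A : Subring K) (r : ℕ) :
    Subgroup (Matrix.GeneralLinearGroup (Fin r) K) where
  carrier := {g | (∀ i j, (g : Matrix (Fin r) (Fin r) K) i j ∈ A) ∧
    ∀ i j, ((g⁻¹ : Matrix.GeneralLinearGroup (Fin r) K) : Matrix (Fin r) (Fin r) K) i j ∈ A}
  one_mem' := by
    have h1 : ∀ i j, (1 : Matrix (Fin r) (Fin r) K) i j ∈ A := by
      intro i j
      rw [Matrix.one_apply]
      split_ifs
      · exact A.one_mem
      · exact A.zero_mem
    refine ⟨?_, ?_⟩
    · simpa using h1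
    · simpa using h1
  mul_mem' := by
    have h1 : ∀ B C : Matrix (Fin r) (Fin r) K, (∀ i j, B i j ∈ A) →
        (∀ i j, C i j ∈ A) → ∀ i j, (B * C) i j ∈ A := by
      intro B C hB hC i j
      rw [Matrix.mul_apply]
      exact A.sum_mem fun a _ => A.mul_mem (hB i a) (hC a j)
    rintro a b ⟨ha, ha'⟩ ⟨hb, hb'⟩
    refine ⟨?_, ?_⟩
    · rw [Units.val_mul]
      exact h1 _ _ ha hb
    · rw [mul_inv_rev, Units.val_mul]
      exact h1 _ _ hb' ha'
  inv_mem' := by
    rintro a ⟨ha, ha'⟩
    exact ⟨ha', by rwa [inv_inv]⟩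

/-- a representation whose matrices have entries in a subring -/
def toSub {K : Type} [Field K] (A : Subring K) {H : Type} [Group H]
    (ρ : H →* Matrix.GeneralLinearGroup (Fin r) K) (h : ∀ g, ρ g ∈ GLs A r) :
    H →* Matrix.GeneralLinearGroup (Fin r) A where
  toFun g :=
    { val := Matrix.of fun i j => ⟨(ρ g : Matrix (Fin r) (Fin r) K) i j, (h g).1 i j⟩
      inv := Matrix.of fun i j => ⟨((ρ g)⁻¹ : Matrix.GeneralLinearGroup (Fin r) K).val i j,
        (h g).2 i j⟩
      val_inv := by
        apply Matrix.ext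
        intro i j
        apply Subtype.ext
        have h1 : ((ρ g : Matrix (Fin r) (Fin r) K) *
          ((ρ g)⁻¹ : Matrix.GeneralLinearGroup (Fin r) K).val) i j =
            (1 : Matrix (Fin r) (Fin r) K) i j := by
          rw [← Units.val_mul, mul_inv_cancel, Units.val_one]
        rw [Matrix.mul_apply] at h1 ⊢
        rw [Matrix.one_apply] at h1 ⊢
        refine (map_sum A.subtype _ _).trans (Eq.trans ?_ (h1.trans ?_))
        · rfl
        · split_ifs <;> rfl
      inv_val := by
        apply Matrix.ext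
        intro i j
        apply Subtype.ext
        have h1 : (((ρ g)⁻¹ : Matrix.GeneralLinearGroup (Fin r) K).val *
          (ρ g : Matrix (Fin r) (Fin r) K)) i j = (1 : Matrix (Fin r) (Fin r) K) i j := by
          rw [← Units.val_mul, inv_mul_cancel, Units.val_one]
        rw [Matrix.mul_apply] at h1 ⊢
        rw [Matrix.one_apply] at h1 ⊢
        refine (map_sum A.subtype _ _).trans (Eq.trans ?_ (h1.trans ?_))
        · rfl
        · split_ifs <;> rfl }
  map_one' := by
    apply Units.ext
    apply Matrix.ext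
    intro i j
    apply Subtype.ext
    show (ρ 1 : Matrix (Fin r) (Fin r) K) i j = ((1 : Matrix (Fin r) (Fin r) A) i j : K)
    rw [map_one, Units.val_one, Matrix.one_apply, Matrix.one_apply]
    split_ifs <;> rfl
  map_mul' a b := by
    apply Units.ext
    apply Matrix.ext
    intro i j
    apply Subtype.ext
    have h1 : (ρ (a * b) : Matrix (Fin r) (Fin r) K) i j =
        ∑ x, (ρ a : Matrix (Fin r) (Fin r) K) i x * (ρ b : Matrix (Fin r) (Fin r) K) x j := by
      rw [map_mul, Units.val_mul, Matrix.mul_apply]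
    refine Eq.trans (Eq.trans ?_ h1) (Eq.trans ?_ (map_sum A.subtype _ _).symm)
    · rfl
    · rfl

theorem ext_toSub {K : Type} [Field K] (A : Subring K) {H : Type} [Group H]
    (ρ : H →* Matrix.GeneralLinearGroup (Fin r) K) (h : ∀ g, ρ g ∈ GLs A r) :
    ext A (toSub A ρ h) = ρ := by
  apply MonoidHom.ext
  intro g
  apply Units.ext
  rfl

theorem fg_subring {K : Type} [Field K] {H : Type} [Group H] (hH : Group.FG H)
    (ρ : H →* Matrix.GeneralLinearGroup (Fin r) K) :
    ∃ S : Finset K, ∀ g, ρ g ∈ GLs (Subring.closure (S : Set K)) r := by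
  classical
  obtain ⟨T, hT⟩ := Group.fg_def.1 hH
  let S : Finset K := T.biUnion fun s => (Finset.univ ×ˢ Finset.univ).biUnion
    fun q : Fin r × Fin r => {(ρ s : Matrix (Fin r) (Fin r) K) q.1 q.2,
      ((ρ s)⁻¹ : Matrix.GeneralLinearGroup (Fin r) K).val q.1 q.2}
  refine ⟨S, ?_⟩
  have hall : (⊤ : Subgroup H) ≤ (GLs (Subring.closure (S : Set K)) r).comap ρ := by
    rw [← hT, Subgroup.closure_le]
    intro s hs
    have hmem : ∀ (i j : Fin r) (x : K), (x = (ρ s : Matrix (Fin r) (Fin r) K) i j ∨
        x = ((ρ s)⁻¹ : Matrix.GeneralLinearGroup (Fin r) K).val i j) → x ∈ S := by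
      intro i j x hx
      refine Finset.mem_biUnion.2 ⟨s, hs, Finset.mem_biUnion.2 ⟨(i, j), by simp, ?_⟩⟩
      rw [Finset.mem_insert, Finset.mem_singleton]
      exact hx
    exact ⟨fun i j => Subring.subset_closure (hmem i j _ (Or.inl rfl)),
      fun i j => Subring.subset_closure (hmem i j _ (Or.inr rfl))⟩
  intro g
  exact hall (Subgroup.mem_top g)

/-- **Orbits of a finitely generated group of matrices**: the number of points is bounded
independently of the variety and of the orbit. -/
theorem fg_bound {K : Type} [Field K] [CharZero K] {H : Type} [Group H] (hH : Group.FG H)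
    (ρ : H →* Matrix.GeneralLinearGroup (Fin r) K) :
    ∃ B : ℕ, ∀ (k : Type) [Field k] [CharZero k] [Algebra k K] (n : ℕ)
      (FF : Set (MvPolynomial (Fin (n + 1)) k)), (∀ F ∈ FF, ∃ e, F.IsHomogeneous e) →
      ∀ G : MvPolynomial (Fin (n + 1)) k, CurCond FF G (r * r) →
      ∀ (M : Matrix (Fin (n + 1)) (Fin r) K) (v : Fin r → K),
      (∀ h, ∀ F ∈ FF, MvPolynomial.aeval (orb M ρ v h) F = 0) →
      (orbitOff G M ρ v).encard ≤ B := by
  obtain ⟨S, hS⟩ := fg_subring hH ρ
  obtain ⟨N, hN, hp⟩ := exists_residue_closure S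
  obtain ⟨p₁, hp₁N, hp₁⟩ := Nat.exists_infinite_primes (N + 1)
  obtain ⟨p₂, hp₂N, hp₂⟩ := Nat.exists_infinite_primes (p₁ + 1)
  have hnd : ∀ p, N + 1 ≤ p → ¬ p ∣ N := fun p hp h => by
    have := Nat.le_of_dvd (Nat.pos_of_ne_zero hN) h
    omega
  obtain ⟨F₁, i1, f1, hc1, ⟨φ₁⟩⟩ := hp p₁ hp₁ (hnd p₁ hp₁N)
  obtain ⟨F₂, i2, f2, hc2, ⟨φ₂⟩⟩ := hp p₂ hp₂ (hnd p₂ (by omega))
  refine ⟨Nat.card (Matrix.GeneralLinearGroup (Fin r) F₁) *
        Nat.card (Matrix.GeneralLinearGroup (Fin r) F₂), ?_⟩
  intro k _ _ _ n FF hhom G hG M v hX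
  have h1 := two_core FF hhom G hG (Subring.closure (S : Set K)) φ₁ φ₂ (by
    rw [hc1, hc2]
    omega) (toSub _ ρ hS) M v (by
      rw [ext_toSub]
      exact hX)
  rwa [ext_toSub] at h1

end Pool.Agent.TH717.GO
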