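import Mathlib
import Pool.Agent.TH717.GO.FG

set_option autoImplicit false

/-! # Orbits over extension fields: from two residue fields to finitely generated groups -/

namespace Pool.Agent.TH717.GO

open MvPolynomial Pool.Agent.H533R3.SL

variable {n r : ℕ}

/-- a bound for all rings with two residue fields gives finiteness for finitely generated groups -/
theorem finite_of_res {k : Type} [Field k] {K : Type} [Field K] [CharZero K] [Algebra k K]
    (FF : Set (MvPolynomial (Fin (n + 1)) k)) (G : MvPolynomial (Fin (n + 1)) k)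
    {H : Type} [Group H] (M : Matrix (Fin (n + 1)) (Fin r) K) (v : Fin r → K)
    (h : ∀ (A : Subring K) (F₁ F₂ : Type) [Field F₁] [Field F₂] [Finite F₁] [Finite F₂]
      (_ : A →+* F₁) (_ : A →+* F₂), ringChar F₁ ≠ ringChar F₂ →
      ∀ (ρ : H →* Matrix.GeneralLinearGroup (Fin r) A),
      (∀ h, ∀ F ∈ FF, aeval (orb M (ext A ρ) v h) F = 0) →
      (orbitOff G M (ext A ρ) v).encard ≤
        (Nat.card (Matrix.GeneralLinearGroup (Fin r) F₁) *
          Nat.card (Matrix.GeneralLinearGroup (Fin r) F₂) : ℕ))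
    (hH : Group.FG H) (ρ : H →* Matrix.GeneralLinearGroup (Fin r) K)
    (hX : ∀ h, ∀ F ∈ FF, aeval (orb M ρ v h) F = 0) : (orbitOff G M ρ v).Finite := by
  obtain ⟨S, hS⟩ := fg_subring hH ρ
  obtain ⟨N, hN, hp⟩ := exists_residue_closure S
  obtain ⟨p₁, hp₁N, hp₁⟩ := Nat.exists_infinite_primes (N + 1)
  obtain ⟨p₂, hp₂N, hp₂⟩ := Nat.exists_infinite_primes (p₁ + 1)
  have hnd : ∀ p, N + 1 ≤ p → ¬ p ∣ N := fun p hp h => by
    have := Nat.le_of_dvd (Nat.pos_of_ne_zero hN) h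
    omega
  obtain ⟨F₁, i1, f1, hc1, ⟨φ₁⟩⟩ := hp p₁ hp₁ (hnd p₁ hp₁N)
  obtain ⟨F₂, i2, f2, hc2, ⟨φ₂⟩⟩ := hp p₂ hp₂ (hnd p₂ (by omega))
  have h1 := h (Subring.closure (S : Set K)) F₁ F₂ φ₁ φ₂ (by
    rw [hc1, hc2]
    omega) (toSub _ ρ hS) (by
      rw [ext_toSub]
      exact hX)
  rw [ext_toSub] at h1
  exact Set.finite_of_encard_le_coe h1

end Pool.Agent.TH717.GO
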