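import Mathlib
import Pool.Agent.TH717.GO.Two

set_option autoImplicit false

/-! # The subgroup generated by the neat elements -/

namespace Pool.Agent.TH717.GO

open Polynomial Pool.Agent.H533R3.SL

/-- exponential polynomials with torsion-free roots form a domain -/
theorem ep_domain {L : Type} [Field L] [CharZero L] (Λ : Subgroup Lˣ) (S : Finset Λ) (r : ℕ)
    (β : Λ →* Multiplicative ℤ) (hβ : Set.InjOn β (S : Set Λ)) (a b : Λ → Polynomial L)
    (ha : ∀ μ ∈ S, (a μ).degree < r) (hb : ∀ μ ∈ S, (b μ).degree < r)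
    (h : ∀ m : ℕ, (∑ μ ∈ S, (a μ).eval (m : L) * ((μ : Lˣ) : L) ^ m) *
      (∑ μ ∈ S, (b μ).eval (m : L) * ((μ : Lˣ) : L) ^ m) = 0) :
    (∀ m : ℕ, ∑ μ ∈ S, (a μ).eval (m : L) * ((μ : Lˣ) : L) ^ m = 0) ∨
      ∀ m : ℕ, ∑ μ ∈ S, (b μ).eval (m : L) * ((μ : Lˣ) : L) ^ m = 0 := by
  classical
  have h0 : mk Λ S a * mk Λ S b = 0 := by
    apply ev_injective Λ
    rw [map_mul, map_zero]
    funext m
    show ev Λ (mk Λ S a) m * ev Λ (mk Λ S b) m = 0
    rw [ev_mk, ev_mk]
    exact h m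
  let β' : Λ →* Multiplicative ℤ := (powMonoidHom r).comp β
  have hβ' : ∀ μ, Multiplicative.toAdd (β' μ) = r * Multiplicative.toAdd (β μ) := by
    intro μ
    show Multiplicative.toAdd (β μ ^ r) = _
    rw [toAdd_pow]
    simp
  let B : ℕ := ∑ μ ∈ S, (Multiplicative.toAdd (β' μ)).natAbs
  have hB : ∀ μ ∈ S, 0 ≤ Multiplicative.toAdd (β' μ) + (B : ℤ) := by
    intro μ hμ
    have h1 : (Multiplicative.toAdd (β' μ)).natAbs ≤ B :=
      Finset.single_le_sum (f := fun μ => (Multiplicative.toAdd (β' μ)).natAbs)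
        (fun _ _ => Nat.zero_le _) hμ
    omega
  let bb : Λ → ℕ := fun μ => (Multiplicative.toAdd (β' μ) + (B : ℤ)).toNat
  have hbb : ∀ μ ∈ S, ∀ ν ∈ S, μ ≠ ν → bb μ + r ≤ bb ν ∨ bb ν + r ≤ bb μ := by
    intro μ hμ ν hν hne
    have h1 : Multiplicative.toAdd (β μ) ≠ Multiplicative.toAdd (β ν) := fun h =>
      hne (hβ hμ hν (Multiplicative.toAdd.injective h))
    have h2 := Int.toNat_of_nonneg (hB μ hμ)
    have h3 := Int.toNat_of_nonneg (hB ν hν)
    have h4 : ((bb μ : ℕ) : ℤ) = r * Multiplicative.toAdd (β μ) + B := by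
      rw [← hβ']; exact h2
    have h5 : ((bb ν : ℕ) : ℤ) = r * Multiplicative.toAdd (β ν) + B := by
      rw [← hβ']; exact h3
    rcases lt_or_gt_of_ne h1 with h | h
    · left
      have h6 : (r : ℤ) * (Multiplicative.toAdd (β μ) + 1) ≤ r * Multiplicative.toAdd (β ν) :=
        mul_le_mul_of_nonneg_left (by omega) (by positivity)
      zify
      rw [h4, h5]
      linarith
    · right
      have h6 : (r : ℤ) * (Multiplicative.toAdd (β ν) + 1) ≤ r * Multiplicative.toAdd (β μ) :=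
        mul_le_mul_of_nonneg_left (by omega) (by positivity)
      zify
      rw [h4, h5]
      linarith
  have key : ∀ c : Λ → Polynomial L, (∀ μ ∈ S, (c μ).degree < r) → phi Λ β' (mk Λ S c) = 0 →
      ∀ m : ℕ, ∑ μ ∈ S, (c μ).eval (m : L) * ((μ : Lˣ) : L) ^ m = 0 := by
    intro c hc h1 m
    have h2 := phi_mk Λ β' B S hB c
    rw [h1, mul_zero] at h2
    have h3 : crv S bb c = 0 := RatFunc.algebraMap_injective L (by rw [map_zero]; exact h2)
    have h4 := crv_sep S bb r hbb c hc h3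
    refine Finset.sum_eq_zero fun μ hμ => ?_
    rw [h4 μ hμ, eval_zero, zero_mul]
  have h1 := congrArg (phi Λ β') h0
  rw [map_mul, map_zero] at h1
  rcases mul_eq_zero.1 h1 with h2 | h2
  · exact Or.inl (key a ha h2)
  · exact Or.inr (key b hb h2)

/-- two sequences given by the same linear map with torsion-free eigenvalues: if the product
vanishes then one of them vanishes -/
theorem seq_domain {L : Type} [Field L] [IsAlgClosed L] [CharZero L] {r : ℕ}
    (f : Module.End L (Fin r → L)) (U : Subgroup Lˣ)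
    (hU : ∀ u ∈ U, ∀ m : ℕ, 0 < m → u ^ m = 1 → u = 1)
    (hfU : ∀ μ : L, f.HasEigenvalue μ → ∃ u ∈ U, (u : L) = μ)
    (ℓ₁ ℓ₂ : (Fin r → L) →ₗ[L] L) (v₁ v₂ : Fin r → L)
    (h : ∀ m : ℕ, ℓ₁ ((f ^ m) v₁) * ℓ₂ ((f ^ m) v₂) = 0) :
    (∀ m : ℕ, ℓ₁ ((f ^ m) v₁) = 0) ∨ ∀ m : ℕ, ℓ₂ ((f ^ m) v₂) = 0 := by
  classical
  let E : Set Lˣ := {u | f.HasEigenvalue (u : L)}
  have hEfin : E.Finite := by
    have h1 : (Units.val '' E : Set L).Finite := by
      by_contra hinf
      obtain ⟨T, hT, hTc⟩ := Set.Infinite.exists_subset_card_eq hinf (r + 1)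
      have h1 := card_le_of_eig f T (by
        intro μ hμ
        obtain ⟨u, hu, rfl⟩ := hT hμ
        exact hu)
      omega
    exact Set.Finite.of_finite_image h1 (fun a _ b _ h => Units.ext h)
  let Λ : Subgroup Lˣ := Subgroup.closure E
  have hΛU : Λ ≤ U := by
    rw [Subgroup.closure_le]
    intro u hu
    obtain ⟨u', hu', h⟩ := hfU (u : L) hu
    rwa [← Units.ext h]
  have hΛ : ∀ μ : L, f.HasEigenvalue μ → ∃ ν : Λ, ((ν : Lˣ) : L) = μ := by
    intro μ hμ
    obtain ⟨u, hu, rfl⟩ := hfU μ hμ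
    exact ⟨⟨u, Subgroup.subset_closure hμ⟩, rfl⟩
  have hfg : Group.FG Λ := by
    rw [Group.fg_iff_subgroup_fg]
    exact ⟨hEfin.toFinset, by rw [Set.Finite.coe_toFinset]⟩
  obtain ⟨S, hS1, hS2⟩ := seq_rep f Λ hΛ
  obtain ⟨β, hβ⟩ := exists_beta hfg (fun g m hm h => by
    have h1 := hU g (hΛU g.2) m hm (by
      have := congrArg (Subtype.val : Λ → Lˣ) h
      simpa using this)
    exact Subtype.ext h1) S
  obtain ⟨a, ha, hae⟩ := hS2 ℓ₁ v₁
  obtain ⟨b, hb, hbe⟩ := hS2 ℓ₂ v₂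
  have h1 := ep_domain Λ S r β hβ a b ha hb (fun m => by
    rw [← hae m, ← hbe m]
    exact h m)
  rcases h1 with h2 | h2
  · exact Or.inl fun m => by rw [hae m, h2 m]
  · exact Or.inr fun m => by rw [hbe m, h2 m]

variable {n r : ℕ} {K : Type} [Field K] {H : Type} [Group H]

/-- `h` is neat: the eigenvalues of its matrix lie in a torsion-free group -/
def NeatEl (ρ : H →* Matrix.GeneralLinearGroup (Fin r) K) (h : H) : Prop :=
  ∃ U : Subgroup (AlgebraicClosure K)ˣ, (∀ u ∈ U, ∀ m : ℕ, 0 < m → u ^ m = 1 → u = 1) ∧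
    ∀ (μ : AlgebraicClosure K) (w : Fin r → AlgebraicClosure K), w ≠ 0 →
      ((ρ h : Matrix (Fin r) (Fin r) K).map (algebraMap K (AlgebraicClosure K))).mulVec w =
        μ • w → ∃ u ∈ U, (u : AlgebraicClosure K) = μ

theorem map_mul' (ρ : H →* Matrix.GeneralLinearGroup (Fin r) K) (a b : H) :
    (ρ (a * b) : Matrix (Fin r) (Fin r) K).map (algebraMap K (AlgebraicClosure K)) =
      (ρ a : Matrix (Fin r) (Fin r) K).map (algebraMap K (AlgebraicClosure K)) *
      (ρ b : Matrix (Fin r) (Fin r) K).map (algebraMap K (AlgebraicClosure K)) := by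
  rw [map_mul, Units.val_mul, Matrix.map_mul]

theorem map_one' (ρ : H →* Matrix.GeneralLinearGroup (Fin r) K) :
    (ρ 1 : Matrix (Fin r) (Fin r) K).map (algebraMap K (AlgebraicClosure K)) = 1 := by
  rw [map_one, Units.val_one, Matrix.map_one _ (map_zero _) (map_one _)]

theorem NeatEl.inv {ρ : H →* Matrix.GeneralLinearGroup (Fin r) K} {h : H} (hh : NeatEl ρ h) :
    NeatEl ρ h⁻¹ := by
  obtain ⟨U, hU, hE⟩ := hh
  refine ⟨U, hU, fun μ w hw0 hw => ?_⟩
  have h1 : ((ρ h : Matrix (Fin r) (Fin r) K).map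
      (algebraMap K (AlgebraicClosure K))).mulVec (μ • w) = w := by
    rw [← hw, Matrix.mulVec_mulVec, ← map_mul', mul_inv_cancel, map_one', Matrix.one_mulVec]
  have hμ0 : μ ≠ 0 := by
    rintro rfl
    rw [zero_smul, Matrix.mulVec_zero] at h1
    exact hw0 h1.symm
  have h2 : ((ρ h : Matrix (Fin r) (Fin r) K).map
      (algebraMap K (AlgebraicClosure K))).mulVec w = μ⁻¹ • w := by
    rw [Matrix.mulVec_smul] at h1
    conv_rhs => rw [← h1]
    rw [smul_smul, inv_mul_cancel₀ hμ0, one_smul]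
  obtain ⟨u, hu, hu1⟩ := hE μ⁻¹ w hw0 h2
  exact ⟨u⁻¹, U.inv_mem hu, by rw [Units.val_inv_eq_inv_val, hu1, inv_inv]⟩

theorem NeatEl.conj {ρ : H →* Matrix.GeneralLinearGroup (Fin r) K} {h : H} (hh : NeatEl ρ h)
    (g : H) : NeatEl ρ (g * h * g⁻¹) := by
  obtain ⟨U, hU, hE⟩ := hh
  refine ⟨U, hU, fun μ w hw0 hw => ?_⟩
  refine hE μ (((ρ g⁻¹ : Matrix (Fin r) (Fin r) K).map
    (algebraMap K (AlgebraicClosure K))).mulVec w) ?_ ?_
  · intro h0
    apply hw0
    have h1 : ((ρ (g * g⁻¹) : Matrix (Fin r) (Fin r) K).map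
        (algebraMap K (AlgebraicClosure K))).mulVec w = 0 := by
      rw [map_mul', ← Matrix.mulVec_mulVec, h0, Matrix.mulVec_zero]
    rwa [mul_inv_cancel, map_one', Matrix.one_mulVec] at h1
  · rw [Matrix.mulVec_mulVec, ← map_mul']
    have h1 : h * g⁻¹ = g⁻¹ * (g * h * g⁻¹) := by group
    rw [h1, map_mul', ← Matrix.mulVec_mulVec, hw, Matrix.mulVec_smul]

/-- the subgroup generated by the neat elements -/
def NN (ρ : H →* Matrix.GeneralLinearGroup (Fin r) K) : Subgroup H :=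
  Subgroup.closure {h | NeatEl ρ h}

instance NN_normal (ρ : H →* Matrix.GeneralLinearGroup (Fin r) K) : (NN ρ).Normal := by
  constructor
  intro x hx g
  induction hx using Subgroup.closure_induction with
  | mem x hx => exact Subgroup.subset_closure (hx.conj g)
  | one => rw [mul_one, mul_inv_cancel]; exact Subgroup.one_mem _
  | mul x y _ _ hx hy =>
    have h1 : g * (x * y) * g⁻¹ = (g * x * g⁻¹) * (g * y * g⁻¹) := by group
    rw [h1]
    exact Subgroup.mul_mem _ hx hy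
  | inv x _ hx =>
    have h1 : g * x⁻¹ * g⁻¹ = (g * x * g⁻¹)⁻¹ := by group
    rw [h1]
    exact Subgroup.inv_mem _ hx

/-- along the powers of a neat element -/
theorem neat_pow {k : Type} [Field k] [CharZero k]
    (FF : Set (MvPolynomial (Fin (n + 1)) k)) (hhom : ∀ F ∈ FF, ∃ e, F.IsHomogeneous e)
    (G : MvPolynomial (Fin (n + 1)) k) (hG : CurCond FF G (r * r))
    [Algebra k K] (M : Matrix (Fin (n + 1)) (Fin r) K)
    (ρ : H →* Matrix.GeneralLinearGroup (Fin r) K) (v : Fin r → K)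
    (hX : ∀ h, ∀ F ∈ FF, MvPolynomial.aeval (orb M ρ v h) F = 0) (g h : H)
    (hGg : MvPolynomial.aeval (orb M ρ v g) G ≠ 0) (hh : NeatEl ρ h)
    (i i' : Fin (n + 1)) (m : ℕ) :
    orb M ρ v (g * h ^ m) i * orb M ρ v g i' = orb M ρ v (g * h ^ m) i' * orb M ρ v g i := by
  classical
  obtain ⟨U, hU, heig⟩ := hh
  let L := AlgebraicClosure K
  let φ : K →+* L := algebraMap K L
  have hφ : Function.Injective φ := (algebraMap K L).injective
  have hmul : ∀ a b : H, (ρ (a * b) : Matrix (Fin r) (Fin r) K) =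
      (ρ a : Matrix (Fin r) (Fin r) K) * (ρ b : Matrix (Fin r) (Fin r) K) := fun a b => by
    rw [map_mul, Units.val_mul]
  let ℓ : (Fin r → L) →ₗ[L] (Fin (n + 1) → L) :=
    Matrix.mulVecLin ((M * (ρ g : Matrix (Fin r) (Fin r) K)).map φ)
  let v' : Fin r → L := φ ∘ v
  have hρpow : ∀ m : ℕ, (ρ (h ^ m) : Matrix (Fin r) (Fin r) K) =
      (ρ h : Matrix (Fin r) (Fin r) K) ^ m := fun m => by
    rw [map_pow, Units.val_pow_eq_pow_val]
  have hseq : ∀ m : ℕ, ℓ (((Matrix.toLinAlgEquiv' ((ρ h : Matrix (Fin r) (Fin r) K).map φ)) ^ m) v') =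
      fun i => φ (orb M ρ v (g * h ^ m) i) := by
    intro m
    rw [← map_pow, Matrix.toLinAlgEquiv'_apply]
    have h1 : ((ρ h : Matrix (Fin r) (Fin r) K).map φ) ^ m =
        ((ρ (h ^ m) : Matrix (Fin r) (Fin r) K)).map φ := by
      have h2 : ((ρ h : Matrix (Fin r) (Fin r) K).map φ) =
          φ.mapMatrix (ρ h : Matrix (Fin r) (Fin r) K) := rfl
      rw [h2, ← map_pow, ← hρpow]
      rfl
    rw [h1]
    show ((M * (ρ g : Matrix (Fin r) (Fin r) K)).map φ).mulVec
      (((ρ (h ^ m) : Matrix (Fin r) (Fin r) K)).map φ |>.mulVec v') = _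
    rw [Matrix.mulVec_mulVec, ← Matrix.map_mul]
    funext i
    unfold orb
    rw [hmul, Matrix.mulVec_mulVec, ← Matrix.mul_assoc]
    exact (RingHom.map_mulVec φ _ v i).symm
  have hseq0 : ℓ v' = fun i => φ (orb M ρ v g i) := by
    have h1 := hseq 0
    rw [pow_zero, pow_zero, mul_one, Module.End.one_apply] at h1
    exact h1
  have hfin := orb_core FF hhom G r hG L
    (Matrix.toLinAlgEquiv' ((ρ h : Matrix (Fin r) (Fin r) K).map φ)) U hU (by
      intro μ hμ
      obtain ⟨w, hw⟩ := hμ.exists_hasEigenvector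
      refine heig μ w hw.2 ?_
      have := hw.apply_eq_smul
      rwa [Matrix.toLinAlgEquiv'_apply] at this) ℓ v' (by
      intro F hF m
      rw [hseq m]
      have h1 := MvPolynomial.aeval_algebraMap_apply (A := K) L (orb M ρ v (g * h ^ m)) F
      have h2 : (MvPolynomial.aeval fun i => φ (orb M ρ v (g * h ^ m) i)) F =
          φ (MvPolynomial.aeval (orb M ρ v (g * h ^ m)) F) := h1
      rw [h2, hX _ F hF, map_zero]) (by
      rw [hseq0]
      have h1 := MvPolynomial.aeval_algebraMap_apply (A := K) L (orb M ρ v g) G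
      have h2 : (MvPolynomial.aeval fun i => φ (orb M ρ v g i)) G =
          φ (MvPolynomial.aeval (orb M ρ v g) G) := h1
      rw [h2]
      intro h3
      exact hGg (hφ (by rw [h3, map_zero]))) i i' m
  rw [hseq m, hseq0] at hfin
  apply hφ
  rw [map_mul, map_mul]
  exact hfin

/-- a homogeneous polynomial at a multiple of a vector -/
theorem aeval_smul_ne {k : Type} [Field k] [Algebra k K] (G : MvPolynomial (Fin (n + 1)) k)
    (hG : ∃ e, G.IsHomogeneous e) (x y : Fin (n + 1) → K) (c : K) (hc : c ≠ 0)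
    (h : ∀ i, y i = c * x i) (hx : MvPolynomial.aeval x G ≠ 0) : MvPolynomial.aeval y G ≠ 0 := by
  obtain ⟨e, he⟩ := hG
  have h1 : y = fun i => c * x i := funext h
  rw [MvPolynomial.aeval_def] at hx ⊢
  rw [h1, eval₂_scale _ c x G e he]
  exact mul_ne_zero (pow_ne_zero e hc) hx

/-- **The orbit is projectively constant on the cosets of the subgroup generated by the neat
elements**, off `G = 0`. -/
theorem neat_const {k : Type} [Field k] [CharZero k]
    (FF : Set (MvPolynomial (Fin (n + 1)) k)) (hhom : ∀ F ∈ FF, ∃ e, F.IsHomogeneous e)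
    (G : MvPolynomial (Fin (n + 1)) k) (hGh : ∃ e, G.IsHomogeneous e)
    (hG : CurCond FF G (r * r))
    [Algebra k K] (M : Matrix (Fin (n + 1)) (Fin r) K)
    (ρ : H →* Matrix.GeneralLinearGroup (Fin r) K) (v : Fin r → K)
    (hX : ∀ h, ∀ F ∈ FF, MvPolynomial.aeval (orb M ρ v h) F = 0) (x : H) (hx : x ∈ NN ρ) :
    ∀ g : H, MvPolynomial.aeval (orb M ρ v g) G ≠ 0 → ∀ i i' : Fin (n + 1),
      orb M ρ v (g * x) i * orb M ρ v g i' = orb M ρ v (g * x) i' * orb M ρ v g i := by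
  classical
  have hK0 : CharZero K := charZero_of_injective_algebraMap (FaithfulSMul.algebraMap_injective k K)
  have step : ∀ h y : H, NeatEl ρ h → (∀ g : H, MvPolynomial.aeval (orb M ρ v g) G ≠ 0 →
      ∀ i i' : Fin (n + 1),
      orb M ρ v (g * y) i * orb M ρ v g i' = orb M ρ v (g * y) i' * orb M ρ v g i) →
      ∀ g : H, MvPolynomial.aeval (orb M ρ v g) G ≠ 0 → ∀ i i' : Fin (n + 1),
      orb M ρ v (g * (h * y)) i * orb M ρ v g i' =
        orb M ρ v (g * (h * y)) i' * orb M ρ v g i := by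
    intro h y hh hy g hg i i'
    by_cases hz : ∀ j, orb M ρ v g j = 0
    · rw [hz, hz, mul_zero, mul_zero]
    push Not at hz
    obtain ⟨j, hj⟩ := hz
    have hpow := neat_pow FF hhom G hG M ρ v hX g h hg hh
    have hprod : ∀ m : ℕ, orb M ρ v (g * h ^ m) j *
        (orb M ρ v (g * h ^ m * y) i * orb M ρ v g i' -
          orb M ρ v (g * h ^ m * y) i' * orb M ρ v g i) = 0 := by
      intro m
      by_cases h0 : orb M ρ v (g * h ^ m) j = 0
      · rw [h0, zero_mul]
      have hc : ∀ l, orb M ρ v (g * h ^ m) l =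
          orb M ρ v (g * h ^ m) j / orb M ρ v g j * orb M ρ v g l := by
        intro l
        rw [div_mul_eq_mul_div, eq_div_iff hj]
        exact hpow l j m
      have hc0 : orb M ρ v (g * h ^ m) j / orb M ρ v g j ≠ 0 := div_ne_zero h0 hj
      have hg' := aeval_smul_ne G hGh (orb M ρ v g) (orb M ρ v (g * h ^ m)) _ hc0 hc hg
      have h1 := hy (g * h ^ m) hg' i i'
      rw [hc i', hc i] at h1
      have h2 : orb M ρ v (g * h ^ m) j / orb M ρ v g j *
          (orb M ρ v (g * h ^ m * y) i * orb M ρ v g i' -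
            orb M ρ v (g * h ^ m * y) i' * orb M ρ v g i) = 0 := by
        linear_combination h1
      rcases mul_eq_zero.1 h2 with h3 | h3
      · exact absurd h3 hc0
      · rw [h3, mul_zero]
    -- over the algebraic closure
    obtain ⟨U, hU, heig⟩ := hh
    let L := AlgebraicClosure K
    let φ : K →+* L := algebraMap K L
    have hφ : Function.Injective φ := (algebraMap K L).injective
    let f : Module.End L (Fin r → L) :=
      Matrix.toLinAlgEquiv' ((ρ h : Matrix (Fin r) (Fin r) K).map φ)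
    let A : Matrix (Fin (n + 1)) (Fin r) L := (M * (ρ g : Matrix (Fin r) (Fin r) K)).map φ
    have hmul : ∀ a b : H, (ρ (a * b) : Matrix (Fin r) (Fin r) K) =
        (ρ a : Matrix (Fin r) (Fin r) K) * (ρ b : Matrix (Fin r) (Fin r) K) := fun a b => by
      rw [map_mul, Units.val_mul]
    have hfm : ∀ (m : ℕ) (w : Fin r → K), A.mulVec ((f ^ m) (φ ∘ w)) =
        fun l => φ (M.mulVec ((ρ (g * h ^ m) : Matrix (Fin r) (Fin r) K).mulVec w) l) := by
      intro m w
      show A.mulVec (((Matrix.toLinAlgEquiv' ((ρ h : Matrix (Fin r) (Fin r) K).map φ)) ^ m)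
        (φ ∘ w)) = _
      rw [← map_pow, Matrix.toLinAlgEquiv'_apply]
      have h1 : ((ρ h : Matrix (Fin r) (Fin r) K).map φ) ^ m =
          ((ρ (h ^ m) : Matrix (Fin r) (Fin r) K)).map φ := by
        have h2 : ((ρ h : Matrix (Fin r) (Fin r) K).map φ) =
            φ.mapMatrix (ρ h : Matrix (Fin r) (Fin r) K) := rfl
        rw [h2, ← map_pow, map_pow ρ, Units.val_pow_eq_pow_val]
        rfl
      rw [h1, Matrix.mulVec_mulVec]
      show ((M * (ρ g : Matrix (Fin r) (Fin r) K)).map φ *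
        ((ρ (h ^ m) : Matrix (Fin r) (Fin r) K)).map φ).mulVec (φ ∘ w) = _
      rw [← Matrix.map_mul]
      funext l
      rw [hmul, Matrix.mulVec_mulVec, ← Matrix.mul_assoc]
      exact (RingHom.map_mulVec φ _ w l).symm
    let e : Fin (n + 1) → ((Fin r → L) →ₗ[L] L) := fun l =>
      (LinearMap.proj l).comp (Matrix.mulVecLin A)
    have he : ∀ (l : Fin (n + 1)) (m : ℕ) (w : Fin r → K), e l ((f ^ m) (φ ∘ w)) =
        φ (M.mulVec ((ρ (g * h ^ m) : Matrix (Fin r) (Fin r) K).mulVec w) l) := by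
      intro l m w
      exact congrFun (hfm m w) l
    let ℓ₂ : (Fin r → L) →ₗ[L] L := φ (orb M ρ v g i') • e i - φ (orb M ρ v g i) • e i'
    let w₂ : Fin r → K := (ρ y : Matrix (Fin r) (Fin r) K).mulVec v
    have horb1 : ∀ (l : Fin (n + 1)) (m : ℕ), e l ((f ^ m) (φ ∘ v)) =
        φ (orb M ρ v (g * h ^ m) l) := fun l m => he l m v
    have horb2 : ∀ (l : Fin (n + 1)) (m : ℕ), e l ((f ^ m) (φ ∘ w₂)) =
        φ (orb M ρ v (g * h ^ m * y) l) := by
      intro l m
      rw [he l m w₂]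
      unfold orb
      rw [hmul (g * h ^ m) y, ← Matrix.mulVec_mulVec v]
    have hdom := seq_domain f U hU (by
      intro μ hμ
      obtain ⟨w, hw⟩ := hμ.exists_hasEigenvector
      refine heig μ w hw.2 ?_
      have := hw.apply_eq_smul
      rwa [Matrix.toLinAlgEquiv'_apply] at this) (e j) ℓ₂ (φ ∘ v) (φ ∘ w₂) (by
      intro m
      have h1 : ℓ₂ ((f ^ m) (φ ∘ w₂)) = φ (orb M ρ v (g * h ^ m * y) i * orb M ρ v g i' -
          orb M ρ v (g * h ^ m * y) i' * orb M ρ v g i) := by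
        show φ (orb M ρ v g i') * e i ((f ^ m) (φ ∘ w₂)) -
          φ (orb M ρ v g i) * e i' ((f ^ m) (φ ∘ w₂)) = _
        rw [horb2, horb2, map_sub, map_mul, map_mul]
        ring
      rw [h1, horb1, ← map_mul, hprod m, map_zero])
    rcases hdom with h1 | h1
    · exfalso
      have h2 := h1 0
      rw [horb1, pow_zero, mul_one] at h2
      exact hj (hφ (by rw [h2, map_zero]))
    · have h2 := h1 1
      have h3 : ℓ₂ ((f ^ 1) (φ ∘ w₂)) = φ (orb M ρ v (g * h ^ 1 * y) i * orb M ρ v g i' -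
          orb M ρ v (g * h ^ 1 * y) i' * orb M ρ v g i) := by
        show φ (orb M ρ v g i') * e i ((f ^ 1) (φ ∘ w₂)) -
          φ (orb M ρ v g i) * e i' ((f ^ 1) (φ ∘ w₂)) = _
        rw [horb2, horb2, map_sub, map_mul, map_mul]
        ring
      rw [h3] at h2
      have h4 : orb M ρ v (g * h ^ 1 * y) i * orb M ρ v g i' -
          orb M ρ v (g * h ^ 1 * y) i' * orb M ρ v g i = 0 := hφ (by rw [h2, map_zero])
      rw [pow_one, mul_assoc] at h4
      linear_combination h4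
  refine Subgroup.closure_induction_left (p := fun x _ => ∀ g : H,
    MvPolynomial.aeval (orb M ρ v g) G ≠ 0 → ∀ i i' : Fin (n + 1),
      orb M ρ v (g * x) i * orb M ρ v g i' = orb M ρ v (g * x) i' * orb M ρ v g i) ?_ ?_ ?_ hx
  · intro g _ i i'
    rw [mul_one]
    ring
  · intro h hh y _ hy
    exact step h y hh hy
  · intro h hh y _ hy
    exact step h⁻¹ y hh.inv hy

end Pool.Agent.TH717.GO
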