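import Mathlib
import Pool.Agent.TH717.GO.NS
import Pool.Agent.TH717.GO.Ext

set_option autoImplicit false

/-! # The index of the subgroup generated by the neat elements -/

namespace Pool.Agent.TH717.GO

open Polynomial

/-- the torsion of a finitely generated abelian group all of whose elements of prime order have
order `p` is killed by a power of `p` -/
theorem exists_pow_torsion {G : Type} [CommGroup G] (hG : Group.FG G) (p : ℕ) (hp : p.Prime)
    (h : ∀ (g : G) (l : ℕ), l.Prime → g ^ l = 1 → g ≠ 1 → l = p) :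
    ∃ k : ℕ, ∀ (g : G) (m : ℕ), 0 < m → g ^ m = 1 → g ^ (p ^ k) = 1 := by
  classical
  have h4 : Module.Finite ℤ (Additive G) := by
    rw [Module.Finite.iff_addGroup_fg]
    exact GroupFG.iff_add_fg.1 hG
  let T : Submodule ℤ (Additive G) := Submodule.torsion ℤ (Additive G)
  have hTfin : Module.Finite ℤ T := inferInstance
  have hTt : Module.IsTorsion ℤ T := Submodule.torsion_isTorsion
  have hfin : Finite T := Module.finite_of_fg_torsion T hTt
  have hord : ∀ g : G, ∀ m : ℕ, 0 < m → g ^ m = 1 → ∃ k, g ^ (p ^ k) = 1 := by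
    intro g m hm hgm
    have ho : 0 < orderOf g := orderOf_pos_iff.2 (isOfFinOrder_iff_pow_eq_one.2 ⟨m, hm, hgm⟩)
    have h1 : ∀ l, l.Prime → l ∣ orderOf g → l = p := by
      intro l hl hlo
      obtain ⟨c, hc⟩ := hlo
      have hc0 : 0 < c := by
        rcases Nat.eq_zero_or_pos c with h2 | h2
        · rw [h2, mul_zero] at hc
          omega
        · exact h2
      refine h (g ^ c) l hl ?_ ?_
      · rw [← pow_mul, mul_comm, ← hc, pow_orderOf_eq_one]
      · intro h2
        have h3 := orderOf_dvd_of_pow_eq_one h2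
        have h4 := Nat.le_of_dvd hc0 h3
        have h5 := hl.two_le
        rw [hc] at h4
        nlinarith
    have h2 : orderOf g = p ^ (orderOf g).primeFactorsList.length :=
      Nat.eq_prime_pow_of_unique_prime_dvd ho.ne' (fun {d} hd hdo => h1 d hd hdo)
    exact ⟨_, by rw [← h2, pow_orderOf_eq_one]⟩
  have hk : ∀ t : T, ∃ k, ((Additive.toMul (t : Additive G)) ^ (p ^ k) : G) = 1 := by
    intro t
    obtain ⟨⟨a, ha⟩, hat⟩ := (Submodule.mem_torsion_iff (t : Additive G)).1 t.2
    have ha0 : a ≠ 0 := nonZeroDivisors.ne_zero ha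
    have h1 : (Additive.toMul (t : Additive G)) ^ a = (1 : G) := by
      have h2 : (a • (t : Additive G)) = 0 := hat
      have h3 := congrArg Additive.toMul h2
      rw [toMul_zsmul] at h3
      exact h3
    refine hord _ a.natAbs (Int.natAbs_pos.2 ha0) ?_
    rw [← zpow_natCast]
    rcases Int.natAbs_eq a with h2 | h2
    · rw [← h2, h1]
    · have h3 : (a.natAbs : ℤ) = -a := by omega
      rw [h3, zpow_neg, h1, inv_one]
  choose kk hkk using hk
  have : Fintype T := Fintype.ofFinite T
  refine ⟨∑ t : T, kk t, fun g m hm hgm => ?_⟩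
  have hgT : Additive.ofMul g ∈ T := by
    rw [Submodule.mem_torsion_iff]
    refine ⟨⟨(m : ℤ), mem_nonZeroDivisors_of_ne_zero (by exact_mod_cast hm.ne')⟩, ?_⟩
    show (m : ℤ) • Additive.ofMul g = 0
    rw [← ofMul_zpow, zpow_natCast, hgm, ofMul_one]
  have h1 := hkk ⟨Additive.ofMul g, hgT⟩
  have h2 : kk ⟨Additive.ofMul g, hgT⟩ ≤ ∑ t : T, kk t :=
    Finset.single_le_sum (f := kk) (fun _ _ => Nat.zero_le _) (Finset.mem_univ _)
  have h3 : g ^ (p ^ kk ⟨Additive.ofMul g, hgT⟩) = 1 := h1
  obtain ⟨c, hc⟩ := pow_dvd_pow p h2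
  rw [hc, pow_mul, h3, one_pow]

variable {r : ℕ} {K : Type} [Field K] {H : Type} [Group H]

/-- elements of prime order of `UI P` -/
theorem prime_order_UI {A L : Type} [CommRing A] [Field L] [Algebra A L]
    (P : Ideal (integralClosure A L)) (hP : P ≠ ⊤) (p : ℕ) (hp : p.Prime)
    (hmem : (p : integralClosure A L) ∈ P) (w : Lˣ) (l : ℕ) (hw : w ∈ UI P) (hl : l.Prime)
    (hwl : w ^ l = 1) (hw1 : w ≠ 1) : l = p := by
  obtain ⟨x, y, hx, -, hx1, -⟩ := hw
  have h0 := geom_zero w l hwl hw1 x hx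
  by_contra hlp
  have h1 := geom_cong P x hx1 l
  rw [h0, zero_sub] at h1
  have h2 : (l : integralClosure A L) ∈ P := by
    have := P.neg_mem h1
    rwa [neg_neg] at this
  have hcop : Nat.Coprime l p := (Nat.coprime_primes hl hp).2 hlp
  have h3 : (l : ℤ) * Nat.gcdA l p + p * Nat.gcdB l p = 1 := by
    have := Nat.gcd_eq_gcd_ab l p
    rw [hcop] at this
    exact_mod_cast this.symm
  apply hP
  rw [Ideal.eq_top_iff_one]
  have h4 : (1 : integralClosure A L) = (l : integralClosure A L) *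
      ((Nat.gcdA l p : ℤ) : integralClosure A L) + (p : integralClosure A L) *
      ((Nat.gcdB l p : ℤ) : integralClosure A L) := by
    have := congrArg (Int.cast : ℤ → integralClosure A L) h3
    push_cast at this
    exact this.symm
  rw [h4]
  exact P.add_mem (P.mul_mem_right _ h2) (P.mul_mem_right _ hmem)

theorem alg_inj (A : Subring K) :
    Function.Injective (algebraMap A (integralClosure A (AlgebraicClosure K))) := by
  intro a b hab
  have h1 : (algebraMap A (integralClosure A (AlgebraicClosure K)) a : AlgebraicClosure K) =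
    (algebraMap A (integralClosure A (AlgebraicClosure K)) b : AlgebraicClosure K) :=
      congrArg Subtype.val hab
  have h2 : algebraMap K (AlgebraicClosure K) (a : K) =
    algebraMap K (AlgebraicClosure K) (b : K) := h1
  exact Subtype.ext ((algebraMap K (AlgebraicClosure K)).injective h2)

theorem exists_over (A : Subring K) {F : Type} [Field F] (φ : A →+* F) :
    ∃ P : Ideal (integralClosure A (AlgebraicClosure K)), P.IsPrime ∧
      P.comap (algebraMap A (integralClosure A (AlgebraicClosure K))) = RingHom.ker φ := by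
  have : (RingHom.ker φ).IsPrime := RingHom.ker_isPrime φ
  obtain ⟨Q, -, hQ, hQc⟩ := Ideal.exists_ideal_over_prime_of_isIntegral
    (S := integralClosure A (AlgebraicClosure K)) (RingHom.ker φ) ⊥ (by
      rw [← RingHom.ker_eq_comap_bot, (RingHom.injective_iff_ker_eq_bot _).1 (alg_inj A)]
      exact bot_le)
  exact ⟨Q, hQ, hQc⟩

theorem mem_over (A : Subring K) {F : Type} [Field F] (φ : A →+* F)
    (P : Ideal (integralClosure A (AlgebraicClosure K)))
    (hc : P.comap (algebraMap A (integralClosure A (AlgebraicClosure K))) = RingHom.ker φ) :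
    ((ringChar F : ℕ) : integralClosure A (AlgebraicClosure K)) ∈ P := by
  have h1 : ((ringChar F : ℕ) : A) ∈
      P.comap (algebraMap A (integralClosure A (AlgebraicClosure K))) := by
    rw [hc, RingHom.mem_ker, map_natCast]
    exact ringChar.Nat.cast_ringChar
  rw [Ideal.mem_comap, map_natCast] at h1
  exact h1

/-- the eigenvalues of an element of the kernel of reduction -/
theorem eig_ker (A : Subring K) {F : Type} [Field F] (φ : A →+* F)
    (P : Ideal (integralClosure A (AlgebraicClosure K))) (hP : P.IsPrime)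
    (hc : P.comap (algebraMap A (integralClosure A (AlgebraicClosure K))) = RingHom.ker φ)
    (ρ : H →* Matrix.GeneralLinearGroup (Fin r) A) (h : H)
    (hh : Matrix.GeneralLinearGroup.map φ (ρ h) = 1) (μ : AlgebraicClosure K)
    (w : Fin r → AlgebraicClosure K) (hw0 : w ≠ 0)
    (hw : ((ext A ρ h : Matrix (Fin r) (Fin r) K).map
      (algebraMap K (AlgebraicClosure K))).mulVec w = μ • w) :
    ∃ u ∈ UI P, (u : AlgebraicClosure K) = μ := by
  have hcong : ∀ h : H,
      Matrix.GeneralLinearGroup.map φ (ρ h) = 1 → ∀ i j, algebraMap A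
        (integralClosure A (AlgebraicClosure K))
        ((ρ h : Matrix (Fin r) (Fin r) A) i j - (1 : Matrix (Fin r) (Fin r) A) i j) ∈ P := by
    intro h hh i j
    have h1 : φ ((ρ h : Matrix (Fin r) (Fin r) A) i j) = (1 : Matrix (Fin r) (Fin r) F) i j := by
      have h2 := congrArg (fun g : Matrix.GeneralLinearGroup (Fin r) F =>
        (g : Matrix (Fin r) (Fin r) F) i j) hh
      exact h2
    show _ ∈ P.comap (algebraMap A _)
    rw [hc, RingHom.mem_ker, map_sub, h1, Matrix.one_apply, Matrix.one_apply]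
    split_ifs
    · rw [map_one, sub_self]
    · rw [map_zero, sub_self]
  have hh' : Matrix.GeneralLinearGroup.map φ (ρ h⁻¹) = 1 := by
    rw [map_inv, map_inv, hh, inv_one]
  refine eig_mem_UI P (fun B => ∀ i j, algebraMap A (integralClosure A (AlgebraicClosure K))
      (B i j - (1 : Matrix (Fin r) (Fin r) A) i j) ∈ P) ?_
    (ρ h : Matrix (Fin r) (Fin r) A) (ρ h⁻¹ : Matrix (Fin r) (Fin r) A) ?_
    (hcong h hh) (hcong h⁻¹ hh') μ w hw0 hw
  · intro B hB μ w hw0 hw
    obtain ⟨x, hx, hx0⟩ := exists_int B μ w hw0 hw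
    exact ⟨x, hx, eig_prime P hP B hB x hx0⟩
  · rw [← Units.val_mul, ← map_mul, inv_mul_cancel, map_one, Units.val_one]

/-- a power of an element of the kernel of reduction is neat -/
theorem ker_pow_neat [CharZero K] (A : Subring K) {F : Type} [Field F] [Finite F] (φ : A →+* F)
    (ρ : H →* Matrix.GeneralLinearGroup (Fin r) A) (h : H)
    (hh : Matrix.GeneralLinearGroup.map φ (ρ h) = 1) :
    ∃ k : ℕ, NeatEl (ext A ρ) (h ^ (ringChar F ^ k)) := by
  classical
  obtain ⟨P, hP, hc⟩ := exists_over A φ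
  have hp : (ringChar F).Prime := CharP.char_is_prime F (ringChar F)
  let L := AlgebraicClosure K
  let f : Module.End L (Fin r → L) :=
    Matrix.toLinAlgEquiv' ((ext A ρ h : Matrix (Fin r) (Fin r) K).map (algebraMap K L))
  have hfeig : ∀ μ : L, f.HasEigenvalue μ → ∃ u ∈ UI P, (u : L) = μ := by
    intro μ hμ
    obtain ⟨w, hw⟩ := hμ.exists_hasEigenvector
    refine eig_ker A φ P hP hc ρ h hh μ w hw.2 ?_
    have := hw.apply_eq_smul
    rwa [Matrix.toLinAlgEquiv'_apply] at this
  let E : Set Lˣ := {u | f.HasEigenvalue (u : L)}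
  have hEfin : E.Finite := by
    have h1 : (Units.val '' E : Set L).Finite := by
      by_contra hinf
      obtain ⟨T, hT, hTc⟩ := Set.Infinite.exists_subset_card_eq hinf (r + 1)
      have h1 := card_le_of_eig f T (by
        intro μ hμ
        obtain ⟨u, hu, rfl⟩ := hT hμ
        exact hu)
      omega
    exact Set.Finite.of_finite_image h1 (fun a _ b _ h => Units.ext h)
  let Λ : Subgroup Lˣ := Subgroup.closure E
  have hΛU : Λ ≤ UI P := by
    rw [Subgroup.closure_le]
    intro u hu
    obtain ⟨u', hu', h⟩ := hfeig (u : L) hu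
    rwa [← Units.ext h]
  have hfg : Group.FG Λ := by
    rw [Group.fg_iff_subgroup_fg]
    exact ⟨hEfin.toFinset, by rw [Set.Finite.coe_toFinset]⟩
  obtain ⟨k, hk⟩ := exists_pow_torsion hfg (ringChar F) hp (by
    intro g l hl hgl hg1
    refine prime_order_UI P hP.ne_top (ringChar F) hp (mem_over A φ P hc) (g : Lˣ) l (hΛU g.2) hl
      ?_ ?_
    · have := congrArg (Subtype.val : Λ → Lˣ) hgl
      simpa using this
    · intro h1
      exact hg1 (Subtype.ext h1))
  refine ⟨k, Λ.map (powMonoidHom (ringChar F ^ k)), ?_, ?_⟩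
  · rintro _ ⟨u, hu, rfl⟩ m hm h1
    have h2 : (⟨u, hu⟩ : Λ) ^ (ringChar F ^ k * m) = 1 := by
      apply Subtype.ext
      have h3 : u ^ (ringChar F ^ k * m) = 1 := by
        rw [pow_mul]
        exact h1
      simpa using h3
    have h3 := hk ⟨u, hu⟩ _ (Nat.mul_pos (pow_pos hp.pos k) hm) h2
    have h4 := congrArg (Subtype.val : Λ → Lˣ) h3
    simpa using h4
  · intro μ w hw0 hw
    have hN : 0 < ringChar F ^ k := pow_pos hp.pos k
    have h1 : (f ^ (ringChar F ^ k)).HasEigenvalue μ := by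
      refine Module.End.hasEigenvalue_of_hasEigenvector (x := w) ⟨?_, hw0⟩
      rw [Module.End.mem_eigenspace_iff]
      have h2 : f ^ (ringChar F ^ k) = Matrix.toLinAlgEquiv'
          ((ext A ρ (h ^ (ringChar F ^ k)) : Matrix (Fin r) (Fin r) K).map
            (algebraMap K L)) := by
        rw [map_pow, Units.val_pow_eq_pow_val]
        show (Matrix.toLinAlgEquiv' ((ext A ρ h : Matrix (Fin r) (Fin r) K).map
          (algebraMap K L))) ^ (ringChar F ^ k) = _
        rw [← map_pow]
        congr 1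
        have h3 : ((ext A ρ h : Matrix (Fin r) (Fin r) K).map (algebraMap K L)) =
            (algebraMap K L).mapMatrix (ext A ρ h : Matrix (Fin r) (Fin r) K) := rfl
        rw [h3, ← map_pow]
        rfl
      rw [h2, Matrix.toLinAlgEquiv'_apply]
      exact hw
    rw [Module.End.hasEigenvalue_iff_mem_spectrum, spectrum.map_pow_of_pos f hN] at h1
    obtain ⟨ν, hν, hνμ⟩ := h1
    have hν' : f.HasEigenvalue ν := Module.End.hasEigenvalue_iff_mem_spectrum.2 hν
    obtain ⟨u, -, hu⟩ := hfeig ν hν'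
    refine ⟨u ^ (ringChar F ^ k), ⟨u, Subgroup.subset_closure ?_, rfl⟩, ?_⟩
    · show f.HasEigenvalue (u : L)
      rw [hu]
      exact hν'
    · rw [Units.val_pow_eq_pow_val, hu]
      exact hνμ

/-- an element of the kernels of two reductions is neat -/
theorem ker_two_neat (A : Subring K) {F₁ F₂ : Type} [Field F₁] [Field F₂] [Finite F₁] [Finite F₂]
    (φ₁ : A →+* F₁) (φ₂ : A →+* F₂) (hne : ringChar F₁ ≠ ringChar F₂)
    (ρ : H →* Matrix.GeneralLinearGroup (Fin r) A) (h : H)
    (hh₁ : Matrix.GeneralLinearGroup.map φ₁ (ρ h) = 1)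
    (hh₂ : Matrix.GeneralLinearGroup.map φ₂ (ρ h) = 1) : NeatEl (ext A ρ) h := by
  obtain ⟨P₁, hP₁, hc₁⟩ := exists_over A φ₁
  obtain ⟨P₂, hP₂, hc₂⟩ := exists_over A φ₂
  have hprime : ∀ (F : Type) [Field F] [Finite F], (ringChar F).Prime := by
    intro F _ _
    exact CharP.char_is_prime F (ringChar F)
  refine ⟨UI P₁ ⊓ UI P₂, ?_, ?_⟩
  · intro u hu m hm h1
    by_contra hu1
    obtain ⟨w, l, hw, hl, hwl, hw1⟩ := exists_prime_order (UI P₁ ⊓ UI P₂) u hu m hm h1 hu1
    exact hne ((prime_order_UI P₁ hP₁.ne_top _ (hprime F₁) (mem_over A φ₁ P₁ hc₁) w l hw.1 hl hwl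
      hw1).symm.trans (prime_order_UI P₂ hP₂.ne_top _ (hprime F₂) (mem_over A φ₂ P₂ hc₂) w l hw.2
        hl hwl hw1))
  · intro μ w hw0 hw
    obtain ⟨u, hu, hu1⟩ := eig_ker A φ₁ P₁ hP₁ hc₁ ρ h hh₁ μ w hw0 hw
    obtain ⟨u', hu', hu1'⟩ := eig_ker A φ₂ P₂ hP₂ hc₂ ρ h hh₂ μ w hw0 hw
    have h1 : u = u' := Units.ext (by rw [hu1, hu1'])
    exact ⟨u, ⟨hu, h1 ▸ hu'⟩, hu1⟩

/-- the reduction of the group -/
def redm (A : Subring K) {F : Type} [Field F] (φ : A →+* F)
    (ρ : H →* Matrix.GeneralLinearGroup (Fin r) A) : H →* Matrix.GeneralLinearGroup (Fin r) F :=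
  (Matrix.GeneralLinearGroup.map φ).comp ρ

theorem NN_index_two (A : Subring K) {F₁ F₂ : Type} [Field F₁] [Field F₂] [Finite F₁] [Finite F₂]
    (φ₁ : A →+* F₁) (φ₂ : A →+* F₂) (hne : ringChar F₁ ≠ ringChar F₂)
    (ρ : H →* Matrix.GeneralLinearGroup (Fin r) A) : (NN (ext A ρ)).index ≠ 0 := by
  have h1 : (redm A φ₁ ρ).ker ⊓ (redm A φ₂ ρ).ker ≤ NN (ext A ρ) := by
    intro h hh
    exact Subgroup.subset_closure (ker_two_neat A φ₁ φ₂ hne ρ h
      (MonoidHom.mem_ker.1 hh.1) (MonoidHom.mem_ker.1 hh.2))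
  have h2 : ((redm A φ₁ ρ).ker ⊓ (redm A φ₂ ρ).ker).FiniteIndex := inferInstance
  have h3 := Subgroup.finiteIndex_of_le h1
  exact h3.index_ne_zero

/-- **The index divides the order of the general linear group over the residue fields.** -/
theorem NN_index_dvd [CharZero K] (A : Subring K) {F : Type} [Field F] [Finite F] (φ : A →+* F)
    (ρ : H →* Matrix.GeneralLinearGroup (Fin r) A) (h0 : (NN (ext A ρ)).index ≠ 0)
    (hp : ¬ ringChar F ∣ (NN (ext A ρ)).index) :
    (NN (ext A ρ)).index ∣ Nat.card (Matrix.GeneralLinearGroup (Fin r) F) := by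
  have hpr : (ringChar F).Prime := CharP.char_is_prime F (ringChar F)
  have h1 : (redm A φ ρ).ker ≤ NN (ext A ρ) := by
    intro h hh
    obtain ⟨k, hk⟩ := ker_pow_neat A φ ρ h (MonoidHom.mem_ker.1 hh)
    have h2 : (QuotientGroup.mk' (NN (ext A ρ)) h) ^ (ringChar F ^ k) = 1 := by
      rw [← map_pow]
      exact (QuotientGroup.eq_one_iff _).2 (Subgroup.subset_closure hk)
    have h3 : (QuotientGroup.mk' (NN (ext A ρ)) h) ^ (NN (ext A ρ)).index = 1 := by
      rw [Subgroup.index_eq_card]
      exact pow_card_eq_one'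
    have h4 : Nat.Coprime (ringChar F ^ k) (NN (ext A ρ)).index :=
      Nat.Coprime.pow_left k ((Nat.Prime.coprime_iff_not_dvd hpr).2 hp)
    have h5 : orderOf (QuotientGroup.mk' (NN (ext A ρ)) h) = 1 := by
      apply Nat.eq_one_of_dvd_coprimes h4
      · exact orderOf_dvd_of_pow_eq_one h2
      · exact orderOf_dvd_of_pow_eq_one h3
    rw [orderOf_eq_one_iff] at h5
    exact (QuotientGroup.eq_one_iff _).1 h5
  have h2 := Subgroup.index_dvd_of_le h1
  rw [Subgroup.index_ker] at h2
  exact h2.trans (Subgroup.card_subgroup_dvd_card _)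

end Pool.Agent.TH717.GO
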