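import Mathlib
import Pool.Agent.TH717.GO.NI

set_option autoImplicit false

/-! # Uniform bounds over number fields -/

namespace Pool.Agent.TH717.GO

open Polynomial

/-- the order of `GL_r` over the field with `q ^ f` elements -/
def cgl (r q f : ℕ) : ℕ := ∏ i ∈ Finset.range r, ((q ^ f) ^ r - (q ^ f) ^ i)

/-- the uniform bound -/
def bd (r D : ℕ) : ℕ := ∏ f ∈ Finset.Icc 1 D, (cgl r 2 f * cgl r 3 f)

theorem cgl_pos (r q f : ℕ) (hq : 2 ≤ q) (hf : 1 ≤ f) : 0 < cgl r q f := by
  refine Finset.prod_pos fun i hi => ?_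
  have h1 : 1 < q ^ f := Nat.one_lt_pow (by omega) (by omega)
  have := Nat.pow_lt_pow_right h1 (Finset.mem_range.1 hi)
  omega

theorem bd_pos (r D : ℕ) : 0 < bd r D := by
  refine Finset.prod_pos fun f hf => ?_
  have h := (Finset.mem_Icc.1 hf).1
  exact Nat.mul_pos (cgl_pos r 2 f le_rfl h) (cgl_pos r 3 f (by norm_num) h)

theorem cgl_cast (r q f : ℕ) (hq : 2 ≤ q) (R : Type) [CommRing R] :
    ((cgl r q f : ℕ) : R) = ∏ i ∈ Finset.range r, (((q : R) ^ f) ^ r - ((q : R) ^ f) ^ i) := by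
  unfold cgl
  rw [Nat.cast_prod]
  refine Finset.prod_congr rfl fun i hi => ?_
  have h1 : 0 < q ^ f := pow_pos (by omega) f
  have h2 : (q ^ f) ^ i ≤ (q ^ f) ^ r := Nat.pow_le_pow_right h1 (Finset.mem_range.1 hi).le
  rw [Nat.cast_sub h2]
  push_cast
  rfl

theorem cgl_dvd_bd {r D f : ℕ} (hf : 1 ≤ f) (hfD : f ≤ D) :
    cgl r 2 f ∣ bd r D ∧ cgl r 3 f ∣ bd r D := by
  have h1 : cgl r 2 f * cgl r 3 f ∣ bd r D :=
    Finset.dvd_prod_of_mem (fun f => cgl r 2 f * cgl r 3 f) (Finset.mem_Icc.2 ⟨hf, hfD⟩)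
  exact ⟨(Dvd.intro _ rfl).trans h1, (Dvd.intro_left _ rfl).trans h1⟩

/-- a number which divides `|GL_r(F_q)|` for almost all primes and a `q = p ^ f`, `f ≤ D` -/
theorem dvd_bd {r D m N : ℕ} (hN : N ≠ 0)
    (h : ∀ p : ℕ, p.Prime → ¬ p ∣ N → ∃ f, 1 ≤ f ∧ f ≤ D ∧ m ∣ cgl r p f) : m ∣ bd r D := by
  rw [Nat.dvd_iff_prime_pow_dvd_dvd]
  intro l k hl hlk
  have key : ∀ a : ℕ, 2 ≤ a → Nat.Coprime a l → ∃ f, 1 ≤ f ∧ f ≤ D ∧ l ^ k ∣ cgl r a f := by
    intro a ha hal
    have hne : NeZero (l ^ k) := ⟨pow_ne_zero k hl.ne_zero⟩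
    have hu : IsUnit ((a : ℕ) : ZMod (l ^ k)) :=
      (ZMod.isUnit_iff_coprime a (l ^ k)).2 (Nat.Coprime.pow_right k hal)
    obtain ⟨p, hpN, hp, hpa⟩ := Nat.forall_exists_prime_gt_and_eq_mod hu N
    have hpN' : ¬ p ∣ N := fun h => by
      have := Nat.le_of_dvd (Nat.pos_of_ne_zero hN) h
      omega
    obtain ⟨f, hf1, hfD, hmf⟩ := h p hp hpN'
    refine ⟨f, hf1, hfD, ?_⟩
    have h1 : ((cgl r p f : ℕ) : ZMod (l ^ k)) = 0 :=
      (ZMod.natCast_eq_zero_iff _ _).2 (hlk.trans hmf)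
    rw [cgl_cast r p f hp.two_le, hpa, ← cgl_cast r a f ha] at h1
    exact (ZMod.natCast_eq_zero_iff _ _).1 h1
  by_cases h2 : l = 2
  · obtain ⟨f, hf1, hfD, h3⟩ := key 3 (by norm_num) (by rw [h2]; decide)
    exact h3.trans (cgl_dvd_bd hf1 hfD).2
  · obtain ⟨f, hf1, hfD, h3⟩ := key 2 le_rfl ((Nat.coprime_primes Nat.prime_two hl).2
      (fun h => h2 h.symm))
    exact h3.trans (cgl_dvd_bd hf1 hfD).1

/-- dependent elements of a subring of a number field are dependent modulo a prime -/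
theorem finrank_quot_le {E : Type} [Field E] [NumberField E] (B : Subring E) (p : ℕ)
    (hp : p.Prime) (F : Type) [Field F] [Algebra (ZMod p) F] (φ : B →+* F)
    (hφ : Function.Surjective φ) [Finite F] :
    Module.finrank (ZMod p) F ≤ Module.finrank ℚ E := by
  classical
  have : Fact p.Prime := ⟨hp⟩
  have hMF : Module.Finite (ZMod p) F := Module.Finite.of_finite
  by_contra hcon
  push Not at hcon
  let D := Module.finrank ℚ E
  let b := Module.finBasis (ZMod p) F
  have hlt : D + 1 ≤ Module.finrank (ZMod p) F := hcon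
  let x : Fin (D + 1) → F := fun i => b (Fin.castLE hlt i)
  have hx : LinearIndependent (ZMod p) x := b.linearIndependent.comp _ (Fin.castLE_injective hlt)
  choose y hy using fun i => hφ (x i)
  have hdep : ¬ LinearIndependent ℤ (fun i => (y i : E)) := by
    intro h
    rw [LinearIndependent.iff_fractionRing (R := ℤ) (K := ℚ)] at h
    have h1 := h.fintype_card_le_finrank
    rw [Fintype.card_fin] at h1
    have h2 : D = Module.finrank ℚ E := rfl
    omega
  rw [Fintype.not_linearIndependent_iff] at hdep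
  obtain ⟨c, hc, i0, hi0⟩ := hdep
  obtain ⟨g, hg, hg1⟩ := Finset.extract_gcd c (Finset.univ_nonempty (α := Fin (D + 1)))
  have hgc : (Finset.univ.gcd c) ≠ 0 := by
    intro h
    apply hi0
    rw [hg i0 (Finset.mem_univ _), h, zero_mul]
  have h3 : ∑ i, (g i : ℤ) • (y i : E) = 0 := by
    have h4 : ((Finset.univ.gcd c : ℤ) : E) * ∑ i, (g i : ℤ) • (y i : E) = 0 := by
      rw [Finset.mul_sum, ← hc]
      refine Finset.sum_congr rfl fun i _ => ?_
      rw [hg i (Finset.mem_univ _), zsmul_eq_mul, zsmul_eq_mul]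
      push_cast
      ring
    rcases mul_eq_zero.1 h4 with h5 | h5
    · exact absurd (Int.cast_eq_zero.1 h5) hgc
    · exact h5
  have h4 : ∑ i, ((g i : ℤ) : B) * y i = 0 := by
    apply Subtype.val_injective
    show B.subtype (∑ i, ((g i : ℤ) : B) * y i) = B.subtype 0
    rw [map_sum, map_zero, ← h3]
    refine Finset.sum_congr rfl fun i _ => ?_
    rw [map_mul, map_intCast, zsmul_eq_mul]
    rfl
  have h5 : ∑ i, ((g i : ℤ) : ZMod p) • x i = 0 := by
    have h6 := congrArg φ h4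
    rw [map_sum, map_zero] at h6
    rw [← h6]
    refine Finset.sum_congr rfl fun i _ => ?_
    rw [map_mul, map_intCast, hy, Algebra.smul_def, map_intCast]
  have h6 := (Fintype.linearIndependent_iff.1 hx) _ h5
  have h7 : (p : ℤ) ∣ Finset.univ.gcd g := by
    refine Finset.dvd_gcd fun i _ => ?_
    exact (ZMod.intCast_zmod_eq_zero_iff_dvd (g i) p).1 (h6 i)
  rw [hg1] at h7
  have h8 := Int.eq_one_of_dvd_one (by positivity) h7
  have := hp.one_lt
  omega

/-- residue fields of bounded degree -/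
theorem exists_residue_bdd {E : Type} [Field E] [NumberField E] (S : Finset E) :
    ∃ N : ℕ, N ≠ 0 ∧ ∀ p : ℕ, p.Prime → ¬ p ∣ N → ∃ (F : Type) (_ : Field F) (_ : Finite F),
      ringChar F = p ∧ Nonempty (Subring.closure (S : Set E) →+* F) ∧
      ∃ f, 1 ≤ f ∧ f ≤ Module.finrank ℚ E ∧ Nat.card F = p ^ f := by
  classical
  obtain ⟨N, hN, h⟩ := exists_residue_closure S
  refine ⟨N, hN, fun p hp hpN => ?_⟩
  obtain ⟨F, iF, hF, hch, ⟨φ⟩⟩ := h p hp hpN
  have : Fact p.Prime := ⟨hp⟩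
  let F' : Type := φ.range
  have hF' : Finite F' := Finite.of_injective (Subtype.val : F' → F) Subtype.val_injective
  have hfld : IsField F' := Finite.isDomain_to_isField φ.range
  let _ : Field F' := hfld.toField
  let ψ : Subring.closure (S : Set E) →+* F' := φ.rangeRestrict
  have hψ : Function.Surjective ψ := φ.rangeRestrict_surjective
  have hch' : ringChar F' = p := by
    have h1 : ((p : ℕ) : F') = 0 := by
      apply Subtype.ext
      show φ.range.subtype ((p : ℕ) : φ.range) = 0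
      rw [map_natCast, ← hch]
      exact ringChar.Nat.cast_ringChar
    rcases (Nat.dvd_prime hp).1 (ringChar.dvd h1) with h2 | h2
    · exact absurd h2 (CharP.ringChar_ne_one)
    · exact h2
  have hcp : CharP F' p := by
    rw [← hch']
    exact ringChar.charP F'
  let _ : Algebra (ZMod p) F' := ZMod.algebra F' p
  have hMF : Module.Finite (ZMod p) F' := Module.Finite.of_finite
  have hle := finrank_quot_le (Subring.closure (S : Set E)) p hp F' ψ hψ
  refine ⟨F', inferInstance, hF', hch', ⟨ψ⟩, Module.finrank (ZMod p) F', ?_, hle, ?_⟩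
  · exact Module.finrank_pos
  · have := Module.natCard_eq_pow_finrank (K := ZMod p) (V := F')
    rw [this, Nat.card_zmod]

end Pool.Agent.TH717.GO
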