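import Mathlib
import Pool.Agent.TH717.GO.UB

set_option autoImplicit false

/-! # Uniform bounds for orbits of arbitrary groups of matrices -/

namespace Pool.Agent.TH717.GO

open Polynomial Pool.Agent.H533R3.SL

variable {n r : ℕ}

/-- every finitely generated subring of `K` has a homomorphism to a number field of degree at most
`D` over `ℚ` -/
def SpecDeg (K : Type) [Field K] (D : ℕ) : Prop :=
  ∀ S : Finset K, ∃ (E : Type) (_ : Field E) (_ : NumberField E), Module.finrank ℚ E ≤ D ∧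
    Nonempty (Subring.closure (S : Set K) →+* E)

theorem specDeg_of_numberField (K : Type) [Field K] [NumberField K] (D : ℕ)
    (h : Module.finrank ℚ K ≤ D) : SpecDeg K D :=
  fun _ => ⟨K, inferInstance, inferInstance, h, ⟨Subring.subtype _⟩⟩

theorem card_GL_cgl (r : ℕ) (F : Type) [Field F] [Finite F] (p f : ℕ) (h : Nat.card F = p ^ f) :
    Nat.card (Matrix.GeneralLinearGroup (Fin r) F) = cgl r p f := by
  have := Fintype.ofFinite F
  have h1 := Matrix.card_GL_field (𝔽 := F) r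
  rw [← Nat.card_eq_fintype_card, h] at h1
  rw [h1]
  unfold cgl
  rw [Finset.prod_range]

theorem exists_residue_spec {K : Type} [Field K] {D : ℕ} (hD : SpecDeg K D) (S : Finset K) :
    ∃ N : ℕ, N ≠ 0 ∧ ∀ p : ℕ, p.Prime → ¬ p ∣ N → ∃ (F : Type) (_ : Field F) (_ : Finite F),
      ringChar F = p ∧ Nonempty (Subring.closure (S : Set K) →+* F) ∧
      ∃ f, 1 ≤ f ∧ f ≤ D ∧ Nat.card F = p ^ f := by
  classical
  obtain ⟨E, iE, nE, hE, ⟨σ⟩⟩ := hD S
  have hSA : ∀ s ∈ S, s ∈ Subring.closure (S : Set K) := fun s hs => Subring.subset_closure hs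
  let S' : Finset E := S.attach.image (fun s => σ ⟨s.1, hSA s.1 s.2⟩)
  obtain ⟨N, hN, h⟩ := exists_residue_bdd S'
  refine ⟨N, hN, fun p hp hpN => ?_⟩
  obtain ⟨F, iF, hF, hch, ⟨φ⟩, f, hf1, hf2, hf3⟩ := h p hp hpN
  have hle : ∀ b : Subring.closure (S : Set K), σ b ∈ Subring.closure (S' : Set E) := by
    rintro ⟨b, hb⟩
    induction hb using Subring.closure_induction with
    | mem x hx =>
      apply Subring.subset_closure
      exact Finset.mem_coe.2 (Finset.mem_image.2 ⟨⟨x, hx⟩, Finset.mem_attach _ _, rfl⟩)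
    | zero =>
      have : σ (0 : Subring.closure (S : Set K)) = 0 := map_zero σ
      exact this ▸ Subring.zero_mem _
    | one =>
      have : σ (1 : Subring.closure (S : Set K)) = 1 := map_one σ
      exact this ▸ Subring.one_mem _
    | add x y hx' hy' hx hy =>
      have : σ (⟨x, hx'⟩ + ⟨y, hy'⟩) = σ ⟨x, hx'⟩ + σ ⟨y, hy'⟩ := map_add σ _ _
      exact this ▸ Subring.add_mem _ hx hy
    | neg x hx' hx =>
      have : σ (-⟨x, hx'⟩) = -σ ⟨x, hx'⟩ := map_neg σ _
      exact this ▸ Subring.neg_mem _ hx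
    | mul x y hx' hy' hx hy =>
      have : σ (⟨x, hx'⟩ * ⟨y, hy'⟩) = σ ⟨x, hx'⟩ * σ ⟨y, hy'⟩ := map_mul σ _ _
      exact this ▸ Subring.mul_mem _ hx hy
  exact ⟨F, iF, hF, hch, ⟨φ.comp (σ.codRestrict (Subring.closure (S' : Set E)) hle)⟩, f, hf1,
    hf2.trans hE, hf3⟩

/-- **The index of the subgroup generated by the neat elements of a finitely generated group is
bounded.** -/
theorem NN_index_bd {K : Type} [Field K] [CharZero K] {D : ℕ} (hD : SpecDeg K D) {H : Type}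
    [Group H] (hH : Group.FG H) (ρ : H →* Matrix.GeneralLinearGroup (Fin r) K) :
    (NN ρ).index ≠ 0 ∧ (NN ρ).index ∣ bd r D := by
  obtain ⟨S, hS⟩ := fg_subring hH ρ
  obtain ⟨N, hN, hp⟩ := exists_residue_spec hD S
  obtain ⟨p₁, hp₁N, hp₁⟩ := Nat.exists_infinite_primes (N + 1)
  obtain ⟨p₂, hp₂N, hp₂⟩ := Nat.exists_infinite_primes (p₁ + 1)
  have hnd : ∀ p, N + 1 ≤ p → ¬ p ∣ N := fun p hp h => by
    have := Nat.le_of_dvd (Nat.pos_of_ne_zero hN) h
    omega
  obtain ⟨F₁, i1, f1, hc1, ⟨φ₁⟩, -⟩ := hp p₁ hp₁ (hnd p₁ hp₁N)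
  obtain ⟨F₂, i2, f2, hc2, ⟨φ₂⟩, -⟩ := hp p₂ hp₂ (hnd p₂ (by omega))
  have h0 := NN_index_two (Subring.closure (S : Set K)) φ₁ φ₂ (by
    rw [hc1, hc2]
    omega) (toSub _ ρ hS)
  rw [ext_toSub] at h0
  refine ⟨h0, ?_⟩
  refine dvd_bd (N := N * (NN ρ).index) (mul_ne_zero hN h0) fun p hpp hpn => ?_
  have hpN : ¬ p ∣ N := fun h => hpn (h.mul_right _)
  have hpi : ¬ p ∣ (NN ρ).index := fun h => hpn (h.mul_left _)
  obtain ⟨F, iF, hF, hc, ⟨φ⟩, f, hf1, hfD, hf⟩ := hp p hpp hpN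
  refine ⟨f, hf1, hfD, ?_⟩
  have h1 := NN_index_dvd (Subring.closure (S : Set K)) φ (toSub _ ρ hS) (by
    rw [ext_toSub]
    exact h0) (by
    rw [ext_toSub, hc]
    exact hpi)
  rwa [ext_toSub, card_GL_cgl r F p f hf] at h1

theorem fg_core {k : Type} [Field k] [CharZero k]
    (FF : Set (MvPolynomial (Fin (n + 1)) k)) (hhom : ∀ F ∈ FF, ∃ e, F.IsHomogeneous e)
    (G : MvPolynomial (Fin (n + 1)) k) (hGh : ∃ e, G.IsHomogeneous e)
    (hG : CurCond FF G (r * r)) {K : Type} [Field K] [Algebra k K] {D : ℕ} (hD : SpecDeg K D)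
    {H : Type} [Group H] (hH : Group.FG H)
    (ρ : H →* Matrix.GeneralLinearGroup (Fin r) K) (M : Matrix (Fin (n + 1)) (Fin r) K)
    (v : Fin r → K) (hX : ∀ h, ∀ F ∈ FF, MvPolynomial.aeval (orb M ρ v h) F = 0) :
    (orbitOff G M ρ v).encard ≤ bd r D := by
  have hK0 : CharZero K := charZero_of_injective_algebraMap (FaithfulSMul.algebraMap_injective k K)
  obtain ⟨h0, hdvd⟩ := NN_index_bd hD hH ρ
  have hfin : Finite (H ⧸ NN ρ) := by
    have : (NN ρ).FiniteIndex := ⟨h0⟩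
    infer_instance
  have h1 := encard_orbitOff_le G M ρ v (T := H ⧸ NN ρ) (fun h => (h : H ⧸ NN ρ)) (by
    intro g g' hgg hg i i'
    have h2 : g⁻¹ * g' ∈ NN ρ := QuotientGroup.eq.1 hgg
    have h3 := neat_const FF hhom G hGh hG M ρ v hX (g⁻¹ * g') h2 g hg i i'
    rwa [mul_inv_cancel_left] at h3)
  refine h1.trans ?_
  rw [← Subgroup.index_eq_card]
  exact_mod_cast Nat.le_of_dvd (bd_pos r D) hdvd

/-- **The uniform bound for arbitrary groups.** -/
theorem uni_core {k : Type} [Field k] [CharZero k]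
    (FF : Set (MvPolynomial (Fin (n + 1)) k)) (hhom : ∀ F ∈ FF, ∃ e, F.IsHomogeneous e)
    (G : MvPolynomial (Fin (n + 1)) k) (hGh : ∃ e, G.IsHomogeneous e)
    (hG : CurCond FF G (r * r)) {K : Type} [Field K] [Algebra k K] {D : ℕ} (hD : SpecDeg K D)
    {H : Type} [Group H]
    (ρ : H →* Matrix.GeneralLinearGroup (Fin r) K) (M : Matrix (Fin (n + 1)) (Fin r) K)
    (v : Fin r → K) (hX : ∀ h, ∀ F ∈ FF, MvPolynomial.aeval (orb M ρ v h) F = 0) :
    (orbitOff G M ρ v).encard ≤ bd r D := by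
  classical
  by_contra hcon
  push Not at hcon
  obtain ⟨T, hT, hTc⟩ := Set.exists_subset_encard_eq (s := orbitOff G M ρ v)
    (k := ((bd r D + 1 : ℕ) : ℕ∞)) (by
      have := Order.add_one_le_of_lt hcon
      exact_mod_cast this)
  have hTfin : T.Finite := Set.finite_of_encard_eq_coe hTc
  choose! sel hsel using fun P (hP : P ∈ T) => hT hP
  let H' : Subgroup H := Subgroup.closure (sel '' T)
  have hfg : Group.FG H' := by
    rw [Group.fg_iff_subgroup_fg]
    exact ⟨(hTfin.image sel).toFinset, by rw [Set.Finite.coe_toFinset]⟩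
  have hb := fg_core FF hhom G hGh hG hD hfg (ρ.comp H'.subtype) M v (fun h => hX h)
  have hsub : T ⊆ orbitOff G M (ρ.comp H'.subtype) v := by
    intro P hP
    obtain ⟨h0, h1, h2⟩ := hsel P hP
    exact ⟨⟨sel P, Subgroup.subset_closure ⟨P, hP, rfl⟩⟩, h0, h1, h2⟩
  have h3 := (Set.encard_le_encard hsub).trans hb
  rw [hTc] at h3
  have h4 : bd r D + 1 ≤ bd r D := by exact_mod_cast h3
  omega

end Pool.Agent.TH717.GO
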