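import Mathlib
import Pool.Agent.TH717.GO.UC

set_option autoImplicit false

/-! # Varieties without rational curves over arbitrary fields and uniform bounds -/

namespace Pool.Agent.TH717.GO

open Pool.Agent.H533R3.SL

variable {n : ℕ}

/-- the closed set given by `FF` contains no rational curve over the algebraic closure of `k`: all
polynomial curves over the algebraic closure on it are constant -/
def NoRatBar {k : Type} [Field k] (FF : Set (MvPolynomial (Fin (n + 1)) k)) : Prop :=
  ∀ q : Fin (n + 1) → Polynomial (AlgebraicClosure k), (∀ F ∈ FF, MvPolynomial.aeval q F = 0) →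
    ∀ i j (a b : AlgebraicClosure k),
      (q i).eval a * (q j).eval b = (q j).eval a * (q i).eval b

theorem noRatBar_cur {k : Type} [Field k] [CharZero k]
    (FF : Set (MvPolynomial (Fin (n + 1)) k)) (h : NoRatBar FF) (R : ℕ) :
    CurCond FF (1 : MvPolynomial (Fin (n + 1)) k) R := by
  intro L _ _ p S _ _ hF _ i i'
  by_contra hne
  set N : ℕ := Finset.univ.sup (fun i => (p i).natDegree) + 1 with hN
  have hNc : ∀ i m, N ≤ m → (p i).coeff m = 0 := by
    intro i m hm
    apply Polynomial.coeff_eq_zero_of_natDegree_lt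
    have := Finset.le_sup (f := fun i => (p i).natDegree) (Finset.mem_univ i)
    omega
  obtain ⟨K, iK, iA, iF, w, h1, h2, -⟩ := specialise_fin k L p FF hF N hNc
    ⟨i, i', hne⟩ 1 (by rw [map_one]; exact one_ne_zero)
  have hint : Algebra.IsAlgebraic k K := Algebra.IsAlgebraic.of_finite k K
  have hK0 : CharZero K := charZero_of_injective_algebraMap (FaithfulSMul.algebraMap_injective k K)
  let τ : K →ₐ[k] AlgebraicClosure k := IsAlgClosed.lift
  have hinf : Infinite K := inferInstance
  obtain ⟨i1, i2, a, b, hab⟩ := Pool.Agent.TH409.SH.nonconst_of _ h2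
  apply hab
  have hτinj : Function.Injective τ := (τ : K →+* AlgebraicClosure k).injective
  apply hτinj
  let q : Fin (n + 1) → Polynomial K := cur w (fun j => (j : ℕ))
  have hev : ∀ i (a : K), ((q i).map (τ : K →+* AlgebraicClosure k)).eval (τ a) =
      τ ((q i).eval a) := by
    intro i a
    rw [Polynomial.eval_map]
    exact Polynomial.eval₂_at_apply (τ : K →+* AlgebraicClosure k) a
  have h3 := h (fun i => (q i).map (τ : K →+* AlgebraicClosure k)) (by
    intro F hFF
    have h4 := congrArg (Polynomial.mapAlgHom τ) (h1 F hFF)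
    rw [map_zero, MvPolynomial.comp_aeval_apply] at h4
    exact h4) i1 i2 (τ a) (τ b)
  rw [hev, hev, hev, hev, ← map_mul, ← map_mul] at h3
  exact h3

/-- the uniform bound for varieties without rational curves -/
theorem uni_bar {k : Type} [Field k] [CharZero k]
    (FF : Set (MvPolynomial (Fin (n + 1)) k)) (hhom : ∀ F ∈ FF, ∃ e, F.IsHomogeneous e)
    (h : NoRatBar FF) {K : Type} [Field K] [Algebra k K] {D : ℕ} (hD : SpecDeg K D) {r : ℕ}
    {H : Type} [Group H]
    (ρ : H →* Matrix.GeneralLinearGroup (Fin r) K) (M : Matrix (Fin (n + 1)) (Fin r) K)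
    (v : Fin r → K) (hX : ∀ h, ∀ F ∈ FF, MvPolynomial.aeval (orb M ρ v h) F = 0) :
    (orbitPts M ρ v).encard ≤ bd r D := by
  rw [orbitPts_eq (k := k)]
  exact uni_core FF hhom 1 ⟨0, MvPolynomial.isHomogeneous_one _ _⟩ (noRatBar_cur FF h (r * r)) hD
    ρ M v hX

theorem converse_bar {k : Type} [Field k] [NumberField k]
    (FF : Set (MvPolynomial (Fin (n + 1)) k)) (h : ¬ NoRatBar FF) :
    ∃ (r : ℕ) (K : Type) (_ : Field K) (_ : NumberField K) (_ : Algebra k K)
        (ρ : Multiplicative ℤ →* Matrix.GeneralLinearGroup (Fin r) K)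
        (M : Matrix (Fin (n + 1)) (Fin r) K) (v : Fin r → K),
        (∀ h, ∀ F ∈ FF, MvPolynomial.aeval (orb M ρ v h) F = 0) ∧
        (orbitPts M ρ v).Infinite := by
  have hex : ∃ σ : k →+* ℂ, ¬ NoRatC σ FF := by
    obtain ⟨σ⟩ : Nonempty (k →+* ℂ) := inferInstance
    let _ : Algebra k ℂ := σ.toAlgebra
    let τ : AlgebraicClosure k →ₐ[k] ℂ := IsAlgClosed.lift
    refine ⟨σ, fun hno => h ?_⟩
    intro q hq i j a b
    have hτinj : Function.Injective τ := (τ : AlgebraicClosure k →+* ℂ).injective
    apply hτinj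
    have hev : ∀ i (a : AlgebraicClosure k),
        ((q i).map (τ : AlgebraicClosure k →+* ℂ)).eval (τ a) = τ ((q i).eval a) := by
      intro i a
      rw [Polynomial.eval_map]
      exact Polynomial.eval₂_at_apply (τ : AlgebraicClosure k →+* ℂ) a
    have h3 := hno (fun i => (q i).map (τ : AlgebraicClosure k →+* ℂ)) (by
      intro F hFF
      have h4 := congrArg (Polynomial.mapAlgHom τ) (hq F hFF)
      rw [map_zero, MvPolynomial.comp_aeval_apply] at h4
      exact h4) i j (τ a) (τ b)
    rw [hev, hev, hev, hev, ← map_mul, ← map_mul] at h3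
    exact h3
  obtain ⟨σ, hσ⟩ := hex
  obtain ⟨r, K, iK, iN, iA, ρ, M, v, -, h1, h2⟩ := converse_noRat σ FF hσ
  exact ⟨r, K, iK, iN, iA, ρ, M, v, h1, h2⟩

end Pool.Agent.TH717.GO
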