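import Mathlib
import Pool.Agent.TH717.GO.UD

set_option autoImplicit false

/-! # Specialisation of rational function fields -/

namespace Pool.Agent.TH717.GO

theorem mem_closure_image {K : Type} [Field K] (S : Finset K) {L : Type} [Field L]
    (σ : Subring.closure (S : Set K) →+* L) :
    ∃ S' : Finset L, ∀ b, σ b ∈ Subring.closure (S' : Set L) := by
  classical
  have hSA : ∀ s ∈ S, s ∈ Subring.closure (S : Set K) := fun s hs => Subring.subset_closure hs
  refine ⟨S.attach.image (fun s => σ ⟨s.1, hSA s.1 s.2⟩), ?_⟩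
  rintro ⟨b, hb⟩
  induction hb using Subring.closure_induction with
  | mem x hx =>
    apply Subring.subset_closure
    exact Finset.mem_coe.2 (Finset.mem_image.2 ⟨⟨x, hx⟩, Finset.mem_attach _ _, rfl⟩)
  | zero =>
    have : σ (0 : Subring.closure (S : Set K)) = 0 := map_zero σ
    exact this ▸ Subring.zero_mem _
  | one =>
    have : σ (1 : Subring.closure (S : Set K)) = 1 := map_one σ
    exact this ▸ Subring.one_mem _
  | add x y hx' hy' hx hy =>
    have : σ (⟨x, hx'⟩ + ⟨y, hy'⟩) = σ ⟨x, hx'⟩ + σ ⟨y, hy'⟩ := map_add σ _ _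
    exact this ▸ Subring.add_mem _ hx hy
  | neg x hx' hx =>
    have : σ (-⟨x, hx'⟩) = -σ ⟨x, hx'⟩ := map_neg σ _
    exact this ▸ Subring.neg_mem _ hx
  | mul x y hx' hy' hx hy =>
    have : σ (⟨x, hx'⟩ * ⟨y, hy'⟩) = σ ⟨x, hx'⟩ * σ ⟨y, hy'⟩ := map_mul σ _ _
    exact this ▸ Subring.mul_mem _ hx hy

/-- the rational functions defined at `t` -/
def regAt {K : Type} [Field K] (t : K) : Subring (RatFunc K) where
  carrier := {x | Polynomial.eval₂ (RingHom.id K) t x.denom ≠ 0}
  one_mem' := by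
    show Polynomial.eval₂ (RingHom.id K) t (RatFunc.denom 1) ≠ 0
    rw [RatFunc.denom_one, Polynomial.eval₂_one]
    exact one_ne_zero
  zero_mem' := by
    show Polynomial.eval₂ (RingHom.id K) t (RatFunc.denom 0) ≠ 0
    rw [RatFunc.denom_zero, Polynomial.eval₂_one]
    exact one_ne_zero
  mul_mem' := by
    intro x y hx hy hxy
    have h1 := Polynomial.eval₂_eq_zero_of_dvd_of_eval₂_eq_zero (RingHom.id K) t
      (RatFunc.denom_mul_dvd x y) hxy
    rw [Polynomial.eval₂_mul] at h1
    cases mul_eq_zero.mp h1 <;> contradiction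
  add_mem' := by
    intro x y hx hy hxy
    have h1 := Polynomial.eval₂_eq_zero_of_dvd_of_eval₂_eq_zero (RingHom.id K) t
      (RatFunc.denom_add_dvd x y) hxy
    rw [Polynomial.eval₂_mul] at h1
    cases mul_eq_zero.mp h1 <;> contradiction
  neg_mem' := by
    intro x hx hxy
    have h0 : (-x : RatFunc K) = RatFunc.C (-1) * x := by
      rw [map_neg, map_one, neg_one_mul]
    rw [h0] at hxy
    have h1 := Polynomial.eval₂_eq_zero_of_dvd_of_eval₂_eq_zero (RingHom.id K) t
      (RatFunc.denom_mul_dvd (RatFunc.C (-1)) x) hxy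
    rw [Polynomial.eval₂_mul, RatFunc.denom_C, Polynomial.eval₂_one, one_mul] at h1
    exact hx h1

/-- the value at `t` -/
noncomputable def valAt {K : Type} [Field K] (t : K) : regAt t →+* K where
  toFun x := RatFunc.eval (RingHom.id K) t (x : RatFunc K)
  map_one' := RatFunc.eval_one _ _
  map_zero' := RatFunc.eval_zero _ _
  map_mul' x y := RatFunc.eval_mul _ _ x.2 y.2
  map_add' x y := RatFunc.eval_add _ _ x.2 y.2

/-- fields of rational functions -/
theorem specDeg_ratFunc (K : Type) [Field K] [Infinite K] (D : ℕ) (h : SpecDeg K D) :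
    SpecDeg (RatFunc K) D := by
  classical
  intro S
  have hd : ∏ s ∈ S, (RatFunc.denom s) ≠ 0 :=
    Finset.prod_ne_zero_iff.2 fun s _ => RatFunc.denom_ne_zero s
  obtain ⟨t, ht⟩ : ∃ t : K, (∏ s ∈ S, (RatFunc.denom s)).eval t ≠ 0 := by
    by_contra hcon
    push Not at hcon
    exact hd (Polynomial.zero_of_eval_zero _ hcon)
  have hle : Subring.closure (S : Set (RatFunc K)) ≤ regAt t := by
    rw [Subring.closure_le]
    intro s hs hs0
    apply ht
    rw [Polynomial.eval_prod]
    refine Finset.prod_eq_zero (Finset.mem_coe.1 hs) ?_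
    rw [Polynomial.eval₂_id] at hs0
    exact hs0
  let σ : Subring.closure (S : Set (RatFunc K)) →+* K := (valAt t).comp (Subring.inclusion hle)
  obtain ⟨S', hS'⟩ := mem_closure_image S σ
  obtain ⟨E, iE, nE, hE, ⟨τ⟩⟩ := h S'
  exact ⟨E, iE, nE, hE, ⟨τ.comp (σ.codRestrict _ hS')⟩⟩

end Pool.Agent.TH717.GO
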