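import Mathlib
import Pool.Agent.TH717.GO.Core
import Pool.Agent.TH717.GO.Conv

set_option autoImplicit false

/-! # Exponential polynomials with roots in a torsion-free group: zeros along a progression -/

namespace Pool.Agent.TH717.GO

open Polynomial Pool.Agent.H533R3.SL

variable {L : Type} [Field L] (Λ : Subgroup Lˣ)

/-- the coefficient embedding of `k` in the exponential polynomials -/
noncomputable def cst (k : Type) [Field k] [Algebra k L] : k →+* EP Λ :=
  (MonoidAlgebra.singleOneRingHom (R := Polynomial L) (M := Λ)).comp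
    (algebraMap k (Polynomial L))

theorem ev_eval₂ {k : Type} [Field k] [Algebra k L] {ι : Type} (z : ι → EP Λ)
    (F : MvPolynomial ι k) (m : ℕ) : ev Λ (MvPolynomial.eval₂ (cst Λ k) z F) m =
      MvPolynomial.aeval (fun i => ev Λ (z i) m) F := by
  let evm : EP Λ →+* L := (Pi.evalRingHom (fun _ : ℕ => L) m).comp (ev Λ)
  have h2 : evm (MvPolynomial.eval₂ (cst Λ k) z F) =
      MvPolynomial.eval₂ (evm.comp (cst Λ k)) (fun i => evm (z i)) F := by
    rw [MvPolynomial.hom_eval₂]
  have h3 : evm.comp (cst Λ k) = algebraMap k L := by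
    refine RingHom.ext fun x => ?_
    show ev Λ (MonoidAlgebra.single 1 (algebraMap k (Polynomial L) x)) m = _
    rw [ev_single, Polynomial.algebraMap_apply, eval_C]
    simp
  rw [h3] at h2
  rw [MvPolynomial.aeval_def]
  exact h2

/-- an exponential polynomial with roots in a torsion-free group which vanishes along a progression
is zero -/
theorem ep_prog [CharZero L] (hΛ : ∀ u ∈ Λ, ∀ m : ℕ, 0 < m → u ^ m = 1 → u = 1) (z : EP Λ)
    (n0 T : ℕ) (hT : 1 ≤ T) (h : ∀ t, ev Λ z (n0 + T * t) = 0) : z = 0 := by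
  classical
  have hinj : Function.Injective (fun μ : Λ => μ ^ T) := by
    intro a b hab
    have h1 : ((a / b : Λ) : Lˣ) ^ T = 1 := by
      have h2 : (a / b) ^ T = 1 := by
        rw [div_pow, div_eq_one]
        exact hab
      have := congrArg (Subtype.val : Λ → Lˣ) h2
      simpa using this
    have h3 := hΛ _ (a / b).2 T (by omega) h1
    have h4 : a / b = 1 := Subtype.ext h3
    exact div_eq_one.1 h4
  let q : Polynomial L := C (n0 : L) + C (T : L) * X
  let w : EP Λ := ∑ μ ∈ z.coeff.support, MonoidAlgebra.single (μ ^ T)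
    (C ((((μ : Lˣ) : L)) ^ n0) * (z.coeff μ).comp q)
  have hw : w = 0 := by
    apply ev_injective Λ
    rw [map_zero]
    funext t
    have h1 := h t
    rw [ev_eq_sum, Finset.sum_apply] at h1
    show ev Λ w t = 0
    rw [← h1]
    simp only [w]
    rw [map_sum, Finset.sum_apply]
    refine Finset.sum_congr rfl fun μ _ => ?_
    rw [ev_single, eval_mul, eval_C, eval_comp]
    simp only [q, eval_add, eval_mul, eval_C, eval_X]
    push_cast
    rw [pow_add, pow_mul]
    ring
  have hcoeff : ∀ ν ∈ z.coeff.support, z.coeff ν = 0 := by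
    intro ν hν
    have h1 : w.coeff (ν ^ T) = C ((((ν : Lˣ) : L)) ^ n0) * (z.coeff ν).comp q := by
      simp only [w]
      rw [MonoidAlgebra.coeff_sum, Finsupp.finsetSum_apply, Finset.sum_eq_single ν]
      · simp
      · intro μ _ hne
        rw [MonoidAlgebra.coeff_single, Finsupp.single_apply, if_neg]
        intro h2
        exact hne (hinj h2)
      · intro h2
        exact absurd hν h2
    rw [hw] at h1
    have h2 : C ((((ν : Lˣ) : L)) ^ n0) * (z.coeff ν).comp q = 0 := by
      rw [← h1]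
      rfl
    have h3 : (z.coeff ν).comp q = 0 := by
      rcases mul_eq_zero.1 h2 with h4 | h4
      · exfalso
        rw [C_eq_zero] at h4
        exact pow_ne_zero _ (Units.ne_zero _) h4
      · exact h4
    rcases Polynomial.comp_eq_zero_iff.1 h3 with h4 | ⟨-, h4⟩
    · exact h4
    · exfalso
      have h5 := congrArg (fun P : Polynomial L => P.coeff 1) h4
      simp only [q, coeff_add, coeff_C_mul, coeff_X_one, coeff_C_succ, mul_one, zero_add] at h5
      have h6 : (T : L) ≠ 0 := Nat.cast_ne_zero.2 (by omega)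
      exact h6 (by simpa using h5)
  rw [← MonoidAlgebra.coeff_eq_zero]
  ext1 μ
  by_contra hne
  exact hne (hcoeff μ (Finsupp.mem_support_iff.2 hne))

/-- the same for polynomials in the coordinates of the orbit of a linear map -/
theorem prog_zero {k : Type} [Field k] [CharZero k] {n r : ℕ} (L : Type) [Field L] [Algebra k L]
    [IsAlgClosed L] (f : Module.End L (Fin r → L)) (U : Subgroup Lˣ)
    (hU : ∀ u ∈ U, ∀ m : ℕ, 0 < m → u ^ m = 1 → u = 1)
    (hfU : ∀ μ : L, f.HasEigenvalue μ → ∃ u ∈ U, (u : L) = μ)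
    (ℓ : (Fin r → L) →ₗ[L] (Fin (n + 1) → L)) (v : Fin r → L) (F : MvPolynomial (Fin (n + 1)) k)
    (n0 T : ℕ) (hT : 1 ≤ T)
    (h : ∀ t : ℕ, MvPolynomial.aeval (ℓ ((f ^ (n0 + T * t)) v)) F = 0) (m : ℕ) :
    MvPolynomial.aeval (ℓ ((f ^ m) v)) F = 0 := by
  classical
  have : CharZero L := charZero_of_injective_algebraMap (FaithfulSMul.algebraMap_injective k L)
  obtain ⟨S, -, hS2⟩ := seq_rep f U (fun μ hμ => by
    obtain ⟨u, hu, rfl⟩ := hfU μ hμ
    exact ⟨⟨u, hu⟩, rfl⟩)
  have hrep : ∀ i : Fin (n + 1), ∃ a : U → Polynomial L, (∀ μ ∈ S, (a μ).degree < r) ∧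
      ∀ m : ℕ, ℓ ((f ^ m) v) i = ∑ μ ∈ S, (a μ).eval (m : L) * ((μ : Lˣ) : L) ^ m := fun i =>
    hS2 ((LinearMap.proj i).comp ℓ) v
  choose a ha hae using hrep
  have hval : ∀ m : ℕ, ev U (MvPolynomial.eval₂ (cst U k) (fun i => mk U S (a i)) F) m =
      MvPolynomial.aeval (ℓ ((f ^ m) v)) F := by
    intro m
    rw [ev_eval₂]
    congr 2
    funext i
    rw [ev_mk, hae]
  have h0 := ep_prog U hU (MvPolynomial.eval₂ (cst U k) (fun i => mk U S (a i)) F) n0 T hT
    (fun t => by rw [hval]; exact h t)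
  rw [← hval m, h0, map_zero]
  rfl

end Pool.Agent.TH717.GO
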