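import Mathlib
import Pool.Agent.H612.LR.T_SML

set_option autoImplicit false

/-! # Linear recurrence sequences over a number field and their zeros -/

namespace Pool.Agent.TH717.GO

open Polynomial

/-- the shift on sequences, as a linear map -/
def shi (F : Type) [Field F] : (ℕ → F) →ₗ[F] (ℕ → F) where
  toFun f m := f (m + 1)
  map_add' _ _ := rfl
  map_smul' _ _ := rfl

/-- the sequence lies in a finite-dimensional space of sequences stable under the shift -/
def RecSeq {F : Type} [Field F] (f : ℕ → F) : Prop :=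
  ∃ W : Submodule F (ℕ → F), FiniteDimensional F W ∧ (∀ g ∈ W, shi F g ∈ W) ∧ f ∈ W

variable {F : Type} [Field F]

theorem RecSeq.const (c : F) : RecSeq (fun _ : ℕ => c) := by
  refine ⟨Submodule.span F {fun _ => 1}, inferInstance, ?_, ?_⟩
  · intro g hg
    obtain ⟨a, rfl⟩ := Submodule.mem_span_singleton.1 hg
    rw [map_smul]
    exact Submodule.smul_mem _ _ (Submodule.mem_span_singleton_self _)
  · rw [Submodule.mem_span_singleton]
    exact ⟨c, by funext m; simp⟩

theorem RecSeq.add {f g : ℕ → F} (hf : RecSeq f) (hg : RecSeq g) : RecSeq (f + g) := by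
  obtain ⟨W, hW, hs, hfW⟩ := hf
  obtain ⟨W', hW', hs', hgW⟩ := hg
  refine ⟨W ⊔ W', inferInstance, ?_, Submodule.add_mem_sup hfW hgW⟩
  intro u hu
  obtain ⟨a, ha, b, hb, rfl⟩ := Submodule.mem_sup.1 hu
  rw [map_add]
  exact Submodule.add_mem_sup (hs a ha) (hs' b hb)

theorem RecSeq.mul {f g : ℕ → F} (hf : RecSeq f) (hg : RecSeq g) : RecSeq (f * g) := by
  obtain ⟨W, hW, hs, hfW⟩ := hf
  obtain ⟨W', hW', hs', hgW⟩ := hg
  refine ⟨Submodule.span F {u | ∃ a ∈ W, ∃ b ∈ W', u = a * b}, ?_, ?_, ?_⟩
  · have h1 : Submodule.span F {u | ∃ a ∈ W, ∃ b ∈ W', u = a * b} =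
        Submodule.map₂ (LinearMap.mul F (ℕ → F)) W W' := by
      rw [Submodule.map₂_eq_span_image2]
      congr 1
      ext u
      constructor
      · rintro ⟨a, ha, b, hb, rfl⟩
        exact ⟨a, ha, b, hb, rfl⟩
      · rintro ⟨a, ha, b, hb, rfl⟩
        exact ⟨a, ha, b, hb, rfl⟩
    rw [h1]
    have hWf : W.FG := Submodule.fg_iff_finiteDimensional W |>.2 hW
    have hWf' : W'.FG := Submodule.fg_iff_finiteDimensional W' |>.2 hW'
    exact (Submodule.fg_iff_finiteDimensional _).1 (Submodule.FG.map₂ _ hWf hWf')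
  · intro u hu
    induction hu using Submodule.span_induction with
    | mem u hu =>
      obtain ⟨a, ha, b, hb, rfl⟩ := hu
      exact Submodule.subset_span ⟨_, hs a ha, _, hs' b hb, rfl⟩
    | zero => rw [map_zero]; exact Submodule.zero_mem _
    | add u w _ _ h1 h2 => rw [map_add]; exact Submodule.add_mem _ h1 h2
    | smul c u _ h1 => rw [map_smul]; exact Submodule.smul_mem _ _ h1
  · exact Submodule.subset_span ⟨f, hfW, g, hgW, rfl⟩

theorem RecSeq.maeval {k : Type} [Field k] [Algebra k F] {ι : Type} (x : ι → ℕ → F)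
    (hx : ∀ i, RecSeq (x i)) (P : MvPolynomial ι k) :
    RecSeq (fun m => MvPolynomial.aeval (fun i => x i m) P) := by
  induction P using MvPolynomial.induction_on with
  | C a =>
    simp only [MvPolynomial.aeval_C]
    exact RecSeq.const _
  | add p q hp hq =>
    simp only [map_add]
    exact hp.add hq
  | mul_X p i hp =>
    simp only [map_mul, MvPolynomial.aeval_X]
    exact hp.mul (hx i)

/-- coefficients of powers of a matrix -/
theorem RecSeq.pow {r : ℕ} (A : Matrix (Fin r) (Fin r) F)
    (φ : Matrix (Fin r) (Fin r) F →ₗ[F] F) : RecSeq (fun m => φ (A ^ m)) := by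
  let Θ : (Matrix (Fin r) (Fin r) F →ₗ[F] F) →ₗ[F] (ℕ → F) :=
    { toFun := fun φ m => φ (A ^ m)
      map_add' := fun _ _ => rfl
      map_smul' := fun _ _ => rfl }
  refine ⟨LinearMap.range Θ, inferInstance, ?_, ⟨φ, rfl⟩⟩
  rintro _ ⟨ψ, rfl⟩
  refine ⟨ψ.comp (LinearMap.mulLeft F A), ?_⟩
  funext m
  show ψ (A * A ^ m) = ψ (A ^ (m + 1))
  rw [pow_succ']

/-- from a number field to the rational numbers: a rational sequence with the same zeros -/
theorem RecSeq.exists_rat {K : Type} [Field K] [NumberField K] {f : ℕ → K} (hf : RecSeq f) :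
    ∃ g : ℕ → ℚ, RecSeq g ∧ ∀ m, g m = 0 ↔ f m = 0 := by
  classical
  obtain ⟨W, hW, hs, hfW⟩ := hf
  let b := Module.finBasis ℚ K
  have hcoord : ∀ e, RecSeq (fun m => b.repr (f m) e) := by
    intro e
    let Φ : (ℕ → K) →ₗ[ℚ] (ℕ → ℚ) :=
      { toFun := fun u m => b.repr (u m) e
        map_add' := fun u w => by funext m; simp
        map_smul' := fun c u => by funext m; simp }
    have hWQ : FiniteDimensional ℚ (W.restrictScalars ℚ) := by
      have : Module.Finite ℚ W := Module.Finite.trans K W
      exact this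
    refine ⟨(W.restrictScalars ℚ).map Φ, inferInstance, ?_, ⟨f, hfW, rfl⟩⟩
    rintro _ ⟨u, hu, rfl⟩
    exact ⟨shi K u, hs u hu, rfl⟩
  refine ⟨fun m => ∑ e, b.repr (f m) e * b.repr (f m) e, ?_, ?_⟩
  · have h1 : ∀ S : Finset (Fin (Module.finrank ℚ K)),
        RecSeq (fun m => ∑ e ∈ S, b.repr (f m) e * b.repr (f m) e) := by
      intro S
      induction S using Finset.induction_on with
      | empty => simpa using RecSeq.const (F := ℚ) 0
      | insert e S he ih =>
        simp only [Finset.sum_insert he]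
        exact ((hcoord e).mul (hcoord e)).add ih
    exact h1 Finset.univ
  · intro m
    rw [Finset.sum_eq_zero_iff_of_nonneg fun e _ => mul_self_nonneg _]
    constructor
    · intro h
      have h2 : b.repr (f m) = 0 := by
        ext e
        exact mul_self_eq_zero.1 (h e (Finset.mem_univ e))
      exact (map_eq_zero_iff _ b.repr.injective).1 h2
    · intro h e _
      rw [h]
      simp

/-- a sequence in a finite-dimensional stable space satisfies a linear recurrence -/
theorem RecSeq.exists_rec {f : ℕ → F} (hf : RecSeq f) :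
    ∃ (d : ℕ) (c : ℕ → F), 1 ≤ d ∧ ∀ n, f (n + d) = ∑ i ∈ Finset.range d, c i * f (n + i) := by
  obtain ⟨W, hW, hs, hfW⟩ := hf
  let T : Module.End F W := (shi F).restrict hs
  let χ : Polynomial F := LinearMap.charpoly T * X
  have hχ : Polynomial.aeval T χ = 0 := by
    rw [map_mul, LinearMap.aeval_self_charpoly, zero_mul]
  have hmon : χ.Monic := (LinearMap.charpoly_monic T).mul monic_X
  have hpow : ∀ (i n : ℕ), (((T ^ i) ⟨f, hfW⟩ : W) : ℕ → F) n = f (n + i) := by
    intro i
    induction i with
    | zero => intro n; rfl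
    | succ i ih =>
      intro n
      rw [pow_succ']
      show (((T ^ i) ⟨f, hfW⟩ : W) : ℕ → F) (n + 1) = _
      rw [ih]
      congr 1
      omega
  refine ⟨χ.natDegree, fun i => -χ.coeff i, ?_, fun n => ?_⟩
  · rw [(LinearMap.charpoly_monic T).natDegree_mul monic_X, natDegree_X]
    omega
  · have h1 := congrArg (fun S : Module.End F W => ((S ⟨f, hfW⟩ : W) : ℕ → F) n) hχ
    simp only [Polynomial.aeval_eq_sum_range, Finset.sum_range_succ, LinearMap.add_apply,
      LinearMap.sum_apply, LinearMap.smul_apply] at h1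
    have h2 : ((((χ.coeff χ.natDegree) • (T ^ χ.natDegree) ⟨f, hfW⟩ : W)) : ℕ → F) n =
        f (n + χ.natDegree) := by
      rw [hmon.coeff_natDegree, one_smul, hpow]
    rw [Submodule.coe_add, Pi.add_apply, h2] at h1
    have h3 : ((∑ i ∈ Finset.range χ.natDegree, χ.coeff i • (T ^ i) ⟨f, hfW⟩ : W) : ℕ → F) n =
        ∑ i ∈ Finset.range χ.natDegree, χ.coeff i * f (n + i) := by
      rw [Submodule.coe_sum, Finset.sum_apply]
      refine Finset.sum_congr rfl fun i _ => ?_
      rw [Submodule.coe_smul, Pi.smul_apply, hpow, smul_eq_mul]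
    rw [h3] at h1
    have h4 : ((0 : Module.End F W) ⟨f, hfW⟩ : W) = 0 := rfl
    rw [h4] at h1
    have h5 : (((0 : W) : ℕ → F)) n = 0 := rfl
    rw [h5] at h1
    simp only [neg_mul, Finset.sum_neg_distrib]
    linear_combination h1

open Pool.Agent.H612.LR in
/-- **Skolem, Mahler, Lech** (weak form) over a number field: infinitely many zeros give an
arithmetic progression of zeros. -/
theorem sml {K : Type} [Field K] [NumberField K] {f : ℕ → K} (hf : RecSeq f)
    (hinf : {m | f m = 0}.Infinite) : ∃ n0 T : ℕ, 1 ≤ T ∧ ∀ t, f (n0 + T * t) = 0 := by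
  classical
  obtain ⟨g, hg, hgf⟩ := hf.exists_rat
  obtain ⟨d, c, hd, hrec⟩ := hg.exists_rec
  let l : Rec := List.ofFn fun i : Fin d => (c (d - 1 - i), g i)
  have hlen : l.length = d := List.length_ofFn
  have hcoef : ∀ i < d, coef l i = c (d - 1 - i) := by
    intro i hi
    unfold coef
    rw [List.getD_eq_getElem _ _ (by rw [hlen]; exact hi)]
    simp [l]
  have hini : ∀ i < d, ini l i = g i := by
    intro i hi
    unfold ini
    rw [List.getD_eq_getElem _ _ (by rw [hlen]; exact hi)]
    simp [l]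
  have hseq : ∀ m, seq l m = g m := by
    intro m
    induction m using Nat.strong_induction_on with
    | _ m ih =>
      rw [seq]
      split_ifs with h
      · rw [hlen] at h
        exact hini m h
      · rw [hlen] at h
        obtain ⟨n, rfl⟩ : ∃ n, m = n + d := ⟨m - d, by omega⟩
        rw [hrec n]
        have h1 : ∑ i : Fin l.length, coef l i * seq l (n + d - 1 - i) =
            ∑ i ∈ Finset.range d, coef l i * seq l (n + d - 1 - i) := by
          rw [Finset.sum_range fun i => coef l i * seq l (n + d - 1 - i), hlen]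
        rw [h1, ← Finset.sum_range_reflect]
        refine Finset.sum_congr rfl fun i hi => ?_
        rw [Finset.mem_range] at hi
        rw [hcoef _ (by omega), ih _ (by omega)]
        congr 2
        · omega
        · omega
  obtain ⟨n0, T, -, hT, h0⟩ := t_SML l (by omega) (by
    intro N
    obtain ⟨m, hm, hNm⟩ := hinf.exists_gt N
    exact ⟨m, hNm.le, by rw [hseq]; exact (hgf m).2 hm⟩)
  exact ⟨n0, T, hT, fun t => (hgf _).1 (by rw [← hseq]; exact h0 t)⟩

end Pool.Agent.TH717.GO
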