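import Mathlib
import Pool.Agent.TH717.GO.Prog
import Pool.Agent.TH717.GO.RS

set_option autoImplicit false

/-! # Terms of linear recurrence sequences on a variety -/

namespace Pool.Agent.TH717.GO

open NumberField Pool.Agent.H533R3.SL

variable {n r : ℕ}

/-- the points `(x_m)` of the sequence which lie on `X`, given by the forms in `FF`, and are outside
the hypersurface `G = 0` -/
def seqOff {k K : Type} [Field k] [Field K] [Algebra k K]
    (FF : Set (MvPolynomial (Fin (n + 1)) k)) (G : MvPolynomial (Fin (n + 1)) k)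
    (x : ℕ → Fin (n + 1) → K) : Set (Projectivization K (Fin (n + 1) → K)) :=
  {P | ∃ (m : ℕ) (h0 : x m ≠ 0), (∀ F ∈ FF, MvPolynomial.aeval (x m) F = 0) ∧
    MvPolynomial.aeval (x m) G ≠ 0 ∧ P = Projectivization.mk K (x m) h0}

theorem zpow_coe {K : Type} [Field K] (A : Matrix.GeneralLinearGroup (Fin r) K) (m : ℕ) :
    ((zpowersHom (Matrix.GeneralLinearGroup (Fin r) K) A (Multiplicative.ofAdd (m : ℤ)) :
      Matrix.GeneralLinearGroup (Fin r) K) : Matrix (Fin r) (Fin r) K) =
      (A : Matrix (Fin r) (Fin r) K) ^ m := by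
  rw [zpowersHom_apply, toAdd_ofAdd, zpow_natCast, Units.val_pow_eq_pow_val]

theorem zpow_coe' {K : Type} [Field K] (A : Matrix.GeneralLinearGroup (Fin r) K) (m : ℕ) :
    ((zpowersHom (Matrix.GeneralLinearGroup (Fin r) K) A (Multiplicative.ofAdd (-(m : ℤ))) :
      Matrix.GeneralLinearGroup (Fin r) K) : Matrix (Fin r) (Fin r) K) =
      ((A⁻¹ : Matrix.GeneralLinearGroup (Fin r) K) : Matrix (Fin r) (Fin r) K) ^ m := by
  rw [zpowersHom_apply, toAdd_ofAdd, zpow_neg, zpow_natCast, ← inv_pow, Units.val_pow_eq_pow_val]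

/-- some power of a matrix is congruent to one modulo an odd prime -/
theorem exists_period {K : Type} [Field K] [NumberField K]
    (A : Matrix.GeneralLinearGroup (Fin r) K) :
    ∃ (p : ℕ), p.Prime ∧ 3 ≤ p ∧ ∃ N : ℕ, 1 ≤ N ∧ ∃ D D' : Matrix (Fin r) (Fin r) K,
      (∀ i j, PInt p (D i j)) ∧ (∀ i j, PInt p (D' i j)) ∧
      (A : Matrix (Fin r) (Fin r) K) ^ N = 1 + (p : K) • D ∧
      ((A⁻¹ : Matrix.GeneralLinearGroup (Fin r) K) : Matrix (Fin r) (Fin r) K) ^ N =
        1 + (p : K) • D' := by
  classical
  obtain ⟨p, hp, hp3, hρ⟩ := exists_prime_of_fg (K := K) (r := r) (H := Multiplicative ℤ)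
    inferInstance (zpowersHom _ A)
  have hA : ∀ (m : ℕ) i j, PInt p (((A : Matrix (Fin r) (Fin r) K) ^ m) i j) := fun m i j => by
    rw [← zpow_coe]
    exact hρ _ i j
  have hA' : ∀ (m : ℕ) i j, PInt p
      ((((A⁻¹ : Matrix.GeneralLinearGroup (Fin r) K) : Matrix (Fin r) (Fin r) K) ^ m) i j) :=
    fun m i j => by
    rw [← zpow_coe']
    exact hρ _ i j
  refine ⟨p, hp, hp3, ?_⟩
  let I : Ideal (𝓞 K) := Ideal.span {(p : 𝓞 K)}
  have hcard : Nat.card (𝓞 K ⧸ I) = p ^ Module.finrank ℚ K := card_quot p
  have hfin : Finite (𝓞 K ⧸ I) := Nat.finite_of_card_ne_zero (by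
    rw [hcard]
    exact pow_ne_zero _ hp.ne_zero)
  choose y c hc hyc using fun (m : ℕ) (i j : Fin r) =>
    exists_red hp (((A : Matrix (Fin r) (Fin r) K) ^ m) i j) (hA m i j)
  let red : ℕ → (Fin r → Fin r → 𝓞 K ⧸ I) := fun m i j => Ideal.Quotient.mk I (y m i j)
  have hred : ∀ g g' : ℕ, red g = red g' → ∃ D : Matrix (Fin r) (Fin r) K,
      (∀ i j, PInt p (D i j)) ∧
      (A : Matrix (Fin r) (Fin r) K) ^ g' = (A : Matrix (Fin r) (Fin r) K) ^ g + (p : K) • D := by
    intro g g' h
    have h1 : ∀ i j, ∃ z : 𝓞 K, y g' i j - y g i j = p * z := by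
      intro i j
      have h2 : Ideal.Quotient.mk I (y g' i j) = Ideal.Quotient.mk I (y g i j) :=
        (congrFun (congrFun h i) j).symm
      rw [Ideal.Quotient.eq, Ideal.mem_span_singleton] at h2
      exact h2
    choose z hz using h1
    refine ⟨Matrix.of fun i j => (z i j : K) + (c g' i j + -c g i j), fun i j => ?_, ?_⟩
    · rw [Matrix.of_apply]
      exact (PInt.of_int hp (z i j).2).add hp ((hc g' i j).add hp ((hc g i j).neg hp))
    · ext i j
      rw [Matrix.add_apply, Matrix.smul_apply, smul_eq_mul, Matrix.of_apply, hyc g' i j,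
        hyc g i j]
      have h3 : (y g' i j : K) - y g i j = p * z i j := by
        have := congrArg (fun a : 𝓞 K => (a : K)) (hz i j)
        simpa using this
      linear_combination h3
  obtain ⟨g, g', hlt, heq⟩ : ∃ g g' : ℕ, g < g' ∧ red g = red g' := by
    obtain ⟨a, b, hne, h⟩ := Finite.exists_ne_map_eq_of_infinite red
    rcases lt_or_gt_of_ne hne with h1 | h1
    · exact ⟨a, b, h1, h⟩
    · exact ⟨b, a, h1, h.symm⟩
  obtain ⟨D, hD, hDe⟩ := hred g g' heq
  have hAA : ∀ m : ℕ,
      ((A⁻¹ : Matrix.GeneralLinearGroup (Fin r) K) : Matrix (Fin r) (Fin r) K) ^ m *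
        (A : Matrix (Fin r) (Fin r) K) ^ m = 1 := by
    intro m
    rw [← Units.val_pow_eq_pow_val, ← Units.val_pow_eq_pow_val, ← Units.val_mul, inv_pow,
      inv_mul_cancel, Units.val_one]
  refine ⟨g' - g, by omega,
    ((A⁻¹ : Matrix.GeneralLinearGroup (Fin r) K) : Matrix (Fin r) (Fin r) K) ^ g * D,
    -(((A⁻¹ : Matrix.GeneralLinearGroup (Fin r) K) : Matrix (Fin r) (Fin r) K) ^ g' * D),
    ?_, ?_, ?_, ?_⟩
  · intro i j
    rw [Matrix.mul_apply]
    exact PInt.sum hp _ _ fun a _ => (hA' _ _ _).mul hp (hD _ _)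
  · intro i j
    rw [Matrix.neg_apply]
    refine PInt.neg hp ?_
    rw [Matrix.mul_apply]
    exact PInt.sum hp _ _ fun a _ => (hA' _ _ _).mul hp (hD _ _)
  · have h1 : (A : Matrix (Fin r) (Fin r) K) ^ (g' - g) =
        ((A⁻¹ : Matrix.GeneralLinearGroup (Fin r) K) : Matrix (Fin r) (Fin r) K) ^ g *
          (A : Matrix (Fin r) (Fin r) K) ^ g' := by
      have h2 : (A : Matrix (Fin r) (Fin r) K) ^ g' = (A : Matrix (Fin r) (Fin r) K) ^ g *
          (A : Matrix (Fin r) (Fin r) K) ^ (g' - g) := by
        rw [← pow_add]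
        congr 1
        omega
      rw [h2, ← mul_assoc, hAA, one_mul]
    rw [h1, hDe, mul_add, hAA, Matrix.mul_smul]
  · have h1 : ((A⁻¹ : Matrix.GeneralLinearGroup (Fin r) K) : Matrix (Fin r) (Fin r) K) ^ (g' - g) =
        ((A⁻¹ : Matrix.GeneralLinearGroup (Fin r) K) : Matrix (Fin r) (Fin r) K) ^ g' *
          (A : Matrix (Fin r) (Fin r) K) ^ g := by
      have h2 : ((A⁻¹ : Matrix.GeneralLinearGroup (Fin r) K) : Matrix (Fin r) (Fin r) K) ^ g' =
          ((A⁻¹ : Matrix.GeneralLinearGroup (Fin r) K) : Matrix (Fin r) (Fin r) K) ^ (g' - g) *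
          ((A⁻¹ : Matrix.GeneralLinearGroup (Fin r) K) : Matrix (Fin r) (Fin r) K) ^ g := by
        rw [← pow_add]
        congr 1
        omega
      rw [h2, mul_assoc, hAA, mul_one]
    have h3 : (A : Matrix (Fin r) (Fin r) K) ^ g =
        (A : Matrix (Fin r) (Fin r) K) ^ g' - (p : K) • D := by rw [hDe]; abel
    rw [h1, h3, mul_sub, hAA, Matrix.mul_smul, smul_neg]
    abel

/-- one residue class: either finitely many terms are on `X`, or the class gives one point -/
theorem gl_fin {k : Type} [Field k] [CharZero k] (FF : Finset (MvPolynomial (Fin (n + 1)) k))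
    (hhom : ∀ F ∈ FF, ∃ e, F.IsHomogeneous e) (G : MvPolynomial (Fin (n + 1)) k) (r : ℕ)
    (hG : CurCond (FF : Set (MvPolynomial (Fin (n + 1)) k)) G (r * r)) (K : Type) [Field K]
    [NumberField K] [Algebra k K] (A : Matrix.GeneralLinearGroup (Fin r) K)
    (M : Matrix (Fin (n + 1)) (Fin r) K) (v : Fin r → K) :
    (seqOff (FF : Set (MvPolynomial (Fin (n + 1)) k)) G
      (fun m => M.mulVec (((A : Matrix (Fin r) (Fin r) K) ^ m).mulVec v))).Finite := by
  classical
  obtain ⟨p, hp, hp3, N, hN, D, D', hD, hD', hDe, hDe'⟩ := exists_period A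
  set x : ℕ → Fin (n + 1) → K := fun m => M.mulVec (((A : Matrix (Fin r) (Fin r) K) ^ m).mulVec v)
    with hx
  let L := AlgebraicClosure K
  let φ : K →+* L := algebraMap K L
  have hφ : Function.Injective φ := (algebraMap K L).injective
  -- over the algebraic closure
  let B : Matrix (Fin r) (Fin r) L := φ.mapMatrix ((A : Matrix (Fin r) (Fin r) K) ^ N)
  let B' : Matrix (Fin r) (Fin r) L := φ.mapMatrix
    (((A⁻¹ : Matrix.GeneralLinearGroup (Fin r) K) : Matrix (Fin r) (Fin r) K) ^ N)
  have hmap : ∀ C : Matrix (Fin r) (Fin r) K,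
      φ.mapMatrix ((1 : Matrix (Fin r) (Fin r) K) + (p : K) • C) =
      1 + (p : L) • C.map φ := by
    intro C
    rw [map_add, map_one]
    congr 1
    ext a b
    simp
  have heig := fun μ hμ => eig_mem_UU (L := L) hp B B' (D.map φ) (D'.map φ) (by
      rw [← map_mul, ← Units.val_pow_eq_pow_val, ← Units.val_pow_eq_pow_val, ← Units.val_mul,
        inv_pow, inv_mul_cancel, Units.val_one, map_one])
      (by rw [← hmap, ← hDe]) (by rw [← hmap, ← hDe'])
      (fun i j => (hD i j).map φ) (fun i j => (hD' i j).map φ) μ hμ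
  let f : Module.End L (Fin r → L) := Matrix.toLinAlgEquiv' B
  let ℓ : (Fin r → L) →ₗ[L] (Fin (n + 1) → L) := Matrix.mulVecLin (M.map φ)
  let w : ℕ → Fin r → L := fun a => φ ∘ (((A : Matrix (Fin r) (Fin r) K) ^ a).mulVec v)
  have hseq : ∀ a m : ℕ, ℓ ((f ^ m) (w a)) = fun i => φ (x (a + N * m) i) := by
    intro a m
    have h1 : f ^ m = Matrix.toLinAlgEquiv' (φ.mapMatrix
        ((A : Matrix (Fin r) (Fin r) K) ^ (N * m))) := by
      simp only [f, B]
      rw [← map_pow, ← map_pow, ← pow_mul]
    rw [h1, Matrix.toLinAlgEquiv'_apply]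
    have h2 : (φ.mapMatrix ((A : Matrix (Fin r) (Fin r) K) ^ (N * m))).mulVec (w a) =
        φ ∘ (((A : Matrix (Fin r) (Fin r) K) ^ (a + N * m)).mulVec v) := by
      have h3 : (A : Matrix (Fin r) (Fin r) K) ^ (a + N * m) =
          (A : Matrix (Fin r) (Fin r) K) ^ (N * m) * (A : Matrix (Fin r) (Fin r) K) ^ a := by
        rw [← pow_add]
        congr 1
        omega
      rw [h3, ← Matrix.mulVec_mulVec]
      funext i
      exact (RingHom.map_mulVec φ _ _ i).symm
    rw [h2]
    funext i
    exact (RingHom.map_mulVec φ M _ i).symm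
  have haev : ∀ (P : MvPolynomial (Fin (n + 1)) k) (a m : ℕ),
      MvPolynomial.aeval (ℓ ((f ^ m) (w a))) P = φ (MvPolynomial.aeval (x (a + N * m)) P) := by
    intro P a m
    rw [hseq]
    exact MvPolynomial.aeval_algebraMap_apply (A := K) L (x (a + N * m)) P
  -- each residue class
  have hclass : ∀ a : ℕ, (seqOff (FF : Set (MvPolynomial (Fin (n + 1)) k)) G
      (fun m => x (a + N * m))).Finite := by
    intro a
    by_cases hall : ∀ F ∈ FF, ∀ m : ℕ, MvPolynomial.aeval (x (a + N * m)) F = 0
    · -- all the terms are on `X`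
      by_cases hex : ∃ t, x (a + N * t) ≠ 0 ∧ MvPolynomial.aeval (x (a + N * t)) G ≠ 0
      · let t0 := Nat.find hex
        obtain ⟨hx0, ht0⟩ : x (a + N * t0) ≠ 0 ∧ MvPolynomial.aeval (x (a + N * t0)) G ≠ 0 :=
          Nat.find_spec hex
        have hkey : ∀ (m : ℕ) (i i' : Fin (n + 1)),
            x (a + N * (t0 + m)) i * x (a + N * t0) i' =
            x (a + N * (t0 + m)) i' * x (a + N * t0) i := by
          intro m i i'
          have e1 : ∀ m : ℕ, (a + N * t0) + N * m = a + N * (t0 + m) := fun m => by ring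
          have h0 : ℓ (w (a + N * t0)) = fun i => φ (x (a + N * t0) i) := by
            have := hseq (a + N * t0) 0
            rwa [pow_zero, Module.End.one_apply, mul_zero, add_zero] at this
          have h1 := orb_core (FF : Set (MvPolynomial (Fin (n + 1)) k)) (fun F hF => hhom F hF) G r
            hG L f (UU hp L) (UU_torsionFree hp hp3) heig ℓ (w (a + N * t0)) (by
              intro F hF m
              rw [haev, e1, hall F hF, map_zero]) (by
              rw [h0]
              have h2 := MvPolynomial.aeval_algebraMap_apply (A := K) L (x (a + N * t0)) G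
              have h3 : (MvPolynomial.aeval fun i => φ (x (a + N * t0) i)) G =
                  φ (MvPolynomial.aeval (x (a + N * t0)) G) := h2
              rw [h3]
              intro h4
              exact ht0 (hφ (by rw [h4, map_zero]))) i i' m
          rw [hseq, h0, e1] at h1
          apply hφ
          rw [map_mul, map_mul]
          exact h1
        refine (Set.finite_singleton (Projectivization.mk K (x (a + N * t0)) hx0)).subset ?_
        rintro P ⟨t, h0, -, hGt, hP⟩
        have ht : t0 ≤ t := Nat.find_min' hex ⟨h0, hGt⟩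
        rw [Set.mem_singleton_iff, hP, Projectivization.mk_eq_mk_iff']
        obtain ⟨i0, hi0⟩ : ∃ i, x (a + N * t0) i ≠ 0 := by
          by_contra hcon
          push Not at hcon
          exact hx0 (funext hcon)
        refine ⟨x (a + N * t) i0 / x (a + N * t0) i0, funext fun i => ?_⟩
        rw [Pi.smul_apply, smul_eq_mul, div_mul_eq_mul_div, div_eq_iff hi0]
        have := hkey (t - t0) i i0
        rw [show t0 + (t - t0) = t by omega] at this
        linear_combination -this
      · push Not at hex
        refine Set.finite_empty.subset ?_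
        rintro P ⟨t, h0, -, hGt, -⟩
        exact hGt (hex t h0)
    · -- finitely many terms are on `X`
      push Not at hall
      obtain ⟨F, hF, m, hm⟩ := hall
      have hfin : {t : ℕ | MvPolynomial.aeval (x (a + N * t)) F = 0}.Finite := by
        by_contra hinf
        apply hm
        have hrec : RecSeq (fun t : ℕ => MvPolynomial.aeval (x (a + N * t)) F) := by
          refine RecSeq.maeval (fun i t => x (a + N * t) i) (fun i => ?_) F
          let ψ : Matrix (Fin r) (Fin r) K →ₗ[K] K :=
            { toFun := fun C => M.mulVec (C.mulVec (((A : Matrix (Fin r) (Fin r) K) ^ a).mulVec v)) i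
              map_add' := fun C C' => by
                rw [Matrix.add_mulVec, Matrix.mulVec_add, Pi.add_apply]
              map_smul' := fun c C => by
                rw [Matrix.smul_mulVec, Matrix.mulVec_smul, Pi.smul_apply, RingHom.id_apply] }
          have h1 := RecSeq.pow ((A : Matrix (Fin r) (Fin r) K) ^ N) ψ
          have h2 : (fun m => ψ (((A : Matrix (Fin r) (Fin r) K) ^ N) ^ m)) =
              fun t => x (a + N * t) i := by
            funext t
            show M.mulVec ((((A : Matrix (Fin r) (Fin r) K) ^ N) ^ t).mulVec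
              (((A : Matrix (Fin r) (Fin r) K) ^ a).mulVec v)) i = _
            have e : (((A : Matrix (Fin r) (Fin r) K) ^ N) ^ t).mulVec
                (((A : Matrix (Fin r) (Fin r) K) ^ a).mulVec v) =
                ((A : Matrix (Fin r) (Fin r) K) ^ (a + N * t)).mulVec v := by
              rw [Matrix.mulVec_mulVec, ← pow_mul, ← pow_add, add_comm]
            rw [e]
          rw [← h2]
          exact h1
        obtain ⟨n0, T, hT, h0⟩ := sml hrec hinf
        have h1 := prog_zero L f (UU hp L) (UU_torsionFree hp hp3) heig ℓ (w a) F n0 T hT (by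
          intro t
          rw [haev, h0, map_zero]) m
        rw [haev] at h1
        exact hφ (by rw [h1, map_zero])
      refine (hfin.biUnion (t := fun t => {P | ∃ h0 : x (a + N * t) ≠ 0,
        P = Projectivization.mk K (x (a + N * t)) h0}) ?_).subset ?_
      · intro t _
        refine Set.Subsingleton.finite ?_
        rintro P ⟨h0, rfl⟩ P' ⟨h0', rfl⟩
        rfl
      · rintro P ⟨t, h0, hFt, -, hP⟩
        exact Set.mem_biUnion (hFt F hF) ⟨h0, hP⟩
  refine ((Set.finite_lt_nat N).biUnion (t := fun a => seqOff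
    (FF : Set (MvPolynomial (Fin (n + 1)) k)) G (fun m => x (a + N * m)))
    (fun a _ => hclass a)).subset ?_
  rintro P ⟨m, h0, h1, h2, h3⟩
  have hm : m % N + N * (m / N) = m := Nat.mod_add_div m N
  refine Set.mem_biUnion (x := m % N) (Nat.mod_lt _ (by omega)) ?_
  have key : ∀ m', m' = m → ∃ h0 : x m' ≠ 0, (∀ F ∈ FF, MvPolynomial.aeval (x m') F = 0) ∧
      MvPolynomial.aeval (x m') G ≠ 0 ∧ P = Projectivization.mk K (x m') h0 := by
    rintro m' rfl
    exact ⟨h0, h1, h2, h3⟩
  obtain ⟨g0, g1, g2, g3⟩ := key _ hm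
  exact ⟨m / N, g0, g1, g2, g3⟩

theorem CurCond.mono {k : Type} [Field k] {FF : Set (MvPolynomial (Fin (n + 1)) k)}
    {G : MvPolynomial (Fin (n + 1)) k} {R R' : ℕ} (h : CurCond FF G R) (hR : R' ≤ R) :
    CurCond FF G R' := fun L _ _ p S hS => h L p S (hS.trans hR)

/-- linear recurrence sequences of order `r` -/
def IsRec {K : Type} [Field K] (r : ℕ) (x : ℕ → Fin (n + 1) → K) : Prop :=
  ∃ c : Fin r → K, ∀ m, x (m + r) = ∑ i, c i • x (m + i)

/-- terms of linear recurrence sequences on a variety whose curves off `G = 0` are constant -/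
theorem rec_fin {k : Type} [Field k] [CharZero k] (FF : Finset (MvPolynomial (Fin (n + 1)) k))
    (hhom : ∀ F ∈ FF, ∃ e, F.IsHomogeneous e) (G : MvPolynomial (Fin (n + 1)) k) (K : Type)
    [Field K] [NumberField K] [Algebra k K] : ∀ (r : ℕ),
    CurCond (FF : Set (MvPolynomial (Fin (n + 1)) k)) G (r * r) → ∀ x : ℕ → Fin (n + 1) → K,
    IsRec r x → (seqOff (FF : Set (MvPolynomial (Fin (n + 1)) k)) G x).Finite := by
  classical
  intro r
  induction r with
  | zero =>
    rintro - x ⟨c, hc⟩
    refine Set.finite_empty.subset ?_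
    rintro P ⟨m, h0, -⟩
    apply h0
    rw [show x m = x (m + 0) from rfl, hc m]
    simp
  | succ r ih =>
    rintro hG x ⟨c, hc⟩
    by_cases hc0 : c 0 = 0
    · -- the first coefficient is zero: shift
      have h1 := ih (hG.mono (Nat.mul_le_mul (Nat.le_succ r) (Nat.le_succ r)))
        (fun m => x (m + 1)) ⟨fun i => c i.succ, fun m => by
          have h2 := hc m
          rw [Fin.sum_univ_succ, hc0, zero_smul, zero_add] at h2
          show x (m + r + 1) = _
          rw [show m + r + 1 = m + (r + 1) by omega, h2]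
          refine Finset.sum_congr rfl fun i _ => ?_
          rw [Fin.val_succ, show m + ((i : ℕ) + 1) = m + i + 1 by omega]⟩
      refine (h1.union (Set.Subsingleton.finite (s := {P | ∃ h0 : x 0 ≠ 0,
        P = Projectivization.mk K (x 0) h0}) ?_)).subset ?_
      · rintro P ⟨h0, rfl⟩ P' ⟨h0', rfl⟩
        rfl
      · rintro P ⟨m, h0, h1, h2, h3⟩
        rcases m with _ | m
        · right
          exact ⟨h0, h3⟩
        · left
          exact ⟨m, h0, h1, h2, h3⟩
    · -- the companion matrix
      let A : Matrix (Fin (r + 1)) (Fin (r + 1)) K := fun a b =>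
        if (b : ℕ) = r then c a else if (a : ℕ) = b + 1 then 1 else 0
      let M : Matrix (Fin (n + 1)) (Fin (r + 1)) K := fun i b => x b i
      have hAe : ∀ b : Fin (r + 1), (b : ℕ) ≠ r → ∀ h : (b : ℕ) + 1 < r + 1,
          A.mulVec (Pi.single b 1) = Pi.single ⟨b + 1, h⟩ 1 := by
        intro b hb h
        funext a
        rw [Matrix.mulVec_single_one]
        show A a b = _
        simp only [A, if_neg hb, Pi.single_apply]
        congr 1
        rw [eq_iff_iff, Fin.ext_iff]
      have hAr : ∀ b : Fin (r + 1), (b : ℕ) = r → A.mulVec (Pi.single b 1) = c := by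
        intro b hb
        funext a
        rw [Matrix.mulVec_single_one]
        show A a b = _
        simp only [A, if_pos hb]
      have hc' : c = ∑ i, c i • (Pi.single i 1 : Fin (r + 1) → K) := by
        funext a
        simp [Finset.sum_apply, Pi.single_apply]
      have hseq : ∀ (m : ℕ) (b : Fin (r + 1)), M.mulVec ((A ^ m).mulVec (Pi.single b 1)) =
          x (m + b) := by
        intro m
        induction m with
        | zero =>
          intro b
          rw [pow_zero, Matrix.one_mulVec, Matrix.mulVec_single_one, zero_add]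
          rfl
        | succ m ihm =>
          intro b
          rw [pow_succ, ← Matrix.mulVec_mulVec]
          by_cases hb : (b : ℕ) = r
          · rw [hAr b hb, hc', Matrix.mulVec_sum, Matrix.mulVec_sum]
            have h2 := hc m
            rw [hb, show m + 1 + r = m + (r + 1) by omega, h2]
            refine Finset.sum_congr rfl fun i _ => ?_
            rw [Matrix.mulVec_smul, Matrix.mulVec_smul, ihm]
          · have h : (b : ℕ) + 1 < r + 1 := by omega
            rw [hAe b hb h, ihm]
            congr 1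
            show m + (b + 1) = m + 1 + b
            omega
      have hdet : A.det ≠ 0 := by
        intro hdet
        obtain ⟨w, hw0, hw⟩ := Matrix.exists_mulVec_eq_zero_iff.2 hdet
        have hent : ∀ a, ∑ b, A a b * w b = 0 := fun a => congrFun hw a
        have hlast : w (Fin.last r) = 0 := by
          have h1 := hent 0
          rw [Finset.sum_eq_single (Fin.last r)] at h1
          · simp only [A, Fin.val_last, if_true] at h1
            exact (mul_eq_zero.1 h1).resolve_left hc0
          · intro b _ hb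
            have hb' : (b : ℕ) ≠ r := fun h => hb (Fin.ext (by rw [h, Fin.val_last]))
            simp [A, hb']
          · intro h
            exact absurd (Finset.mem_univ _) h
        apply hw0
        funext b
        by_cases hb : (b : ℕ) = r
        · rw [show b = Fin.last r from Fin.ext (by rw [hb, Fin.val_last]), hlast]
          rfl
        · have h : (b : ℕ) + 1 < r + 1 := by omega
          have h1 := hent ⟨b + 1, h⟩
          rw [Finset.sum_eq_single b] at h1
          · simpa [A, hb] using h1
          · intro b' _ hb'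
            by_cases hb'r : (b' : ℕ) = r
            · rw [show b' = Fin.last r from Fin.ext (by rw [hb'r, Fin.val_last]), hlast, mul_zero]
            · have hne : ¬ ((b : ℕ) + 1 = b' + 1) := fun h2 => hb' (Fin.ext (by omega))
              have hA0 : A ⟨b + 1, h⟩ b' = 0 := by
                show (if (b' : ℕ) = r then c ⟨b + 1, h⟩ else if (b : ℕ) + 1 = b' + 1 then 1
                  else 0) = (0 : K)
                rw [if_neg hb'r, if_neg hne]
              rw [hA0, zero_mul]
          · intro h2
            exact absurd (Finset.mem_univ _) h2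
      let A' : Matrix.GeneralLinearGroup (Fin (r + 1)) K :=
        Matrix.GeneralLinearGroup.mkOfDetNeZero A hdet
      have h1 := gl_fin FF hhom G (r + 1) hG K A' M (Pi.single 0 1)
      have h2 : (fun m => M.mulVec (((A' : Matrix (Fin (r + 1)) (Fin (r + 1)) K) ^ m).mulVec
          (Pi.single 0 1))) = x := by
        funext m
        show M.mulVec ((A ^ m).mulVec (Pi.single 0 1)) = x m
        rw [hseq m 0]
        rfl
      rw [h2] at h1
      exact h1

end Pool.Agent.TH717.GO
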