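import Mathlib
import Pool.Agent.TH717.GO.Rec

set_option autoImplicit false

/-! # Linear recurrence sequences on a uniruled variety -/

namespace Pool.Agent.TH717.GO

open NumberField Pool.Agent.H533R3.SL

variable {n : ℕ}

/-- the values of a vector of polynomials at the powers of two form a recurrence sequence -/
theorem isRec_cur {K : Type} [Field K] {N : ℕ} (w : Fin N → Fin (n + 1) → K) :
    IsRec N (fun m i => (cur w (fun j => (j : ℕ)) i).eval ((2 : K) ^ m)) := by
  classical
  let P : Polynomial K := ∏ j : Fin N, (Polynomial.X - Polynomial.C ((2 : K) ^ (j : ℕ)))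
  have hP : P.Monic := Polynomial.monic_prod_of_monic _ _ fun j _ => Polynomial.monic_X_sub_C _
  have hdeg : P.natDegree = N := by
    rw [Polynomial.natDegree_prod_of_monic _ _ fun j _ => Polynomial.monic_X_sub_C _]
    simp only [Polynomial.natDegree_X_sub_C, Finset.sum_const, Finset.card_univ,
      Fintype.card_fin, smul_eq_mul, mul_one]
  have hroot : ∀ j : Fin N, ((2 : K) ^ (j : ℕ)) ^ N =
      ∑ i : Fin N, -P.coeff i * ((2 : K) ^ (j : ℕ)) ^ (i : ℕ) := by
    intro j
    have h1 : P.eval ((2 : K) ^ (j : ℕ)) = 0 := by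
      rw [Polynomial.eval_prod]
      exact Finset.prod_eq_zero (Finset.mem_univ j) (by simp)
    rw [Polynomial.eval_eq_sum_range, hdeg, Finset.sum_range_succ] at h1
    have h2 : P.coeff N = 1 := by
      have := hP.coeff_natDegree
      rwa [hdeg] at this
    rw [h2, one_mul, Finset.sum_range] at h1
    simp only [neg_mul, Finset.sum_neg_distrib]
    linear_combination h1
  refine ⟨fun i => -P.coeff i, fun m => ?_⟩
  funext i
  have hval : ∀ m : ℕ, (cur w (fun j => (j : ℕ)) i).eval ((2 : K) ^ m) =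
      ∑ j : Fin N, w j i * ((2 : K) ^ (j : ℕ)) ^ m := by
    intro m
    unfold cur
    rw [Polynomial.eval_finsetSum]
    refine Finset.sum_congr rfl fun j _ => ?_
    rw [Polynomial.eval_mul, Polynomial.eval_C, Polynomial.eval_pow, Polynomial.eval_X, ← pow_mul,
      ← pow_mul, mul_comm m]
  rw [Finset.sum_apply]
  simp only [Pi.smul_apply, smul_eq_mul]
  simp only [hval]
  simp only [Finset.mul_sum]
  rw [Finset.sum_comm]
  refine Finset.sum_congr rfl fun j _ => ?_
  rw [pow_add, hroot j, Finset.mul_sum, Finset.mul_sum]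
  refine Finset.sum_congr rfl fun l _ => ?_
  rw [pow_add]
  ring

/-- on a uniruled variety some linear recurrence sequences have infinitely many points off
`G = 0` -/
theorem converse_rec {k : Type} [Field k] [NumberField k]
    (FF : Finset (MvPolynomial (Fin (n + 1)) k))
    (hu : Uniruled (Ideal.span (FF : Set (MvPolynomial (Fin (n + 1)) k)))) :
    ∃ r : ℕ, ∀ G : MvPolynomial (Fin (n + 1)) k, (∃ e, G.IsHomogeneous e) →
      G ∉ Ideal.span (FF : Set (MvPolynomial (Fin (n + 1)) k)) →
      ∃ (K : Type) (_ : Field K) (_ : NumberField K) (_ : Algebra k K)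
        (x : ℕ → Fin (n + 1) → K), IsRec r x ∧
        (∀ m, ∀ F ∈ FF, MvPolynomial.aeval (x m) F = 0) ∧
        (seqOff (FF : Set (MvPolynomial (Fin (n + 1)) k)) G x).Infinite := by
  classical
  obtain ⟨L, iL, iA, p, hp1, hp2, hp3⟩ := hu
  set N : ℕ := Finset.univ.sup (fun i => (p i).natDegree) + 1 with hN
  have hNc : ∀ i m, N ≤ m → (p i).coeff m = 0 := by
    intro i m hm
    apply Polynomial.coeff_eq_zero_of_natDegree_lt
    have := Finset.le_sup (f := fun i => (p i).natDegree) (Finset.mem_univ i)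
    omega
  refine ⟨N, ?_⟩
  intro G hG1 hG2
  obtain ⟨K, iK, iN, iAK, w, h1, h2, h3⟩ := Pool.Agent.TH409.SH.specialise k L p
    (FF : Set (MvPolynomial (Fin (n + 1)) k)) (by
      intro F hF
      exact hp1 F (Ideal.subset_span hF)) N hNc hp3 G (hp2 G hG1 hG2)
  let q : Fin (n + 1) → Polynomial K := cur w (fun j => (j : ℕ))
  have hevG : ∀ (F : MvPolynomial (Fin (n + 1)) k) (t : K), (MvPolynomial.aeval q F).eval t =
      MvPolynomial.aeval (fun i => (q i).eval t) F := by
    intro F t
    exact MvPolynomial.comp_aeval_apply (R := k) q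
      ((Polynomial.aeval t : Polynomial K →ₐ[K] K).restrictScalars k) F
  let x : ℕ → Fin (n + 1) → K := fun m i => (q i).eval ((2 : K) ^ m)
  have hxX : ∀ m, ∀ F ∈ FF, MvPolynomial.aeval (x m) F = 0 := by
    intro m F hF
    show MvPolynomial.aeval (fun i => (q i).eval ((2 : K) ^ m)) F = 0
    rw [← hevG, h1 F hF, Polynomial.eval_zero]
  refine ⟨K, iK, iN, iAK, x, isRec_cur w, hxX, ?_⟩
  intro hfin
  -- the curve would be constant
  have hG0 : MvPolynomial.aeval q G ≠ 0 := by
    intro h
    apply h3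
    have := hevG G 1
    rw [h, Polynomial.eval_zero] at this
    exact this.symm
  obtain ⟨i1, i2, a, b, hab⟩ := Pool.Agent.TH409.SH.nonconst_of q h2
  have hq0 : q i1 ≠ 0 ∨ q i2 ≠ 0 := by
    by_contra h
    push Not at h
    apply hab
    rw [h.1, h.2]
  have h2inj : Function.Injective (fun m : ℕ => (2 : K) ^ m) := by
    intro m m' h
    have h4 : ((2 ^ m : ℕ) : K) = ((2 ^ m' : ℕ) : K) := by push_cast; exact h
    exact Nat.pow_right_injective (le_refl 2) (Nat.cast_injective h4)
  -- all but finitely many powers of two are good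
  let Q : Polynomial K := MvPolynomial.aeval q G * (if q i1 = 0 then q i2 else q i1)
  have hQ : Q ≠ 0 := by
    refine mul_ne_zero hG0 ?_
    split_ifs with h
    · rcases hq0 with h' | h'
      · exact absurd h h'
      · exact h'
    · exact h
  let good : Set ℕ := {m | Q.eval ((2 : K) ^ m) ≠ 0}
  have hgood : goodᶜ.Finite := by
    refine Set.Finite.of_finite_image (f := fun m : ℕ => (2 : K) ^ m) ?_ h2inj.injOn
    refine (Q.roots.toFinset.finite_toSet).subset ?_
    rintro _ ⟨m, hm, rfl⟩
    have : Q.eval ((2 : K) ^ m) = 0 := by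
      by_contra h
      exact hm h
    simpa [hQ] using this
  have hginf : good.Infinite := by
    intro h
    have := h.union hgood
    rw [Set.union_compl_self] at this
    exact Set.infinite_univ this
  have hgne : ∀ m ∈ good, x m ≠ 0 := by
    intro m hm h0
    apply hm
    show (MvPolynomial.aeval q G * (if q i1 = 0 then q i2 else q i1)).eval ((2 : K) ^ m) = 0
    rw [Polynomial.eval_mul]
    have h5 : ∀ i, (q i).eval ((2 : K) ^ m) = 0 := fun i => congrFun h0 i
    split_ifs
    · rw [h5, mul_zero]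
    · rw [h5, mul_zero]
  have hgG : ∀ m ∈ good, MvPolynomial.aeval (x m) G ≠ 0 := by
    intro m hm h0
    apply hm
    show (MvPolynomial.aeval q G * (if q i1 = 0 then q i2 else q i1)).eval ((2 : K) ^ m) = 0
    have h5 : MvPolynomial.aeval (fun i => (q i).eval ((2 : K) ^ m)) G = 0 := h0
    rw [Polynomial.eval_mul, hevG, h5, zero_mul]
  let pt : ℕ → Projectivization K (Fin (n + 1) → K) := fun m =>
    if h : x m ≠ 0 then Projectivization.mk K _ h
    else Projectivization.mk K (fun _ => 1) (fun h => one_ne_zero (congrFun h 0))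
  have hpt : ∀ m ∈ good, pt m ∈ seqOff (FF : Set (MvPolynomial (Fin (n + 1)) k)) G x := by
    intro m hm
    refine ⟨m, hgne m hm, hxX m, hgG m hm, ?_⟩
    simp only [pt, dif_pos (hgne m hm)]
  obtain ⟨P, -, hP⟩ : ∃ P ∈ seqOff (FF : Set (MvPolynomial (Fin (n + 1)) k)) G x,
      (good ∩ pt ⁻¹' {P}).Infinite := by
    by_contra hcon
    push Not at hcon
    apply hginf
    have h6 : good ⊆ ⋃ P ∈ seqOff (FF : Set (MvPolynomial (Fin (n + 1)) k)) G x,
        good ∩ pt ⁻¹' {P} := by
      intro m hm
      exact Set.mem_biUnion (hpt m hm) ⟨hm, rfl⟩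
    exact (Set.Finite.biUnion hfin fun P hP => Set.not_infinite.1 (by
      intro h7
      exact absurd h7 (by simpa using hcon P hP))).subset h6
  -- the point is constant along infinitely many parameters
  obtain ⟨m0, hm0, hm0P⟩ := hP.nonempty
  have hrel : ∀ i j, q i * Polynomial.C ((q j).eval ((2 : K) ^ m0)) =
      q j * Polynomial.C ((q i).eval ((2 : K) ^ m0)) := by
    intro i j
    rw [← sub_eq_zero]
    refine Polynomial.eq_zero_of_infinite_isRoot _ ?_
    refine Set.Infinite.mono ?_ (hP.image h2inj.injOn)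
    rintro _ ⟨m, ⟨hm, hmP⟩, rfl⟩
    have h8 : pt m = pt m0 := by
      rw [show pt m = P from hmP, show pt m0 = P from hm0P]
    simp only [pt, dif_pos (hgne m hm), dif_pos (hgne m0 hm0)] at h8
    rw [Projectivization.mk_eq_mk_iff'] at h8
    obtain ⟨c, hc⟩ := h8
    have hci : ∀ i, c * (q i).eval ((2 : K) ^ m0) = (q i).eval ((2 : K) ^ m) := fun i =>
      congrFun hc i
    show (q i * Polynomial.C ((q j).eval ((2 : K) ^ m0)) -
      q j * Polynomial.C ((q i).eval ((2 : K) ^ m0))).eval ((2 : K) ^ m) = 0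
    rw [Polynomial.eval_sub, Polynomial.eval_mul, Polynomial.eval_mul, Polynomial.eval_C,
      Polynomial.eval_C, ← hci i, ← hci j]
    ring
  obtain ⟨i0, hi0⟩ : ∃ i, (q i).eval ((2 : K) ^ m0) ≠ 0 := by
    by_contra h
    push Not at h
    exact hgne m0 hm0 (funext h)
  apply hab
  have e1 := congrArg (Polynomial.eval a) (hrel i1 i0)
  have e2 := congrArg (Polynomial.eval b) (hrel i2 i0)
  have e3 := congrArg (Polynomial.eval a) (hrel i2 i0)
  have e4 := congrArg (Polynomial.eval b) (hrel i1 i0)
  simp only [Polynomial.eval_mul, Polynomial.eval_C] at e1 e2 e3 e4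
  have hne2 : (q i0).eval ((2 : K) ^ m0) * (q i0).eval ((2 : K) ^ m0) ≠ 0 := mul_ne_zero hi0 hi0
  apply mul_right_cancel₀ hne2
  calc (q i1).eval a * (q i2).eval b * ((q i0).eval ((2 : K) ^ m0) * (q i0).eval ((2 : K) ^ m0))
      = ((q i1).eval a * (q i0).eval ((2 : K) ^ m0)) *
        ((q i2).eval b * (q i0).eval ((2 : K) ^ m0)) := by ring
    _ = ((q i0).eval a * (q i1).eval ((2 : K) ^ m0)) *
        ((q i0).eval b * (q i2).eval ((2 : K) ^ m0)) := by rw [e1, e2]
    _ = ((q i0).eval a * (q i2).eval ((2 : K) ^ m0)) *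
        ((q i0).eval b * (q i1).eval ((2 : K) ^ m0)) := by ring
    _ = ((q i2).eval a * (q i0).eval ((2 : K) ^ m0)) *
        ((q i1).eval b * (q i0).eval ((2 : K) ^ m0)) := by rw [e3, e4]
    _ = (q i2).eval a * (q i1).eval b *
        ((q i0).eval ((2 : K) ^ m0) * (q i0).eval ((2 : K) ^ m0)) := by ring

end Pool.Agent.TH717.GO
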