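import Mathlib
import Pool.Agent.TH717.GO.UE
import Pool.Agent.TH138.LG.AffWords2

set_option autoImplicit false

/-! # Orbits of groups of matrices on affine varieties: uniform bounds -/

namespace Pool.Agent.TH717.GO

open Pool.Agent.TH138.LG LaurentPolynomial

variable {ι : Type} {r : ℕ} {K : Type} [Field K] {H : Type} [Group H]

/-- the vector `M ρ(h) v` -/
def gVec (M : Matrix ι (Fin r) K) (ρ : H →* Matrix.GeneralLinearGroup (Fin r) K)
    (v : Fin r → K) (h : H) : ι → K :=
  M.mulVec ((ρ h : Matrix (Fin r) (Fin r) K).mulVec v)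

/-- the vectors `M ρ(h) v` at which `G` is not zero -/
def gPts {k : Type} [Field k] [Algebra k K] (G : MvPolynomial ι k) (M : Matrix ι (Fin r) K)
    (ρ : H →* Matrix.GeneralLinearGroup (Fin r) K) (v : Fin r → K) : Set (ι → K) :=
  {x | ∃ h : H, x = gVec M ρ v h ∧ MvPolynomial.aeval x G ≠ 0}

/-- the condition on curves -/
def CurA {k : Type} [Field k] (FF : Set (MvPolynomial ι k)) (G : MvPolynomial ι k) (R : ℕ) :
    Prop :=
  ∀ (L : Type) [Field L] [Algebra k L] (c : Fin R → ι → L) (l : Fin R → ℤ),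
    (∀ F ∈ FF, MvPolynomial.aeval (curL c l) F = 0) → (∃ i, ∀ a : L, curL c l i ≠ C a) →
    MvPolynomial.aeval (fun i => ∑ j, c j i) G = 0

/-- along the powers of a neat element -/
theorem neat_pow_aff {k : Type} [Field k] [CharZero k]
    (FF : Set (MvPolynomial ι k)) (G : MvPolynomial ι k) (hG : CurA FF G ((r + 1) * (r + 1)))
    [Algebra k K] (M : Matrix ι (Fin r) K)
    (ρ : H →* Matrix.GeneralLinearGroup (Fin r) K) (v : Fin r → K)
    (hX : ∀ h, ∀ F ∈ FF, MvPolynomial.aeval (gVec M ρ v h) F = 0) (g h : H)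
    (hGg : MvPolynomial.aeval (gVec M ρ v g) G ≠ 0) (hh : NeatEl ρ h) (m : ℕ) :
    gVec M ρ v (g * h ^ m) = gVec M ρ v g := by
  classical
  have hK0 : CharZero K := charZero_of_injective_algebraMap (FaithfulSMul.algebraMap_injective k K)
  obtain ⟨U, hU, heig⟩ := hh
  let L := AlgebraicClosure K
  let φ : K →+* L := algebraMap K L
  have hφ : Function.Injective φ := (algebraMap K L).injective
  have hmul : ∀ a b : H, (ρ (a * b) : Matrix (Fin r) (Fin r) K) =
      (ρ a : Matrix (Fin r) (Fin r) K) * (ρ b : Matrix (Fin r) (Fin r) K) := fun a b => by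
    rw [map_mul, Units.val_mul]
  let ℓ : (Fin r → L) →ₗ[L] (ι → L) :=
    { toFun := fun y => ((M * (ρ g : Matrix (Fin r) (Fin r) K)).map φ).mulVec y
      map_add' := fun x y => Matrix.mulVec_add _ _ _
      map_smul' := fun a y => Matrix.mulVec_smul _ _ _ }
  let v' : Fin r → L := φ ∘ v
  have hseq : ∀ m : ℕ, ℓ (((Matrix.toLinAlgEquiv' ((ρ h : Matrix (Fin r) (Fin r) K).map φ)) ^ m) v') =
      fun i => φ (gVec M ρ v (g * h ^ m) i) := by
    intro m
    rw [← map_pow, Matrix.toLinAlgEquiv'_apply]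
    have h1 : ((ρ h : Matrix (Fin r) (Fin r) K).map φ) ^ m =
        ((ρ (h ^ m) : Matrix (Fin r) (Fin r) K)).map φ := by
      have h2 : ((ρ h : Matrix (Fin r) (Fin r) K).map φ) =
          φ.mapMatrix (ρ h : Matrix (Fin r) (Fin r) K) := rfl
      rw [h2, ← map_pow, map_pow ρ, Units.val_pow_eq_pow_val]
      rfl
    rw [h1]
    show ((M * (ρ g : Matrix (Fin r) (Fin r) K)).map φ).mulVec
      (((ρ (h ^ m) : Matrix (Fin r) (Fin r) K)).map φ |>.mulVec v') = _
    rw [Matrix.mulVec_mulVec, ← Matrix.map_mul]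
    funext i
    unfold gVec
    rw [hmul, Matrix.mulVec_mulVec, ← Matrix.mul_assoc]
    exact (RingHom.map_mulVec φ _ v i).symm
  have hseq0 : ℓ v' = fun i => φ (gVec M ρ v g i) := by
    have h1 := hseq 0
    rw [pow_zero, pow_zero, mul_one, Module.End.one_apply] at h1
    exact h1
  have hfin := aff_coreG FF G (fun c l h1 h2 => hG L c l h1 h2)
    (Matrix.toLinAlgEquiv' ((ρ h : Matrix (Fin r) (Fin r) K).map φ)) U hU (by
      intro μ hμ
      obtain ⟨w, hw⟩ := hμ.exists_hasEigenvector
      refine heig μ w hw.2 ?_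
      have := hw.apply_eq_smul
      rwa [Matrix.toLinAlgEquiv'_apply] at this) ℓ v' (by
      intro F hF m
      rw [hseq m]
      have h1 := MvPolynomial.aeval_algebraMap_apply (A := K) L (gVec M ρ v (g * h ^ m)) F
      have h2 : (MvPolynomial.aeval fun i => φ (gVec M ρ v (g * h ^ m) i)) F =
          φ (MvPolynomial.aeval (gVec M ρ v (g * h ^ m)) F) := h1
      rw [h2, hX _ F hF, map_zero]) (by
      rw [hseq0]
      have h1 := MvPolynomial.aeval_algebraMap_apply (A := K) L (gVec M ρ v g) G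
      have h2 : (MvPolynomial.aeval fun i => φ (gVec M ρ v g i)) G =
          φ (MvPolynomial.aeval (gVec M ρ v g) G) := h1
      rw [h2]
      intro h3
      exact hGg (hφ (by rw [h3, map_zero]))) m
  rw [hseq m, hseq0] at hfin
  funext i
  exact hφ (congrFun hfin i)

/-- the orbit is constant on the cosets of the subgroup generated by the neat elements -/
theorem neat_const_aff {k : Type} [Field k] [CharZero k]
    (FF : Set (MvPolynomial ι k)) (G : MvPolynomial ι k) (hG : CurA FF G ((r + 1) * (r + 1)))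
    [Algebra k K] (M : Matrix ι (Fin r) K)
    (ρ : H →* Matrix.GeneralLinearGroup (Fin r) K) (v : Fin r → K)
    (hX : ∀ h, ∀ F ∈ FF, MvPolynomial.aeval (gVec M ρ v h) F = 0) (x : H) (hx : x ∈ NN ρ) :
    ∀ g : H, MvPolynomial.aeval (gVec M ρ v g) G ≠ 0 → gVec M ρ v (g * x) = gVec M ρ v g := by
  have step : ∀ h y : H, NeatEl ρ h → (∀ g : H, MvPolynomial.aeval (gVec M ρ v g) G ≠ 0 →
      gVec M ρ v (g * y) = gVec M ρ v g) →
      ∀ g : H, MvPolynomial.aeval (gVec M ρ v g) G ≠ 0 →
      gVec M ρ v (g * (h * y)) = gVec M ρ v g := by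
    intro h y hh hy g hg
    have h1 := neat_pow_aff FF G hG M ρ v hX g h hg hh 1
    rw [pow_one] at h1
    rw [← mul_assoc, hy (g * h) (by rw [h1]; exact hg), h1]
  refine Subgroup.closure_induction_left (p := fun x _ => ∀ g : H,
    MvPolynomial.aeval (gVec M ρ v g) G ≠ 0 → gVec M ρ v (g * x) = gVec M ρ v g) ?_ ?_ ?_ hx
  · intro g _
    rw [mul_one]
  · intro h hh y _ hy
    exact step h y hh hy
  · intro h hh y _ hy
    exact step h⁻¹ y hh.inv hy

theorem fg_core_aff {k : Type} [Field k] [CharZero k]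
    (FF : Set (MvPolynomial ι k)) (G : MvPolynomial ι k) (hG : CurA FF G ((r + 1) * (r + 1)))
    [Algebra k K] {D : ℕ} (hD : SpecDeg K D) (hH : Group.FG H) (M : Matrix ι (Fin r) K)
    (ρ : H →* Matrix.GeneralLinearGroup (Fin r) K) (v : Fin r → K)
    (hX : ∀ h, ∀ F ∈ FF, MvPolynomial.aeval (gVec M ρ v h) F = 0) :
    (gPts G M ρ v).encard ≤ bd r D := by
  classical
  have hK0 : CharZero K := charZero_of_injective_algebraMap (FaithfulSMul.algebraMap_injective k K)
  obtain ⟨h0, hdvd⟩ := NN_index_bd hD hH ρ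
  have hfin : Finite (H ⧸ NN ρ) := by
    have : (NN ρ).FiniteIndex := ⟨h0⟩
    infer_instance
  have hsel : ∀ x : ι → K, ∃ h : H, x ∈ gPts G M ρ v →
      x = gVec M ρ v h ∧ MvPolynomial.aeval x G ≠ 0 := by
    intro x
    by_cases hx : x ∈ gPts G M ρ v
    · obtain ⟨h, h1⟩ := hx
      exact ⟨h, fun _ => h1⟩
    · exact ⟨1, fun h => absurd h hx⟩
  choose sel hsel using hsel
  have hinj : Set.InjOn (fun x => (sel x : H ⧸ NN ρ)) (gPts G M ρ v) := by
    intro x hx y hy heq
    obtain ⟨hx1, hx2⟩ := hsel x hx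
    obtain ⟨hy1, hy2⟩ := hsel y hy
    have h2 : (sel x)⁻¹ * sel y ∈ NN ρ := QuotientGroup.eq.1 heq
    have h3 := neat_const_aff FF G hG M ρ v hX _ h2 (sel x) (by rw [← hx1]; exact hx2)
    rw [mul_inv_cancel_left] at h3
    rw [hx1, hy1, h3]
  have h1 : (gPts G M ρ v).encard ≤ (Set.univ : Set (H ⧸ NN ρ)).encard :=
    Set.encard_le_encard_of_injOn (fun _ _ => Set.mem_univ _) hinj
  refine h1.trans ?_
  have h2 : Fintype (H ⧸ NN ρ) := Fintype.ofFinite _
  rw [Set.encard_univ, ENat.card_eq_coe_fintype_card, ← Nat.card_eq_fintype_card,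
    ← Subgroup.index_eq_card]
  exact_mod_cast Nat.le_of_dvd (bd_pos r D) hdvd

/-- **The uniform bound on affine varieties for arbitrary groups.** -/
theorem uni_core_aff {k : Type} [Field k] [CharZero k]
    (FF : Set (MvPolynomial ι k)) (G : MvPolynomial ι k) (hG : CurA FF G ((r + 1) * (r + 1)))
    [Algebra k K] {D : ℕ} (hD : SpecDeg K D) (M : Matrix ι (Fin r) K)
    (ρ : H →* Matrix.GeneralLinearGroup (Fin r) K) (v : Fin r → K)
    (hX : ∀ h, ∀ F ∈ FF, MvPolynomial.aeval (gVec M ρ v h) F = 0) :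
    (gPts G M ρ v).encard ≤ bd r D := by
  classical
  by_contra hcon
  push Not at hcon
  obtain ⟨T, hT, hTc⟩ := Set.exists_subset_encard_eq (s := gPts G M ρ v)
    (k := ((bd r D + 1 : ℕ) : ℕ∞)) (by
      have := Order.add_one_le_of_lt hcon
      exact_mod_cast this)
  have hTfin : T.Finite := Set.finite_of_encard_eq_coe hTc
  choose! sel hsel using fun P (hP : P ∈ T) => hT hP
  let H' : Subgroup H := Subgroup.closure (sel '' T)
  have hfg : Group.FG H' := by
    rw [Group.fg_iff_subgroup_fg]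
    exact ⟨(hTfin.image sel).toFinset, by rw [Set.Finite.coe_toFinset]⟩
  have hb := fg_core_aff FF G hG hD hfg M (ρ.comp H'.subtype) v (fun h => hX h)
  have hsub : T ⊆ gPts G M (ρ.comp H'.subtype) v := by
    intro P hP
    obtain ⟨h1, h2⟩ := hsel P hP
    exact ⟨⟨sel P, Subgroup.subset_closure ⟨P, hP, rfl⟩⟩, h1, h2⟩
  have h3 := (Set.encard_le_encard hsub).trans hb
  rw [hTc] at h3
  have h4 : bd r D + 1 ≤ bd r D := by exact_mod_cast h3
  omega

/-- images of the multiplicative group give infinite orbits of a cyclic group -/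
theorem converse_affG {k : Type} [Field k] [NumberField k] [Finite ι]
    (FF : Set (MvPolynomial ι k)) (hu : GmUniruled (Ideal.span FF)) :
    ∃ r : ℕ, ∀ G : MvPolynomial ι k, G ∉ Ideal.span FF →
      ∃ (K : Type) (_ : Field K) (_ : NumberField K) (_ : Algebra k K)
        (M : Matrix ι (Fin r) K) (ρ : Multiplicative ℤ →* Matrix.GeneralLinearGroup (Fin r) K)
        (v : Fin r → K),
        (∀ h, ∀ F ∈ FF, MvPolynomial.aeval (gVec M ρ v h) F = 0) ∧
        (gPts G M ρ v).Infinite := by
  classical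
  obtain ⟨L, iL, iA, r, c, l, h1, h2, h3⟩ := hu
  refine ⟨r, fun G hG => ?_⟩
  obtain ⟨K, iK, iN, iAK, c', h4, ⟨i0, h5⟩, h6⟩ := specialiseL k L FF c l
    (fun F hF => h1 F (Ideal.subset_span hF)) h3 G (h2 G hG)
  let t : ℕ → Kˣ := fun m => (Units.mk0 (2 : K) two_ne_zero) ^ m
  have ht : ∀ m, ((t m : Kˣ) : K) = 2 ^ m := fun m => by
    show (((Units.mk0 (2 : K) two_ne_zero) ^ m : Kˣ) : K) = _
    rw [Units.val_pow_eq_pow_val, Units.val_mk0]
  let tz : ℤ → Kˣ := fun m => (Units.mk0 (2 : K) two_ne_zero) ^ m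
  let u : Fin r → Kˣ := fun j => (Units.mk0 (2 : K) two_ne_zero) ^ (l j)
  let D : (Fin r → Kˣ) →* Matrix.GeneralLinearGroup (Fin r) K :=
    { toFun := fun u =>
        { val := Matrix.diagonal fun j => ((u j : Kˣ) : K)
          inv := Matrix.diagonal fun j => (((u j)⁻¹ : Kˣ) : K)
          val_inv := by
            rw [Matrix.diagonal_mul_diagonal, ← Matrix.diagonal_one]
            congr 1
            funext j
            exact Units.mul_inv _
          inv_val := by
            rw [Matrix.diagonal_mul_diagonal, ← Matrix.diagonal_one]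
            congr 1
            funext j
            exact Units.inv_mul _ }
      map_one' := by
        apply Units.ext
        show Matrix.diagonal (fun j => (((1 : Fin r → Kˣ) j : Kˣ) : K)) = 1
        rw [← Matrix.diagonal_one]
        rfl
      map_mul' := fun a b => by
        apply Units.ext
        show Matrix.diagonal (fun j => (((a * b) j : Kˣ) : K)) =
          Matrix.diagonal (fun j => ((a j : Kˣ) : K)) * Matrix.diagonal (fun j => ((b j : Kˣ) : K))
        rw [Matrix.diagonal_mul_diagonal]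
        rfl }
  let ρ : Multiplicative ℤ →* Matrix.GeneralLinearGroup (Fin r) K := D.comp (zpowersHom _ u)
  let M : Matrix ι (Fin r) K := fun i j => c' j i
  have hval : ∀ m : Multiplicative ℤ, gVec M ρ (fun _ => 1) m =
      fun i => evL (tz (Multiplicative.toAdd m)) (curL c' l i) := by
    intro m
    funext i
    unfold gVec
    show ∑ j, M i j * ((Matrix.diagonal fun j => (((u ^ (Multiplicative.toAdd m)) j : Kˣ) :
      K)).mulVec fun _ => 1) j = _
    unfold curL
    rw [map_sum]
    refine Finset.sum_congr rfl fun j _ => ?_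
    rw [Matrix.mulVec_diagonal, mul_one, map_mul, evL_C, evL_T, Pi.pow_apply]
    congr 2
    show ((Units.mk0 (2 : K) two_ne_zero) ^ (l j)) ^ (Multiplicative.toAdd m) =
      ((Units.mk0 (2 : K) two_ne_zero) ^ (Multiplicative.toAdd m)) ^ (l j)
    rw [← zpow_mul, ← zpow_mul, mul_comm]
  have hev : ∀ (F : MvPolynomial ι k) (m : Multiplicative ℤ),
      MvPolynomial.aeval (gVec M ρ (fun _ => 1) m) F =
        evL (tz (Multiplicative.toAdd m)) (MvPolynomial.aeval (curL c' l) F) := by
    intro F m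
    rw [hval, MvPolynomial.aeval_def, MvPolynomial.aeval_def, MvPolynomial.hom_eval₂]
    congr 1
    refine RingHom.ext fun x => ?_
    show _ = evL _ (algebraMap k (LaurentPolynomial K) x)
    rw [LaurentPolynomial.algebraMap_apply, evL_C]
  refine ⟨K, iK, iN, iAK, M, ρ, fun _ => 1, ?_, ?_⟩
  · intro m F hF
    rw [hev, h4 F hF, map_zero]
  · intro hfin
    have hG0 : MvPolynomial.aeval (curL c' l) G ≠ 0 := by
      intro h
      apply h6
      have h8 := hev G 1
      rw [h, map_zero] at h8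
      rw [← h8]
      congr 2
      funext i
      rw [hval]
      show _ = evL (tz 0) (curL c' l i)
      unfold curL
      rw [map_sum]
      refine Finset.sum_congr rfl fun j _ => ?_
      rw [map_mul, evL_C, evL_T]
      have ht0 : tz 0 = 1 := zpow_zero _
      rw [ht0, one_zpow, Units.val_one, mul_one]
    have htz : ∀ m : ℕ, tz (m : ℤ) = t m := fun m => zpow_natCast _ m
    have hbad := evL_finite _ hG0 t ht
    have hcov : Set.univ ⊆ {m : ℕ | evL (t m) (MvPolynomial.aeval (curL c' l) G) = 0} ∪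
        ⋃ x ∈ gPts G M ρ (fun _ => 1),
          {m : ℕ | evL (t m) (curL c' l i0 - C (x i0)) = 0} := by
      intro m _
      by_cases hm : evL (t m) (MvPolynomial.aeval (curL c' l) G) = 0
      · exact Or.inl hm
      · right
        simp only [Set.mem_iUnion]
        refine ⟨gVec M ρ (fun _ => 1) (Multiplicative.ofAdd (m : ℤ)), ⟨_, rfl, ?_⟩, ?_⟩
        · rw [hev, toAdd_ofAdd, htz]; exact hm
        · show evL (t m) (curL c' l i0 - C (gVec M ρ (fun _ => 1)
            (Multiplicative.ofAdd (m : ℤ)) i0)) = 0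
          rw [map_sub, evL_C, hval, toAdd_ofAdd, htz, sub_self]
    apply Set.infinite_univ (α := ℕ)
    refine Set.Finite.subset (hbad.union (Set.Finite.biUnion hfin fun x _ =>
      evL_finite _ ?_ t ht)) hcov
    intro h
    exact h5 (x i0) (sub_eq_zero.1 h)

end Pool.Agent.TH717.GO
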