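import Mathlib
import Pool.Agent.TH717.GO.FG

set_option autoImplicit false

/-! # Varieties without rational curves and orbits of groups of matrices -/

namespace Pool.Agent.TH717.GO

open MvPolynomial Pool.Agent.H533R3.SL

variable {n : ℕ}

/-- Orbits on `X` of groups of matrices over a subring `A` of the ground field which has two finite
residue fields of different characteristics: the number of their points is bounded in terms of the
size of the matrices and of the residue fields only. -/
def OrbitBoundK {k : Type} [Field k] (FF : Set (MvPolynomial (Fin (n + 1)) k)) : Prop :=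
  ∀ (r : ℕ) (A : Subring k) (F₁ F₂ : Type) [Field F₁] [Field F₂] [Finite F₁] [Finite F₂]
    (_ : A →+* F₁) (_ : A →+* F₂), ringChar F₁ ≠ ringChar F₂ →
    ∀ (H : Type) [Group H] (ρ : H →* Matrix.GeneralLinearGroup (Fin r) A)
      (M : Matrix (Fin (n + 1)) (Fin r) k) (v : Fin r → k),
      (∀ h, ∀ F ∈ FF, aeval (orb M (ext A ρ) v h) F = 0) →
      (orbitPts M (ext A ρ) v).encard ≤
        (Nat.card (Matrix.GeneralLinearGroup (Fin r) F₁) *
          Nat.card (Matrix.GeneralLinearGroup (Fin r) F₂) : ℕ)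

/-- The orbits on `X` of finitely generated groups of matrices are finite. -/
def OrbitsFiniteK {k : Type} [Field k] (FF : Set (MvPolynomial (Fin (n + 1)) k)) : Prop :=
  ∀ (r : ℕ) (H : Type) [Group H], Group.FG H →
    ∀ (ρ : H →* Matrix.GeneralLinearGroup (Fin r) k) (M : Matrix (Fin (n + 1)) (Fin r) k)
      (v : Fin r → k), (∀ h, ∀ F ∈ FF, aeval (orb M ρ v h) F = 0) → (orbitPts M ρ v).Finite

theorem bound_of_noRat {k : Type} [Field k] [IsAlgClosed k] [CharZero k]
    (FF : Set (MvPolynomial (Fin (n + 1)) k)) (hhom : ∀ F ∈ FF, ∃ e, F.IsHomogeneous e)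
    (h : NoRat FF) : OrbitBoundK FF := by
  intro r A F₁ F₂ _ _ _ _ φ₁ φ₂ hne H _ ρ M v hX
  rw [orbitPts_eq (k := k)]
  exact two_core FF hhom 1 (noRat_cur FF h (r * r)) A φ₁ φ₂ hne ρ M v hX

theorem finite_of_bound {k : Type} [Field k] [CharZero k]
    (FF : Set (MvPolynomial (Fin (n + 1)) k)) (h : OrbitBoundK FF) : OrbitsFiniteK FF := by
  intro r H _ hH ρ M v hX
  obtain ⟨S, hS⟩ := fg_subring hH ρ
  obtain ⟨N, hN, hp⟩ := exists_residue_closure S
  obtain ⟨p₁, hp₁N, hp₁⟩ := Nat.exists_infinite_primes (N + 1)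
  obtain ⟨p₂, hp₂N, hp₂⟩ := Nat.exists_infinite_primes (p₁ + 1)
  have hnd : ∀ p, N + 1 ≤ p → ¬ p ∣ N := fun p hp h => by
    have := Nat.le_of_dvd (Nat.pos_of_ne_zero hN) h
    omega
  obtain ⟨F₁, i1, f1, hc1, ⟨φ₁⟩⟩ := hp p₁ hp₁ (hnd p₁ hp₁N)
  obtain ⟨F₂, i2, f2, hc2, ⟨φ₂⟩⟩ := hp p₂ hp₂ (hnd p₂ (by omega))
  have h1 := h r (Subring.closure (S : Set k)) F₁ F₂ φ₁ φ₂ (by
    rw [hc1, hc2]
    omega) H (toSub _ ρ hS) M v (by
      rw [ext_toSub]
      exact hX)
  rw [ext_toSub] at h1
  exact Set.finite_of_encard_le_coe h1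

theorem noRat_of_finite {k : Type} [Field k] [CharZero k]
    (FF : Set (MvPolynomial (Fin (n + 1)) k)) (h : OrbitsFiniteK FF) : NoRat FF := by
  classical
  by_contra hno
  unfold NoRat at hno
  push Not at hno
  obtain ⟨q, hq, i, j, a, b, hab⟩ := hno
  let sh : Polynomial k →ₐ[k] Polynomial k := Polynomial.aeval (Polynomial.X + Polynomial.C (b - 1))
  let p : Fin (n + 1) → Polynomial k := fun i => sh (q i)
  have hpe : ∀ i (t : k), (p i).eval t = (q i).eval (t + (b - 1)) := by
    intro i t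
    show (Polynomial.aeval (Polynomial.X + Polynomial.C (b - 1)) (q i)).eval t = _
    rw [Polynomial.aeval_def, Polynomial.algebraMap_eq, ← Polynomial.comp, Polynomial.eval_comp,
      Polynomial.eval_add, Polynomial.eval_X, Polynomial.eval_C]
  have hp : ∀ F ∈ FF, aeval p F = 0 := by
    intro F hF
    have h1 := congrArg sh (hq F hF)
    rw [map_zero, MvPolynomial.comp_aeval_apply] at h1
    exact h1
  set N : ℕ := Finset.univ.sup (fun i => (p i).natDegree) + 1 with hN
  have hNc : ∀ i, (p i).natDegree < N := by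
    intro i
    have := Finset.le_sup (f := fun i => (p i).natDegree) (Finset.mem_univ i)
    omega
  let w : Fin N → Fin (n + 1) → k := fun j i => (p i).coeff j
  have hw : cur w (fun j => (j : ℕ)) = p := by
    funext i
    unfold cur
    conv_rhs => rw [(p i).as_sum_range' N (hNc i), Finset.sum_range]
    refine Finset.sum_congr rfl fun j _ => ?_
    rw [Polynomial.C_mul_X_pow_eq_monomial]
  obtain ⟨h5, h6⟩ := curve_orbit' FF 1 w (by rw [hw]; exact hp) ⟨i, j, by
    rw [hw]
    intro heq
    apply hab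
    have h4 := congrArg (Polynomial.eval (a - (b - 1))) heq
    rw [Polynomial.eval_mul, Polynomial.eval_mul, Polynomial.eval_C, Polynomial.eval_C, hpe, hpe,
      hpe, hpe] at h4
    simpa using h4⟩ (by rw [map_one]; exact one_ne_zero)
  have h7 := h N (Multiplicative ℤ) inferInstance (dia k N) (M0 w) (fun _ => 1) h5
  rw [orbitPts_eq (k := k)] at h7
  exact h6 h7

end Pool.Agent.TH717.GO
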